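import Pool.Agent.LAY.F0

/-!
# [LAY-F2] the weights of the two cells at a face cancel

PROOF of `hface`. `D = Del Z` is a triangulation (`TPC.Del_tri2 hG hfin hcov`). Let `t ∈ D`, `m ⊆ t`. `TPC.c1_Del_nb` gives `t' ∈ D`, `t' ≠ t`, `m ⊆ t'`. Write
`m = {p,q,s}` (three distinct points, `Finset.card_eq_three`), `t = m ∪ {d}`, `t' = m ∪ {d'}` (`(t \ m).card = 1`).
Claim `s = {t, t'}` (the Finset variable `S` below): a third cell `t'' = m ∪ {d''}` would have `det3 p q s d'' * det3 p q s d < 0`, `det3 p q s d'' * det3 p q s d' < 0` and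
`det3 p q s d * det3 p q s d' < 0` by `opp_side`: the product of the three is negative but it is the square of the product of the three determinants. So
`∑ = wf t m + wf t' m` (`Finset.sum_pair`), and `wf t m = ½ Σ_{a,b,c ∈ m} wo a b c d` (`t \ m = {d}`), `wf t' m = ½ Σ wo a b c d'`. Termwise
`wo K l a b c d + wo K l a b c d' = 0` for all `a b c ∈ m`: if `a 2 = b 2`, `c 2 ≠ a 2` and `a, b, c` distinct then `{a,b,c} = m` (card 3) and
`det3 a b c d * det3 a b c d' < 0` by `opp_side` for the labelling `a b c`, so the two signs of `(c 2 - a 2) * det3 ..` are opposite (`Real.sign` of two numbers with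
negative product add up to 0); if two of `a, b, c` are equal: `a = b`: `cr a a c = 0`; `c = a` or `c = b`: then `c 2 = a 2`, excluded by the `if`.
-/

set_option autoImplicit false

open MeasureTheory Real
open scoped InnerProductSpace

namespace LAY

open BccCov BccO TPC

private theorem f2_sign (x : ℝ) {D D' : ℝ} (h : D * D' < 0) :
    Real.sign (x * D) + Real.sign (x * D') = 0 := by
  have key : ∀ {x D D' : ℝ}, 0 < D → D' < 0 → Real.sign (x * D) + Real.sign (x * D') = 0 := by
    intro x D D' h1 h2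
    rcases lt_trichotomy x 0 with hx | hx | hx
    · rw [Real.sign_of_neg (mul_neg_of_neg_of_pos hx h1), Real.sign_of_pos (mul_pos_of_neg_of_neg hx h2)]
      norm_num
    · rw [hx, zero_mul, zero_mul, Real.sign_zero, add_zero]
    · rw [Real.sign_of_pos (mul_pos hx h1), Real.sign_of_neg (mul_neg_of_pos_of_neg hx h2)]
      norm_num
  rcases mul_neg_iff.1 h with ⟨h1, h2⟩ | ⟨h1, h2⟩
  · exact key h1 h2
  · rw [add_comm]
    exact key h2 h1

private theorem f2_label {t m : Finset E3} (hmt : m ⊆ t) (hm : m.card = 3) {d : E3}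
    (hd : t \ m = {d}) {a b c : E3} (ha : a ∈ m) (hb : b ∈ m) (hc : c ∈ m) (hab : a ≠ b)
    (hac : a ≠ c) (hbc : b ≠ c) : (t : Set E3) = {a, b, c, d} := by
  classical
  have h1 : ({a, b, c} : Finset E3) = m := by
    refine Finset.eq_of_subset_of_card_le ?_ ?_
    · intro v hv
      rw [Finset.mem_insert, Finset.mem_insert, Finset.mem_singleton] at hv
      rcases hv with h | h | h
      · rw [h]
        exact ha
      · rw [h]
        exact hb
      · rw [h]
        exact hc
    · rw [hm, Finset.card_eq_three.2 ⟨a, b, c, hab, hac, hbc, rfl⟩]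
  ext v
  have h2 : v ∈ t ↔ v ∈ m ∨ v ∈ t \ m := by
    rw [Finset.mem_sdiff]
    constructor
    · intro h
      by_cases h3 : v ∈ m
      · exact Or.inl h3
      · exact Or.inr ⟨h, h3⟩
    · rintro (h | h)
      · exact hmt h
      · exact h.1
  rw [Finset.mem_coe, h2, hd, ← h1]
  simp only [Finset.mem_insert, Finset.mem_singleton, Set.mem_insert_iff, Set.mem_singleton_iff]
  tauto

private theorem f2_term (K l : ℝ → ℝ) {Z : Set E3} {D : Set (Finset E3)} (hT : IsTriangulation Z D)
    {t t' m : Finset E3} (ht : t ∈ D) (ht' : t' ∈ D) (hne : t ≠ t') (hmt : m ⊆ t) (hmt' : m ⊆ t')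
    (hm : m.card = 3) {d d' : E3} (hd : t \ m = {d}) (hd' : t' \ m = {d'}) {a b c : E3}
    (ha : a ∈ m) (hb : b ∈ m) (hc : c ∈ m) : wo K l a b c d + wo K l a b c d' = 0 := by
  unfold wo
  by_cases h : a 2 = b 2 ∧ c 2 ≠ a 2
  · rw [if_pos h, if_pos h]
    by_cases hab : a = b
    · have h1 : cr a b c = 0 := by
        rw [hab]
        unfold cr
        ring
      rw [h1]
      ring
    · have hac : a ≠ c := fun h1 => h.2 (by rw [h1])
      have hbc : b ≠ c := fun h1 => h.2 (by rw [← h1, ← h.1])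
      have h1 := opp_side hT ht ht' hne (f2_label hmt hm hd ha hb hc hab hac hbc)
        (f2_label hmt' hm hd' ha hb hc hab hac hbc)
      have h2 := f2_sign (c 2 - a 2) h1
      have h3 : 1 / 2 * Real.sign ((c 2 - a 2) * det3 a b c d) * cr a b c * Phi K l a b c +
          1 / 2 * Real.sign ((c 2 - a 2) * det3 a b c d') * cr a b c * Phi K l a b c =
          1 / 2 * (Real.sign ((c 2 - a 2) * det3 a b c d) +
            Real.sign ((c 2 - a 2) * det3 a b c d')) * cr a b c * Phi K l a b c := by ring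
      rw [h3, h2]
      ring
  · rw [if_neg h, if_neg h, add_zero]

theorem hface (K l : ℝ → ℝ) {Z : Set E3} (hG : Gen2 Z) (hfin : LF Z)
    (hcov : ∀ p : E3, ∃ x ∈ Z, dist p x ≤ 1) (m : Finset E3) (S : Finset (Finset E3))
    (hm : m.card = 3) (hmD : ∃ t ∈ Del Z, m ⊆ t) (hS : ∀ t, t ∈ S ↔ t ∈ Del Z ∧ m ⊆ t) :
    ∑ t ∈ S, wf K l t m = 0 := by
  classical
  have hT : IsTriangulation Z (Del Z) := (TPC.Del_tri2 hG hfin hcov).1
  have hone : ∀ t ∈ Del Z, m ⊆ t → ∃ d, t \ m = {d} := by
    intro t ht hmt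
    rw [← Finset.card_eq_one, Finset.card_sdiff_of_subset hmt, hT.card_eq t ht, hm]
  obtain ⟨t, ht, hmt⟩ := hmD
  obtain ⟨t', ht', hne, hmt'⟩ := TPC.c1_Del_nb hG hfin hcov ht hmt hm
  obtain ⟨d, hd⟩ := hone t ht hmt
  obtain ⟨d', hd'⟩ := hone t' ht' hmt'
  obtain ⟨p, q, s, hpq, hps, hqs, hpqs⟩ := Finset.card_eq_three.1 hm
  have hp : p ∈ m := by rw [hpqs]; simp
  have hq : q ∈ m := by rw [hpqs]; simp
  have hs : s ∈ m := by rw [hpqs]; simp
  have hSe : S = {t, t'} := by
    ext u
    rw [hS, Finset.mem_insert, Finset.mem_singleton]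
    constructor
    · rintro ⟨hu, hmu⟩
      by_contra hcon
      push Not at hcon
      obtain ⟨du, hdu⟩ := hone u hu hmu
      have e1 := opp_side hT ht ht' hne.symm (f2_label hmt hm hd hp hq hs hpq hps hqs)
        (f2_label hmt' hm hd' hp hq hs hpq hps hqs)
      have e2 := opp_side hT hu ht hcon.1 (f2_label hmu hm hdu hp hq hs hpq hps hqs)
        (f2_label hmt hm hd hp hq hs hpq hps hqs)
      have e3 := opp_side hT hu ht' hcon.2 (f2_label hmu hm hdu hp hq hs hpq hps hqs)
        (f2_label hmt' hm hd' hp hq hs hpq hps hqs)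
      have e4 := mul_neg_of_pos_of_neg (mul_pos_of_neg_of_neg e1 e2) e3
      have e5 : det3 p q s d * det3 p q s d' * (det3 p q s du * det3 p q s d) *
          (det3 p q s du * det3 p q s d') =
          (det3 p q s d * det3 p q s d' * det3 p q s du) ^ 2 := by ring
      rw [e5] at e4
      exact absurd e4 (not_lt.2 (sq_nonneg _))
    · rintro (h | h)
      · rw [h]
        exact ⟨ht, hmt⟩
      · rw [h]
        exact ⟨ht', hmt'⟩
  rw [hSe, Finset.sum_pair hne.symm]
  unfold wf
  rw [hd, hd', Finset.sum_singleton, Finset.sum_singleton, ← add_div, ← Finset.sum_add_distrib]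
  have h0 : ∑ a ∈ m, ((∑ b ∈ m, ∑ c ∈ m, wo K l a b c d) + ∑ b ∈ m, ∑ c ∈ m, wo K l a b c d') = 0 := by
    refine Finset.sum_eq_zero fun a ha => ?_
    rw [← Finset.sum_add_distrib]
    refine Finset.sum_eq_zero fun b hb => ?_
    rw [← Finset.sum_add_distrib]
    refine Finset.sum_eq_zero fun c hc => ?_
    exact f2_term K l hT ht ht' hne.symm hmt hmt' hm hd hd' ha hb hc
  rw [h0, zero_div]

end LAY
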