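import Pool.Agent.LAY.SQ

/-!
# [LAY-F2b] the weights are bounded

PROOF. Let `t ∈ D`-like cell: four points of `Z`, inscribed in a sphere of radius ≤ 1, so all distances in `t` are ≤ 2 and all coordinate differences are ≤ 2 in absolute
value (`abs_coord_le`, `dist x y ≤ dist x o + dist y o ≤ 2`). For `a, b, c ∈ t` with `a 2 = b 2`, `c 2 ≠ a 2`: `h = |c 2 - a 2|` satisfies `1 < H ≤ h ≤ 2` (two different values
of `tt`: `tt` strictly increasing with gaps ≥ H, so the difference of two different values is ≥ H in absolute value), so `0 ≤ K h ≤ 4 l h ≤ 400`, `0 ≤ l h ≤ 100`,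
`|cr a b c| ≤ 2·2+2·2 = 8`, `0 ≤ hd ≤ 8`, `|hi| ≤ 8`, `|Phi| ≤ (2/V0)(2/3 + 100·(4+4+8+8+8) + 250·8) ≤ 6000/V0`, `|Real.sign _| ≤ 1`, so `|wo| ≤ ½·8·6000/V0 = 24000/V0`; otherwise `wo = 0`.
`wf` is half of a sum of at most `4·4·4·4` such terms (crude: `t \ m ⊆ t`, `m ⊆ t`; `Finset.sum_le_card_nsmul` four times): `wf ≤ 128·24000/V0`. Take `C = 128·24000/V0`
(`V0 > 0`); any constant independent of `t`, `m` is fine.
-/

set_option autoImplicit false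

open MeasureTheory Real
open scoped InnerProductSpace

namespace LAY

open BccCov BccO TPC

theorem f2b_V0 : 0 < V0 := by
  unfold V0
  positivity

theorem f2b_num (h k l h1 h2 h3 : ℝ) (hh0 : 0 ≤ h) (hh : h ≤ 2) (hk0 : 0 ≤ k) (hk : k ≤ 400)
    (hl0 : 0 ≤ l) (hl : l ≤ 100) (a1 : |h1| ≤ 8) (a2 : |h2| ≤ 8) (a3 : |h3| ≤ 8) :
    |2 / 3 + (k / 4) * (4 - h ^ 2 - h1 - h2 - h3) + (5 * l / 2) * h3| ≤ 6000 := by
  have b1 := abs_le.1 a1
  have b2 := abs_le.1 a2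
  have b3 := abs_le.1 a3
  have hh2 : h ^ 2 ≤ 4 := by nlinarith
  have hh20 : 0 ≤ h ^ 2 := sq_nonneg h
  have c1 : |4 - h ^ 2 - h1 - h2 - h3| ≤ 32 := abs_le.2 ⟨by linarith, by linarith⟩
  have c2 : |(k / 4) * (4 - h ^ 2 - h1 - h2 - h3)| ≤ 100 * 32 := by
    rw [abs_mul, abs_of_nonneg (by linarith : 0 ≤ k / 4)]
    exact mul_le_mul (by linarith) c1 (abs_nonneg _) (by norm_num)
  have c3 : |(5 * l / 2) * h3| ≤ 250 * 8 := by
    rw [abs_mul, abs_of_nonneg (by linarith : 0 ≤ 5 * l / 2)]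
    exact mul_le_mul (by linarith) a3 (abs_nonneg _) (by norm_num)
  have d2 := abs_le.1 c2
  have d3 := abs_le.1 c3
  exact abs_le.2 ⟨by linarith [d2.1, d3.1], by linarith [d2.2, d3.2]⟩

theorem f2b_mul (x y : ℝ) (hx : |x| ≤ 2) (hy : |y| ≤ 2) : |x * y| ≤ 4 := by
  rw [abs_mul]
  calc |x| * |y| ≤ 2 * 2 := mul_le_mul hx hy (abs_nonneg _) (by norm_num)
    _ = 4 := by norm_num

theorem f2b_add (x y : ℝ) (hx : |x| ≤ 4) (hy : |y| ≤ 4) : |x + y| ≤ 8 :=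
  (abs_add_le x y).trans (by linarith)

theorem f2b_sub (x y : ℝ) (hx : |x| ≤ 4) (hy : |y| ≤ 4) : |x - y| ≤ 8 := by
  rw [sub_eq_add_neg]
  exact f2b_add x (-y) hx (by rw [abs_neg]; exact hy)

theorem f2b_sign (x : ℝ) : |Real.sign x| ≤ 1 := by
  rcases Real.sign_apply_eq x with h | h | h
  · rw [h]; norm_num
  · rw [h]; norm_num
  · rw [h]; norm_num

theorem f2b_wo {K l : ℝ → ℝ} (hKL : KL K l) {Z : Set E3} {tt : ℤ → ℝ} {H : ℝ} (hH : 1 < H)
    (hgap : ∀ k : ℤ, tt k + H ≤ tt (k + 1)) (hZ : Hts Z tt) (t : Finset E3)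
    (hv : ∀ x ∈ t, x ∈ Z) (hd2 : ∀ x ∈ t, ∀ y ∈ t, ∀ i : Fin 3, |x i - y i| ≤ 2)
    (p q s d : E3) (hp : p ∈ t) (hq : q ∈ t) (hs : s ∈ t) :
    wo K l p q s d ≤ 48000 / V0 := by
  have hV := f2b_V0
  have hB0 : 0 ≤ 48000 / V0 := by positivity
  unfold wo
  split_ifs with hc
  · obtain ⟨h1, h2⟩ := hc
    obtain ⟨i, hi'⟩ := hZ s (hv s hs)
    obtain ⟨j, hj⟩ := hZ p (hv p hp)
    have hne : tt i ≠ tt j := by rw [← hi', ← hj]; exact h2
    have hgap' := gap_ne (by linarith : 0 < H) hgap hne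
    rw [← hi', ← hj] at hgap'
    have hh1 : 1 ≤ |s 2 - p 2| := by linarith
    have hh2 : |s 2 - p 2| ≤ 2 := hd2 s hs p hp 2
    have hK0 := hKL.nonneg _ hh1
    have hKl := hKL.le _ hh1
    have hl := hKL.bd _ hh1
    have hcr : |cr p q s| ≤ 8 := f2b_sub _ _ (f2b_mul _ _ (hd2 q hq p hp 0) (hd2 s hs p hp 1))
      (f2b_mul _ _ (hd2 q hq p hp 1) (hd2 s hs p hp 0))
    have hhd : ∀ x ∈ t, ∀ y ∈ t, |hd x y| ≤ 8 := by
      intro x hx y hy
      unfold hd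
      rw [pow_two, pow_two]
      exact f2b_add _ _ (f2b_mul _ _ (hd2 x hx y hy 0) (hd2 x hx y hy 0))
        (f2b_mul _ _ (hd2 x hx y hy 1) (hd2 x hx y hy 1))
    have hhi : |hi p q s| ≤ 8 := f2b_add _ _ (f2b_mul _ _ (hd2 p hp s hs 0) (hd2 q hq s hs 0))
      (f2b_mul _ _ (hd2 p hp s hs 1) (hd2 q hq s hs 1))
    have hnum := f2b_num |s 2 - p 2| (K |s 2 - p 2|) (l |s 2 - p 2|) (hd p s) (hd q s)
      (hi p q s) (abs_nonneg _) hh2 hK0 (by linarith) (by linarith) hl (hhd p hp s hs)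
      (hhd q hq s hs) hhi
    rw [sq_abs] at hnum
    have hPhi : |Phi K l p q s| ≤ 2 / V0 * 6000 := by
      unfold Phi
      rw [abs_mul, abs_div, abs_abs, abs_of_pos hV]
      exact mul_le_mul ((div_le_div_iff_of_pos_right hV).2 hh2) hnum (abs_nonneg _)
        (by positivity)
    refine (le_abs_self _).trans ?_
    rw [abs_mul, abs_mul, abs_mul, abs_of_pos (by norm_num : (0 : ℝ) < 1 / 2)]
    have e1 : 1 / 2 * |Real.sign ((s 2 - p 2) * det3 p q s d)| * |cr p q s| ≤ 1 / 2 * 1 * 8 :=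
      mul_le_mul (mul_le_mul_of_nonneg_left (f2b_sign _) (by norm_num)) hcr (abs_nonneg _)
        (by norm_num)
    calc 1 / 2 * |Real.sign ((s 2 - p 2) * det3 p q s d)| * |cr p q s| * |Phi K l p q s| ≤
        (1 / 2 * 1 * 8) * (2 / V0 * 6000) :=
          mul_le_mul e1 hPhi (abs_nonneg _) (by norm_num)
      _ = 48000 / V0 := by ring
  · exact hB0

theorem wf_bd {K l : ℝ → ℝ} (hKL : KL K l) {Z : Set E3} {tt : ℤ → ℝ} {H : ℝ} (hH : 1 < H)
    (hgap : ∀ k : ℤ, tt k + H ≤ tt (k + 1)) (hZ : Hts Z tt) :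
    ∃ C : ℝ, 0 ≤ C ∧ ∀ t : Finset E3, t.card = 4 → (∀ x ∈ t, x ∈ Z) → Inscribed t 1 →
      ∀ m ∈ t.powersetCard 3, wf K l t m ≤ C := by
  have hV := f2b_V0
  have hB0 : 0 ≤ 48000 / V0 := by positivity
  refine ⟨(4 * (4 * (4 * (4 * (48000 / V0))))) / 2, by positivity, fun t ht hv hI m hm => ?_⟩
  obtain ⟨o, ρ, hρ, hdist⟩ := hI
  have hd2 : ∀ x ∈ t, ∀ y ∈ t, ∀ i : Fin 3, |x i - y i| ≤ 2 := by
    intro x hx y hy i
    have h1 := abs_coord_le x y i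
    have h2 := dist_triangle_right x y o
    rw [hdist x hx, hdist y hy] at h2
    linarith
  obtain ⟨hmt, hmc⟩ := Finset.mem_powersetCard.1 hm
  have hsum : ∀ (S : Finset E3) (F : E3 → ℝ) (b : ℝ), 0 ≤ b → S.card ≤ 4 → (∀ x ∈ S, F x ≤ b) →
      ∑ x ∈ S, F x ≤ 4 * b := by
    intro S F b hb hS hF
    have h1 := Finset.sum_le_card_nsmul S F b hF
    rw [nsmul_eq_mul] at h1
    have h2 : (S.card : ℝ) ≤ 4 := by exact_mod_cast hS
    exact h1.trans (mul_le_mul_of_nonneg_right h2 hb)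
  have hm4 : m.card ≤ 4 := by omega
  have htm4 : (t \ m).card ≤ 4 := (Finset.card_le_card Finset.sdiff_subset).trans ht.le
  unfold wf
  refine (div_le_div_iff_of_pos_right (by norm_num : (0 : ℝ) < 2)).2 ?_
  refine hsum _ _ _ (by positivity) htm4 fun d _ => ?_
  refine hsum _ _ _ (by positivity) hm4 fun p hp => ?_
  refine hsum _ _ _ (by positivity) hm4 fun q hq => ?_
  refine hsum _ _ _ (by positivity) hm4 fun s hs => ?_
  exact f2b_wo hKL hH hgap hZ t hv hd2 p q s d (hmt hp) (hmt hq) (hmt hs)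

end LAY
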