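import Pool.Agent.LAY.Defs

/-!
# [LAY-F3] summation over the cells near a ball (faces instead of edges)

This is `BccO.counting2` (Pool/Agent/MP_bf7174_co/O/R3.lean) with 3-subsets instead of 2-subsets and with a sum of `wt`, and a bound only for cells of `D`; the
solid angle statement is dropped and replaced by: all vertices of `T` are in the ball of radius `R + 4 r`. COPY that proof: `T` = cells with a vertex in the ball of
radius `R + 2r`, split the faces into inner ones (`Q m`: all vertices in the ball of radius `R + 2r`; for them all cells containing `m` are in `T`, so the sum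
over the cells of `T` containing `m` is `≤ 0` by `hface`) and outer ones, which occur only in boundary cells (a vertex outside the ball of radius `R+2r`); a boundary
cell has all vertices in `Y1 \ Y0` (`‖x‖ ≤ R+4r` and `> R`), `inc_card_le`; four faces per cell instead of six edges (`Finset.card_powersetCard`, `Nat.choose 4 3 = 4`).
-/

set_option autoImplicit false

open MeasureTheory Real
open scoped InnerProductSpace

namespace LAY

open BccCov BccO TPC

theorem counting3 {X : Set E3} {D : Set (Finset E3)} {r : ℝ} (hr : 0 < r) (hT : IsTriangulation X D)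
    (hI : ∀ t ∈ D, Inscribed t r) (hfin : LF X)
    {M : ℕ} (hM : ∀ x ∈ X, {t | t ∈ D ∧ x ∈ t}.encard ≤ M)
    (C : ℝ) (hC : 0 ≤ C) (wt : Finset E3 → Finset E3 → ℝ)
    (hwC : ∀ t ∈ D, ∀ m ∈ t.powersetCard 3, wt t m ≤ C)
    (hface : ∀ (m : Finset E3) (s : Finset (Finset E3)), m.card = 3 → (∃ t ∈ D, m ⊆ t) →
      (∀ t, t ∈ s ↔ t ∈ D ∧ m ⊆ t) → ∑ t ∈ s, wt t m ≤ 0) (R : ℝ) :
    ∃ T : Finset (Finset E3), (∀ t ∈ T, t ∈ D) ∧ (∀ t ∈ T, ∀ x ∈ t, ‖x‖ ≤ R + 4 * r) ∧
      (volume (Metric.closedBall (0 : E3) R)).toReal ≤ ∑ t ∈ T, vol t ∧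
      ∑ t ∈ T, ∑ m ∈ t.powersetCard 3, wt t m ≤ 4 * C * M * (NN X (R + 4 * r) - NN X R) := by
  classical
  obtain ⟨hF1, hF2, -, hF4⟩ := finiteness hT hI (fun R => hfin R)
  -- the finite set of tetrahedra
  let T : Finset (Finset E3) := (hF2 (R + 2 * r)).toFinset
  have hTm : ∀ t, t ∈ T ↔ t ∈ D ∧ ∃ x ∈ t, ‖x‖ ≤ R + 2 * r := by
    intro t
    simp only [T, Set.Finite.mem_toFinset, Set.mem_ofPred_eq]
  have hTD : ∀ t ∈ T, t ∈ D := fun t ht => ((hTm t).1 ht).1
  have hdist : ∀ t ∈ D, ∀ x ∈ t, ∀ y ∈ t, ‖x‖ ≤ ‖y‖ + 2 * r := by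
    intro t ht x hx y hy
    have h1 := hF1 t ht x (subset_convexHull ℝ _ (Finset.mem_coe.2 hx)) y
      (subset_convexHull ℝ _ (Finset.mem_coe.2 hy))
    rw [dist_eq_norm] at h1
    have h2 : ‖x‖ ≤ ‖y‖ + ‖x - y‖ := by
      have := norm_add_le y (x - y)
      rwa [add_sub_cancel] at this
    linarith
  -- point sets
  let Y1 : Finset E3 := (hfin (R + 4 * r)).toFinset
  let Y0 : Finset E3 := (hfin R).toFinset
  have hY1m : ∀ x, x ∈ Y1 ↔ x ∈ X ∧ ‖x‖ ≤ R + 4 * r := by
    intro x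
    simp only [Y1, Set.Finite.mem_toFinset, Set.mem_inter_iff, mem_closedBall_zero_iff]
  have hY0m : ∀ x, x ∈ Y0 ↔ x ∈ X ∧ ‖x‖ ≤ R := by
    intro x
    simp only [Y0, Set.Finite.mem_toFinset, Set.mem_inter_iff, mem_closedBall_zero_iff]
  have hN1 : NN X (R + 4 * r) = Y1.card := Set.ncard_eq_toFinset_card _ (hfin (R + 4 * r))
  have hN0 : NN X R = Y0.card := Set.ncard_eq_toFinset_card _ (hfin R)
  have hY01 : Y0 ⊆ Y1 := by
    intro x hx
    rw [hY0m] at hx
    rw [hY1m]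
    exact ⟨hx.1, by linarith [hx.2]⟩
  have hTY1 : ∀ t ∈ T, ∀ x ∈ t, x ∈ Y1 := by
    intro t ht x hx
    obtain ⟨htD, y, hy, hyn⟩ := (hTm t).1 ht
    rw [hY1m]
    exact ⟨hT.vertices t htD x hx, by linarith [hdist t htD x hx y hy]⟩
  -- boundary tetrahedra
  let B : Finset (Finset E3) := T.filter (fun t => ∃ y ∈ t, R + 2 * r < ‖y‖)
  have hBm : ∀ t, t ∈ B ↔ t ∈ T ∧ ∃ y ∈ t, R + 2 * r < ‖y‖ := by
    intro t
    simp only [B, Finset.mem_filter]
  have hcB : B.card ≤ M * (Y1 \ Y0).card := by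
    refine inc_card_le hT hM B (fun t ht => hTD t ((hBm t).1 ht).1) (Y1 \ Y0)
      (fun x hx => ((hY1m x).1 (Finset.mem_sdiff.1 hx).1).1) ?_
    intro t ht x hx
    obtain ⟨htT, y, hy, hyn⟩ := (hBm t).1 ht
    rw [Finset.mem_sdiff]
    refine ⟨hTY1 t htT x hx, fun h0 => ?_⟩
    have h1 := ((hY0m x).1 h0).2
    have h2 := hdist t (hTD t htT) y hy x hx
    linarith
  have hcY : (Y1 \ Y0).card + Y0.card = Y1.card := Finset.card_sdiff_add_card_eq_card hY01
  -- volume
  have hvfin : ∀ t : Finset E3, volume (convexHull ℝ (t : Set E3)) ≠ ⊤ := fun t =>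
    (Set.Finite.isCompact_convexHull ℝ t.finite_toSet).measure_lt_top.ne
  have hV : (volume (Metric.closedBall (0 : E3) R)).toReal ≤ ∑ t ∈ T, vol t := by
    have h1 : Metric.closedBall (0 : E3) R ⊆ ⋃ t ∈ T, convexHull ℝ (t : Set E3) := by
      intro z hz
      have h2 := hF4 R hz
      simp only [Set.mem_iUnion, exists_prop] at h2 ⊢
      obtain ⟨t, ht, hzt⟩ := h2
      exact ⟨t, (hTm t).2 ht, hzt⟩
    have h3 : volume (Metric.closedBall (0 : E3) R)
        ≤ ∑ t ∈ T, volume (convexHull ℝ (t : Set E3)) :=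
      (measure_mono h1).trans (measure_biUnion_finset_le _ _)
    unfold vol
    rw [← ENNReal.toReal_sum fun t _ => hvfin t]
    exact ENNReal.toReal_mono (ENNReal.sum_ne_top.2 fun t _ => hvfin t) h3
  -- splitting
  let Q : Finset E3 → Prop := fun m => ∀ x ∈ m, ‖x‖ ≤ R + 2 * r
  have hsplit : ∑ t ∈ T, ∑ m ∈ t.powersetCard 3, wt t m =
      ∑ t ∈ T, ∑ m ∈ (t.powersetCard 3).filter Q, wt t m +
      ∑ t ∈ T, ∑ m ∈ (t.powersetCard 3).filter (fun m => ¬ Q m), wt t m := by
    rw [← Finset.sum_add_distrib]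
    refine Finset.sum_congr rfl fun t _ => ?_
    rw [Finset.sum_filter_add_sum_filter_not]
  -- inner pairs
  have hin : ∑ t ∈ T, ∑ m ∈ (t.powersetCard 3).filter Q, wt t m ≤ 0 := by
    rw [Finset.sum_comm' (s' := fun m => T.filter (fun t => m ⊆ t))
      (t' := T.biUnion (fun t => (t.powersetCard 3).filter Q)) ?_]
    · refine Finset.sum_nonpos fun m hm => ?_
      rw [Finset.mem_biUnion] at hm
      obtain ⟨t0, ht0, hm0⟩ := hm
      rw [Finset.mem_filter, Finset.mem_powersetCard] at hm0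
      obtain ⟨⟨hmt0, hmc⟩, hmQ⟩ := hm0
      refine hface m _ hmc ⟨t0, hTD t0 ht0, hmt0⟩ fun t => ?_
      rw [Finset.mem_filter]
      refine ⟨fun h => ⟨hTD t h.1, h.2⟩, fun h => ⟨(hTm t).2 ⟨h.1, ?_⟩, h.2⟩⟩
      have hne : m.Nonempty := by
        rw [← Finset.card_pos]; omega
      obtain ⟨x, hx⟩ := hne
      exact ⟨x, h.2 hx, hmQ x hx⟩
    · intro t m
      simp only [Finset.mem_filter, Finset.mem_powersetCard, Finset.mem_biUnion]
      constructor
      · rintro ⟨h1, ⟨h2, h3⟩, h4⟩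
        exact ⟨⟨h1, h2⟩, t, h1, ⟨h2, h3⟩, h4⟩
      · rintro ⟨⟨h1, h2⟩, t', h3, ⟨h4, h5⟩, h6⟩
        exact ⟨h1, ⟨h2, h5⟩, h6⟩
  -- boundary pairs
  have hout : ∑ t ∈ T, ∑ m ∈ (t.powersetCard 3).filter (fun m => ¬ Q m), wt t m
      ≤ B.card * (4 * C) := by
    have h1 : ∀ t ∈ T, ∑ m ∈ (t.powersetCard 3).filter (fun m => ¬ Q m), wt t m
        ≤ if (∃ y ∈ t, R + 2 * r < ‖y‖) then 4 * C else 0 := by
      intro t ht
      split_ifs with hy
      · have h2 : ∑ m ∈ (t.powersetCard 3).filter (fun m => ¬ Q m), wt t m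
            ≤ ∑ m ∈ (t.powersetCard 3).filter (fun m => ¬ Q m), C :=
          Finset.sum_le_sum fun m hm => hwC t (hTD t ht) m (Finset.mem_of_mem_filter m hm)
        refine h2.trans ?_
        rw [Finset.sum_const, nsmul_eq_mul]
        refine mul_le_mul_of_nonneg_right ?_ hC
        have h3 : ((t.powersetCard 3).filter (fun m => ¬ Q m)).card ≤ 4 := by
          refine (Finset.card_filter_le _ _).trans ?_
          rw [Finset.card_powersetCard, hT.card_eq t (hTD t ht)]
          decide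
        exact_mod_cast h3
      · rw [Finset.sum_eq_zero]
        intro m hm
        exfalso
        rw [Finset.mem_filter, Finset.mem_powersetCard] at hm
        apply hm.2
        intro x hx
        by_contra hc
        push Not at hc
        exact hy ⟨x, hm.1.1 hx, hc⟩
    refine (Finset.sum_le_sum h1).trans ?_
    rw [← Finset.sum_filter, Finset.sum_const, nsmul_eq_mul]
  refine ⟨T, hTD, fun t ht x hx => ((hY1m x).1 (hTY1 t ht x hx)).2, hV, ?_⟩
  have e2 : (B.card : ℝ) ≤ M * (NN X (R + 4 * r) - NN X R) := by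
    rw [hN1, hN0]
    have h1 : (B.card : ℝ) ≤ M * ((Y1 \ Y0).card : ℝ) := by exact_mod_cast hcB
    have h2 : ((Y1 \ Y0).card : ℝ) + Y0.card = Y1.card := by exact_mod_cast hcY
    have h3 : ((Y1 \ Y0).card : ℝ) = Y1.card - Y0.card := by linarith
    rw [h3] at h1
    exact h1
  have e4 := mul_le_mul_of_nonneg_right e2 (by positivity : 0 ≤ 4 * C)
  rw [hsplit]
  linarith

end LAY
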