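import Pool.Agent.LAY.H0

/-!
# [LAY-F4a] a direction into a cell of type (3,1)

`dir_in`: `v, u1, u2` of equal height, `u1 0 < v 0 < u2 0` (first coordinates), `a` of another height, not degenerate. PROOF. Let
`λ = u2 0 - v 0 > 0`, `μ = v 0 - u1 0 > 0`; `λ (u1 - v) + μ (u2 - v)` has first coordinate `-λμ + μλ = 0`, third coordinate 0, second coordinate
`c := λ (u1 1 - v 1) + μ (u2 1 - v 1)`. `det3 v u1 u2 a = (a 2 - v 2) * ((u1 0-v 0)(u2 1-v 1) - (u1 1-v 1)(u2 0-v 0)) = -(a 2 - v 2) * c` (ring, heights equal), so `c ≠ 0`,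
`a 2 ≠ v 2`. Put `s1 = sign c`, `s2 = sign (a 2 - v 2)` (`= ±1`). Solve `(0, s1 ε, s2 ε²) = A (u1 - v) + B (u2 - v) + G (a - v)`:
 `G = ε²/|a 2 - v 2|`; the rest `(0 - G (a 0 - v 0), s1 ε - G (a 1 - v 1), 0) = (e0, e1, 0)` with `|e0| ≤ k ε²`, `|e1 - s1 ε| ≤ k ε²`, and by Cramer with
`Δ = (u1 0-v 0)(u2 1-v 1) - (u1 1-v 1)(u2 0-v 0) = -c`: `A = (e0 (u2 1-v 1) - e1 (u2 0 - v 0))/Δ = (e1 λ - e0 (u2 1-v 1))/c`, `B = ((u1 0-v 0) e1 - (u1 1-v 1) e0)/Δ =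
(μ e1 + (u1 1-v 1) e0)/c`. The main terms are `λ s1 ε / c = λ ε/|c| > 0` and `μ ε/|c| > 0`, the errors are `O(ε²)`: so `A, B, G > 0` and `A + B + G < 1` for all small `ε > 0`
(explicit polynomials in ε: `A = ε (A₁ + A₂ ε)`, `B = ε (B₁ + B₂ ε)`, `A₁ = λ/|c|`, `B₁ = μ/|c|`, `G = G₂ ε²`; take
`ε₀ = min 1 (min (A₁/(2(1+|A₂|))) (min (B₁/(2(1+|B₂|))) (1/(2(1+A₁+|A₂|+B₁+|B₂|+G₂)))))`).
The vector identity is checked on the coordinates `Fin 3` (`ext i; fin_cases i; simp [vec]; field_simp; ring`).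
-/

set_option autoImplicit false

open MeasureTheory Real
open scoped InnerProductSpace

namespace LAY

open BccCov BccO TPC

theorem f4a_sign {c : ℝ} (hc : c ≠ 0) : ∃ s : ℝ, (s = 1 ∨ s = -1) ∧ 0 < s / c := by
  rcases lt_or_gt_of_ne hc with h | h
  · exact ⟨-1, Or.inr rfl, div_pos_of_neg_of_neg (by norm_num) h⟩
  · exact ⟨1, Or.inl rfl, div_pos one_pos h⟩

theorem f4a_pos {A1 A2 ε : ℝ} (hA : 0 < A1) (hε : 0 < ε) (h : ε ≤ A1 / (2 * (1 + |A2|))) :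
    0 < A1 + ε * A2 := by
  have h0 : 0 ≤ |A2| := abs_nonneg _
  have h1 : ε * (2 * (1 + |A2|)) ≤ A1 := by
    rwa [le_div_iff₀ (by positivity)] at h
  have h2 : -(ε * |A2|) ≤ ε * A2 := by
    have := mul_le_mul_of_nonneg_left (neg_abs_le A2) hε.le
    linarith
  nlinarith [mul_nonneg hε.le h0]

theorem f4a_real {p0 p1 q0 q1 a0 a1 a2 : ℝ} (hp : p0 < 0) (hq : 0 < q0) (hc : q0 * p1 - p0 * q1 ≠ 0)
    (ha : a2 ≠ 0) : ∃ s1 s2 : ℝ, (s1 = 1 ∨ s1 = -1) ∧ (s2 = 1 ∨ s2 = -1) ∧ ∃ ε₀ : ℝ, 0 < ε₀ ∧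
      ∀ ε : ℝ, 0 < ε → ε ≤ ε₀ → ∃ A B G : ℝ, 0 < A ∧ 0 < B ∧ 0 < G ∧ A + B + G < 1 ∧
        A * p0 + B * q0 + G * a0 = 0 ∧ A * p1 + B * q1 + G * a1 = s1 * ε ∧ G * a2 = s2 * ε ^ 2 := by
  generalize hcd : q0 * p1 - p0 * q1 = c at hc
  obtain ⟨s1, h1, k1⟩ := f4a_sign hc
  obtain ⟨s2, h2, g1⟩ := f4a_sign ha
  refine ⟨s1, s2, h1, h2, ?_⟩
  generalize hk : s1 / c = κ at k1
  generalize hg : s2 / a2 = g at g1
  have hkc : κ * c = s1 := by rw [← hk]; field_simp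
  have hga : g * a2 = s2 := by rw [← hg]; field_simp
  have pA : 0 < κ * q0 := mul_pos k1 hq
  have pB : 0 < κ * (-p0) := mul_pos k1 (by linarith)
  generalize hA2 : g * (a0 * q1 - a1 * q0) / c = A2
  generalize hB2 : g * (a1 * p0 - a0 * p1) / c = B2
  have eA : A2 * c = g * (a0 * q1 - a1 * q0) := by rw [← hA2]; field_simp
  have eB : B2 * c = g * (a1 * p0 - a0 * p1) := by rw [← hB2]; field_simp
  have nA : 0 ≤ |A2| := abs_nonneg _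
  have nB : 0 ≤ |B2| := abs_nonneg _
  have dN : 0 < 2 * (1 + κ * q0 + |A2| + κ * (-p0) + |B2| + g) := by linarith
  refine ⟨min 1 (min (κ * q0 / (2 * (1 + |A2|))) (min (κ * (-p0) / (2 * (1 + |B2|)))
    (1 / (2 * (1 + κ * q0 + |A2| + κ * (-p0) + |B2| + g))))), ?_, ?_⟩
  · refine lt_min one_pos (lt_min ?_ (lt_min ?_ ?_))
    · exact div_pos pA (by linarith)
    · exact div_pos pB (by linarith)
    · exact div_pos one_pos dN
  intro ε e0 e1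
  have m1 : ε ≤ 1 := e1.trans (min_le_left _ _)
  have m2 := e1.trans (min_le_right _ _)
  have m3 := m2.trans (min_le_left _ _)
  have m4 := m2.trans (min_le_right _ _)
  have m5 := m4.trans (min_le_left _ _)
  have m6 := m4.trans (min_le_right _ _)
  have r1 := f4a_pos pA e0 m3
  have r2 := f4a_pos pB e0 m5
  refine ⟨ε * (κ * q0 + ε * A2), ε * (κ * (-p0) + ε * B2), g * ε ^ 2, mul_pos e0 r1, mul_pos e0 r2,
    by positivity, ?_, ?_, ?_, ?_⟩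
  · have m7 : ε * (2 * (1 + κ * q0 + |A2| + κ * (-p0) + |B2| + g)) ≤ 1 := by
      rwa [le_div_iff₀ dN] at m6
    have l1 : ε * A2 ≤ |A2| := by
      calc ε * A2 ≤ ε * |A2| := mul_le_mul_of_nonneg_left (le_abs_self _) e0.le
        _ ≤ 1 * |A2| := mul_le_mul_of_nonneg_right m1 nA
        _ = |A2| := one_mul _
    have l2 : ε * B2 ≤ |B2| := by
      calc ε * B2 ≤ ε * |B2| := mul_le_mul_of_nonneg_left (le_abs_self _) e0.le
        _ ≤ 1 * |B2| := mul_le_mul_of_nonneg_right m1 nB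
        _ = |B2| := one_mul _
    have l3 : g * ε ≤ g := by nlinarith
    have l4 : ε * (κ * q0 + ε * A2) + ε * (κ * (-p0) + ε * B2) + g * ε ^ 2 =
        ε * ((κ * q0 + ε * A2) + (κ * (-p0) + ε * B2) + g * ε) := by ring
    rw [l4]
    have l5 : ε * ((κ * q0 + ε * A2) + (κ * (-p0) + ε * B2) + g * ε) ≤
        ε * (κ * q0 + |A2| + κ * (-p0) + |B2| + g) := mul_le_mul_of_nonneg_left (by linarith) e0.le
    nlinarith
  · have t1 : (ε * (κ * q0 + ε * A2) * p0 + ε * (κ * (-p0) + ε * B2) * q0 + g * ε ^ 2 * a0) * c = 0 := by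
      have : (ε * (κ * q0 + ε * A2) * p0 + ε * (κ * (-p0) + ε * B2) * q0 + g * ε ^ 2 * a0) * c =
          ε ^ 2 * ((A2 * c) * p0 + (B2 * c) * q0 + g * a0 * c) := by ring
      rw [this, eA, eB, ← hcd]; ring
    exact (mul_eq_zero.1 t1).resolve_right hc
  · have t1 : (ε * (κ * q0 + ε * A2) * p1 + ε * (κ * (-p0) + ε * B2) * q1 + g * ε ^ 2 * a1 - s1 * ε) * c = 0 := by
      have : (ε * (κ * q0 + ε * A2) * p1 + ε * (κ * (-p0) + ε * B2) * q1 + g * ε ^ 2 * a1 - s1 * ε) * c =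
          ε * c * (κ * (q0 * p1 - p0 * q1) - s1) + ε ^ 2 * ((A2 * c) * p1 + (B2 * c) * q1 + g * a1 * c) := by ring
      rw [this, eA, eB, hcd, hkc, ← hcd]; ring
    have := (mul_eq_zero.1 t1).resolve_right hc
    linarith
  · rw [← hga]; ring

theorem dir_in {v u1 u2 a : E3} (h1 : u1 2 = v 2) (h2 : u2 2 = v 2) (hx1 : u1 0 < v 0) (hx2 : v 0 < u2 0)
    (hdet : det3 v u1 u2 a ≠ 0) :
    ∃ s1 s2 : ℝ, (s1 = 1 ∨ s1 = -1) ∧ (s2 = 1 ∨ s2 = -1) ∧ ∃ ε₀ : ℝ, 0 < ε₀ ∧ ∀ ε : ℝ, 0 < ε → ε ≤ ε₀ →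
      ∃ A B G : ℝ, 0 < A ∧ 0 < B ∧ 0 < G ∧ A + B + G < 1 ∧
        v + (A • (u1 - v) + B • (u2 - v) + G • (a - v)) = v + vec 0 (s1 * ε) (s2 * ε ^ 2) := by
  have hd : det3 v u1 u2 a = -((a 2 - v 2) * ((u2 0 - v 0) * (u1 1 - v 1) - (u1 0 - v 0) * (u2 1 - v 1))) := by
    unfold det3
    rw [h1, h2]
    ring
  rw [hd] at hdet
  have hdet2 := neg_ne_zero.1 hdet
  obtain ⟨s1, s2, k1, k2, ε₀, k3, k4⟩ := f4a_real (p0 := u1 0 - v 0) (p1 := u1 1 - v 1) (q0 := u2 0 - v 0)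
    (q1 := u2 1 - v 1) (a0 := a 0 - v 0) (a1 := a 1 - v 1) (a2 := a 2 - v 2) (by linarith) (by linarith)
    (right_ne_zero_of_mul hdet2) (left_ne_zero_of_mul hdet2)
  refine ⟨s1, s2, k1, k2, ε₀, k3, fun ε e0 e1 => ?_⟩
  obtain ⟨A, B, G, a1, a2, a3, a4, a5, a6, a7⟩ := k4 ε e0 e1
  refine ⟨A, B, G, a1, a2, a3, a4, ?_⟩
  congr 1
  ext i
  fin_cases i
  · simpa using a5
  · simpa using a6
  · simpa [h1, h2] using a7

end LAY
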