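import Pool.Agent.LAY.Defs

/-!
# [LAY-H0] sequences of heights (done)
-/

set_option autoImplicit false

open MeasureTheory Real
open scoped InnerProductSpace

namespace LAY

open BccCov BccO TPC

/-- the vector `(a, b, c)` -/
noncomputable def vec (a b c : ℝ) : E3 := !₂[a, b, c]

@[simp] theorem vec0 (a b c : ℝ) : vec a b c 0 = a := by simp [vec]
@[simp] theorem vec1 (a b c : ℝ) : vec a b c 1 = b := by simp [vec]
@[simp] theorem vec2 (a b c : ℝ) : vec a b c 2 = c := by simp [vec]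

theorem gap_iter {t : ℤ → ℝ} {H : ℝ} (h : ∀ k : ℤ, t k + H ≤ t (k + 1)) (i j : ℤ) (hij : i ≤ j) :
    t i + H * ((j : ℝ) - i) ≤ t j := by
  induction j, hij using Int.le_induction with
  | base => simp
  | succ n hn ih =>
    have := h n
    push_cast
    linarith

theorem gap_lt {t : ℤ → ℝ} {H : ℝ} (hH : 0 < H) (h : ∀ k : ℤ, t k + H ≤ t (k + 1)) {i j : ℤ}
    (hij : i < j) : t i + H ≤ t j := by
  have h1 := gap_iter h (i + 1) j (by omega)
  have h2 := h i
  have h3 : (0 : ℝ) ≤ (j : ℝ) - ((i + 1 : ℤ) : ℝ) := by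
    have : ((i + 1 : ℤ) : ℝ) ≤ (j : ℝ) := by exact_mod_cast hij
    linarith
  have h4 := mul_nonneg hH.le h3
  linarith

/-- two different heights have distance at least `H` -/
theorem gap_ne {t : ℤ → ℝ} {H : ℝ} (hH : 0 < H) (h : ∀ k : ℤ, t k + H ≤ t (k + 1)) {i j : ℤ}
    (hij : t i ≠ t j) : H ≤ |t i - t j| := by
  rcases lt_trichotomy i j with h1 | h1 | h1
  · have := gap_lt hH h h1
    rw [abs_sub_comm]
    exact le_trans (by linarith) (le_abs_self _)
  · exact absurd (by rw [h1]) hij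
  · have := gap_lt hH h h1
    exact le_trans (by linarith) (le_abs_self _)

/-- the slab containing a height -/
theorem exists_level {t : ℤ → ℝ} {H : ℝ} (hH : 0 < H) (h : ∀ k : ℤ, t k + H ≤ t (k + 1)) (c : ℝ) :
    ∃ k : ℤ, t k ≤ c ∧ c < t (k + 1) := by
  obtain ⟨n, hn⟩ := exists_nat_gt (|c - t 0| / H)
  have hn' : |c - t 0| < H * n := by
    rw [div_lt_iff₀ hH] at hn; linarith
  have hb := abs_lt.1 hn'
  have e1 := gap_iter h 0 (n : ℤ) (by positivity)
  have e2 := gap_iter h (-(n : ℤ)) 0 (by simp)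
  push_cast at e1 e2
  obtain ⟨k, hk1, hk2⟩ := Int.exists_greatest_of_bdd (P := fun k : ℤ => t k ≤ c)
    ⟨(n : ℤ), fun z hz => by
      by_contra hcon
      push Not at hcon
      have := gap_lt hH h hcon
      linarith⟩ ⟨-(n : ℤ), by linarith⟩
  refine ⟨k, hk1, ?_⟩
  by_contra hcon
  push Not at hcon
  have := hk2 (k + 1) hcon
  omega

end LAY
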