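import Pool.Agent.LAY.F0
import Pool.Agent.LAY.H0
import Pool.Agent.LAY.F4a

/-!
# [LAY-F4] at most four cells of type (3,1) per point

`count31`: PROOF. For a cell `t ∈ T` with `Is31 t` the three coplanar vertices have different first coordinates (`hx`, vertices are in `X`, distinct by `BccCov.S.distinct`), let `v` be the
middle one: there are labels `t = {v, u1, u2, a}` (`Set` equality, permutation of the labels of `Is31`) with `u1 0 < v 0 < u2 0`, equal heights, `a 2 ≠ v 2`; `det3 v u1 u2 a ≠ 0`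
(`BccCov.S.det3_ne_zero`); choose (classically) the labels and the signs `(s1, s2)` of `dir_in`. The map
`t ↦ (v, s1, s2)` is injective on the (3,1) cells of `T`: if `t ≠ t'` have the same value then for a small `ε > 0` (below both `ε₀`) the point `v + vec 0 (s1 ε) (s2 ε²)` has positive weights in
`t` and weights `≥ 0` in `t'`, so it is in `convexHull t'` (`v + (A•(u1-v)+B•(u2-v)+G•(a-v))` with `A,B,G ≥ 0`, `A+B+G ≤ 1`: e.g. `BccCov.V.hull_eq`), contradicting `int_disj`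
(`x = v, y = u1, z = u2, w = a`). The image is contained in `Y ×ˢ {1,-1} ×ˢ {1,-1}` (a finset with `4 * Y.card` elements): `Finset.card_le_card_of_injOn`.
`∑ chi = ` the number of (3,1) cells (`Finset.sum_boole`, `chi = if .. then 1 else 0`).
-/

set_option autoImplicit false

open MeasureTheory Real
open scoped InnerProductSpace

namespace LAY

open BccCov BccO TPC

theorem f4_mem {t : Finset E3} {v u1 u2 a : E3} (hl : (t : Set E3) = {v, u1, u2, a}) {A B G : ℝ}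
    (hA : 0 ≤ A) (hB : 0 ≤ B) (hG : 0 ≤ G) (hs : A + B + G ≤ 1) :
    v + (A • (u1 - v) + B • (u2 - v) + G • (a - v)) ∈ convexHull ℝ (t : Set E3) := by
  rw [hl, BccCov.V.hull_eq]
  refine ⟨BccCov.V.LL (u1 - v) (u2 - v) (a - v) (vec A B G), ⟨vec A B G, ⟨?_, ?_, ?_, ?_⟩, rfl⟩, ?_⟩
  · simpa using hA
  · simpa using hB
  · simpa using hG
  · simpa using hs
  · simp [BccCov.V.LL_apply]

/-- from the vertex `v` of the cell `t` the direction `(0, s1 ε, s2 ε²)` goes into the interior -/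
def F4E (t : Finset E3) (v : E3) (s1 s2 : ℝ) : Prop :=
  v ∈ t ∧ (s1 = 1 ∨ s1 = -1) ∧ (s2 = 1 ∨ s2 = -1) ∧ ∃ u1 u2 a : E3, (t : Set E3) = {v, u1, u2, a} ∧
    ∃ ε₀ : ℝ, 0 < ε₀ ∧ ∀ ε : ℝ, 0 < ε → ε ≤ ε₀ → ∃ A B G : ℝ, 0 < A ∧ 0 < B ∧ 0 < G ∧ A + B + G < 1 ∧
      v + (A • (u1 - v) + B • (u2 - v) + G • (a - v)) = v + vec 0 (s1 * ε) (s2 * ε ^ 2)

theorem f4_inj {X : Set E3} {D : Set (Finset E3)} (hT : IsTriangulation X D) {t t' : Finset E3} (ht : t ∈ D)
    (ht' : t' ∈ D) {v : E3} {s1 s2 : ℝ} (h : F4E t v s1 s2) (h' : F4E t' v s1 s2) : t = t' := by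
  by_contra hne
  obtain ⟨-, -, -, u1, u2, a, hl, e0, he0, hε⟩ := h
  obtain ⟨-, -, -, u1', u2', a', hl', e0', he0', hε'⟩ := h'
  obtain ⟨A, B, G, p1, p2, p3, p4, p5⟩ := hε (min e0 e0') (lt_min he0 he0') (min_le_left _ _)
  obtain ⟨A', B', G', q1, q2, q3, q4, q5⟩ := hε' (min e0 e0') (lt_min he0 he0') (min_le_right _ _)
  have h1 := int_disj hT ht ht' hne hl p1 p2 p3 p4
  rw [p5, ← q5] at h1
  exact h1 (f4_mem hl' q1.le q2.le q3.le q4.le)

theorem f4_key {X : Set E3} {D : Set (Finset E3)} (hT : IsTriangulation X D) {t : Finset E3} (ht : t ∈ D)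
    {v u1 u2 a : E3} (hl : (t : Set E3) = {v, u1, u2, a}) (h1 : u1 2 = v 2) (h2 : u2 2 = v 2)
    (hx1 : u1 0 < v 0) (hx2 : v 0 < u2 0) : ∃ v s1 s2, F4E t v s1 s2 := by
  have hd := BccCov.S.det3_ne_zero v u1 u2 a t (hT.card_eq t ht) hl (hT.indep t ht)
  obtain ⟨s1, s2, k1, k2, ε₀, k3, k4⟩ := dir_in h1 h2 hx1 hx2 hd
  refine ⟨v, s1, s2, ?_, k1, k2, u1, u2, a, hl, ε₀, k3, k4⟩
  rw [← Finset.mem_coe, hl]
  simp

theorem f4_ex {X : Set E3} {D : Set (Finset E3)} (hT : IsTriangulation X D)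
    (hx : ∀ x ∈ X, ∀ y ∈ X, x ≠ y → x 0 ≠ y 0) {t : Finset E3} (ht : t ∈ D) (h : Is31 t) :
    ∃ v s1 s2, F4E t v s1 s2 := by
  obtain ⟨p, q, s, d, hl, h1, h2, -⟩ := h
  obtain ⟨n1, n2, -, n4, -, -⟩ := BccCov.S.distinct (hT.card_eq t ht) hl
  have hv := hT.vertices t ht
  have mp : p ∈ X := hv p (by rw [← Finset.mem_coe, hl]; simp)
  have mq : q ∈ X := hv q (by rw [← Finset.mem_coe, hl]; simp)
  have ms : s ∈ X := hv s (by rw [← Finset.mem_coe, hl]; simp)
  have x1 := hx p mp q mq n1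
  have x2 := hx p mp s ms n2
  have x3 := hx q mq s ms n4
  have l2 : (t : Set E3) = {p, s, q, d} := by
    rw [hl]; ext z; simp only [Set.mem_insert_iff, Set.mem_singleton_iff]; tauto
  have l3 : (t : Set E3) = {q, p, s, d} := by
    rw [hl]; ext z; simp only [Set.mem_insert_iff, Set.mem_singleton_iff]; tauto
  have l4 : (t : Set E3) = {q, s, p, d} := by
    rw [hl]; ext z; simp only [Set.mem_insert_iff, Set.mem_singleton_iff]; tauto
  have l5 : (t : Set E3) = {s, p, q, d} := by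
    rw [hl]; ext z; simp only [Set.mem_insert_iff, Set.mem_singleton_iff]; tauto
  have l6 : (t : Set E3) = {s, q, p, d} := by
    rw [hl]; ext z; simp only [Set.mem_insert_iff, Set.mem_singleton_iff]; tauto
  rcases lt_or_gt_of_ne x1 with y1 | y1
  · rcases lt_or_gt_of_ne x2 with y2 | y2
    · rcases lt_or_gt_of_ne x3 with y3 | y3
      · exact f4_key hT ht l3 h1 (h2.symm.trans h1) y1 y3
      · exact f4_key hT ht l5 h2 (h1.symm.trans h2) y2 y3
    · exact f4_key hT ht l2 h2.symm h1.symm y2 y1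
  · rcases lt_or_gt_of_ne x2 with y2 | y2
    · exact f4_key hT ht hl h1.symm h2.symm y1 y2
    · rcases lt_or_gt_of_ne x3 with y3 | y3
      · exact f4_key hT ht l6 (h1.symm.trans h2) h2 y3 y2
      · exact f4_key hT ht l4 (h2.symm.trans h1) h1 y3 y1

theorem count31 {X : Set E3} {D : Set (Finset E3)} (hT : IsTriangulation X D)
    (hx : ∀ x ∈ X, ∀ y ∈ X, x ≠ y → x 0 ≠ y 0) (T : Finset (Finset E3)) (hTD : ∀ t ∈ T, t ∈ D)
    (Y : Finset E3) (hTY : ∀ t ∈ T, ∀ x ∈ t, x ∈ Y) : ∑ t ∈ T, chi t ≤ 4 * (Y.card : ℝ) := by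
  classical
  have h1 : ∑ t ∈ T, chi t = ((T.filter fun t => Is31 t).card : ℝ) := by
    rw [← Finset.sum_boole]
    refine Finset.sum_congr rfl fun t _ => ?_
    unfold chi
    split_ifs <;> rfl
  rw [h1]
  have h2 : ∀ t ∈ T.filter fun t => Is31 t, ∃ w : E3 × ℝ × ℝ, F4E t w.1 w.2.1 w.2.2 := by
    intro t ht
    obtain ⟨g1, g2⟩ := Finset.mem_filter.1 ht
    obtain ⟨v, s1, s2, h⟩ := f4_ex hT hx (hTD t g1) g2
    exact ⟨(v, s1, s2), h⟩
  choose! f hf using h2
  have h3 : (T.filter fun t => Is31 t).card ≤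
      (Y ×ˢ (({1, -1} : Finset ℝ) ×ˢ ({1, -1} : Finset ℝ))).card := by
    refine Finset.card_le_card_of_injOn f (fun t ht => ?_) (fun t ht t' ht' he => ?_)
    · have g1 := (Finset.mem_filter.1 (Finset.mem_coe.1 ht)).1
      obtain ⟨k1, k2, k3, -⟩ := hf t (Finset.mem_coe.1 ht)
      rw [Finset.mem_coe, Finset.mem_product, Finset.mem_product]
      refine ⟨hTY t g1 _ k1, ?_, ?_⟩
      · simpa using k2
      · simpa using k3
    · have g1 := (Finset.mem_filter.1 (Finset.mem_coe.1 ht)).1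
      have g2 := (Finset.mem_filter.1 (Finset.mem_coe.1 ht')).1
      have k1 := hf t (Finset.mem_coe.1 ht)
      have k2 := hf t' (Finset.mem_coe.1 ht')
      rw [← he] at k2
      exact f4_inj hT (hTD t g1) (hTD t' g2) k1 k2
  rw [Finset.card_product, Finset.card_product] at h3
  have h4 : (({1, -1} : Finset ℝ)).card ≤ 2 := Finset.card_le_two
  have h5 : (T.filter fun t => Is31 t).card ≤ 4 * Y.card := by
    calc (T.filter fun t => Is31 t).card ≤ Y.card * ((({1, -1} : Finset ℝ)).card * (({1, -1} : Finset ℝ)).card) := h3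
      _ ≤ Y.card * (2 * 2) := Nat.mul_le_mul le_rfl (Nat.mul_le_mul h4 h4)
      _ = 4 * Y.card := by ring
  exact_mod_cast h5

end LAY
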