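import Pool.Agent.LAY.T3
import Pool.Agent.LAY.F2
import Pool.Agent.LAY.F2b
import Pool.Agent.LAY.F3
import Pool.Agent.LAY.F4

/-!
# [LAY-A1] the counting inequality for generic layered coverings
-/

set_option autoImplicit false

open MeasureTheory Real
open scoped InnerProductSpace

namespace LAY

open BccCov BccO TPC

theorem core_count {K l : ℝ → ℝ} (hKL : KL K l) {Z : Set E3} {tt : ℤ → ℝ} {H : ℝ} (hH : 1 < H)
    (hgap : ∀ k : ℤ, tt k + H ≤ tt (k + 1)) (hZ : Hts Z tt) (hG : Gen2 Z) (hfin : LF Z)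
    (hcov : ∀ p : E3, ∃ x ∈ Z, dist p x ≤ 1) (hx : ∀ x ∈ Z, ∀ y ∈ Z, x ≠ y → x 0 ≠ y 0)
    {s : ℝ} (hs : 0 < s) (hsep : ∀ x ∈ Z, ∀ y ∈ Z, x ≠ y → 2 * s ≤ dist x y) :
    ∃ B : ℝ, 0 ≤ B ∧ ∀ R : ℝ, 0 ≤ R →
      4 / 3 * π * R ^ 3 ≤ V0 * NN Z (R + 4) + B * (NN Z (R + 4) - NN Z R) := by
  classical
  have hV0 := V0_pos
  obtain ⟨hT, hI⟩ := Del_tri2 hG hfin hcov
  obtain ⟨M, hM⟩ := star_bound hT hI zero_le_one hfin hs hsep
  obtain ⟨C, hC, hwC⟩ := wf_bd hKL hH hgap hZ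
  refine ⟨V0 * C * M, by positivity, fun R hR => ?_⟩
  obtain ⟨T, hTD, hTv, hV, hW⟩ := counting3 one_pos hT hI hfin hM C hC (wf K l)
    (fun t ht m hm => hwC t (hT.card_eq t ht) (hT.vertices t ht) (hI t ht) m hm)
    (fun m s hm hmD hs => (hface K l hG hfin hcov m s hm hmD hs).le) R
  have hL : ∑ t ∈ T, 4 / V0 * vol t ≤ ∑ t ∈ T, (chi t + ∑ f ∈ t.powersetCard 3, wf K l t f) :=
    Finset.sum_le_sum fun t ht => L_ineq hKL hH hgap hZ (hT.card_eq t (hTD t ht))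
      (hT.indep t (hTD t ht)) (hT.vertices t (hTD t ht)) (hI t (hTD t ht))
  rw [← Finset.mul_sum, Finset.sum_add_distrib] at hL
  set Y : Finset E3 := (hfin (R + 4)).toFinset with hY
  have hYc : (Y.card : ℝ) = NN Z (R + 4) := by
    rw [NN, Set.ncard_eq_toFinset_card _ (hfin (R + 4))]
  have hch := count31 hT hx T hTD Y (by
    intro t ht x hxt
    rw [hY, Set.Finite.mem_toFinset]
    refine ⟨hT.vertices t (hTD t ht) x hxt, ?_⟩
    rw [mem_closedBall_zero_iff]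
    have := hTv t ht x hxt
    linarith)
  rw [hYc] at hch
  have hvol : (volume (Metric.closedBall (0 : E3) R)).toReal = 4 / 3 * π * R ^ 3 := by
    rw [EuclideanSpace.volume_closedBall_fin_three, ← ENNReal.ofReal_pow hR,
      ← ENNReal.ofReal_mul (by positivity), ENNReal.toReal_ofReal (by positivity)]
    ring
  rw [hvol] at hV
  simp only [mul_one] at hW
  have h1 : 4 / V0 * (4 / 3 * π * R ^ 3) ≤ 4 * NN Z (R + 4) +
      4 * C * M * (NN Z (R + 4) - NN Z R) := by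
    have h2 := mul_le_mul_of_nonneg_left hV (by positivity : 0 ≤ 4 / V0)
    linarith
  have h3 := mul_le_mul_of_nonneg_left h1 (by positivity : 0 ≤ V0 / 4)
  have e1 : V0 / 4 * (4 / V0 * (4 / 3 * π * R ^ 3)) = 4 / 3 * π * R ^ 3 := by
    field_simp
  rw [e1] at h3
  linarith

end LAY
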