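import Pool.Agent.LAY.H0

/-!
# [LAY-G2c] spheres through three or four points

`coc` (circle lemma): `x, y, z` are distinct and on the sphere `(o, ρ)`, `w` is on that sphere too and `det3 x y z w = 0`; then `w` is on EVERY sphere `(o', ρ')` through `x, y, z`.
PROOF. `v := o - o'`; `⟪v, y - x⟫ = 0 = ⟪v, z - x⟫` (subtract the equations `|y-o|² = |x-o|²`, `|y-o'|² = |x-o'|²`; coordinates: `BccCov.LP.dist_sq`, `BccCov.LP.lin_of`). `n := nrmv x y z = (y-x) × (z-x)`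
(`BccO.nrmv`); `n ≠ 0`: otherwise `y-x`, `z-x` are parallel, `z - x = λ(y - x)` with `|y-o|=|x-o|=|z-o|`, so `λ(λ-1)|y-x|² = 0` and `z = x` or `z = y`, contradiction. Identity (coordinates, ring):
for `a = y-x`, `b = z-x`, `n = a × b`, `e = w-x`: `|n|² (e·v) = (e·(b×n))(a·v) + (e·(n×a))(b·v) + (e·n)(n·v)`, all three terms vanish (`e·n = det3 x y z w = 0`, `BccO.nrmv_det`), so `e·v = 0`.
`|w-o'|² - |x-o'|² = |w-o|² - |x-o|² + 2 (w-x)·(o-o') = 0`. So `dist w o' = dist x o' = ρ'` (both `≥ 0`).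
`sph_unique`: `det3 x y z w ≠ 0` and all four points are on `(o, ρ)` and on `(o', ρ')`: then `o = o'` and `ρ = ρ'` (`BccCov.LP.cc_eq` twice, or: `v = o-o'` is orthogonal to three independent
vectors).
-/

set_option autoImplicit false

open MeasureTheory Real
open scoped InnerProductSpace

namespace LAY

open BccCov BccO TPC

theorem g2c_sq {x o : E3} {ρ : ℝ} (h : dist x o = ρ) :
    (x 0 - o 0) ^ 2 + (x 1 - o 1) ^ 2 + (x 2 - o 2) ^ 2 = ρ ^ 2 := by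
  rw [← LP.dist_sq, h]

theorem g2c_ext {x y : E3} (h0 : x 0 = y 0) (h1 : x 1 = y 1) (h2 : x 2 = y 2) : x = y := by
  ext i
  fin_cases i
  · exact h0
  · exact h1
  · exact h2

theorem g2c_zero {a b c : ℝ} (h : a ^ 2 + b ^ 2 + c ^ 2 = 0) : a = 0 ∧ b = 0 ∧ c = 0 := by
  have h1 := sq_nonneg a
  have h2 := sq_nonneg b
  have h3 := sq_nonneg c
  exact ⟨pow_eq_zero_iff (two_ne_zero) |>.1 (by linarith),
    pow_eq_zero_iff (two_ne_zero) |>.1 (by linarith),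
    pow_eq_zero_iff (two_ne_zero) |>.1 (by linarith)⟩

theorem coc {x y z w o o' : E3} {ρ ρ' : ℝ} (hxy : x ≠ y) (hxz : x ≠ z) (hyz : y ≠ z)
    (h1 : dist x o = ρ) (h2 : dist y o = ρ) (h3 : dist z o = ρ) (h4 : dist w o = ρ)
    (hdet : det3 x y z w = 0) (g1 : dist x o' = ρ') (g2 : dist y o' = ρ') (g3 : dist z o' = ρ') :
    dist w o' = ρ' := by
  have q1 := g2c_sq h1
  have q2 := g2c_sq h2
  have q3 := g2c_sq h3
  have q4 := g2c_sq h4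
  have p1 := g2c_sq g1
  have p2 := g2c_sq g2
  have p3 := g2c_sq g3
  rw [det3] at hdet
  have av : (y 0 - x 0) * (o 0 - o' 0) + (y 1 - x 1) * (o 1 - o' 1) + (y 2 - x 2) * (o 2 - o' 2)
      = 0 := by linear_combination (-(q2 - q1 - (p2 - p1))) / 2
  have bv : (z 0 - x 0) * (o 0 - o' 0) + (z 1 - x 1) * (o 1 - o' 1) + (z 2 - x 2) * (o 2 - o' 2)
      = 0 := by linear_combination (-(q3 - q1 - (p3 - p1))) / 2
  obtain ⟨a0, ha0⟩ : ∃ c, c = y 0 - x 0 := ⟨_, rfl⟩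
  obtain ⟨a1, ha1⟩ : ∃ c, c = y 1 - x 1 := ⟨_, rfl⟩
  obtain ⟨a2, ha2⟩ : ∃ c, c = y 2 - x 2 := ⟨_, rfl⟩
  obtain ⟨b0, hb0⟩ : ∃ c, c = z 0 - x 0 := ⟨_, rfl⟩
  obtain ⟨b1, hb1⟩ : ∃ c, c = z 1 - x 1 := ⟨_, rfl⟩
  obtain ⟨b2, hb2⟩ : ∃ c, c = z 2 - x 2 := ⟨_, rfl⟩
  obtain ⟨e0, he0⟩ : ∃ c, c = w 0 - x 0 := ⟨_, rfl⟩
  obtain ⟨e1, he1⟩ : ∃ c, c = w 1 - x 1 := ⟨_, rfl⟩
  obtain ⟨e2, he2⟩ : ∃ c, c = w 2 - x 2 := ⟨_, rfl⟩
  obtain ⟨v0, hv0⟩ : ∃ c, c = o 0 - o' 0 := ⟨_, rfl⟩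
  obtain ⟨v1, hv1⟩ : ∃ c, c = o 1 - o' 1 := ⟨_, rfl⟩
  obtain ⟨v2, hv2⟩ : ∃ c, c = o 2 - o' 2 := ⟨_, rfl⟩
  obtain ⟨m0, hm0⟩ : ∃ c, c = x 0 - o 0 := ⟨_, rfl⟩
  obtain ⟨m1, hm1⟩ : ∃ c, c = x 1 - o 1 := ⟨_, rfl⟩
  obtain ⟨m2, hm2⟩ : ∃ c, c = x 2 - o 2 := ⟨_, rfl⟩
  rw [← ha0, ← ha1, ← ha2, ← hv0, ← hv1, ← hv2] at av
  rw [← hb0, ← hb1, ← hb2, ← hv0, ← hv1, ← hv2] at bv
  rw [← ha0, ← ha1, ← ha2, ← hb0, ← hb1, ← hb2, ← he0, ← he1, ← he2] at hdet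
  have am : a0 ^ 2 + a1 ^ 2 + a2 ^ 2 + 2 * (a0 * m0 + a1 * m1 + a2 * m2) = 0 := by
    rw [ha0, ha1, ha2, hm0, hm1, hm2]
    linear_combination q2 - q1
  have bm : b0 ^ 2 + b1 ^ 2 + b2 ^ 2 + 2 * (b0 * m0 + b1 * m1 + b2 * m2) = 0 := by
    rw [hb0, hb1, hb2, hm0, hm1, hm2]
    linear_combination q3 - q1
  -- the normal vector
  have hn : (a1 * b2 - a2 * b1) ^ 2 + (a2 * b0 - a0 * b2) ^ 2 + (a0 * b1 - a1 * b0) ^ 2 ≠ 0 := by
    intro hn0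
    obtain ⟨n0, n1, n2⟩ := g2c_zero hn0
    have ha : a0 ^ 2 + a1 ^ 2 + a2 ^ 2 ≠ 0 := by
      intro h
      obtain ⟨c0, c1, c2⟩ := g2c_zero h
      exact hxy (g2c_ext (by linarith) (by linarith) (by linarith))
    have hb : b0 ^ 2 + b1 ^ 2 + b2 ^ 2 ≠ 0 := by
      intro h
      obtain ⟨c0, c1, c2⟩ := g2c_zero h
      exact hxz (g2c_ext (by linarith) (by linarith) (by linarith))
    -- `|a|² (b·m) = (a·b) (a·m)`
    have e1 : (a0 ^ 2 + a1 ^ 2 + a2 ^ 2) * (b0 * m0 + b1 * m1 + b2 * m2) =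
        (a0 * b0 + a1 * b1 + a2 * b2) * (a0 * m0 + a1 * m1 + a2 * m2) := by
      linear_combination (a1 * m2 - a2 * m1) * n0 + (a2 * m0 - a0 * m2) * n1
        + (a0 * m1 - a1 * m0) * n2
    have e2 : (b0 ^ 2 + b1 ^ 2 + b2 ^ 2) * (a0 * m0 + a1 * m1 + a2 * m2) =
        (a0 * b0 + a1 * b1 + a2 * b2) * (b0 * m0 + b1 * m1 + b2 * m2) := by
      linear_combination (-(b1 * m2 - b2 * m1)) * n0 - (b2 * m0 - b0 * m2) * n1
        - (b0 * m1 - b1 * m0) * n2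
    have f1 : b0 ^ 2 + b1 ^ 2 + b2 ^ 2 = a0 * b0 + a1 * b1 + a2 * b2 := by
      refine mul_left_cancel₀ ha ?_
      linear_combination (-2) * e1 + (a0 ^ 2 + a1 ^ 2 + a2 ^ 2) * bm
        - (a0 * b0 + a1 * b1 + a2 * b2) * am
    have f2 : a0 ^ 2 + a1 ^ 2 + a2 ^ 2 = a0 * b0 + a1 * b1 + a2 * b2 := by
      refine mul_left_cancel₀ hb ?_
      linear_combination (-2) * e2 + (b0 ^ 2 + b1 ^ 2 + b2 ^ 2) * am
        - (a0 * b0 + a1 * b1 + a2 * b2) * bm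
    have hab : (a0 - b0) ^ 2 + (a1 - b1) ^ 2 + (a2 - b2) ^ 2 = 0 := by
      linear_combination f1 + f2
    obtain ⟨c0, c1, c2⟩ := g2c_zero hab
    exact hyz (g2c_ext (by linarith) (by linarith) (by linarith))
  have ev : e0 * v0 + e1 * v1 + e2 * v2 = 0 := by
    refine mul_left_cancel₀ hn ?_
    rw [mul_zero]
    linear_combination
      (e0 * (b1 * (a0 * b1 - a1 * b0) - b2 * (a2 * b0 - a0 * b2))
        + e1 * (b2 * (a1 * b2 - a2 * b1) - b0 * (a0 * b1 - a1 * b0))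
        + e2 * (b0 * (a2 * b0 - a0 * b2) - b1 * (a1 * b2 - a2 * b1))) * av
      + (e0 * ((a2 * b0 - a0 * b2) * a2 - (a0 * b1 - a1 * b0) * a1)
        + e1 * ((a0 * b1 - a1 * b0) * a0 - (a1 * b2 - a2 * b1) * a2)
        + e2 * ((a1 * b2 - a2 * b1) * a1 - (a2 * b0 - a0 * b2) * a0)) * bv
      + ((a1 * b2 - a2 * b1) * v0 + (a2 * b0 - a0 * b2) * v1 + (a0 * b1 - a1 * b0) * v2) * hdet
  have hsq : dist w o' ^ 2 = ρ' ^ 2 := by
    rw [LP.dist_sq, ← p1]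
    rw [he0, he1, he2, hv0, hv1, hv2] at ev
    linear_combination q4 - q1 + 2 * ev
  have hρ' : 0 ≤ ρ' := g1 ▸ dist_nonneg
  exact (pow_left_inj₀ dist_nonneg hρ' two_ne_zero).1 hsq

theorem sph_unique {x y z w o o' : E3} {ρ ρ' : ℝ} (h1 : dist x o = ρ) (h2 : dist y o = ρ)
    (h3 : dist z o = ρ) (h4 : dist w o = ρ) (hdet : det3 x y z w ≠ 0) (g1 : dist x o' = ρ')
    (g2 : dist y o' = ρ') (g3 : dist z o' = ρ') (g4 : dist w o' = ρ') : o = o' ∧ ρ = ρ' := by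
  have e1 : LP.cc ![x, y, z, w] = o := by
    refine LP.cc_eq ![x, y, z, w] o ρ ?_ hdet
    intro j
    fin_cases j
    · exact h1
    · exact h2
    · exact h3
    · exact h4
  have e2 : LP.cc ![x, y, z, w] = o' := by
    refine LP.cc_eq ![x, y, z, w] o' ρ' ?_ hdet
    intro j
    fin_cases j
    · exact g1
    · exact g2
    · exact g3
    · exact g4
  have e3 : o = o' := e1.symm.trans e2
  refine ⟨e3, ?_⟩
  rw [← h1, ← g1, e3]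

end LAY
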