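import Pool.Agent.LAY.G2a
import Pool.Agent.LAY.G2c

/-!
# [LAY-G2b] generic perturbation inside the horizontal planes

`exists_gen_layer`: PROOF. As `BccO.exists_seq` and `BccO.exists_gen` in Pool/Agent/MP_bf7174_co/O/Q3.lean, with the finite sets of `avoid` (G2a) in the place of the null sets. For a finset `A` of
points let `SB A : Finset (E3 × ℝ)` consist of one chosen sphere through `x, y, z` for all `x,y,z ∈ A` (if there is a sphere through them, else `(0,-1)`) and of one chosen sphere through `x,y,z,w`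
for all `x,y,z,w ∈ A` (same convention), both classical choices (images of `A ×ˢ A ×ˢ A`, `A ×ˢ A ×ˢ A ×ˢ A`). Recursively (strong recursion on ℕ, or a recursion producing the finset `A n`
of the first `n` points together with the next point, as in `BccO.exists_seq`) choose `q n` by `avoid (p n) hδ (SB {q m | m < n}) {(q m) 0 | m < n}`. Then `q m 0 ≠ q n 0` for `m ≠ n`, so `q` is injective.
Gen2.plane: let four distinct points of the range be on a sphere `(o, ρ)` and `det3 x y z w = 0`; `det3 = 0` is invariant under permutations of the four points (`BccO.cycl`, ring), so let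
`w = q n` have the largest index; the other three are in `{q m | m < n}`; the chosen sphere `(o', ρ')` through `x, y, z` exists and `w` is on it by `coc` (G2c): contradiction with the choice of `q n`.
Gen2.sphere: if `s` has at least five points of the range on the sphere `(o, ρ)`, take five of them, let `w = q n` have the largest index, `x, y, z, u` the other four: `det3 x y z u ≠ 0` by Gen2.plane
(already proved), so the chosen sphere through `x, y, z, u` is `(o, ρ)` (`sph_unique`), and `w` is on it: contradiction.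
-/

set_option autoImplicit false

open MeasureTheory Real
open scoped InnerProductSpace

namespace LAY

open BccCov BccO TPC

open Classical in
/-- a sphere through three points -/
noncomputable def g2b_sp3 (t : E3 × E3 × E3) : E3 × ℝ :=
  if h : ∃ s : E3 × ℝ, dist t.1 s.1 = s.2 ∧ dist t.2.1 s.1 = s.2 ∧ dist t.2.2 s.1 = s.2 then
    h.choose else (0, -1)

open Classical in
/-- a sphere through four points -/
noncomputable def g2b_sp4 (t : E3 × E3 × E3 × E3) : E3 × ℝ :=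
  if h : ∃ s : E3 × ℝ, dist t.1 s.1 = s.2 ∧ dist t.2.1 s.1 = s.2 ∧ dist t.2.2.1 s.1 = s.2 ∧
      dist t.2.2.2 s.1 = s.2 then
    h.choose else (0, -1)

theorem g2b_sp3_spec {x y z o : E3} {ρ : ℝ} (h1 : dist x o = ρ) (h2 : dist y o = ρ)
    (h3 : dist z o = ρ) : dist x (g2b_sp3 (x, y, z)).1 = (g2b_sp3 (x, y, z)).2 ∧
      dist y (g2b_sp3 (x, y, z)).1 = (g2b_sp3 (x, y, z)).2 ∧
      dist z (g2b_sp3 (x, y, z)).1 = (g2b_sp3 (x, y, z)).2 := by
  have h : ∃ s : E3 × ℝ, dist x s.1 = s.2 ∧ dist y s.1 = s.2 ∧ dist z s.1 = s.2 :=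
    ⟨(o, ρ), h1, h2, h3⟩
  have e : g2b_sp3 (x, y, z) = h.choose := by
    unfold g2b_sp3
    rw [dif_pos h]
  rw [e]
  exact h.choose_spec

theorem g2b_sp4_spec {x y z w o : E3} {ρ : ℝ} (h1 : dist x o = ρ) (h2 : dist y o = ρ)
    (h3 : dist z o = ρ) (h4 : dist w o = ρ) :
      dist x (g2b_sp4 (x, y, z, w)).1 = (g2b_sp4 (x, y, z, w)).2 ∧
      dist y (g2b_sp4 (x, y, z, w)).1 = (g2b_sp4 (x, y, z, w)).2 ∧
      dist z (g2b_sp4 (x, y, z, w)).1 = (g2b_sp4 (x, y, z, w)).2 ∧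
      dist w (g2b_sp4 (x, y, z, w)).1 = (g2b_sp4 (x, y, z, w)).2 := by
  have h : ∃ s : E3 × ℝ, dist x s.1 = s.2 ∧ dist y s.1 = s.2 ∧ dist z s.1 = s.2 ∧
      dist w s.1 = s.2 := ⟨(o, ρ), h1, h2, h3, h4⟩
  have e : g2b_sp4 (x, y, z, w) = h.choose := by
    unfold g2b_sp4
    rw [dif_pos h]
  rw [e]
  exact h.choose_spec

open Classical in
/-- the spheres to be avoided -/
noncomputable def g2b_SB (A : Finset E3) : Finset (E3 × ℝ) :=
  (A ×ˢ A ×ˢ A).image g2b_sp3 ∪ (A ×ˢ A ×ˢ A ×ˢ A).image g2b_sp4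

theorem g2b_mem3 {A : Finset E3} {x y z : E3} (hx : x ∈ A) (hy : y ∈ A) (hz : z ∈ A) :
    g2b_sp3 (x, y, z) ∈ g2b_SB A := by
  classical
  unfold g2b_SB
  refine Finset.mem_union_left _ (Finset.mem_image_of_mem _ ?_)
  exact Finset.mem_product.2 ⟨hx, Finset.mem_product.2 ⟨hy, hz⟩⟩

theorem g2b_mem4 {A : Finset E3} {x y z w : E3} (hx : x ∈ A) (hy : y ∈ A) (hz : z ∈ A)
    (hw : w ∈ A) : g2b_sp4 (x, y, z, w) ∈ g2b_SB A := by
  classical
  unfold g2b_SB
  refine Finset.mem_union_right _ (Finset.mem_image_of_mem _ ?_)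
  exact Finset.mem_product.2 ⟨hx, Finset.mem_product.2 ⟨hy, Finset.mem_product.2 ⟨hz, hw⟩⟩⟩

theorem g2b_seq (p : ℕ → E3) {δ : ℝ} (hδ : 0 < δ) : ∃ (q : ℕ → E3) (A : ℕ → Finset E3),
    (∀ n, dist (q n) (p n) ≤ δ) ∧ (∀ n, q n 2 = p n 2) ∧ (∀ n, ∀ x ∈ A n, q n 0 ≠ x 0) ∧
      (∀ n, ∀ s ∈ g2b_SB (A n), dist (q n) s.1 ≠ s.2) ∧ ∀ m n, m < n → q m ∈ A n := by
  classical
  have hex : ∀ (A : Finset E3) (n : ℕ), ∃ v : E3, dist v (p n) ≤ δ ∧ v 2 = p n 2 ∧
      v 0 ∉ A.image (fun x : E3 => x 0) ∧ ∀ s ∈ g2b_SB A, dist v s.1 ≠ s.2 := fun A n =>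
    avoid (p n) hδ (g2b_SB A) (A.image (fun x : E3 => x 0))
  choose g hg1 hg2 hg3 hg4 using hex
  let A : ℕ → Finset E3 := fun n => Nat.rec ∅ (fun n B => insert (g B n) B) n
  have hA : ∀ n, A (n + 1) = insert (g (A n) n) (A n) := fun n => rfl
  have hmono : ∀ m n, m ≤ n → A m ⊆ A n := by
    intro m n hmn
    induction n, hmn using Nat.le_induction with
    | base => exact subset_rfl
    | succ n _ ih => exact ih.trans (by rw [hA]; exact Finset.subset_insert _ _)
  refine ⟨fun n => g (A n) n, A, fun n => hg1 _ _, fun n => hg2 _ _, ?_, fun n => hg4 _ _, ?_⟩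
  · intro n x hx he
    apply hg3 (A n) n
    rw [he]
    exact Finset.mem_image_of_mem _ hx
  · intro m n hmn
    apply hmono (m + 1) n hmn
    rw [hA]
    exact Finset.mem_insert_self _ _

theorem exists_gen_layer (p : ℕ → E3) {δ : ℝ} (hδ : 0 < δ) : ∃ q : ℕ → E3,
    (∀ n, dist (q n) (p n) ≤ δ) ∧ (∀ n, q n 2 = p n 2) ∧ Function.Injective q ∧
      Gen2 (Set.range q) ∧ ∀ m n, m ≠ n → q m 0 ≠ q n 0 := by
  classical
  obtain ⟨q, A, h1, h2, h3, h4, h5⟩ := g2b_seq p hδ
  have hne : ∀ m n, m ≠ n → q m 0 ≠ q n 0 := by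
    intro m n hmn
    rcases lt_or_gt_of_ne hmn with h | h
    · exact (h3 n (q m) (h5 m n h)).symm
    · exact h3 m (q n) (h5 n m h)
  have hinj : Function.Injective q := by
    intro m n he
    by_contra hmn
    exact hne m n hmn (by rw [he])
  have K : ∀ i j k l, i < l → j < l → k < l → i ≠ j → i ≠ k → j ≠ k → ∀ (o : E3) (ρ : ℝ),
      dist (q i) o = ρ → dist (q j) o = ρ → dist (q k) o = ρ → dist (q l) o = ρ →
        det3 (q i) (q j) (q k) (q l) ≠ 0 := by
    intro i j k l hil hjl hkl hij hik hjk o ρ e1 e2 e3 e4 hdet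
    obtain ⟨g1, g2, g3⟩ := g2b_sp3_spec e1 e2 e3
    have hw := coc (fun h => hij (hinj h)) (fun h => hik (hinj h)) (fun h => hjk (hinj h))
      e1 e2 e3 e4 hdet g1 g2 g3
    exact h4 l _ (g2b_mem3 (h5 i l hil) (h5 j l hjl) (h5 k l hkl)) hw
  have K4 : ∀ i j k l, i ≠ j → i ≠ k → i ≠ l → j ≠ k → j ≠ l → k ≠ l → ∀ (o : E3) (ρ : ℝ),
      dist (q i) o = ρ → dist (q j) o = ρ → dist (q k) o = ρ → dist (q l) o = ρ →
        det3 (q i) (q j) (q k) (q l) ≠ 0 := by
    intro i j k l hij hik hil hjk hjl hkl o ρ e1 e2 e3 e4 hdet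
    have hmax : (i < l ∧ j < l ∧ k < l) ∨ (i < k ∧ j < k ∧ l < k) ∨ (i < j ∧ k < j ∧ l < j) ∨
        (j < i ∧ k < i ∧ l < i) := by omega
    rcases hmax with ⟨a, b, c⟩ | ⟨a, b, c⟩ | ⟨a, b, c⟩ | ⟨a, b, c⟩
    · exact K i j k l a b c hij hik hjk o ρ e1 e2 e3 e4 hdet
    · refine K i j l k a b c hij hil hjl o ρ e1 e2 e4 e3 ?_
      have : det3 (q i) (q j) (q l) (q k) = -det3 (q i) (q j) (q k) (q l) := by unfold det3; ring
      rw [this, hdet, neg_zero]
    · refine K i k l j a b c hik hil hkl o ρ e1 e3 e4 e2 ?_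
      have : det3 (q i) (q k) (q l) (q j) = det3 (q i) (q j) (q k) (q l) := by unfold det3; ring
      rw [this, hdet]
    · refine K j k l i a b c hjk hjl hkl o ρ e2 e3 e4 e1 ?_
      have : det3 (q j) (q k) (q l) (q i) = -det3 (q i) (q j) (q k) (q l) := by unfold det3; ring
      rw [this, hdet, neg_zero]
  refine ⟨q, h1, h2, hinj, ⟨?_, ?_⟩, hne⟩
  · rintro o ρ _ ⟨i, rfl⟩ _ ⟨j, rfl⟩ _ ⟨k, rfl⟩ _ ⟨l, rfl⟩ hxy hxz hxw hyz hyw hzw e1 e2 e3 e4
    exact K4 i j k l (fun h => hxy (h ▸ rfl)) (fun h => hxz (h ▸ rfl)) (fun h => hxw (h ▸ rfl))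
      (fun h => hyz (h ▸ rfl)) (fun h => hyw (h ▸ rfl)) (fun h => hzw (h ▸ rfl)) o ρ e1 e2 e3 e4
  · intro o ρ s hsX hso
    by_contra hcon
    push Not at hcon
    obtain ⟨s', hs', hs'c⟩ := Finset.exists_subset_card_eq (show 5 ≤ s.card by omega)
    set I : Finset ℕ := s'.preimage q hinj.injOn with hI
    have himg : I.image q = s' := by
      ext v
      rw [Finset.mem_image]
      constructor
      · rintro ⟨a, ha, rfl⟩
        rw [hI, Finset.mem_preimage] at ha
        exact ha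
      · intro hv
        obtain ⟨a, rfl⟩ := hsX v (hs' hv)
        exact ⟨a, by rw [hI, Finset.mem_preimage]; exact hv, rfl⟩
    have hIc : I.card = 5 := by
      rw [← hs'c, ← himg, Finset.card_image_of_injective _ hinj]
    set e := I.orderEmbOfFin hIc with he
    have hmem : ∀ a, dist (q (e a)) o = ρ := by
      intro a
      apply hso
      apply hs'
      rw [← himg]
      exact Finset.mem_image_of_mem _ (Finset.orderEmbOfFin_mem I hIc a)
    have hneq : ∀ a b : Fin 5, a < b → e a ≠ e b := fun a b hab => (e.strictMono hab).ne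
    have hdet := K4 (e 0) (e 1) (e 2) (e 3) (hneq _ _ (by decide)) (hneq _ _ (by decide))
      (hneq _ _ (by decide)) (hneq _ _ (by decide)) (hneq _ _ (by decide)) (hneq _ _ (by decide))
      o ρ (hmem 0) (hmem 1) (hmem 2) (hmem 3)
    obtain ⟨g1, g2, g3, g4⟩ := g2b_sp4_spec (hmem 0) (hmem 1) (hmem 2) (hmem 3)
    obtain ⟨k1, k2⟩ := sph_unique (hmem 0) (hmem 1) (hmem 2) (hmem 3) hdet g1 g2 g3 g4
    have hlt : ∀ a : Fin 5, a < 4 → e a < e 4 := fun a ha => e.strictMono ha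
    apply h4 (e 4) _ (g2b_mem4 (h5 _ _ (hlt 0 (by decide))) (h5 _ _ (hlt 1 (by decide)))
      (h5 _ _ (hlt 2 (by decide))) (h5 _ _ (hlt 3 (by decide))))
    rw [← k1, ← k2]
    exact hmem 4

end LAY
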