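import Pool.Agent.LAY.A1
import Pool.Agent.LAY.G2b

/-!
# [LAY-A2a] layered coverings with gaps `≥ H > 1` and covering radius `κ < 1`
-/

set_option autoImplicit false

open MeasureTheory Real
open scoped InnerProductSpace

namespace LAY

open BccCov BccO TPC

theorem strict_layer {K l : ℝ → ℝ} (hKL : KL K l) {X : Set E3} (hfin : LF X) {t : ℤ → ℝ} {H : ℝ}
    (hH : 1 < H) (hgap : ∀ k : ℤ, t k + H ≤ t (k + 1)) (hX : Hts X t) {κ : ℝ} (hκ : κ < 1)
    (hcov : ∀ p : E3, ∃ x ∈ X, dist p x ≤ κ) {η : ℝ} (hη : V0 * η < 1) :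
    ∃ N : ℝ → ℕ, (∀ R, N R ≤ NN X (R + 1)) ∧
      ∀ᶠ R in Filter.atTop, η * (4 / 3 * π * R ^ 3) ≤ N R := by
  classical
  set e : ℝ := (1 - κ) / 2 with he
  have he0 : 0 < e := by rw [he]; linarith
  obtain ⟨Y, hYX, hYsep, hYcov⟩ := exists_sep' X he0
  have hYfin : LF Y := fun R => (hfin R).subset (Set.inter_subset_inter_left _ hYX)
  have hYcov' : ∀ p : E3, ∃ x ∈ Y, dist p x ≤ κ + e := by
    intro p
    obtain ⟨x, hx, hpx⟩ := hcov p
    obtain ⟨y, hy, hxy⟩ := hYcov x hx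
    exact ⟨y, hy, by have := dist_triangle p x y; linarith⟩
  obtain ⟨p, hpinj, hpr⟩ := exists_enum hYfin hYcov'
  have hpY : ∀ n, p n ∈ Y := fun n => by rw [← hpr]; exact ⟨n, rfl⟩
  set δ : ℝ := min 1 (e / 4) with hδdef
  have hδ0 : 0 < δ := lt_min one_pos (by positivity)
  have hδ1 : δ ≤ 1 := min_le_left _ _
  have hδe : δ ≤ e / 4 := min_le_right _ _
  obtain ⟨q, hqp, hq2, hqinj, hG, hq0⟩ := exists_gen_layer p hδ0
  set Z := Set.range q with hZ
  have hnorm : ∀ n, |‖q n‖ - ‖p n‖| ≤ δ := fun n => by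
    have h1 := abs_norm_sub_norm_le (q n) (p n)
    rw [← dist_eq_norm] at h1
    exact h1.trans (hqp n)
  have hZfin : LF Z := by
    intro R
    have h1 : (p ⁻¹' (Y ∩ Metric.closedBall (0 : E3) (R + 1))).Finite :=
      (hYfin (R + 1)).preimage hpinj.injOn
    refine (h1.image q).subset ?_
    rintro _ ⟨⟨n, rfl⟩, hn⟩
    refine ⟨n, ⟨hpY n, ?_⟩, rfl⟩
    rw [mem_closedBall_zero_iff] at hn ⊢
    have := (abs_le.1 (hnorm n)).1
    linarith
  have hZcov : ∀ c : E3, ∃ x ∈ Z, dist c x ≤ 1 := by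
    intro c
    obtain ⟨y, hy, hcy⟩ := hYcov' c
    rw [← hpr] at hy
    obtain ⟨n, rfl⟩ := hy
    refine ⟨q n, ⟨n, rfl⟩, ?_⟩
    have h1 := dist_triangle c (p n) (q n)
    have h2 := hqp n
    rw [dist_comm] at h2
    linarith
  have hZsep : ∀ x ∈ Z, ∀ y ∈ Z, x ≠ y → 2 * (e / 4) ≤ dist x y := by
    rintro _ ⟨m, rfl⟩ _ ⟨n, rfl⟩ hne
    have hmn : p m ≠ p n := fun h => hne (by rw [hpinj h])
    have h1 := hYsep _ (hpY m) _ (hpY n) hmn
    have h2 := dist_triangle (p m) (q m) (p n)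
    have h3 := dist_triangle (q m) (q n) (p n)
    have h4 := hqp m
    have h5 := hqp n
    rw [dist_comm] at h4
    linarith
  have hZh : Hts Z t := by
    rintro _ ⟨n, rfl⟩
    obtain ⟨k, hk⟩ := hX _ (hYX (hpY n))
    exact ⟨k, by rw [hq2 n, hk]⟩
  have hZx : ∀ x ∈ Z, ∀ y ∈ Z, x ≠ y → x 0 ≠ y 0 := by
    rintro _ ⟨m, rfl⟩ _ ⟨n, rfl⟩ hne
    exact hq0 m n fun h => hne (by rw [h])
  obtain ⟨B, hB, hmain⟩ := core_count hKL hH hgap hZh hG hZfin hZcov hZx (s := e / 4) (by positivity) hZsep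
  have hmono : Monotone (NN Z) := by
    intro a b hab
    exact Set.ncard_le_ncard (Set.inter_subset_inter_right _ (Metric.closedBall_subset_closedBall hab))
      (hZfin b)
  refine ⟨NN Z, fun R => ?_, lower_density (NN Z) hmono V0 B 4 V0_pos hB (by norm_num) hmain η hη⟩
  -- the map back
  set g : E3 → E3 := fun z => p (Function.invFun q z) with hg
  have hgq : ∀ n, g (q n) = p n := fun n => by
    simp only [hg]
    rw [Function.leftInverse_invFun hqinj n]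
  refine Set.ncard_le_ncard_of_injOn g ?_ ?_ (hfin (R + 1))
  · rintro _ ⟨⟨n, rfl⟩, hn⟩
    rw [mem_closedBall_zero_iff] at hn
    rw [hgq]
    refine ⟨hYX (hpY n), ?_⟩
    rw [mem_closedBall_zero_iff]
    have := (abs_le.1 (hnorm n)).1
    linarith
  · rintro _ ⟨⟨m, rfl⟩, _⟩ _ ⟨⟨n, rfl⟩, _⟩ h
    rw [hgq, hgq] at h
    rw [hpinj h]

end LAY
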