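import Pool.Agent.LAY.G3b

/-!
# [LAY-G3c] heights and counting for the stretched set

`str_heights`: clear. `str_ball`: if `y = vec (x 0) (x 1) (t' k)`, `x 2 = t k`, then `‖x‖ ≤ ‖y‖ + 2 |t 0|`: `|t k| ≤ |t k - t 0| + |t 0| ≤ |t' k - t 0| + |t 0| ≤ |t' k| + 2|t 0|`, and
`√(a² + (b+c)²) ≤ √(a²+b²) + c` for `b, c ≥ 0` (`‖x‖² = (x 0)²+(x 1)²+(t k)²`).
`str_NN`: the map `x ↦ y` (choose the index `k` of `x`, unique since `t` is injective, `gap_lt`) from `X ∩ closedBall 0 (R + 2|t 0|)` covers `Str X t t' ∩ closedBall 0 R`: the latter is a subset of the image of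
the former (finite) set, so `ncard ≤` (`Set.ncard_le_ncard`, `Set.ncard_image_le`); the same subset relation gives local finiteness.
-/

set_option autoImplicit false

open MeasureTheory Real
open scoped InnerProductSpace

namespace LAY

open BccCov BccO TPC

theorem str_heights (X : Set E3) (t t' : ℤ → ℝ) : Hts (Str X t t') t' := by
  rintro y ⟨x, _, k, _, rfl⟩
  exact ⟨k, by simp⟩

theorem g3c_ball {t t' : ℤ → ℝ} (hd : ∀ k : ℤ, |t k - t 0| ≤ |t' k - t 0|) (x : E3) (k : ℤ)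
    (hk : x 2 = t k) {R : ℝ} (hR : vec (x 0) (x 1) (t' k) ∈ Metric.closedBall (0 : E3) R) :
    x ∈ Metric.closedBall (0 : E3) (R + 2 * |t 0|) := by
  rw [Metric.mem_closedBall] at hR ⊢
  have hR0 : 0 ≤ R := le_trans dist_nonneg hR
  have h1 : dist (vec (x 0) (x 1) (t' k)) 0 ^ 2 ≤ R ^ 2 := pow_le_pow_left₀ dist_nonneg hR 2
  rw [sq_dist, sq, vec0, vec1, vec2] at h1
  have z0 : (0 : E3) 0 = 0 := rfl
  have z1 : (0 : E3) 1 = 0 := rfl
  have z2 : (0 : E3) 2 = 0 := rfl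
  rw [z0, z1, z2] at h1
  simp only [sub_zero] at h1
  have hb : |t' k| ≤ R := by
    refine abs_le_of_sq_le_sq ?_ hR0
    nlinarith [sq_nonneg (x 0), sq_nonneg (x 1)]
  have hc : |t k| ≤ |t' k| + 2 * |t 0| := by
    have a1 : |t k| ≤ |t k - t 0| + |t 0| := by
      have := abs_add_le (t k - t 0) (t 0)
      simpa using this
    have a2 : |t' k - t 0| ≤ |t' k| + |t 0| := abs_sub _ _
    have a3 := hd k
    linarith
  have hc2 : (t k) ^ 2 ≤ (|t' k| + 2 * |t 0|) ^ 2 := by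
    rw [← sq_abs]
    exact pow_le_pow_left₀ (abs_nonneg _) hc 2
  have h2 : (t' k) ^ 2 = |t' k| ^ 2 := (sq_abs _).symm
  apply le_of_sq_le_sq _ (by positivity)
  rw [sq_dist, sq, z0, z1, z2, hk]
  simp only [sub_zero]
  have h3 : 0 ≤ |t 0| := abs_nonneg _
  nlinarith [mul_le_mul_of_nonneg_right hb h3]

open Classical in
theorem g3c_sub {X : Set E3} {t t' : ℤ → ℝ} (ht : ∀ k : ℤ, t k + 1 ≤ t (k + 1))
    (hd : ∀ k : ℤ, |t k - t 0| ≤ |t' k - t 0|) : ∃ f : E3 → E3, ∀ R : ℝ,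
      Str X t t' ∩ Metric.closedBall 0 R ⊆ f '' (X ∩ Metric.closedBall 0 (R + 2 * |t 0|)) := by
  refine ⟨fun x => if h : ∃ k : ℤ, x 2 = t k then vec (x 0) (x 1) (t' h.choose) else x, ?_⟩
  rintro R y ⟨⟨x, hx, k, hk, rfl⟩, hR⟩
  refine ⟨x, ⟨hx, g3c_ball hd x k hk hR⟩, ?_⟩
  have h : ∃ k : ℤ, x 2 = t k := ⟨k, hk⟩
  have h2 : h.choose = k := by
    have h3 : t h.choose = t k := by rw [← h.choose_spec, hk]
    rcases lt_trichotomy h.choose k with h4 | h4 | h4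
    · have := gap_lt one_pos ht h4
      linarith
    · exact h4
    · have := gap_lt one_pos ht h4
      linarith
  simp only [dif_pos h, h2]

theorem str_NN {X : Set E3} {t t' : ℤ → ℝ} (hfin : LF X) (ht : ∀ k : ℤ, t k + 1 ≤ t (k + 1))
    (hd : ∀ k : ℤ, |t k - t 0| ≤ |t' k - t 0|) :
    LF (Str X t t') ∧ ∀ R : ℝ, NN (Str X t t') R ≤ NN X (R + 2 * |t 0|) := by
  obtain ⟨f, hf⟩ := g3c_sub (X := X) ht hd
  constructor
  · intro R
    exact ((hfin (R + 2 * |t 0|)).image f).subset (hf R)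
  · intro R
    have h1 := Set.ncard_le_ncard (hf R) ((hfin (R + 2 * |t 0|)).image f)
    have h2 := Set.ncard_image_le (f := f) (hfin (R + 2 * |t 0|))
    exact le_trans h1 h2

end LAY
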