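import Pool.Agent.LAY.A2a
import Pool.Agent.LAY.G3c

/-!
# [LAY-A2b] layered coverings with unit balls and gaps `≥ 1`
-/

set_option autoImplicit false

open MeasureTheory Real
open scoped InnerProductSpace

namespace LAY

open BccCov BccO TPC

theorem smul_LF {X : Set E3} (hfin : LF X) {c : ℝ} (hc : 0 < c) :
    LF ((fun v => c • v) '' X) ∧ ∀ R : ℝ, NN ((fun v => c • v) '' X) (c * R) = NN X R := by
  have hinj : Function.Injective (fun v : E3 => c • v) := smul_right_injective E3 hc.ne'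
  have hball : ∀ R : ℝ, ((fun v => c • v) '' X) ∩ Metric.closedBall (0 : E3) (c * R) =
      (fun v => c • v) '' (X ∩ Metric.closedBall (0 : E3) R) := by
    intro R
    ext v
    constructor
    · rintro ⟨⟨u, hu, rfl⟩, hv⟩
      refine ⟨u, ⟨hu, ?_⟩, rfl⟩
      rw [mem_closedBall_zero_iff] at hv ⊢
      rw [norm_smul, norm_eq_abs, abs_of_pos hc] at hv
      exact le_of_mul_le_mul_left hv hc
    · rintro ⟨u, ⟨hu, hv⟩, rfl⟩
      refine ⟨⟨u, hu, rfl⟩, ?_⟩
      rw [mem_closedBall_zero_iff] at hv ⊢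
      rw [norm_smul, norm_eq_abs, abs_of_pos hc]
      exact mul_le_mul_of_nonneg_left hv hc.le
  constructor
  · intro R
    have e : R = c * (R / c) := by field_simp
    rw [e, hball]
    exact (hfin _).image _
  · intro R
    unfold NN
    rw [hball, Set.ncard_image_of_injective _ hinj]

theorem smul_cov {X : Set E3} {c ρ : ℝ} (hc : 0 < c) (hcov : ∀ p : E3, ∃ x ∈ X, dist p x ≤ ρ) :
    ∀ p : E3, ∃ x ∈ (fun v => c • v) '' X, dist p x ≤ c * ρ := by
  intro p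
  obtain ⟨x, hx, hpx⟩ := hcov (c⁻¹ • p)
  refine ⟨c • x, ⟨x, hx, rfl⟩, ?_⟩
  have e : p = c • (c⁻¹ • p) := by rw [smul_smul, mul_inv_cancel₀ hc.ne', one_smul]
  rw [e, dist_smul' hc]
  exact mul_le_mul_of_nonneg_left hpx hc.le

theorem unit_layer {K l : ℝ → ℝ} (hKL : KL K l) {X : Set E3} (hfin : LF X) {t : ℤ → ℝ}
    (ht : ∀ k : ℤ, t k + 1 ≤ t (k + 1)) (hX : Hts X t) (hcov : ∀ p : E3, ∃ x ∈ X, dist p x ≤ 1)
    {η : ℝ} (hη : V0 * η < 1) :
    ∀ᶠ R in Filter.atTop, η * (4 / 3 * π * R ^ 3) ≤ NN X R := by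
  have hpi := pi_pos
  have hV0 := V0_pos
  rcases le_or_gt η 0 with h0 | h0
  · filter_upwards [Filter.eventually_ge_atTop 0] with R hR
    have h1 : η * (4 / 3 * Real.pi * R ^ 3) ≤ 0 :=
      mul_nonpos_of_nonpos_of_nonneg h0 (by positivity)
    exact h1.trans (Nat.cast_nonneg _)
  -- choice of `ρ`
  set a : ℝ := V0 * η with ha
  have ha0 : 0 < a := mul_pos hV0 h0
  obtain ⟨ρ, hρ1, hρa⟩ : ∃ ρ : ℝ, 1 < ρ ∧ a * ρ ^ 3 < 1 := by
    refine ⟨1 + (1 - a) / 8, by linarith, ?_⟩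
    set x : ℝ := (1 - a) / 8 with hx
    have hx0 : 0 < x := by rw [hx]; linarith
    have hx1 : x ≤ 1 := by rw [hx]; linarith
    have h1 : (1 + x) ^ 3 ≤ 1 + 7 * x := by nlinarith [mul_nonneg hx0.le (sub_nonneg.2 hx1)]
    have h2 : a * (1 + x) ^ 3 ≤ a * (1 + 7 * x) := mul_le_mul_of_nonneg_left h1 ha0.le
    have h3 : a = 1 - 8 * x := by rw [hx]; ring
    rw [h3] at h2 ⊢
    nlinarith
  have hρ0 : 0 < ρ := by linarith
  obtain ⟨t', h0', hstep, hd⟩ := exists_stretch t ρ hρ1.le ht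
  have hcov' := str_cov hρ1.le hfin hX ht hcov hstep
  have hX' := str_heights X t t'
  obtain ⟨hfin', hNN⟩ := str_NN hfin ht hd
  set X' := Str X t t' with hX'def
  set R1 : ℝ := √((3 + ρ ^ 2) / 4) with hR1
  have hR1sq : R1 ^ 2 = (3 + ρ ^ 2) / 4 := Real.sq_sqrt (by positivity)
  have hR10 : 0 < R1 := Real.sqrt_pos.2 (by positivity)
  have hR1ρ : R1 < ρ := by
    refine lt_of_pow_lt_pow_left₀ 2 hρ0.le ?_
    rw [hR1sq]
    nlinarith
  set R2 : ℝ := (R1 + ρ) / 2 with hR2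
  have hR2a : R1 < R2 := by rw [hR2]; linarith
  have hR2b : R2 < ρ := by rw [hR2]; linarith
  have hR20 : 0 < R2 := hR10.trans hR2a
  set c : ℝ := 1 / R2 with hc
  have hc0 : 0 < c := by positivity
  obtain ⟨hfin1, hNN1⟩ := smul_LF hfin' hc0
  have hcov1 := smul_cov hc0 hcov'
  have hκ : c * R1 < 1 := by
    rw [hc, one_div, inv_mul_lt_iff₀ hR20]; linarith
  have hH : 1 < c * ρ := by
    rw [hc, one_div, lt_inv_mul_iff₀ hR20]; linarith
  have hgap1 : ∀ k : ℤ, (fun k => c * t' k) k + c * ρ ≤ (fun k => c * t' k) (k + 1) := by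
    intro k
    have h1 := hstep k
    have h2 := le_max_right (t (k + 1) - t k) ρ
    have h3 : t' k + ρ ≤ t' (k + 1) := by linarith
    have h4 := mul_le_mul_of_nonneg_left h3 hc0.le
    simp only
    linarith
  have hX1 : Hts ((fun v => c • v) '' X') (fun k => c * t' k) := by
    rintro _ ⟨x, hx, rfl⟩
    obtain ⟨k, hk⟩ := hX' x hx
    exact ⟨k, by simp [hk]⟩
  -- choice of `η'`
  have hbound : V0 * (η * R2 ^ 3) < 1 := by
    have h1 : R2 ^ 3 ≤ ρ ^ 3 := pow_le_pow_left₀ hR20.le hR2b.le 3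
    have h2 : a * R2 ^ 3 ≤ a * ρ ^ 3 := mul_le_mul_of_nonneg_left h1 ha0.le
    have h3 : V0 * (η * R2 ^ 3) = a * R2 ^ 3 := by rw [ha]; ring
    rw [h3]; linarith
  obtain ⟨η', hη1, hη2⟩ : ∃ η' : ℝ, η * R2 ^ 3 < η' ∧ V0 * η' < 1 := by
    refine ⟨(η * R2 ^ 3 + 1 / V0) / 2, ?_, ?_⟩
    · have : η * R2 ^ 3 < 1 / V0 := by rw [lt_div_iff₀ hV0]; linarith
      linarith
    · have : V0 * ((η * R2 ^ 3 + 1 / V0) / 2) = (V0 * (η * R2 ^ 3) + 1) / 2 := by field_simp
      rw [this]; linarith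
  have hη'0 : 0 < η' := lt_trans (by positivity) hη1
  obtain ⟨N, hN1, hN2⟩ := strict_layer hKL hfin1 hH hgap1 hX1 hκ hcov1 hη2
  obtain ⟨R0, hR0⟩ := Filter.eventually_atTop.1 hN2
  set c1 : ℝ := 2 * |t 0| + R2 with hc1
  have hc10 : 0 < c1 := by positivity
  set c0 : ℝ := c1 + R2 * |R0| with hc0'
  have hc00 : 0 ≤ c0 := by positivity
  refine eventually_count (A := R2 ^ 3 / η') (c := c0) (by positivity) hc00 ?_ ?_
  · intro S hS
    have hSR : R2 * |R0| ≤ S - c1 := by rw [hc0'] at hS; linarith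
    -- `R = c * (S - 2|t 0|) - 1`
    set R : ℝ := c * (S - 2 * |t 0|) - 1 with hR
    have hRS : R2 * R = S - c1 := by
      rw [hR, hc, hc1]; field_simp; ring
    have hRge : R0 ≤ R := by
      have h1 : R2 * |R0| ≤ R2 * R := by rw [hRS]; exact hSR
      exact (le_abs_self _).trans (le_of_mul_le_mul_left h1 hR20)
    have hRnn : 0 ≤ R := by
      have h1 : R2 * |R0| ≤ R2 * R := by rw [hRS]; exact hSR
      exact (abs_nonneg _).trans (le_of_mul_le_mul_left h1 hR20)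
    have h2 := hR0 R hRge
    have h3 : (N R : ℝ) ≤ NN X S := by
      have h4 := hN1 R
      have h5 : R + 1 = c * (S - 2 * |t 0|) := by rw [hR]; ring
      rw [h5, hNN1] at h4
      have h6 := hNN (S - 2 * |t 0|)
      rw [sub_add_cancel] at h6
      exact_mod_cast h4.trans h6
    have h4 : S - c0 ≤ R2 * R := by rw [hRS, hc0']; nlinarith [abs_nonneg R0]
    have h5 : 0 ≤ S - c0 := by linarith
    have h6 : (S - c0) ^ 3 ≤ (R2 * R) ^ 3 := pow_le_pow_left₀ h5 h4 3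
    have h7 : R2 ^ 3 / η' * (η' * (4 / 3 * π * R ^ 3)) = 4 / 3 * π * (R2 * R) ^ 3 := by
      field_simp
    have h8 : R2 ^ 3 / η' * (η' * (4 / 3 * π * R ^ 3)) ≤ R2 ^ 3 / η' * NN X S :=
      mul_le_mul_of_nonneg_left (h2.trans h3) (by positivity)
    rw [h7] at h8
    refine le_trans ?_ h8
    exact mul_le_mul_of_nonneg_left h6 (by positivity)
  · rw [div_mul_eq_mul_div, div_lt_one hη'0]
    linarith

end LAY
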