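import Pool.Agent.LAY.A2b

/-!
# [LAY-A3] the density of layered coverings
-/

set_option autoImplicit false

open MeasureTheory Real
open scoped InnerProductSpace

namespace LAY

open BccCov BccO TPC

/-- a linear isometry taking a unit vector to the third basis vector -/
theorem exists_rot {n : E3} (hn : ‖n‖ = 1) : ∃ L : E3 ≃ₗᵢ[ℝ] E3, ∀ x : E3, (L x) 2 = ⟪x, n⟫_ℝ := by
  set e : E3 := EuclideanSpace.single 2 1 with he
  have he1 : ‖e‖ = 1 := by rw [he, PiLp.norm_single, norm_one]
  refine ⟨(ℝ ∙ (n - e))ᗮ.reflection, fun x => ?_⟩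
  have h1 := Submodule.reflection_sub (v := n) (w := e) (by rw [hn, he1])
  have h2 : ⟪(ℝ ∙ (n - e))ᗮ.reflection x, (ℝ ∙ (n - e))ᗮ.reflection n⟫_ℝ = ⟪x, n⟫_ℝ :=
    LinearIsometryEquiv.inner_map_map _ _ _
  rw [h1] at h2
  rw [← h2, he, EuclideanSpace.inner_single_right]
  simp

theorem layered {K l : ℝ → ℝ} (hKL : KL K l) {X : Set E3} {r : ℝ} (hr : 0 < r) {n : E3}
    (hn : ‖n‖ = 1) {t : ℤ → ℝ} (ht : ∀ k : ℤ, t k + r ≤ t (k + 1))
    (hX : ∀ x ∈ X, ∃ k : ℤ, ⟪x, n⟫_ℝ = t k)
    (hC : (⋃ x ∈ X, Metric.closedBall x r) = Set.univ) :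
    ENNReal.ofReal (5 * √5 * π / 24) ≤
      Filter.liminf
        (fun R : ℝ =>
          ENat.toENNReal (X ∩ Metric.closedBall (0 : EuclideanSpace ℝ (Fin 3)) R).encard *
            MeasureTheory.volume (Metric.closedBall (0 : EuclideanSpace ℝ (Fin 3)) r) /
            MeasureTheory.volume (Metric.closedBall (0 : EuclideanSpace ℝ (Fin 3)) R))
        Filter.atTop := by
  have hpi := pi_pos
  have hV0 := V0_pos
  have h5 : √5 ^ 2 = 5 := Real.sq_sqrt (by norm_num)
  have h50 : 0 < √5 := Real.sqrt_pos.2 (by norm_num)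
  refine density_of_bound' X r hr V0 _ hV0 (by positivity) ?_ ?_
  · unfold V0
    apply le_of_eq
    field_simp
    nlinarith [h5]
  · intro hfin η hη
    obtain ⟨L, hL⟩ := exists_rot hn
    -- rotated set
    set X1 : Set E3 := (fun v => L v) '' X with hX1
    have hball : ∀ R : ℝ, X1 ∩ Metric.closedBall (0 : E3) R =
        (fun v => L v) '' (X ∩ Metric.closedBall (0 : E3) R) := by
      intro R
      ext v
      constructor
      · rintro ⟨⟨u, hu, rfl⟩, hv⟩
        refine ⟨u, ⟨hu, ?_⟩, rfl⟩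
        rw [mem_closedBall_zero_iff] at hv ⊢
        simpa using hv
      · rintro ⟨u, ⟨hu, hv⟩, rfl⟩
        refine ⟨⟨u, hu, rfl⟩, ?_⟩
        rw [mem_closedBall_zero_iff] at hv ⊢
        simpa using hv
    have hfin1 : LF X1 := fun R => by rw [hball]; exact (hfin R).image _
    have hNN1 : ∀ R : ℝ, NN X1 R = NN X R := fun R => by
      unfold NN
      rw [hball, Set.ncard_image_of_injective _ L.injective]
    have hcov1 : ∀ p : E3, ∃ x ∈ X1, dist p x ≤ r := by
      intro p
      have h1 : L.symm p ∈ ⋃ x ∈ X, Metric.closedBall x r := by rw [hC]; trivial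
      rw [Set.mem_iUnion₂] at h1
      obtain ⟨u, hu, hpu⟩ := h1
      refine ⟨L u, ⟨u, hu, rfl⟩, ?_⟩
      rw [Metric.mem_closedBall] at hpu
      have h2 : dist p (L u) = dist (L.symm p) u := by
        rw [← L.dist_map (L.symm p) u, L.apply_symm_apply]
      rw [h2]
      exact hpu
    -- scaled set
    set c : ℝ := 1 / r with hc
    have hc0 : 0 < c := by positivity
    have hcr : c * r = 1 := by rw [hc]; field_simp
    obtain ⟨hfin2, hNN2⟩ := smul_LF hfin1 hc0
    have hcov2 := smul_cov hc0 hcov1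
    rw [hcr] at hcov2
    have hgap : ∀ k : ℤ, (fun k => c * t k) k + 1 ≤ (fun k => c * t k) (k + 1) := by
      intro k
      have h4 := mul_le_mul_of_nonneg_left (ht k) hc0.le
      simp only
      rw [mul_add, hcr] at h4
      linarith
    have hX2 : Hts ((fun v => c • v) '' X1) (fun k => c * t k) := by
      rintro _ ⟨_, ⟨x, hx, rfl⟩, rfl⟩
      obtain ⟨k, hk⟩ := hX x hx
      exact ⟨k, by simp [hL, hk]⟩
    have hmain := unit_layer hKL hfin2 hgap hX2 hcov2 (η := η * r ^ 3) (by linarith)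
    have htend : Filter.Tendsto (fun R : ℝ => c * R) Filter.atTop Filter.atTop :=
      Filter.tendsto_id.const_mul_atTop hc0
    filter_upwards [htend.eventually hmain] with R hR
    rw [hNN2, hNN1] at hR
    refine le_trans (le_of_eq ?_) hR
    have h3 : (c * r) ^ 3 = 1 := by rw [hcr]; norm_num
    calc η * (4 / 3 * π * R ^ 3) = η * (4 / 3 * π * R ^ 3) * (c * r) ^ 3 := by rw [h3, mul_one]
      _ = _ := by ring

end LAY
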