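import Pool.Agent.TPC.G2
import Pool.Agent.LAY.H0

/-!
# [LAY-B0] the body-centred cubic covering is layered

`BCC` = all points with integer coordinates and all points with all coordinates in `ℤ + 1/2`; balls of radius `√5/4`.
`bcc_cov`: PROOF. Let `m i = round (p i)`, `d i = p i - m i ∈ [-1/2, 1/2]`, `A i = |d i| ∈ [0, 1/2]`. Candidate 1: the integer point `m`, squared distance `f1 = A0²+A1²+A2²`. Candidate 2: the point
`m i + (if 0 ≤ d i then 1/2 else -1/2)`, squared distance `f2 = Σ (1/2 - A i)²`. Claim: `a²+b²+c² ≤ 5/16` if `a, b, c ∈ [0,1/2]`, `a+b+c ≤ 3/4`: let `a` be the largest (w.l.o.g.); if `a ≤ 1/4` then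
`≤ 3/16`; if `a ≥ 1/4`: `b²+c² ≤ (b+c)² ≤ (3/4-a)²` and `a² + (3/4-a)² ≤ 5/16` iff `(a-1/4)(a-1/2) ≤ 0` (times 2). So candidate 1 works if `A0+A1+A2 ≤ 3/4`, candidate 2 otherwise
(`Σ(1/2 - A i) ≤ 3/4`). `(√5/4)² = 5/16`.
`bcc_layered`: PROOF. `n = vec (1/√2) (1/√2) 0`, `t k = k/√2`: `⟪x,n⟫ = (x 0 + x 1)/√2` (`BccO.inner3`) and `x 0 + x 1` is an integer in both cases (`m + m'` resp. `m + m' + 1`).
`√5/4 ≤ 1/√2` since `5/16 ≤ 1/2`.
-/

set_option autoImplicit false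

open MeasureTheory Real
open scoped InnerProductSpace

namespace LAY

open BccCov BccO TPC

/-- the body-centred cubic lattice -/
def BCC : Set E3 := {x | (∀ i, ∃ m : ℤ, x i = m) ∨ (∀ i, ∃ m : ℤ, x i = m + 1 / 2)}

theorem b0_dist {p x : E3} (h : (p 0 - x 0) ^ 2 + (p 1 - x 1) ^ 2 + (p 2 - x 2) ^ 2 ≤ 5 / 16) :
    dist p x ≤ √5 / 4 := by
  rw [EuclideanSpace.dist_eq, Fin.sum_univ_three]
  simp only [Real.dist_eq, sq_abs]
  have h1 : √5 / 4 = √(5 / 16) := by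
    rw [Real.sqrt_div (by norm_num), show (16 : ℝ) = 4 ^ 2 by norm_num,
      Real.sqrt_sq (by norm_num)]
  rw [h1]
  exact Real.sqrt_le_sqrt h

theorem b0_key1 {a b c : ℝ} (ha : a ≤ 1 / 2) (hb0 : 0 ≤ b) (hc0 : 0 ≤ c) (hb : b ≤ a) (hc : c ≤ a)
    (h : a + b + c ≤ 3 / 4) : a ^ 2 + b ^ 2 + c ^ 2 ≤ 5 / 16 := by
  by_cases h1 : a ≤ 1 / 4
  · have h2 : b ^ 2 ≤ a ^ 2 := by nlinarith
    have h3 : c ^ 2 ≤ a ^ 2 := by nlinarith
    have h4 : a ^ 2 ≤ 1 / 16 := by nlinarith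
    linarith
  · push Not at h1
    have h2 : b ^ 2 + c ^ 2 ≤ (3 / 4 - a) ^ 2 := by
      have h3 : b ^ 2 + c ^ 2 ≤ (b + c) ^ 2 := by nlinarith [mul_nonneg hb0 hc0]
      have h4 : (b + c) ^ 2 ≤ (3 / 4 - a) ^ 2 := by
        apply pow_le_pow_left₀ (by linarith)
        linarith
      linarith
    nlinarith [mul_nonneg (sub_nonneg.2 ha) (sub_nonneg.2 h1.le)]

theorem b0_key {a b c : ℝ} (ha : a ≤ 1 / 2) (hb : b ≤ 1 / 2) (hc : c ≤ 1 / 2) (ha0 : 0 ≤ a)
    (hb0 : 0 ≤ b) (hc0 : 0 ≤ c) (h : a + b + c ≤ 3 / 4) : a ^ 2 + b ^ 2 + c ^ 2 ≤ 5 / 16 := by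
  rcases le_total a b with h1 | h1
  · rcases le_total b c with h2 | h2
    · have := b0_key1 hc ha0 hb0 (h1.trans h2) h2 (by linarith)
      linarith
    · have := b0_key1 hb ha0 hc0 h1 h2 (by linarith)
      linarith
  · rcases le_total a c with h2 | h2
    · have := b0_key1 hc ha0 hb0 h2 (h1.trans h2) (by linarith)
      linarith
    · have := b0_key1 ha hb0 hc0 h1 h2 (by linarith)
      linarith

theorem b0_half (d : ℝ) : (d - (if 0 ≤ d then 1 / 2 else -(1 / 2))) ^ 2 = (1 / 2 - |d|) ^ 2 := by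
  split_ifs with h
  · rw [abs_of_nonneg h]; ring
  · rw [abs_of_neg (not_le.1 h)]; ring

theorem bcc_cov (p : E3) : ∃ x ∈ BCC, dist p x ≤ √5 / 4 := by
  have hd : ∀ i, |p i - round (p i)| ≤ 1 / 2 := fun i => abs_sub_round (p i)
  by_cases h : |p 0 - round (p 0)| + |p 1 - round (p 1)| + |p 2 - round (p 2)| ≤ 3 / 4
  · refine ⟨vec (round (p 0)) (round (p 1)) (round (p 2)), Or.inl ?_, b0_dist ?_⟩
    · intro i
      fin_cases i
      · exact ⟨round (p 0), vec0 _ _ _⟩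
      · exact ⟨round (p 1), vec1 _ _ _⟩
      · exact ⟨round (p 2), vec2 _ _ _⟩
    · rw [vec0, vec1, vec2]
      have := b0_key (hd 0) (hd 1) (hd 2) (abs_nonneg _) (abs_nonneg _) (abs_nonneg _) h
      simpa only [sq_abs] using this
  · push Not at h
    have hm : ∀ i, ∃ m : ℤ, (round (p i) : ℝ) +
        (if 0 ≤ p i - round (p i) then 1 / 2 else -(1 / 2)) = m + 1 / 2 := by
      intro i
      split_ifs
      · exact ⟨round (p i), rfl⟩
      · exact ⟨round (p i) - 1, by push_cast; ring⟩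
    refine ⟨vec ((round (p 0) : ℝ) + (if 0 ≤ p 0 - round (p 0) then 1 / 2 else -(1 / 2)))
      ((round (p 1) : ℝ) + (if 0 ≤ p 1 - round (p 1) then 1 / 2 else -(1 / 2)))
      ((round (p 2) : ℝ) + (if 0 ≤ p 2 - round (p 2) then 1 / 2 else -(1 / 2))), Or.inr ?_,
      b0_dist ?_⟩
    · intro i
      fin_cases i
      · obtain ⟨m, hm⟩ := hm 0
        exact ⟨m, (vec0 _ _ _).trans hm⟩
      · obtain ⟨m, hm⟩ := hm 1
        exact ⟨m, (vec1 _ _ _).trans hm⟩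
      · obtain ⟨m, hm⟩ := hm 2
        exact ⟨m, (vec2 _ _ _).trans hm⟩
    · rw [vec0, vec1, vec2, ← sub_sub, ← sub_sub, ← sub_sub, b0_half, b0_half, b0_half]
      have h0 := hd 0
      have h1 := hd 1
      have h2 := hd 2
      have g0 := abs_nonneg (p 0 - round (p 0))
      have g1 := abs_nonneg (p 1 - round (p 1))
      have g2 := abs_nonneg (p 2 - round (p 2))
      exact b0_key (by linarith) (by linarith) (by linarith) (by linarith) (by linarith)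
        (by linarith) (by linarith)

theorem bcc_layered : ∃ n : E3, ‖n‖ = 1 ∧ ∃ t : ℤ → ℝ, (∀ k : ℤ, t k + √5 / 4 ≤ t (k + 1)) ∧
    ∀ x ∈ BCC, ∃ k : ℤ, ⟪x, n⟫_ℝ = t k := by
  have h2 : (0 : ℝ) < √2 := by positivity
  have h2' : √2 ^ 2 = 2 := Real.sq_sqrt (by norm_num)
  refine ⟨vec (1 / √2) (1 / √2) 0, ?_, fun k => k / √2, ?_, ?_⟩
  · rw [EuclideanSpace.norm_eq, Fin.sum_univ_three, vec0, vec1, vec2]
    simp only [Real.norm_eq_abs, sq_abs]
    rw [div_pow, h2']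
    norm_num
  · intro k
    have h1 : √5 / 4 ≤ 1 / √2 := by
      rw [div_le_div_iff₀ (by norm_num) h2, ← Real.sqrt_mul (by norm_num)]
      rw [show (1 : ℝ) * 4 = √16 by
        rw [show (16 : ℝ) = 4 ^ 2 by norm_num, Real.sqrt_sq (by norm_num)]; norm_num]
      exact Real.sqrt_le_sqrt (by norm_num)
    push_cast
    rw [add_div]
    linarith
  · intro x hx
    rw [BccO.inner3, vec0, vec1, vec2]
    rcases hx with hx | hx
    · obtain ⟨a, ha⟩ := hx 0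
      obtain ⟨b, hb⟩ := hx 1
      refine ⟨a + b, ?_⟩
      rw [ha, hb]
      push_cast
      ring
    · obtain ⟨a, ha⟩ := hx 0
      obtain ⟨b, hb⟩ := hx 1
      refine ⟨a + b + 1, ?_⟩
      rw [ha, hb]
      push_cast
      ring

end LAY
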