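import Pool.Agent.LAY.B0

/-!
# [LAY-B1] the density of the body-centred cubic covering

`bcc_tendsto`: PROOF. `BCC = TPC.XX b u` with `b i = EuclideanSpace.single i 1`, `u = vec (1/2) (1/2) (1/2)` (membership in `Lat b = span ℤ (range b)`: integer coordinates; `⊆` by `Submodule.span_induction`,
`⊇` by `x = Σ (x i) b i`), `dt b = 1`, `u ∉ Lat b`. `TPC.NN_XX` gives `c ≥ 0` with `2·(4/3)π(R-c)³ ≤ NN BCC R ≤ 2·(4/3)π(R+c)³` for `R ≥ c`. The quotient is
`NN BCC R · (4/3 π r³)/(4/3 π R³)`, `r = √5/4`, `r³ = 5√5/64`; it is squeezed between `2·(4/3)π r³ ((R∓c)/R)³ → (8/3)π·5√5/64 = 5√5π/24`. Write the ENNReal quotient as `ENNReal.ofReal` of the real quotient for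
`R > 0` (as in `BccO.density_of_bound'`, Pool/Agent/MP_bf7174_co/O/R5.lean: `(hfin R).cast_ncard_eq`, `ENNReal.ofReal_natCast`, `BccCov.E.vol_ball`, `ENNReal.ofReal_div_of_pos`), then
`ENNReal.tendsto_ofReal` and the squeeze theorem (`tendsto_of_tendsto_of_tendsto_of_le_of_le'`).
-/

set_option autoImplicit false

open MeasureTheory Real
open scoped InnerProductSpace

namespace LAY

open BccCov BccO TPC

/-- the standard basis -/
noncomputable def b1_b : Fin 3 → E3 := fun i => EuclideanSpace.single i (1 : ℝ)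

/-- the centre of the cube -/
noncomputable def b1_u : E3 := !₂[1 / 2, 1 / 2, 1 / 2]

theorem b1_lat (x : E3) : x ∈ Lat b1_b ↔ ∀ i, ∃ m : ℤ, x i = m := by
  constructor
  · intro hx
    induction hx using Submodule.span_induction with
    | mem y hy =>
      obtain ⟨j, rfl⟩ := hy
      intro i
      by_cases h : i = j
      · subst h
        exact ⟨1, by simp [b1_b]⟩
      · exact ⟨0, by simp [b1_b, h]⟩
    | zero =>
      intro i
      exact ⟨0, by simp⟩
    | add y z _ _ hy hz =>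
      intro i
      obtain ⟨m, hm⟩ := hy i
      obtain ⟨n, hn⟩ := hz i
      exact ⟨m + n, by rw [PiLp.add_apply, hm, hn]; push_cast; ring⟩
    | smul a y _ hy =>
      intro i
      obtain ⟨m, hm⟩ := hy i
      refine ⟨a * m, ?_⟩
      rw [PiLp.smul_apply, hm, zsmul_eq_mul]
      push_cast
      ring
  · intro h
    choose m hm using h
    have e : x = ∑ j, m j • b1_b j := by
      ext i
      rw [Fin.sum_univ_three]
      simp only [PiLp.add_apply, PiLp.smul_apply, b1_b]
      fin_cases i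
      · simp [hm]
      · simp [hm]
      · simp [hm]
    rw [e]
    exact Submodule.sum_mem _ fun j _ => Submodule.smul_mem _ _ (Submodule.subset_span ⟨j, rfl⟩)

theorem b1_u_apply (i : Fin 3) : b1_u i = 1 / 2 := by
  fin_cases i <;> simp [b1_u]

theorem b1_dt : dt b1_b = 1 := by
  unfold dt det3 b1_b
  simp

theorem b1_XX : XX b1_b b1_u = BCC := by
  ext x
  change (x ∈ Lat b1_b ∨ x - b1_u ∈ Lat b1_b) ↔ _
  rw [b1_lat, b1_lat]
  have h : (∀ i, ∃ m : ℤ, (x - b1_u) i = m) ↔ ∀ i, ∃ m : ℤ, x i = m + 1 / 2 := by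
    constructor
    · intro h i
      obtain ⟨m, hm⟩ := h i
      refine ⟨m, ?_⟩
      rw [PiLp.sub_apply, b1_u_apply] at hm
      linarith
    · intro h i
      obtain ⟨m, hm⟩ := h i
      refine ⟨m, ?_⟩
      rw [PiLp.sub_apply, b1_u_apply]
      linarith
  rw [h]
  rfl

theorem b1_notMem : b1_u ∉ Lat b1_b := by
  rw [b1_lat]
  intro h
  obtain ⟨m, hm⟩ := h 0
  rw [b1_u_apply] at hm
  have h1 : ((2 * m : ℤ) : ℝ) = ((1 : ℤ) : ℝ) := by
    push_cast
    linarith
  have h2 : 2 * m = 1 := by exact_mod_cast h1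
  omega

theorem b1_lim (c K : ℝ) : Filter.Tendsto (fun R : ℝ => K * (1 + c / R) ^ 3) Filter.atTop
    (nhds K) := by
  have h1 : Filter.Tendsto (fun R : ℝ => c / R) Filter.atTop (nhds 0) :=
    Filter.Tendsto.div_atTop tendsto_const_nhds Filter.tendsto_id
  have h2 : Filter.Tendsto (fun R : ℝ => K * (1 + c / R) ^ 3) Filter.atTop
      (nhds (K * (1 + 0) ^ 3)) := ((h1.const_add 1).pow 3).const_mul K
  simpa using h2

theorem bcc_tendsto :
    Filter.Tendsto
      (fun R : ℝ =>
        ENat.toENNReal (BCC ∩ Metric.closedBall (0 : EuclideanSpace ℝ (Fin 3)) R).encard *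
          MeasureTheory.volume (Metric.closedBall (0 : EuclideanSpace ℝ (Fin 3)) (√5 / 4)) /
          MeasureTheory.volume (Metric.closedBall (0 : EuclideanSpace ℝ (Fin 3)) R))
      Filter.atTop (nhds (ENNReal.ofReal (5 * √5 * π / 24))) := by
  have hpi := Real.pi_pos
  obtain ⟨c, hc, h⟩ := NN_XX (b := b1_b) (by rw [b1_dt]; norm_num) b1_u
  rw [b1_XX, b1_dt] at h
  have hr : (0 : ℝ) ≤ √5 / 4 := by positivity
  set g : ℝ → ℝ := fun R => NN BCC R * (4 / 3 * π * (√5 / 4) ^ 3) / (4 / 3 * π * R ^ 3) with hg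
  set K : ℝ := 5 * √5 * π / 24 with hK
  have h5 : √5 ^ 2 = 5 := Real.sq_sqrt (by norm_num)
  have hr3 : 2 * (4 / 3 * π * (√5 / 4) ^ 3) = K := by
    rw [hK]
    have : √5 ^ 3 = 5 * √5 := by rw [pow_succ, h5]
    rw [div_pow, this]
    ring
  have hlim : Filter.Tendsto g Filter.atTop (nhds K) := by
    have hlo := b1_lim (-c) K
    have hup := b1_lim c K
    refine tendsto_of_tendsto_of_tendsto_of_le_of_le' hlo hup ?_ ?_
    · filter_upwards [Filter.eventually_ge_atTop c, Filter.eventually_gt_atTop 0] with R hR hR0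
      obtain ⟨_, _, h3, _⟩ := h R
      have h4 := h3 b1_notMem hR
      rw [abs_one, mul_one] at h4
      have hv : 0 < 4 / 3 * π * R ^ 3 := by positivity
      change K * (1 + -c / R) ^ 3 ≤ NN BCC R * (4 / 3 * π * (√5 / 4) ^ 3) / (4 / 3 * π * R ^ 3)
      rw [le_div_iff₀ hv]
      have e : K * (1 + -c / R) ^ 3 * (4 / 3 * π * R ^ 3) =
          (2 * (4 / 3 * π * (R - c) ^ 3)) * (4 / 3 * π * (√5 / 4) ^ 3) := by
        rw [← hr3]
        field_simp
        ring
      rw [e]
      exact mul_le_mul_of_nonneg_right h4 (by positivity)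
    · filter_upwards [Filter.eventually_gt_atTop 0] with R hR0
      obtain ⟨_, h3, _, _⟩ := h R
      have h4 := h3 hR0.le
      rw [abs_one, mul_one] at h4
      have hv : 0 < 4 / 3 * π * R ^ 3 := by positivity
      change NN BCC R * (4 / 3 * π * (√5 / 4) ^ 3) / (4 / 3 * π * R ^ 3) ≤ K * (1 + c / R) ^ 3
      rw [div_le_iff₀ hv]
      have e : K * (1 + c / R) ^ 3 * (4 / 3 * π * R ^ 3) =
          (2 * (4 / 3 * π * (R + c) ^ 3)) * (4 / 3 * π * (√5 / 4) ^ 3) := by
        rw [← hr3]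
        field_simp
      rw [e]
      exact mul_le_mul_of_nonneg_right h4 (by positivity)
  refine (ENNReal.tendsto_ofReal hlim).congr' ?_
  filter_upwards [Filter.eventually_gt_atTop 0] with R hR0
  have hvR : 0 < 4 / 3 * Real.pi * R ^ 3 := by positivity
  have hcard : ENat.toENNReal (BCC ∩ Metric.closedBall (0 : EuclideanSpace ℝ (Fin 3)) R).encard =
      ENNReal.ofReal (NN BCC R) := by
    rw [← ((h R).1).cast_ncard_eq, ENNReal.ofReal_natCast]
    rfl
  rw [hcard, BccCov.E.vol_ball _ hr, BccCov.E.vol_ball R hR0.le,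
    ← ENNReal.ofReal_mul (Nat.cast_nonneg _), ← ENNReal.ofReal_div_of_pos hvR]

end LAY
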