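import Mathlib

/-!
# Positivity of polynomials in two variables on boxes

Polynomials in `x`, `y` are lists (powers of `y`) of lists (powers of `x`) of integers. A polynomial is
nonnegative on a box if its Bernstein coefficients are; this is decided by computation.
-/

namespace LAY

/-! ## One variable -/

/-- value -/
noncomputable def ev (x : ℝ) : List ℤ → ℝ
  | [] => 0
  | a :: l => (a : ℝ) + x * ev x l

/-- sum -/
def addL : List ℤ → List ℤ → List ℤ
  | [], m => m
  | a :: l, [] => a :: l
  | a :: l, b :: m => (a + b) :: addL l m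

/-- multiple -/
def smulL (c : ℤ) : List ℤ → List ℤ
  | [] => []
  | a :: l => (c * a) :: smulL c l

/-- product -/
def mulL : List ℤ → List ℤ → List ℤ
  | [], _ => []
  | a :: l, m => addL (smulL a m) (0 :: mulL l m)

theorem ev_addL (x : ℝ) : ∀ l m : List ℤ, ev x (addL l m) = ev x l + ev x m
  | [], m => by simp [addL, ev]
  | a :: l, [] => by simp [addL, ev]
  | a :: l, b :: m => by simp only [addL, ev, ev_addL x l m]; push_cast; ring

theorem ev_smulL (x : ℝ) (c : ℤ) : ∀ l : List ℤ, ev x (smulL c l) = c * ev x l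
  | [] => by simp [smulL, ev]
  | a :: l => by simp only [smulL, ev, ev_smulL x c l]; push_cast; ring

theorem ev_mulL (x : ℝ) : ∀ l m : List ℤ, ev x (mulL l m) = ev x l * ev x m
  | [], m => by simp [mulL, ev]
  | a :: l, m => by
    simp only [mulL, ev, ev_addL, ev_smulL, ev_mulL x l m]; push_cast; ring

/-! ## Two variables -/

/-- value -/
noncomputable def ev2 (x y : ℝ) : List (List ℤ) → ℝ
  | [] => 0
  | r :: p => ev x r + y * ev2 x y p

/-- sum -/
def addR : List (List ℤ) → List (List ℤ) → List (List ℤ)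
  | [], q => q
  | r :: p, [] => r :: p
  | r :: p, s :: q => addL r s :: addR p q

/-- multiple -/
def smulR (r : List ℤ) : List (List ℤ) → List (List ℤ)
  | [] => []
  | s :: q => mulL r s :: smulR r q

/-- product -/
def mulR : List (List ℤ) → List (List ℤ) → List (List ℤ)
  | [], _ => []
  | r :: p, q => addR (smulR r q) ([] :: mulR p q)

theorem ev2_addR (x y : ℝ) : ∀ p q : List (List ℤ), ev2 x y (addR p q) = ev2 x y p + ev2 x y q
  | [], q => by simp [addR, ev2]
  | r :: p, [] => by simp [addR, ev2]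
  | r :: p, s :: q => by simp only [addR, ev2, ev2_addR x y p q, ev_addL]; ring

theorem ev2_smulR (x y : ℝ) (r : List ℤ) : ∀ q : List (List ℤ), ev2 x y (smulR r q) = ev x r * ev2 x y q
  | [] => by simp [smulR, ev2]
  | s :: q => by simp only [smulR, ev2, ev2_smulR x y r q, ev_mulL]; ring

theorem ev2_mulR (x y : ℝ) : ∀ p q : List (List ℤ), ev2 x y (mulR p q) = ev2 x y p * ev2 x y q
  | [], q => by simp [mulR, ev2]
  | r :: p, q => by
    simp only [mulR, ev2, ev2_addR, ev2_smulR, ev2_mulR x y p q, ev]; ring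

/-! ## Expressions -/

/-- polynomial expressions in two variables -/
inductive PE : Type
  | c (n : ℤ) : PE
  | X : PE
  | Y : PE
  | lit (p : List (List ℤ)) : PE
  | add (a b : PE) : PE
  | sub (a b : PE) : PE
  | mul (a b : PE) : PE

/-- value -/
noncomputable def PE.val (x y : ℝ) : PE → ℝ
  | .c n => n
  | .X => x
  | .Y => y
  | .lit p => ev2 x y p
  | .add a b => a.val x y + b.val x y
  | .sub a b => a.val x y - b.val x y
  | .mul a b => a.val x y * b.val x y

/-- coefficients -/
def PE.toL : PE → List (List ℤ)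
  | .c n => [[n]]
  | .X => [[0, 1]]
  | .Y => [[], [1]]
  | .lit p => p
  | .add a b => addR a.toL b.toL
  | .sub a b => addR a.toL (smulR [-1] b.toL)
  | .mul a b => mulR a.toL b.toL

theorem PE.ev2_toL (x y : ℝ) : ∀ e : PE, ev2 x y e.toL = e.val x y
  | .c n => by simp [PE.toL, PE.val, ev2, ev]
  | .X => by simp [PE.toL, PE.val, ev2, ev]
  | .Y => by simp [PE.toL, PE.val, ev2, ev]
  | .lit p => rfl
  | .add a b => by simp only [PE.toL, PE.val, ev2_addR, PE.ev2_toL x y a, PE.ev2_toL x y b]
  | .sub a b => by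
    simp only [PE.toL, PE.val, ev2_addR, ev2_smulR, PE.ev2_toL x y a, PE.ev2_toL x y b, ev]
    push_cast; ring
  | .mul a b => by simp only [PE.toL, PE.val, ev2_mulR, PE.ev2_toL x y a, PE.ev2_toL x y b]

/-! ## Zero -/

/-- all coefficients are zero -/
def isZ : ℤ → Bool
  | .ofNat 0 => true
  | _ => false

def zL (l : List ℤ) : Bool := l.all isZ
def zR (p : List (List ℤ)) : Bool := p.all zL

theorem isZ_eq {z : ℤ} (h : isZ z = true) : z = 0 := by
  unfold isZ at h
  split at h
  · rfl
  · simp at h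

theorem ev_zL {x : ℝ} {l : List ℤ} (h : zL l = true) : ev x l = 0 := by
  induction l with
  | nil => rfl
  | cons a l ih =>
    simp only [zL, List.all_cons, Bool.and_eq_true] at h
    rw [ev, isZ_eq h.1, ih h.2]
    simp

theorem ev2_zR {x y : ℝ} {p : List (List ℤ)} (h : zR p = true) : ev2 x y p = 0 := by
  induction p with
  | nil => rfl
  | cons a l ih =>
    simp only [zR, List.all_cons, Bool.and_eq_true] at h
    rw [ev2, ev_zL h.1, ih h.2]
    simp

/-! ## Bernstein coefficients

`x = (a + b s) / (q (1 + s))` with `s ≥ 0` for `a ≤ q x < b`. -/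

/-- `(a + b s) l` -/
def linL (a b : ℤ) (l : List ℤ) : List ℤ := addL (smulL a l) (0 :: smulL b l)

theorem ev_linL (s : ℝ) (a b : ℤ) (l : List ℤ) : ev s (linL a b l) = (a + b * s) * ev s l := by
  simp only [linL, ev_addL, ev_smulL, ev]; push_cast; ring

/-- `(q (1 + s)) ^ length` -/
def powL (q : ℤ) : List ℤ → List ℤ
  | [] => [1]
  | _ :: l => linL q q (powL q l)

theorem ev_powL (s : ℝ) (q : ℤ) : ∀ l : List ℤ, ev s (powL q l) = (q * (1 + s)) ^ l.length
  | [] => by simp [powL, ev]
  | a :: l => by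
    rw [powL, ev_linL, ev_powL s q l, List.length_cons, pow_succ]; ring

/-- transformation of a polynomial in one variable -/
def hom1 (a b q : ℤ) : List ℤ → List ℤ
  | [] => []
  | c :: l => addL (smulL c (powL q l)) (linL a b (hom1 a b q l))

theorem ev_hom1 {s x : ℝ} {a b q : ℤ} (hx : (a : ℝ) + b * s = q * (1 + s) * x) : ∀ l : List ℤ,
    q * (1 + s) * ev s (hom1 a b q l) = (q * (1 + s)) ^ l.length * ev x l
  | [] => by simp [hom1, ev]
  | c :: l => by
    have ih := ev_hom1 hx l
    simp only [hom1, ev_addL, ev_smulL, ev_linL, ev_powL, ev, List.length_cons, pow_succ]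
    rw [hx]
    linear_combination (q * (1 + s) * x) * ih

/-- powers for two variables -/
def powR (q : ℤ) : List (List ℤ) → List ℤ
  | [] => [1]
  | _ :: l => linL q q (powR q l)

theorem ev_powR (s : ℝ) (q : ℤ) : ∀ l : List (List ℤ), ev s (powR q l) = (q * (1 + s)) ^ l.length
  | [] => by simp [powR, ev]
  | a :: l => by
    rw [powR, ev_linL, ev_powR s q l, List.length_cons, pow_succ]; ring

/-- `c(x) S(t)` -/
def outer (c : List ℤ) : List ℤ → List (List ℤ)
  | [] => []
  | k :: S => smulL k c :: outer c S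

theorem ev2_outer (x t : ℝ) (c : List ℤ) : ∀ S : List ℤ, ev2 x t (outer c S) = ev x c * ev t S
  | [] => by simp [outer, ev2, ev]
  | k :: S => by simp only [outer, ev2, ev, ev_smulL, ev2_outer x t c S]; ring

/-- multiple of all rows -/
def smulK (k : ℤ) : List (List ℤ) → List (List ℤ)
  | [] => []
  | r :: p => smulL k r :: smulK k p

theorem ev2_smulK (x t : ℝ) (k : ℤ) : ∀ p : List (List ℤ), ev2 x t (smulK k p) = k * ev2 x t p
  | [] => by simp [smulK, ev2]
  | r :: p => by simp only [smulK, ev2, ev_smulL, ev2_smulK x t k p]; ring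

/-- `(a + b t) p` -/
def linR (a b : ℤ) (p : List (List ℤ)) : List (List ℤ) := addR (smulK a p) ([] :: smulK b p)

theorem ev2_linR (x t : ℝ) (a b : ℤ) (p : List (List ℤ)) : ev2 x t (linR a b p) = (a + b * t) * ev2 x t p := by
  simp only [linR, ev2_addR, ev2_smulK, ev2, ev]; ring

/-- transformation in the second variable -/
def homR (a b q : ℤ) : List (List ℤ) → List (List ℤ)
  | [] => []
  | r :: p => addR (outer r (powR q p)) (linR a b (homR a b q p))

theorem ev2_homR {x t y : ℝ} {a b q : ℤ} (hy : (a : ℝ) + b * t = q * (1 + t) * y) : ∀ p : List (List ℤ),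
    q * (1 + t) * ev2 x t (homR a b q p) = (q * (1 + t)) ^ p.length * ev2 x y p
  | [] => by simp [homR, ev2]
  | r :: p => by
    have ih := ev2_homR (x := x) hy p
    simp only [homR, ev2_addR, ev2_outer, ev2_linR, ev_powR, ev2, List.length_cons, pow_succ]
    rw [hy]
    linear_combination (q * (1 + t) * y) * ih

/-- nonnegative -/
def nn : ℤ → Bool
  | .ofNat _ => true
  | .negSucc _ => false

theorem nn_le {z : ℤ} (h : nn z = true) : (0 : ℝ) ≤ z := by
  cases z with
  | ofNat n =>
    have h1 : (0 : ℤ) ≤ Int.ofNat n := Int.natCast_nonneg n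
    exact_mod_cast h1
  | negSucc n => simp [nn] at h

theorem ev_nn {s : ℝ} (hs : 0 ≤ s) {l : List ℤ} (h : l.all nn = true) : 0 ≤ ev s l := by
  induction l with
  | nil => exact le_rfl
  | cons a l ih =>
    simp only [List.all_cons, Bool.and_eq_true] at h
    have h1 := nn_le h.1
    have h2 := ih h.2
    rw [ev]
    exact add_nonneg h1 (mul_nonneg hs h2)

/-- **The check** on the box `a ≤ q x < b`, `a' ≤ q' y < b'`. -/
def chk (a b q a' b' q' : ℤ) (p : List (List ℤ)) : Bool :=
  (homR a' b' q' p).all (fun r => (hom1 a b q r).all nn)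

theorem ev2_rows {x t : ℝ} (ht : 0 ≤ t) {p : List (List ℤ)} (h : ∀ r ∈ p, 0 ≤ ev x r) : 0 ≤ ev2 x t p := by
  induction p with
  | nil => exact le_rfl
  | cons r p ih =>
    have h1 := h r (List.mem_cons_self ..)
    have h2 := ih (fun r hr => h r (List.mem_cons_of_mem _ hr))
    rw [ev2]
    exact add_nonneg h1 (mul_nonneg ht h2)

theorem exists_s {x : ℝ} {a b q : ℤ} (h1 : (a : ℝ) ≤ q * x) (h2 : q * x < b) :
    ∃ s : ℝ, 0 ≤ s ∧ (a : ℝ) + b * s = q * (1 + s) * x := by
  refine ⟨(q * x - a) / (b - q * x), div_nonneg (by linarith) (by linarith), ?_⟩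
  have : (b : ℝ) - q * x ≠ 0 := by linarith
  field_simp
  ring

theorem chk_sound {a b q a' b' q' : ℤ} {p : List (List ℤ)} (h : chk a b q a' b' q' p = true) {x y : ℝ}
    (hq : 0 < q) (hq' : 0 < q') (h1 : (a : ℝ) ≤ q * x) (h2 : q * x < b) (h3 : (a' : ℝ) ≤ q' * y)
    (h4 : q' * y < b') : 0 ≤ ev2 x y p := by
  obtain ⟨s, hs, es⟩ := exists_s h1 h2
  obtain ⟨t, ht, et⟩ := exists_s h3 h4
  have hqr : (0 : ℝ) < q := by exact_mod_cast hq
  have hqr' : (0 : ℝ) < q' := by exact_mod_cast hq'
  have hQ : 0 < (q : ℝ) * (1 + s) := by positivity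
  have hQ' : 0 < (q' : ℝ) * (1 + t) := by positivity
  have hr : ∀ r ∈ homR a' b' q' p, 0 ≤ ev x r := by
    intro r hr
    unfold chk at h
    rw [List.all_eq_true] at h
    have h5 := ev_nn hs (h r hr)
    have h6 := ev_hom1 es r
    have h7 : 0 ≤ (q * (1 + s)) ^ r.length * ev x r := by
      rw [← h6]; positivity
    exact nonneg_of_mul_nonneg_right h7 (by positivity)
  have h8 := ev2_rows ht hr
  have h9 := ev2_homR (x := x) et p
  have h10 : 0 ≤ (q' * (1 + t)) ^ p.length * ev2 x y p := by
    rw [← h9]; positivity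
  exact nonneg_of_mul_nonneg_right h10 (by positivity)

/-- the check for expressions -/
theorem PE.nonneg {a b q a' b' q' : ℤ} (e : PE) (h : chk a b q a' b' q' e.toL = true) {x y : ℝ}
    (hq : 0 < q) (hq' : 0 < q') (h1 : (a : ℝ) ≤ q * x) (h2 : q * x < b) (h3 : (a' : ℝ) ≤ q' * y)
    (h4 : q' * y < b') : 0 ≤ e.val x y := by
  rw [← PE.ev2_toL]
  exact chk_sound h hq hq' h1 h2 h3 h4

theorem PE.zero (e : PE) (h : zR e.toL = true) (x y : ℝ) : e.val x y = 0 := by
  rw [← PE.ev2_toL]
  exact ev2_zR h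

end LAY
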