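import Mathlib

/-!
# [LAY-D1] covering the plane by a reduced lattice (pure real statement)

`(a, 0)` and `(x, σ)` is a reduced basis of a plane lattice: `0 ≤ x ≤ a/2`, `a² ≤ x² + σ²`. Every point of the plane has squared distance `≤ σ²/2` from the lattice.
PROOF. `β := v/σ - ⌊v/σ⌋ ∈ [0,1)`, `j0 = ⌊v/σ⌋`, `α := fract ((u - (v/σ) x)/a)`, `i0 = ⌊(u - (v/σ) x)/a⌋`: then `u = (i0 + α) a + (j0 + β) x`, `v = (j0 + β) σ`. It is enough to find lattice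
points near `(α a + β x, β σ)` (add `i0`, `j0`).
 Case `α + β ≤ 1`: put `λ0 = 1-α-β`, `λ1 = α`, `λ2 = β` (`≥ 0`, sum 1), vertices `v0 = (0,0)`, `v1 = (a,0)`, `v2 = (x,σ)`, `P = λ1 v1 + λ2 v2`. Identity (ring):
 `λ0|P-v0|² + λ1|P-v1|² + λ2|P-v2|² = λ0λ1 a² + λ0λ2 (x²+σ²) + λ1λ2 ((a-x)²+σ²) = R² - |P-o|²`, with `o = (a/2, q)`, `q = (x²+σ²-a x)/(2σ)`, `R² = a²/4 + q²`. So if all three squared distances
 were `> σ²/2` we would get `σ²/2 < R²`. But `R² ≤ σ²/2`: multiply by `4σ²`, put `z = x(a-x) ≥ 0`, `S = σ²`: to show `a² S + (S - z)² ≤ 2S²`, i.e. `g(S) = S (S - a² + 2z) - z² ≥ 0`. Now `S ≥ a² - x²`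
 and `S - a² + 2z ≥ -x² + 2z = x(2a - 3x) ≥ 0`, so `g(S) ≥ (a²-x²) x (2a-3x) - x²(a-x)² = 2x(a-x)(a² - a x - x²) ≥ 0` since `x ≤ a/2`.
 Case `α + β > 1`: the same with the vertices `(a+x, σ)`, `(x, σ)`, `(a, 0)` and the weights `α+β-1`, `1-α`, `1-β` (point reflection of the first case: apply the first case to `α' = 1-α`,
 `β' = 1-β` and reflect in the centre of the parallelogram: `(i,j) ↦ (1-i, 1-j)`).
-/

set_option autoImplicit false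

namespace LAY

private theorem d1_key {a x σ : ℝ} (ha : 0 < a) (hx0 : 0 ≤ x) (hx : 2 * x ≤ a)
    (hr : a ^ 2 ≤ x ^ 2 + σ ^ 2) :
    σ ^ 2 * a ^ 2 + (x ^ 2 + σ ^ 2 - a * x) ^ 2 ≤ 2 * σ ^ 4 := by
  have h1 : 0 ≤ a ^ 2 - x ^ 2 := by nlinarith
  have h2 : a ^ 2 - x ^ 2 ≤ σ ^ 2 := by linarith
  have h3 : 0 ≤ x * (2 * a - 3 * x) := mul_nonneg hx0 (by linarith)
  have h4 : x * (2 * a - 3 * x) ≤ σ ^ 2 - a ^ 2 + 2 * (x * (a - x)) := by nlinarith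
  have h5 : (a ^ 2 - x ^ 2) * (x * (2 * a - 3 * x)) ≤
      σ ^ 2 * (σ ^ 2 - a ^ 2 + 2 * (x * (a - x))) :=
    mul_le_mul h2 h4 h3 (by positivity)
  have h6 : 0 ≤ a ^ 2 - a * x - x ^ 2 := by nlinarith
  have h7 : 0 ≤ 2 * (x * (a - x)) * (a ^ 2 - a * x - x ^ 2) :=
    mul_nonneg (mul_nonneg (by norm_num) (mul_nonneg hx0 (by linarith))) h6
  have h8 : (a ^ 2 - x ^ 2) * (x * (2 * a - 3 * x)) - (x * (a - x)) ^ 2 =
      2 * (x * (a - x)) * (a ^ 2 - a * x - x ^ 2) := by ring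
  have h9 : 2 * σ ^ 4 - (σ ^ 2 * a ^ 2 + (x ^ 2 + σ ^ 2 - a * x) ^ 2) =
      σ ^ 2 * (σ ^ 2 - a ^ 2 + 2 * (x * (a - x))) - (x * (a - x)) ^ 2 := by ring
  linarith

private theorem d1_tri {a x σ : ℝ} (ha : 0 < a) (hσ : 0 < σ) (hx0 : 0 ≤ x) (hx : 2 * x ≤ a)
    (hr : a ^ 2 ≤ x ^ 2 + σ ^ 2) (α β : ℝ) (hα : 0 ≤ α) (hβ : 0 ≤ β) (hαβ : α + β ≤ 1) :
    ∃ i j : ℤ, (α * a + β * x - i * a - j * x) ^ 2 + (β * σ - j * σ) ^ 2 ≤ σ ^ 2 / 2 := by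
  by_contra hcon
  push Not at hcon
  have e0 := hcon 0 0
  have e1 := hcon 1 0
  have e2 := hcon 0 1
  push_cast at e0 e1 e2
  have hid : 4 * σ ^ 2 * ((1 - α - β) * ((α * a + β * x - 0 * a - 0 * x) ^ 2 + (β * σ - 0 * σ) ^ 2) +
      α * ((α * a + β * x - 1 * a - 0 * x) ^ 2 + (β * σ - 0 * σ) ^ 2) +
      β * ((α * a + β * x - 0 * a - 1 * x) ^ 2 + (β * σ - 1 * σ) ^ 2)) =
      σ ^ 2 * a ^ 2 + (x ^ 2 + σ ^ 2 - a * x) ^ 2 - (2 * σ * (α * a + β * x) - σ * a) ^ 2 -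
      (2 * β * σ ^ 2 - (x ^ 2 + σ ^ 2 - a * x)) ^ 2 := by ring
  have hk := d1_key ha hx0 hx hr
  have hle : 4 * σ ^ 2 * ((1 - α - β) * ((α * a + β * x - 0 * a - 0 * x) ^ 2 + (β * σ - 0 * σ) ^ 2) +
      α * ((α * a + β * x - 1 * a - 0 * x) ^ 2 + (β * σ - 0 * σ) ^ 2) +
      β * ((α * a + β * x - 0 * a - 1 * x) ^ 2 + (β * σ - 1 * σ) ^ 2)) ≤ 4 * σ ^ 2 * (σ ^ 2 / 2) := by
    rw [hid]
    nlinarith [sq_nonneg (2 * σ * (α * a + β * x) - σ * a),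
      sq_nonneg (2 * β * σ ^ 2 - (x ^ 2 + σ ^ 2 - a * x))]
  have hle2 := le_of_mul_le_mul_left hle (by positivity)
  have g0 : (1 - α - β) * (σ ^ 2 / 2) ≤
      (1 - α - β) * ((α * a + β * x - 0 * a - 0 * x) ^ 2 + (β * σ - 0 * σ) ^ 2) :=
    mul_le_mul_of_nonneg_left e0.le (by linarith)
  have g1 : α * (σ ^ 2 / 2) ≤ α * ((α * a + β * x - 1 * a - 0 * x) ^ 2 + (β * σ - 0 * σ) ^ 2) :=
    mul_le_mul_of_nonneg_left e1.le hα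
  have g2 : β * (σ ^ 2 / 2) ≤ β * ((α * a + β * x - 0 * a - 1 * x) ^ 2 + (β * σ - 1 * σ) ^ 2) :=
    mul_le_mul_of_nonneg_left e2.le hβ
  rcases eq_or_lt_of_le hα with hα0 | hα0
  · rcases eq_or_lt_of_le hβ with hβ0 | hβ0
    · rw [← hα0, ← hβ0] at hle2 e0
      linarith
    · have g3 := mul_lt_mul_of_pos_left e2 hβ0
      linarith
  · have g3 := mul_lt_mul_of_pos_left e1 hα0
    linarith

theorem plane_red {a x σ : ℝ} (ha : 0 < a) (hσ : 0 < σ) (hx0 : 0 ≤ x) (hx : 2 * x ≤ a)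
    (hr : a ^ 2 ≤ x ^ 2 + σ ^ 2) (u v : ℝ) :
    ∃ i j : ℤ, (u - i * a - j * x) ^ 2 + (v - j * σ) ^ 2 ≤ σ ^ 2 / 2 := by
  set j0 : ℤ := ⌊v / σ⌋ with hj0
  set i0 : ℤ := ⌊(u - (v / σ) * x) / a⌋ with hi0
  set β : ℝ := Int.fract (v / σ) with hβ
  set α : ℝ := Int.fract ((u - (v / σ) * x) / a) with hα
  have hβ1 : (j0 : ℝ) + β = v / σ := Int.floor_add_fract _
  have hα1 : (i0 : ℝ) + α = (u - (v / σ) * x) / a := Int.floor_add_fract _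
  have hv : v = (j0 + β) * σ := by
    rw [hβ1]
    field_simp
  have hu : u = (i0 + α) * a + (j0 + β) * x := by
    rw [hα1, hβ1]
    field_simp
    ring
  have b0 : 0 ≤ β := Int.fract_nonneg _
  have b1 : β < 1 := Int.fract_lt_one _
  have a0 : 0 ≤ α := Int.fract_nonneg _
  have a1 : α < 1 := Int.fract_lt_one _
  clear_value α β i0 j0
  rcases le_or_gt (α + β) 1 with hle | hgt
  · obtain ⟨i, j, hij⟩ := d1_tri ha hσ hx0 hx hr α β a0 b0 hle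
    refine ⟨i0 + i, j0 + j, ?_⟩
    rw [hu, hv]
    push_cast
    calc _ = (α * a + β * x - i * a - j * x) ^ 2 + (β * σ - j * σ) ^ 2 := by ring
      _ ≤ _ := hij
  · obtain ⟨i, j, hij⟩ := d1_tri ha hσ hx0 hx hr (1 - α) (1 - β) (by linarith) (by linarith)
      (by linarith)
    refine ⟨i0 + (1 - i), j0 + (1 - j), ?_⟩
    rw [hu, hv]
    push_cast
    calc _ = ((1 - α) * a + (1 - β) * x - i * a - j * x) ^ 2 + ((1 - β) * σ - j * σ) ^ 2 := by ring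
      _ ≤ _ := hij

end LAY
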