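import Pool.Agent.TPC.G2
import Pool.Agent.TPC.K1

/-!
# [LAY-D2] a shortest vector of the dual lattice

`Dual b` is the dual lattice of `Lat b` (`b` a basis of `E3`: `TPC.dt b ≠ 0`, `TPC.g1_lin`, `TPC.g1_B`).
`exists_dual`: PROOF. (1) `Dual b` contains a nonzero vector: the functional `x ↦ ` first coordinate with respect to the basis `b` is `⟪w0, ·⟫` for some `w0` (Riesz: `InnerProductSpace.toDual`, or Cramer), it is
integral on `Lat b` (`TPC.mem_Lat`) and `⟪w0, b 0⟫ = 1`. (2) For `M > 0` the set `{w ∈ Dual b | ‖w‖ ≤ M}` is finite: `w ↦ (k_i)_i` with `⟪w, b i⟫ = k_i ∈ ℤ` is injective (`b` spans `E3`: a vector orthogonal to all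
`b i` is `0`) and `|k_i| ≤ M ‖b i‖` leaves finitely many values. So a nonzero `w ∈ Dual b` of minimal norm exists (`Set.exists_min_image` on the finite nonempty set `{w ∈ Dual b | w ≠ 0 ∧ ‖w‖ ≤ ‖w0‖}`).
(3) The set `{k : ℤ | ∃ x ∈ Lat b, ⟪w, x⟫ = k}` is a subgroup of `ℤ`, so it is `d ℤ` with `d ≥ 0` (`Int.subgroup_cyclic`, or choose its least positive element); `d ≠ 0` since `w ≠ 0` and `b` spans. If `d ≥ 2` then
`(1/d) • w ∈ Dual b` is nonzero and shorter than `w`: contradiction. So `d = 1`: there is `v ∈ Lat b` with `⟪w, v⟫ = 1`.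
-/

set_option autoImplicit false

open MeasureTheory Real
open scoped InnerProductSpace

namespace LAY

open BccCov BccO TPC

/-- the dual lattice of `Lat b` -/
def Dual (b : Fin 3 → E3) : Set E3 := {w | ∀ x ∈ Lat b, ∃ k : ℤ, ⟪w, x⟫_ℝ = k}

theorem d2_floor {b : Fin 3 → E3} {w : E3} (hw : w ∈ Dual b) (i : Fin 3) :
    ((⌊⟪w, b i⟫_ℝ⌋ : ℤ) : ℝ) = ⟪w, b i⟫_ℝ := by
  obtain ⟨k, hk⟩ := hw (b i) (Submodule.subset_span ⟨i, rfl⟩)
  rw [hk, Int.floor_intCast]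

theorem d2_ext {b : Fin 3 → E3} (hb : dt b ≠ 0) {w w' : E3}
    (h : ∀ i, ⟪w, b i⟫_ℝ = ⟪w', b i⟫_ℝ) : w = w' := by
  apply InnerProductSpace.ext_inner_right_basis (g1_B hb)
  intro i
  rw [g1_B_coe]
  exact h i

theorem d2_finite {b : Fin 3 → E3} (hb : dt b ≠ 0) (M : ℝ) :
    {w : E3 | w ∈ Dual b ∧ w ≠ 0 ∧ ‖w‖ ≤ M}.Finite := by
  apply Set.Finite.of_injOn (f := fun w : E3 => fun i : Fin 3 => ⌊⟪w, b i⟫_ℝ⌋)
    (t := Set.Icc (fun i => -⌈M * ‖b i‖⌉) (fun i => ⌈M * ‖b i‖⌉))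
  · intro w hw
    obtain ⟨hw1, -, hw3⟩ := hw
    have h : ∀ i, |⟪w, b i⟫_ℝ| ≤ M * ‖b i‖ := fun i =>
      (abs_real_inner_le_norm w (b i)).trans
        (mul_le_mul_of_nonneg_right hw3 (norm_nonneg _))
    refine ⟨fun i => ?_, fun i => ?_⟩
    · show -⌈M * ‖b i‖⌉ ≤ ⌊⟪w, b i⟫_ℝ⌋
      rw [Int.le_floor]
      push_cast
      have h1 := (abs_le.1 (h i)).1
      have h2 := Int.le_ceil (M * ‖b i‖)
      linarith
    · show ⌊⟪w, b i⟫_ℝ⌋ ≤ ⌈M * ‖b i‖⌉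
      have h1 := (abs_le.1 (h i)).2
      have h2 := Int.le_ceil (M * ‖b i‖)
      have h3 := Int.floor_le ⟪w, b i⟫_ℝ
      have h4 : ((⌊⟪w, b i⟫_ℝ⌋ : ℤ) : ℝ) ≤ ((⌈M * ‖b i‖⌉ : ℤ) : ℝ) := by linarith
      exact_mod_cast h4
  · intro w hw w' hw' h
    apply d2_ext hb
    intro i
    have h1 := congrFun h i
    simp only at h1
    rw [← d2_floor hw.1 i, ← d2_floor hw'.1 i, h1]
  · exact Set.finite_Icc _ _

theorem d2_nonzero {b : Fin 3 → E3} (hb : dt b ≠ 0) : ∃ w : E3, w ∈ Dual b ∧ w ≠ 0 := by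
  set f : E3 →L[ℝ] ℝ := LinearMap.toContinuousLinearMap ((g1_B hb).coord 0) with hf
  refine ⟨(InnerProductSpace.toDual ℝ E3).symm f, ?_, ?_⟩
  · intro x hx
    obtain ⟨n, hn⟩ := mem_Lat.mp hx
    refine ⟨n 0, ?_⟩
    rw [InnerProductSpace.toDual_symm_apply, hf]
    show (g1_B hb).coord 0 x = n 0
    rw [hn]
    have hbi : ∀ i, b i = g1_B hb i := fun i => by rw [g1_B_coe]
    simp only [hbi, map_sum, map_smul, smul_eq_mul, Module.Basis.coord_apply,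
      Module.Basis.repr_self]
    rw [Fin.sum_univ_three]
    simp
  · intro h
    have h1 : ⟪(InnerProductSpace.toDual ℝ E3).symm f, b 0⟫_ℝ = 1 := by
      rw [InnerProductSpace.toDual_symm_apply, hf]
      show (g1_B hb).coord 0 (b 0) = 1
      have hbi : b 0 = g1_B hb 0 := by rw [g1_B_coe]
      rw [hbi, Module.Basis.coord_apply, Module.Basis.repr_self]
      simp
    rw [h, inner_zero_left] at h1
    exact zero_ne_one h1

/-- the values of `⟪w, ·⟫` on the lattice -/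
def d2_H (b : Fin 3 → E3) (w : E3) : AddSubgroup ℤ where
  carrier := {k | ∃ x ∈ Lat b, ⟪w, x⟫_ℝ = k}
  zero_mem' := ⟨0, (Lat b).zero_mem, by simp⟩
  add_mem' := by
    rintro k l ⟨x, hx, hk⟩ ⟨y, hy, hl⟩
    exact ⟨x + y, (Lat b).add_mem hx hy, by rw [inner_add_right, hk, hl]; push_cast; ring⟩
  neg_mem' := by
    rintro k ⟨x, hx, hk⟩
    exact ⟨-x, (Lat b).neg_mem hx, by rw [inner_neg_right, hk]; push_cast; ring⟩

theorem exists_dual {b : Fin 3 → E3} (hb : dt b ≠ 0) : ∃ w v : E3, w ≠ 0 ∧ w ∈ Dual b ∧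
    (∀ u ∈ Dual b, u ≠ 0 → ‖w‖ ≤ ‖u‖) ∧ v ∈ Lat b ∧ ⟪w, v⟫_ℝ = 1 := by
  obtain ⟨w0, hw0, hw0'⟩ := d2_nonzero hb
  obtain ⟨w, ⟨hwD, hw, hwn⟩, hmin⟩ := Set.exists_min_image _ (fun w : E3 => ‖w‖)
    (d2_finite hb ‖w0‖) ⟨w0, hw0, hw0', le_rfl⟩
  have hmin' : ∀ u ∈ Dual b, u ≠ 0 → ‖w‖ ≤ ‖u‖ := by
    intro u hu hu0
    rcases le_or_gt ‖u‖ ‖w0‖ with h | h
    · exact hmin u ⟨hu, hu0, h⟩
    · exact hwn.trans h.le
  obtain ⟨a, ha⟩ := Int.subgroup_cyclic (d2_H b w)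
  have hmem : ∀ k : ℤ, (∃ x ∈ Lat b, ⟪w, x⟫_ℝ = k) ↔ ∃ n : ℤ, n • a = k := by
    intro k
    have h1 : k ∈ d2_H b w ↔ ∃ n : ℤ, n • a = k := by
      rw [ha]; exact AddSubgroup.mem_closure_singleton
    exact h1
  obtain ⟨v0, hv0, hv0'⟩ := (hmem a).2 ⟨1, one_smul _ _⟩
  have ha0 : a ≠ 0 := by
    intro ha0
    apply hw
    apply d2_ext hb
    intro i
    obtain ⟨k, hk⟩ := hwD (b i) (Submodule.subset_span ⟨i, rfl⟩)
    obtain ⟨n, hn⟩ := (hmem k).1 ⟨b i, Submodule.subset_span ⟨i, rfl⟩, hk⟩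
    rw [hk, inner_zero_left, ← hn, ha0]
    simp
  have haR : (a : ℝ) ≠ 0 := by exact_mod_cast ha0
  have hw1 : ((1 / (a : ℝ)) • w) ∈ Dual b := by
    intro x hx
    obtain ⟨k, hk⟩ := hwD x hx
    obtain ⟨n, hn⟩ := (hmem k).1 ⟨x, hx, hk⟩
    refine ⟨n, ?_⟩
    rw [real_inner_smul_left, hk, ← hn]
    push_cast [smul_eq_mul]
    field_simp
  have h2 := hmin' _ hw1 (smul_ne_zero (by positivity) hw)
  rw [norm_smul, norm_div, norm_one, Real.norm_eq_abs] at h2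
  have hwpos : 0 < ‖w‖ := norm_pos_iff.2 hw
  have hapos : 0 < |(a : ℝ)| := abs_pos.2 haR
  have h3 : |(a : ℝ)| ≤ 1 := by
    by_contra hcon
    push Not at hcon
    have h4 : 1 / |(a : ℝ)| < 1 := by
      rw [div_lt_one hapos]; exact hcon
    nlinarith
  have h4 : |a| ≤ 1 := by exact_mod_cast h3
  have h5 : a * a = 1 := by
    have h6 : a = 1 ∨ a = -1 := by
      rw [abs_le] at h4
      omega
    rcases h6 with h6 | h6 <;> rw [h6] <;> norm_num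
  refine ⟨w, (a : ℝ) • v0, hw, hwD, hmin', ?_, ?_⟩
  · rw [Int.cast_smul_eq_zsmul]
    exact (Lat b).smul_mem a hv0
  · rw [real_inner_smul_right, hv0']
    exact_mod_cast h5

end LAY
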