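import Pool.Agent.LAY.D2

/-!
# [LAY-D3] a reduced basis of the lattice plane orthogonal to `w`

PROOF. `M := {x ∈ Lat b | ⟪w, x⟫ = 0}`. It contains two ℝ-independent vectors: the vectors `b i - ⟪w, b i⟫ • v ∈ M` (`⟪w, b i⟫ ∈ ℤ`) together with `v` span `E3`, so not all of them are multiples of one vector
(dimension 3). By local finiteness of `Lat b` (`TPC.g1_fin hb 0 R`) there is `a ∈ M`, `a ≠ 0`, of minimal norm, and `c ∈ M` which is not a real multiple of `a` (`∀ r : ℝ, c ≠ r • a`) of minimal norm among those.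
Replacing `c` by `-c` we may assume `0 ≤ ⟪a, c⟫`. `‖a‖ ≤ ‖c‖` (`c ≠ 0`, minimality of `a`). `2⟪a,c⟫ ≤ ‖a‖²`: `c - a ∈ M` is not a multiple of `a`, so `‖c‖² ≤ ‖c - a‖² = ‖c‖² - 2⟪a,c⟫ + ‖a‖²`.
Basis: let `x ∈ Lat b`, `⟪w, x⟫ = k ∈ ℤ`, `m := x - k v ∈ M`. `m` is orthogonal to `w`, and `a, c` span the orthogonal plane (independent, dimension 2; or: `a, c, v` are three independent vectors of `E3`, so
`m = α a + γ c + κ v` and `⟪w, m⟫ = κ = 0`): `m = α a + γ c`. Let `i = round α`, `j = round γ`, `m' = m - i a - j c = α' a + γ' c`, `|α'|, |γ'| ≤ 1/2`. If `γ' ≠ 0` then `m' ∈ M` is not a multiple of `a`, but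
`‖m'‖² = α'²‖a‖² + 2α'γ'⟪a,c⟫ + γ'²‖c‖² ≤ ‖a‖²/4 + ‖a‖²/4 + ‖c‖²/4 ≤ (3/4)‖c‖² < ‖c‖²`, contradiction. So `γ' = 0`, and `‖m'‖ = |α'| ‖a‖ < ‖a‖` gives `m' = 0` by minimality of `a`.
-/

set_option autoImplicit false

open MeasureTheory Real
open scoped InnerProductSpace

namespace LAY

open BccCov BccO TPC

theorem d3_min {b : Fin 3 → E3} (hb : dt b ≠ 0) (P : E3 → Prop) (h : ∃ x ∈ Lat b, P x) :
    ∃ x ∈ Lat b, P x ∧ ∀ y ∈ Lat b, P y → ‖x‖ ≤ ‖y‖ := by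
  obtain ⟨x0, hx0, hP0⟩ := h
  have hfin : {x : E3 | x ∈ Lat b ∧ P x ∧ ‖x‖ ≤ ‖x0‖}.Finite := by
    apply (g1_fin hb 0 ‖x0‖).subset
    rintro x ⟨hx, -, hn⟩
    refine ⟨?_, ?_⟩
    · show x - 0 ∈ Lat b
      rw [sub_zero]; exact hx
    · rw [Metric.mem_closedBall, dist_zero_right]; exact hn
  obtain ⟨x, ⟨hx, hP, hn⟩, hmin⟩ := Set.exists_min_image _ (fun x : E3 => ‖x‖) hfin
    ⟨x0, hx0, hP0, le_rfl⟩
  refine ⟨x, hx, hP, fun y hy hPy => ?_⟩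
  rcases le_or_gt ‖y‖ ‖x0‖ with h | h
  · exact hmin y ⟨hy, hPy, h⟩
  · exact hn.trans h.le

theorem d3_two {b : Fin 3 → E3} (hb : dt b ≠ 0) {w v : E3} (a : E3) :
    ∃ i, ∀ r : ℝ, b i - ⟪w, b i⟫_ℝ • v ≠ r • a := by
  by_contra hcon
  push Not at hcon
  choose r hr using hcon
  have hsp : Submodule.span ℝ (Set.range b) ≤ Submodule.span ℝ ({a, v} : Set E3) := by
    rw [Submodule.span_le]
    rintro _ ⟨i, rfl⟩
    have h1 : b i = r i • a + ⟪w, b i⟫_ℝ • v := by rw [← hr i]; abel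
    rw [h1]
    exact Submodule.add_mem _ (Submodule.smul_mem _ _ (Submodule.subset_span (by simp)))
      (Submodule.smul_mem _ _ (Submodule.subset_span (by simp)))
  have htop : Submodule.span ℝ (Set.range b) = ⊤ := by
    rw [← g1_B_coe hb]; exact (g1_B hb).span_eq
  rw [htop, top_le_iff] at hsp
  have h1 : Module.finrank ℝ (Submodule.span ℝ ({a, v} : Set E3)) ≤ 2 := by
    have h2 := finrank_span_finset_le_card (R := ℝ) ({a, v} : Finset E3)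
    have h3 : (({a, v} : Finset E3) : Set E3) = {a, v} := by push_cast; rfl
    rw [Set.finrank, h3] at h2
    exact h2.trans Finset.card_le_two
  rw [hsp, finrank_top] at h1
  have h2 : Module.finrank ℝ E3 = 3 := by simp
  omega

theorem exists_plane {b : Fin 3 → E3} (hb : dt b ≠ 0) {w v : E3} (hw : w ≠ 0) (hwD : w ∈ Dual b)
    (hv : v ∈ Lat b) (hwv : ⟪w, v⟫_ℝ = 1) :
    ∃ a c : E3, a ∈ Lat b ∧ c ∈ Lat b ∧ ⟪w, a⟫_ℝ = 0 ∧ ⟪w, c⟫_ℝ = 0 ∧ a ≠ 0 ∧ (∀ r : ℝ, c ≠ r • a) ∧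
      0 ≤ ⟪a, c⟫_ℝ ∧ 2 * ⟪a, c⟫_ℝ ≤ ‖a‖ ^ 2 ∧ ‖a‖ ≤ ‖c‖ ∧
      ∀ x ∈ Lat b, ∃ i j k : ℤ, x = (i : ℝ) • a + (j : ℝ) • c + (k : ℝ) • v := by
  have hzs : ∀ (k : ℤ) {x : E3}, x ∈ Lat b → (k : ℝ) • x ∈ Lat b := by
    intro k x hx
    rw [Int.cast_smul_eq_zsmul]
    exact (Lat b).smul_mem k hx
  have hm : ∀ i, b i - ⟪w, b i⟫_ℝ • v ∈ Lat b ∧ ⟪w, b i - ⟪w, b i⟫_ℝ • v⟫_ℝ = 0 := by
    intro i
    have hbi : b i ∈ Lat b := Submodule.subset_span ⟨i, rfl⟩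
    obtain ⟨k, hk⟩ := hwD (b i) hbi
    refine ⟨?_, ?_⟩
    · rw [hk]; exact (Lat b).sub_mem hbi (hzs k hv)
    · rw [inner_sub_right, real_inner_smul_right, hwv]; ring
  obtain ⟨a, haL, ⟨hwa, ha0⟩, hamin⟩ := d3_min hb (fun x => ⟪w, x⟫_ℝ = 0 ∧ x ≠ 0) (by
    obtain ⟨i, hi⟩ := d3_two hb (w := w) (v := v) 0
    exact ⟨_, (hm i).1, (hm i).2, by simpa using hi 0⟩)
  obtain ⟨c, hcL, ⟨hwc, hca⟩, hcmin⟩ := d3_min hb (fun x => ⟪w, x⟫_ℝ = 0 ∧ ∀ r : ℝ, x ≠ r • a) (by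
    obtain ⟨i, hi⟩ := d3_two hb (w := w) (v := v) a
    exact ⟨_, (hm i).1, (hm i).2, hi⟩)
  -- choose the sign of `c`
  obtain ⟨c, hcL, hwc, hca, hcmin, hac⟩ : ∃ c ∈ Lat b, ⟪w, c⟫_ℝ = 0 ∧ (∀ r : ℝ, c ≠ r • a) ∧
      (∀ y ∈ Lat b, ⟪w, y⟫_ℝ = 0 → (∀ r : ℝ, y ≠ r • a) → ‖c‖ ≤ ‖y‖) ∧ 0 ≤ ⟪a, c⟫_ℝ := by
    rcases le_or_gt 0 ⟪a, c⟫_ℝ with h | h
    · exact ⟨c, hcL, hwc, hca, fun y hy h1 h2 => hcmin y hy ⟨h1, h2⟩, h⟩
    · refine ⟨-c, (Lat b).neg_mem hcL, by rw [inner_neg_right, hwc, neg_zero], ?_, ?_, ?_⟩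
      · intro r hr
        apply hca (-r)
        rw [neg_smul, ← hr, neg_neg]
      · intro y hy h1 h2
        rw [norm_neg]; exact hcmin y hy ⟨h1, h2⟩
      · rw [inner_neg_right]; linarith
  have hc0 : c ≠ 0 := fun h => hca 0 (by rw [h, zero_smul])
  have hacn : ‖a‖ ≤ ‖c‖ := hamin c hcL ⟨hwc, hc0⟩
  have h2ac : 2 * ⟪a, c⟫_ℝ ≤ ‖a‖ ^ 2 := by
    have h1 : ‖c‖ ≤ ‖c - a‖ := by
      apply hcmin (c - a) ((Lat b).sub_mem hcL haL)
      · rw [inner_sub_right, hwc, hwa, sub_zero]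
      · intro r hr
        apply hca (r + 1)
        rw [add_smul, one_smul, ← hr]; abel
    have h2 : ‖c - a‖ ^ 2 = ‖c‖ ^ 2 - 2 * ⟪c, a⟫_ℝ + ‖a‖ ^ 2 := norm_sub_sq_real c a
    have h3 : ‖c‖ ^ 2 ≤ ‖c - a‖ ^ 2 := pow_le_pow_left₀ (norm_nonneg _) h1 2
    rw [real_inner_comm a c] at h2
    linarith
  refine ⟨a, c, haL, hcL, hwa, hwc, ha0, hca, hac, h2ac, hacn, ?_⟩
  -- `a, c, v` are independent
  have hli : LinearIndependent ℝ ![a, c, v] := by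
    rw [Fintype.linearIndependent_iff]
    intro g hg
    rw [Fin.sum_univ_three] at hg
    simp only [Matrix.cons_val_zero, Matrix.cons_val_one, Matrix.cons_val] at hg
    have h1 : g 2 = 0 := by
      have h2 : ⟪w, g 0 • a + g 1 • c + g 2 • v⟫_ℝ = 0 := by rw [hg, inner_zero_right]
      rw [inner_add_right, inner_add_right, real_inner_smul_right, real_inner_smul_right,
        real_inner_smul_right, hwa, hwc, hwv] at h2
      linarith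
    rw [h1, zero_smul, add_zero] at hg
    have h2 : g 1 = 0 := by
      by_contra hcon
      apply hca (-(g 0) / g 1)
      have h3 : g 1 • c = -(g 0) • a := by
        rw [neg_smul]; exact eq_neg_of_add_eq_zero_right hg
      rw [div_eq_inv_mul, mul_smul, ← h3, smul_smul, inv_mul_cancel₀ hcon, one_smul]
    rw [h2, zero_smul, add_zero] at hg
    have h3 : g 0 = 0 := (smul_eq_zero.1 hg).resolve_right ha0
    intro i
    fin_cases i
    · exact h3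
    · exact h2
    · exact h1
  set β := basisOfLinearIndependentOfCardEqFinrank hli (by simp) with hβ
  have hβc : ⇑β = ![a, c, v] := coe_basisOfLinearIndependentOfCardEqFinrank _ _
  have hspan : ∀ m : E3, ⟪w, m⟫_ℝ = 0 → ∃ α γ : ℝ, m = α • a + γ • c := by
    intro m hm0
    have h1 := β.sum_repr m
    rw [Fin.sum_univ_three, hβc] at h1
    simp only [Matrix.cons_val_zero, Matrix.cons_val_one, Matrix.cons_val] at h1
    have h2 : β.repr m 2 = 0 := by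
      have h3 : ⟪w, β.repr m 0 • a + β.repr m 1 • c + β.repr m 2 • v⟫_ℝ = 0 := by rw [h1, hm0]
      rw [inner_add_right, inner_add_right, real_inner_smul_right, real_inner_smul_right,
        real_inner_smul_right, hwa, hwc, hwv] at h3
      linarith
    rw [h2, zero_smul, add_zero] at h1
    exact ⟨_, _, h1.symm⟩
  intro x hx
  obtain ⟨k, hk⟩ := hwD x hx
  have hmL : x - (k : ℝ) • v ∈ Lat b := (Lat b).sub_mem hx (hzs k hv)
  have hm0 : ⟪w, x - (k : ℝ) • v⟫_ℝ = 0 := by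
    rw [inner_sub_right, real_inner_smul_right, hk, hwv]; ring
  obtain ⟨α, γ, hαγ⟩ := hspan _ hm0
  refine ⟨round α, round γ, k, ?_⟩
  have hα := abs_sub_round α
  have hγ := abs_sub_round γ
  set α' : ℝ := α - round α with hα'
  set γ' : ℝ := γ - round γ with hγ'
  set m' : E3 := α' • a + γ' • c with hm'
  have hm'2 : m' = (x - (k : ℝ) • v) - ((round α : ℤ) : ℝ) • a - ((round γ : ℤ) : ℝ) • c := by
    rw [hαγ, hm', hα', hγ', sub_smul, sub_smul]; abel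
  have hm'L : m' ∈ Lat b := by
    rw [hm'2]
    exact (Lat b).sub_mem ((Lat b).sub_mem hmL (hzs _ haL)) (hzs _ hcL)
  have hwm' : ⟪w, m'⟫_ℝ = 0 := by
    rw [hm', inner_add_right, real_inner_smul_right, real_inner_smul_right, hwa, hwc]; ring
  have hcpos : 0 < ‖c‖ := norm_pos_iff.2 hc0
  have hapos : 0 < ‖a‖ := norm_pos_iff.2 ha0
  have hγ0 : γ' = 0 := by
    by_contra hcon
    have h1 : ‖c‖ ≤ ‖m'‖ := by
      apply hcmin m' hm'L hwm'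
      intro r hr
      apply hca ((r - α') / γ')
      have h3 : γ' • c = (r - α') • a := by
        rw [sub_smul r α' a, ← hr, hm']; abel
      rw [div_eq_inv_mul, mul_smul, ← h3, smul_smul, inv_mul_cancel₀ hcon, one_smul]
    have h2 : ‖m'‖ ^ 2 = α' ^ 2 * ‖a‖ ^ 2 + 2 * (α' * γ') * ⟪a, c⟫_ℝ + γ' ^ 2 * ‖c‖ ^ 2 := by
      rw [hm', norm_add_sq_real, norm_smul, norm_smul, real_inner_smul_left,
        real_inner_smul_right, Real.norm_eq_abs, Real.norm_eq_abs, mul_pow, mul_pow, sq_abs,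
        sq_abs]
      ring
    have h3 : α' ^ 2 ≤ 1 / 4 := by nlinarith [abs_le.1 hα]
    have h4 : γ' ^ 2 ≤ 1 / 4 := by nlinarith [abs_le.1 hγ]
    have h5 : α' * γ' ≤ 1 / 4 := by nlinarith [sq_nonneg (α' - γ')]
    have h6 : 2 * (α' * γ') * ⟪a, c⟫_ℝ ≤ ‖a‖ ^ 2 / 4 := by nlinarith
    have h7 : ‖a‖ ^ 2 ≤ ‖c‖ ^ 2 := pow_le_pow_left₀ hapos.le hacn 2
    have h8 : ‖c‖ ^ 2 ≤ ‖m'‖ ^ 2 := pow_le_pow_left₀ hcpos.le h1 2
    have h9 : 0 < ‖c‖ ^ 2 := by positivity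
    nlinarith [mul_le_mul_of_nonneg_right h3 (sq_nonneg ‖a‖),
      mul_le_mul_of_nonneg_right h4 (sq_nonneg ‖c‖)]
  have hm'a : m' = α' • a := by rw [hm', hγ0, zero_smul, add_zero]
  have hm'0 : m' = 0 := by
    by_contra hcon
    have h1 := hamin m' hm'L ⟨hwm', hcon⟩
    rw [hm'a, norm_smul, Real.norm_eq_abs] at h1
    nlinarith
  rw [hm'0] at hm'2
  have h1 : x = (((round α : ℤ) : ℝ) • a + ((round γ : ℤ) : ℝ) • c + (k : ℝ) • v) +
      ((x - (k : ℝ) • v) - ((round α : ℤ) : ℝ) • a - ((round γ : ℤ) : ℝ) • c) := by abel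
  rw [← hm'2, add_zero] at h1
  exact h1

end LAY
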