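import Pool.Agent.LAY.D3

/-!
# [LAY-D4] the distance of the lattice lines in the plane

Let `e := c - (⟪a,c⟫/‖a‖²) • a` (orthogonal to `a` and to `w`, not zero). `onb3`: for three pairwise orthogonal nonzero vectors `a, e, w` of `E3` and every `x`:
`‖x‖² = ⟪x,a⟫²/‖a‖² + ⟪x,e⟫²/‖e‖² + ⟪x,w⟫²/‖w‖²`. PROOF: the normalised vectors are orthonormal, so they form an orthonormal basis (`OrthonormalBasis.mk`/`basisOfOrthonormalOfCardEqFinrank`,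
`OrthonormalBasis.sum_sq_norm_inner_left` or similar).
`sigma_le`: PROOF. Let `u ∈ E3` be the vector with `⟪u,a⟫ = 0`, `⟪u,c⟫ = 1`, `⟪u,w⟫ = 0`: `u := (1/‖e‖²) • e` (`⟪e,c⟫ = ‖e‖²` since `e ⊥ a`). Let `κ := ⟪u,v⟫` (a real number) and `u1 := u - κ • w`: `⟪u1,a⟫ = 0`, `⟪u1,c⟫ = 1`,
`⟪u1,v⟫ = κ - κ⟪w,v⟫ = 0`. So `u1 ∈ Dual b` by `hbas` (`⟪u1, i a + j c + k v⟫ = j`). For every integer `n`, `u1 + n w ∈ Dual b` (`w ∈ Dual b`) and it is nonzero (`⟪·, c⟫ = 1`). Choose `n = round κ`: `u2 = u + (n - κ) • w`, with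
`|n - κ| ≤ 1/2`. Then `‖w‖² ≤ ‖u2‖² = ‖u‖² + (n-κ)²‖w‖² ≤ 1/‖e‖² + ‖w‖²/4` (`u ⊥ w`, `‖u‖ = 1/‖e‖`). Hence `(3/4)‖w‖² ≤ 1/‖e‖²`, i.e. `‖e‖²‖w‖² ≤ 4/3`.
-/

set_option autoImplicit false

open MeasureTheory Real
open scoped InnerProductSpace

namespace LAY

open BccCov BccO TPC

theorem onb3 {a e w : E3} (ha : a ≠ 0) (he : e ≠ 0) (hw : w ≠ 0) (h1 : ⟪a, e⟫_ℝ = 0)
    (h2 : ⟪a, w⟫_ℝ = 0) (h3 : ⟪e, w⟫_ℝ = 0) (x : E3) :
    ‖x‖ ^ 2 = ⟪x, a⟫_ℝ ^ 2 / ‖a‖ ^ 2 + ⟪x, e⟫_ℝ ^ 2 / ‖e‖ ^ 2 + ⟪x, w⟫_ℝ ^ 2 / ‖w‖ ^ 2 := by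
  have hna : ‖a‖ ≠ 0 := norm_ne_zero_iff.2 ha
  have hne : ‖e‖ ≠ 0 := norm_ne_zero_iff.2 he
  have hnw : ‖w‖ ≠ 0 := norm_ne_zero_iff.2 hw
  have h1' : ⟪e, a⟫_ℝ = 0 := by rw [real_inner_comm]; exact h1
  have h2' : ⟪w, a⟫_ℝ = 0 := by rw [real_inner_comm]; exact h2
  have h3' : ⟪w, e⟫_ℝ = 0 := by rw [real_inner_comm]; exact h3
  let f : Fin 3 → E3 := ![‖a‖⁻¹ • a, ‖e‖⁻¹ • e, ‖w‖⁻¹ • w]
  have hon : Orthonormal ℝ f := by
    constructor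
    · intro i
      fin_cases i
      · show ‖‖a‖⁻¹ • a‖ = 1
        rw [norm_smul, norm_inv, norm_norm, inv_mul_cancel₀ hna]
      · show ‖‖e‖⁻¹ • e‖ = 1
        rw [norm_smul, norm_inv, norm_norm, inv_mul_cancel₀ hne]
      · show ‖‖w‖⁻¹ • w‖ = 1
        rw [norm_smul, norm_inv, norm_norm, inv_mul_cancel₀ hnw]
    · intro i j hij
      fin_cases i <;> fin_cases j <;> first
        | exact absurd rfl hij
        | simp [f, real_inner_smul_left, real_inner_smul_right, h1, h2, h3, h1', h2', h3']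
  let B : OrthonormalBasis (Fin 3) ℝ E3 :=
    (basisOfOrthonormalOfCardEqFinrank hon (by simp)).toOrthonormalBasis (by
      rw [coe_basisOfOrthonormalOfCardEqFinrank]
      exact hon)
  have hB : ∀ i, B i = f i := by
    intro i
    simp [B]
  have h := B.sum_sq_norm_inner_right x
  rw [← h, Fin.sum_univ_three, hB, hB, hB]
  have e0 : f 0 = ‖a‖⁻¹ • a := rfl
  have e1 : f 1 = ‖e‖⁻¹ • e := rfl
  have e2 : f 2 = ‖w‖⁻¹ • w := rfl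
  rw [e0, e1, e2, real_inner_smul_left, real_inner_smul_left, real_inner_smul_left,
    real_inner_comm x a, real_inner_comm x e, real_inner_comm x w, Real.norm_eq_abs,
    Real.norm_eq_abs, Real.norm_eq_abs, sq_abs, sq_abs, sq_abs]
  field_simp

theorem sigma_le {b : Fin 3 → E3} {w v a c : E3} (hw : w ≠ 0) (hwD : w ∈ Dual b)
    (hmin : ∀ u ∈ Dual b, u ≠ 0 → ‖w‖ ≤ ‖u‖) (hwv : ⟪w, v⟫_ℝ = 1)
    (hwa : ⟪w, a⟫_ℝ = 0) (hwc : ⟪w, c⟫_ℝ = 0) (ha : a ≠ 0) (hc : ∀ r : ℝ, c ≠ r • a)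
    (hbas : ∀ x ∈ Lat b, ∃ i j k : ℤ, x = (i : ℝ) • a + (j : ℝ) • c + (k : ℝ) • v) :
    c - (⟪a, c⟫_ℝ / ‖a‖ ^ 2) • a ≠ 0 ∧
      ‖c - (⟪a, c⟫_ℝ / ‖a‖ ^ 2) • a‖ ^ 2 * ‖w‖ ^ 2 ≤ 4 / 3 := by
  set t : ℝ := ⟪a, c⟫_ℝ / ‖a‖ ^ 2 with ht
  set e : E3 := c - t • a with he
  have hna : ‖a‖ ≠ 0 := norm_ne_zero_iff.2 ha
  have he0 : e ≠ 0 := by
    intro h
    exact hc t (sub_eq_zero.1 h)
  refine ⟨he0, ?_⟩
  have hne : 0 < ‖e‖ := norm_pos_iff.2 he0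
  have hnw : 0 < ‖w‖ := norm_pos_iff.2 hw
  have hae : ⟪e, a⟫_ℝ = 0 := by
    rw [he, inner_sub_left, real_inner_smul_left, real_inner_self_eq_norm_sq, real_inner_comm, ht]
    field_simp
    ring
  have hwe : ⟪w, e⟫_ℝ = 0 := by
    rw [he, inner_sub_right, real_inner_smul_right, hwa, hwc]
    ring
  have hec : ⟪e, c⟫_ℝ = ‖e‖ ^ 2 := by
    have h1 : c = e + t • a := by rw [he]; abel
    rw [h1, inner_add_right, real_inner_smul_right, hae, real_inner_self_eq_norm_sq]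
    ring
  obtain ⟨u, hu⟩ : ∃ u : E3, u = (1 / ‖e‖ ^ 2) • e := ⟨_, rfl⟩
  have hua' : ⟪u, a⟫_ℝ = 0 := by rw [hu, real_inner_smul_left, hae, mul_zero]
  have huc' : ⟪u, c⟫_ℝ = 1 := by
    rw [hu, real_inner_smul_left, hec]
    field_simp
  have hwu : ⟪w, u⟫_ℝ = 0 := by
    rw [hu, real_inner_smul_right, hwe, mul_zero]
  have hnu : ‖u‖ ^ 2 = 1 / ‖e‖ ^ 2 := by
    rw [hu, norm_smul, norm_div, norm_one, norm_pow, norm_norm]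
    field_simp
  set κ : ℝ := ⟪u, v⟫_ℝ with hκ
  obtain ⟨u2, hu2⟩ : ∃ u2 : E3, u2 = u + ((round κ : ℝ) - κ) • w := ⟨_, rfl⟩
  have hua : ⟪u2, a⟫_ℝ = 0 := by
    rw [hu2, inner_add_left, real_inner_smul_left, hwa, hua']
    ring
  have huc : ⟪u2, c⟫_ℝ = 1 := by
    rw [hu2, inner_add_left, real_inner_smul_left, hwc, huc']
    ring
  have huv : ⟪u2, v⟫_ℝ = (round κ : ℝ) := by
    rw [hu2, inner_add_left, real_inner_smul_left, hwv, ← hκ]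
    ring
  have hD : u2 ∈ Dual b := by
    intro x hx
    obtain ⟨i, j, k, rfl⟩ := hbas x hx
    refine ⟨j + k * round κ, ?_⟩
    rw [inner_add_right, inner_add_right, real_inner_smul_right, real_inner_smul_right,
      real_inner_smul_right, hua, huc, huv]
    push_cast
    ring
  have hu20 : u2 ≠ 0 := by
    intro h
    rw [h, inner_zero_left] at huc
    exact zero_ne_one huc
  have h1 := hmin u2 hD hu20
  have h2 : ‖w‖ ^ 2 ≤ ‖u2‖ ^ 2 := by gcongr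
  have h3 : ‖u2‖ ^ 2 = 1 / ‖e‖ ^ 2 + ((round κ : ℝ) - κ) ^ 2 * ‖w‖ ^ 2 := by
    rw [← hnu, ← real_inner_self_eq_norm_sq u2, hu2, inner_add_left, inner_add_right,
      inner_add_right, real_inner_smul_left, real_inner_smul_left, real_inner_smul_right,
      real_inner_smul_right, real_inner_comm w u, hwu, real_inner_self_eq_norm_sq,
      real_inner_self_eq_norm_sq]
    ring
  have h4 : ((round κ : ℝ) - κ) ^ 2 ≤ 1 / 4 := by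
    have h5 := abs_sub_round κ
    rw [abs_sub_comm] at h5
    calc ((round κ : ℝ) - κ) ^ 2 = |(round κ : ℝ) - κ| ^ 2 := (sq_abs _).symm
      _ ≤ (1 / 2) ^ 2 := by gcongr
      _ = 1 / 4 := by norm_num
  have h5 : ‖w‖ ^ 2 ≤ 1 / ‖e‖ ^ 2 + 1 / 4 * ‖w‖ ^ 2 := by
    rw [h3] at h2
    have : ((round κ : ℝ) - κ) ^ 2 * ‖w‖ ^ 2 ≤ 1 / 4 * ‖w‖ ^ 2 := by gcongr
    linarith
  have h6 : 3 / 4 * ‖w‖ ^ 2 ≤ 1 / ‖e‖ ^ 2 := by linarith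
  rw [le_div_iff₀ (by positivity)] at h6
  linarith

end LAY
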