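import Pool.Agent.LAY.D4
import Pool.Agent.LAY.D1

/-!
# [LAY-D5] every lattice is layered, with distance at least its covering radius

`lat_cov`: PROOF. `exists_dual`, `exists_plane`, `sigma_le` give `w, v, a, c` and `e = c - (⟪a,c⟫/‖a‖²) • a ≠ 0`, `e ⊥ a`, `e ⊥ w`, `σ := ‖e‖`, `σ²‖w‖² ≤ 4/3`. Let `p ∈ E3`, `k := round ⟪w,p⟫`, `p1 := p - k v`, `δ := ⟪w,p1⟫`,
`|δ| ≤ 1/2`. Apply `plane_red` with `a := ‖a‖`, `x := ⟪a,c⟫/‖a‖` (`0 ≤ x`, `2x ≤ ‖a‖`), `σ` (`‖c‖² = x² + σ²` by Pythagoras, so `‖a‖² ≤ x²+σ²`), `u := ⟪p1,a⟫/‖a‖`, `v := ⟪p1,e⟫/σ`: integers `i, j`.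
Let `y := i a + j c + k v ∈ Lat b`, `q := p1 - i a - j c = p - y`. By `onb3`, `‖q‖² = (⟪q,a⟫/‖a‖)² + (⟪q,e⟫/σ)² + ⟪q,w⟫²/‖w‖²`, `⟪q,a⟫/‖a‖ = u - i‖a‖ - j x`, `⟪q,e⟫/σ = v - jσ` (`⟪c,e⟫ = σ²`),
`⟪q,w⟫ = δ`. So `‖q‖² ≤ σ²/2 + 1/(4‖w‖²) ≤ (2/3 + 1/4)/‖w‖² ≤ 1/‖w‖²`.
`lattice_layered`: `TPC.exists_basis L` gives `b`; `n := (1/‖w‖) • w`, `t k := k/‖w‖`, `s := 1/‖w‖`.
-/

set_option autoImplicit false

open MeasureTheory Real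
open scoped InnerProductSpace

namespace LAY

open BccCov BccO TPC

theorem lat_cov {b : Fin 3 → E3} (hb : dt b ≠ 0) : ∃ w : E3, w ≠ 0 ∧ w ∈ Dual b ∧
    ∀ p : E3, ∃ y ∈ Lat b, dist p y ≤ 1 / ‖w‖ := by
  obtain ⟨w, v, hw, hwD, hmin, hv, hwv⟩ := exists_dual hb
  obtain ⟨a, c, haL, hcL, hwa, hwc, ha, hc, h0, h2, hac, hbas⟩ := exists_plane hb hw hwD hv hwv
  obtain ⟨he, hσ⟩ := sigma_le hw hwD hmin hwv hwa hwc ha hc hbas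
  refine ⟨w, hw, hwD, fun p => ?_⟩
  have hA : 0 < ‖a‖ := norm_pos_iff.2 ha
  have hW : 0 < ‖w‖ := norm_pos_iff.2 hw
  set t : ℝ := ⟪a, c⟫_ℝ / ‖a‖ ^ 2 with ht
  set e : E3 := c - t • a with hedef
  have hS : 0 < ‖e‖ := norm_pos_iff.2 he
  have hta : t * ‖a‖ ^ 2 = ⟪a, c⟫_ℝ := by rw [ht]; field_simp
  have hae : ⟪a, e⟫_ℝ = 0 := by
    rw [hedef, inner_sub_right, inner_smul_right, real_inner_self_eq_norm_sq, hta, sub_self]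
  have haw : ⟪a, w⟫_ℝ = 0 := by rw [real_inner_comm]; exact hwa
  have hcw : ⟪c, w⟫_ℝ = 0 := by rw [real_inner_comm]; exact hwc
  have hew : ⟪e, w⟫_ℝ = 0 := by
    rw [hedef, inner_sub_left, inner_smul_left, haw, hcw]; simp
  have hce : c = e + t • a := by rw [hedef]; abel
  have hcie : ⟪c, e⟫_ℝ = ‖e‖ ^ 2 := by
    rw [← real_inner_self_eq_norm_sq]
    nth_rewrite 1 [hce]
    rw [inner_add_left, inner_smul_left, hae]; simp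
  have hcn : ‖c‖ ^ 2 = ‖e‖ ^ 2 + t ^ 2 * ‖a‖ ^ 2 := by
    rw [← real_inner_self_eq_norm_sq]
    nth_rewrite 1 [hce]
    rw [inner_add_left, inner_smul_left, real_inner_comm, hcie]
    simp only [conj_trivial]
    rw [← hta]; ring
  have hx : ⟪a, c⟫_ℝ / ‖a‖ = t * ‖a‖ := by rw [← hta]; field_simp
  have hx0 : 0 ≤ ⟪a, c⟫_ℝ / ‖a‖ := by positivity
  have hx1 : 2 * (⟪a, c⟫_ℝ / ‖a‖) ≤ ‖a‖ := by
    rw [← mul_div_assoc, div_le_iff₀ hA]; nlinarith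
  have hr : ‖a‖ ^ 2 ≤ (⟪a, c⟫_ℝ / ‖a‖) ^ 2 + ‖e‖ ^ 2 := by
    rw [hx]
    have : ‖a‖ ^ 2 ≤ ‖c‖ ^ 2 := pow_le_pow_left₀ (norm_nonneg _) hac 2
    nlinarith
  set k : ℤ := round ⟪w, p⟫_ℝ with hk
  set p1 : E3 := p - (k : ℝ) • v with hp1
  have hδ : ⟪w, p1⟫_ℝ = ⟪w, p⟫_ℝ - k := by
    rw [hp1, inner_sub_right, inner_smul_right, hwv, mul_one]
  have hδ2 : (⟪w, p⟫_ℝ - k) ^ 2 ≤ 1 / 4 := by
    have h := abs_sub_round ⟪w, p⟫_ℝ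
    rw [← hk] at h
    have h1 := abs_le.1 h
    nlinarith [h1.1, h1.2]
  obtain ⟨i, j, hij⟩ := plane_red hA hS hx0 hx1 hr (⟪p1, a⟫_ℝ / ‖a‖) (⟪p1, e⟫_ℝ / ‖e‖)
  refine ⟨(i : ℝ) • a + (j : ℝ) • c + (k : ℝ) • v, ?_, ?_⟩
  · rw [Int.cast_smul_eq_zsmul, Int.cast_smul_eq_zsmul, Int.cast_smul_eq_zsmul]
    exact (Lat b).add_mem ((Lat b).add_mem ((Lat b).smul_mem _ haL) ((Lat b).smul_mem _ hcL))
      ((Lat b).smul_mem _ hv)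
  · rw [dist_eq_norm]
    set q : E3 := p - ((i : ℝ) • a + (j : ℝ) • c + (k : ℝ) • v) with hq
    have hq' : q = p1 - (i : ℝ) • a - (j : ℝ) • c := by rw [hq, hp1]; abel
    have hqa : ⟪q, a⟫_ℝ = ⟪p1, a⟫_ℝ - i * ‖a‖ ^ 2 - j * ⟪a, c⟫_ℝ := by
      rw [hq', inner_sub_left, inner_sub_left, inner_smul_left, inner_smul_left,
        real_inner_self_eq_norm_sq, real_inner_comm a c]
      simp
    have hqe : ⟪q, e⟫_ℝ = ⟪p1, e⟫_ℝ - j * ‖e‖ ^ 2 := by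
      rw [hq', inner_sub_left, inner_sub_left, inner_smul_left, inner_smul_left, hae, hcie]
      simp
    have hqw : ⟪q, w⟫_ℝ = ⟪w, p⟫_ℝ - k := by
      rw [hq', inner_sub_left, inner_sub_left, inner_smul_left, inner_smul_left, haw, hcw,
        real_inner_comm w p1, hδ]
      simp
    have hn := onb3 ha he hw hae haw hew q
    have e1 : ⟪q, a⟫_ℝ ^ 2 / ‖a‖ ^ 2 =
        (⟪p1, a⟫_ℝ / ‖a‖ - i * ‖a‖ - j * (⟪a, c⟫_ℝ / ‖a‖)) ^ 2 := by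
      rw [hqa]; field_simp
    have e2 : ⟪q, e⟫_ℝ ^ 2 / ‖e‖ ^ 2 = (⟪p1, e⟫_ℝ / ‖e‖ - j * ‖e‖) ^ 2 := by
      rw [hqe]; field_simp
    have hW2 : 0 < ‖w‖ ^ 2 := by positivity
    have e3 : ‖q‖ ^ 2 ≤ ‖e‖ ^ 2 / 2 + (1 / 4) / ‖w‖ ^ 2 := by
      rw [hn, e1, e2, hqw]
      have : (⟪w, p⟫_ℝ - k) ^ 2 / ‖w‖ ^ 2 ≤ (1 / 4) / ‖w‖ ^ 2 := by gcongr
      linarith
    have e4 : ‖e‖ ^ 2 ≤ (4 / 3) / ‖w‖ ^ 2 := by rw [le_div_iff₀ hW2]; exact hσ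
    have e5 : ‖q‖ ^ 2 ≤ (1 / ‖w‖) ^ 2 := by
      have h6 : (1 / ‖w‖) ^ 2 = 1 / ‖w‖ ^ 2 := by rw [div_pow, one_pow]
      have h7 : (4 / 3 : ℝ) / ‖w‖ ^ 2 / 2 + (1 / 4) / ‖w‖ ^ 2 ≤ 1 / ‖w‖ ^ 2 := by
        rw [div_div, div_add_div _ _ (by positivity) (by positivity),
          div_le_div_iff₀ (by positivity) (by positivity)]
        nlinarith [pow_pos hW2 2]
      rw [h6]
      linarith
    exact (pow_le_pow_iff_left₀ (norm_nonneg _) (by positivity) two_ne_zero).1 e5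

theorem lattice_layered (L : Submodule ℤ E3) [DiscreteTopology L] [IsZLattice ℝ L] :
    ∃ s : ℝ, 0 < s ∧ (∃ (n : E3) (t : ℤ → ℝ), ‖n‖ = 1 ∧ (∀ k : ℤ, t k + s ≤ t (k + 1)) ∧
      ∀ x ∈ (L : Set E3), ∃ k : ℤ, ⟪x, n⟫_ℝ = t k) ∧
      ∀ p : E3, ∃ y ∈ (L : Set E3), dist p y ≤ s := by
  obtain ⟨b, hbL, hdt⟩ := exists_basis L
  obtain ⟨w, hw, hwD, hcov⟩ := lat_cov hdt
  have hW : 0 < ‖w‖ := norm_pos_iff.2 hw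
  refine ⟨1 / ‖w‖, by positivity, ⟨(1 / ‖w‖) • w, fun k => (k : ℝ) / ‖w‖, ?_, ?_, ?_⟩, ?_⟩
  · rw [norm_smul, Real.norm_of_nonneg (by positivity)]
    field_simp
  · intro k
    simp only
    push_cast
    rw [add_div]
  · intro x hx
    rw [← hbL] at hx
    obtain ⟨k, hk⟩ := hwD x hx
    refine ⟨k, ?_⟩
    rw [inner_smul_right, real_inner_comm, hk]
    ring
  · intro p
    obtain ⟨y, hy, hd⟩ := hcov p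
    rw [hbL] at hy
    exact ⟨y, hy, hd⟩

end LAY
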