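import Pool.Agent.TPC.C1
import Pool.Agent.TPC.K1
import Pool.Agent.MP_bf7174_co.O.R3
import Pool.Agent.MP_bf7174_co.O.R4
import Pool.Agent.MP_bf7174_co.O.R5

/-!
# [LAY] layered coverings (MP_bf7174_co): definitions

`R = 1` throughout; `V0` is the volume per point of the bcc covering with unit balls.
-/

set_option autoImplicit false

open MeasureTheory Real
open scoped InnerProductSpace

namespace LAY

open BccCov BccO TPC

/-- volume per lattice point of the bcc covering with balls of radius one -/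
noncomputable def V0 : ℝ := 32 / (5 * √5)

/-- twice the signed area of the horizontal projection of the triangle `p q s` -/
noncomputable def cr (p q s : E3) : ℝ := (q 0 - p 0) * (s 1 - p 1) - (q 1 - p 1) * (s 0 - p 0)

/-- squared horizontal distance -/
noncomputable def hd (p q : E3) : ℝ := (p 0 - q 0) ^ 2 + (p 1 - q 1) ^ 2

/-- horizontal inner product of `p - s` and `q - s` -/
noncomputable def hi (p q s : E3) : ℝ := (p 0 - s 0) * (q 0 - s 0) + (p 1 - s 1) * (q 1 - s 1)

/-- squared distance, in coordinates -/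
noncomputable def sq (p q : E3) : ℝ := (p 0 - q 0) ^ 2 + (p 1 - q 1) ^ 2 + (p 2 - q 2) ^ 2

/-- the admissible parameter functions `K`, `l` of the distance `h` of two layers -/
structure KL (K l : ℝ → ℝ) : Prop where
  nonneg : ∀ h : ℝ, 1 ≤ h → 0 ≤ K h
  le : ∀ h : ℝ, 1 ≤ h → K h ≤ 4 * l h
  bd : ∀ h : ℝ, 1 ≤ h → l h ≤ 100
  main : ∀ h : ℝ, 1 ≤ h → ∀ p d C : ℝ, 0 ≤ d → d ≤ p → 0 ≤ C →
    3 * h ^ 2 + 6 * (p ^ 2 + d ^ 2) + 3 * C ^ 2 ≤ 16 →
    h * (3 * √3 / 4) * p * (d * (2 + (K h / 4) * (4 - h ^ 2) + (5 * l h - 3 * K h / 2) * C ^ 2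
      - ((3 * K h + 10 * l h) / 16) * (p ^ 2 + d ^ 2)) + (5 * l h / 4) * C * (p ^ 2 - d ^ 2)) ≤ V0

/-- the potential of the mixed face `p q s`, `p` and `q` in one plane, `s` in another one -/
noncomputable def Phi (K l : ℝ → ℝ) (p q s : E3) : ℝ :=
  (|s 2 - p 2| / V0) * (2 / 3 + (K |s 2 - p 2| / 4) * (4 - (s 2 - p 2) ^ 2 - hd p s - hd q s - hi p q s)
    + (5 * l |s 2 - p 2| / 2) * hi p q s)

/-- the weight of the labelled face `p q s` of the cell `p q s d` -/
noncomputable def wo (K l : ℝ → ℝ) (p q s d : E3) : ℝ :=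
  if p 2 = q 2 ∧ s 2 ≠ p 2 then
    (1 / 2) * Real.sign ((s 2 - p 2) * det3 p q s d) * cr p q s * Phi K l p q s else 0

/-- the weight of the face `f` of the cell `t` -/
noncomputable def wf (K l : ℝ → ℝ) (t f : Finset E3) : ℝ :=
  (∑ d ∈ t \ f, ∑ p ∈ f, ∑ q ∈ f, ∑ s ∈ f, wo K l p q s d) / 2

/-- the cell has three vertices in one plane and the fourth one in another plane -/
def Is31 (t : Finset E3) : Prop :=
  ∃ p q s d : E3, (t : Set E3) = {p, q, s, d} ∧ p 2 = q 2 ∧ p 2 = s 2 ∧ d 2 ≠ p 2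

open Classical in
/-- `1` for cells of type (3,1), `0` for the others -/
noncomputable def chi (t : Finset E3) : ℝ := if Is31 t then 1 else 0

/-- the heights of the points of `X` are in the range of `t` -/
def Hts (X : Set E3) (t : ℤ → ℝ) : Prop := ∀ x ∈ X, ∃ k : ℤ, x 2 = t k

/-- local finiteness -/
def LF (X : Set E3) : Prop := ∀ R : ℝ, (X ∩ Metric.closedBall (0 : E3) R).Finite

end LAY
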