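import Pool.Agent.LAY.Defs

/-!
# [LAY-F0] interior points and the two sides of a face

`int_disj`: PROOF. Let `u = x + a(y-x) + b(z-x) + c(w-x) = e x + a y + b z + c w`, `e = 1-a-b-c > 0`. `u ∈ convexHull t` (weights ≥ 0). If also `u ∈ convexHull t'`,
face-to-face gives `u ∈ convexHull (t ∩ t')`. Since `t ≠ t'` and both have four elements, some vertex `v` of `t` is not in `t'`
(`Finset.eq_of_subset_of_card_le`), so `t ∩ t' ⊆ t \ {v}`. The function `det3` of `u` and the three other vertices of `t` is affine in `u` and vanishes at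
the three other vertices, hence on their convex hull, but its value at `u` is (weight of `v`)·(± det3 x y z w) ≠ 0 (`BccCov.S.det3_ne_zero x y z w t ...`):
e.g. for `v = w`: `det3 x y z u = c * det3 x y z w` (ring); the set `{u | det3 x y z u = 0}` is convex (or: it is `{u | ⟪nrmv x y z, u - x⟫ = 0}` by
`BccO.nrmv_det`) and contains `x, y, z`: `convexHull_min`. Similarly `det3 x y u w = b * det3 x y z w`, `det3 x u z w = a * ...`, `det3 u y z w = e * ...`.
(Only the weight of the missing vertex matters.)
`opp_side`: PROOF. Put `D = det3 p q s d`, `D' = det3 p q s d'`, both nonzero (`BccCov.S.det3_ne_zero`). Suppose `D * D' > 0` (else done: `mul_ne_zero`,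
`lt_of_le_of_ne`). `{q-p, s-p, d'-p}` is a basis: `d - p = α(q-p) + β(s-p) + γ(d'-p)` for some reals (solve by Cramer: `α = det3 p d s d'/D'`,
`β = det3 p q d d'/D'`, `γ = D/D'`; the vector identity `D' • (d - p) = det3 p d s d' • (q - p) + det3 p q d d' • (s - p) + D • (d' - p)` holds
coordinatewise by ring), `γ > 0`. For small `c > 0` the point `u = p + (1/3)(q-p) + (1/3)(s-p) + c(d-p)` has positive weights in `t` (`c < 1/3`), and
`u = p + (1/3 + cα)(q-p) + (1/3 + cβ)(s-p) + cγ(d'-p)` has weights `≥ 0` in `t'` if `c(|α|+|β|+|γ|) ≤ 1/3` (take `c = 1/(3(1+|α|+|β|+γ)) < 1/3`), so `u ∈ convexHull t'`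
(explicit convex combination; e.g. `BccCov.V.hull_eq`), contradicting `int_disj`.
-/

set_option autoImplicit false

open MeasureTheory Real
open scoped InnerProductSpace

namespace LAY

open BccCov BccO TPC

theorem f0_plane (p q r u : E3) (hu : u ∈ convexHull ℝ ({p, q, r} : Set E3)) :
    det3 p q r u = 0 := by
  have hconv : Convex ℝ {u : E3 | det3 p q r u = 0} := by
    intro x hx y hy a b ha hb hab
    obtain rfl : b = 1 - a := by linarith
    have hx' : det3 p q r x = 0 := hx
    have hy' : det3 p q r y = 0 := hy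
    change det3 p q r (a • x + (1 - a) • y) = 0
    unfold det3 at *
    simp only [PiLp.add_apply, PiLp.smul_apply, smul_eq_mul]
    linear_combination a * hx' + (1 - a) * hy'
  have hsub : ({p, q, r} : Set E3) ⊆ {u : E3 | det3 p q r u = 0} := by
    intro v hv
    change det3 p q r v = 0
    simp only [Set.mem_insert_iff, Set.mem_singleton_iff] at hv
    rcases hv with rfl | rfl | rfl <;> unfold det3 <;> ring
  exact convexHull_min hsub hconv hu

theorem f0_mem (x y z w : E3) {a b c : ℝ} (ha : 0 ≤ a) (hb : 0 ≤ b) (hc : 0 ≤ c)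
    (hs : a + b + c ≤ 1) :
    x + (a • (y - x) + b • (z - x) + c • (w - x)) ∈ convexHull ℝ ({x, y, z, w} : Set E3) := by
  rw [BccCov.V.hull_eq]
  refine ⟨a • (y - x) + b • (z - x) + c • (w - x), ⟨!₂[a, b, c], ?_, ?_⟩, rfl⟩
  · refine ⟨?_, ?_, ?_, ?_⟩
    · simpa using ha
    · simpa using hb
    · simpa using hc
    · simpa using hs
  · simp [BccCov.V.LL_apply]

theorem int_disj {X : Set E3} {D : Set (Finset E3)} (hT : IsTriangulation X D) {t t' : Finset E3}
    (ht : t ∈ D) (ht' : t' ∈ D) (hne : t ≠ t') {x y z w : E3} (hl : (t : Set E3) = {x, y, z, w})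
    {a b c : ℝ} (ha : 0 < a) (hb : 0 < b) (hc : 0 < c) (hs : a + b + c < 1) :
    x + (a • (y - x) + b • (z - x) + c • (w - x)) ∉ convexHull ℝ (t' : Set E3) := by
  intro hu'
  set u : E3 := x + (a • (y - x) + b • (z - x) + c • (w - x)) with hu
  have h4 : t.card = 4 := hT.card_eq t ht
  have h4' : t'.card = 4 := hT.card_eq t' ht'
  have hdet : det3 x y z w ≠ 0 := BccCov.S.det3_ne_zero x y z w t h4 hl (hT.indep t ht)
  have hut : u ∈ convexHull ℝ (t : Set E3) := by
    rw [hl]
    exact f0_mem x y z w ha.le hb.le hc.le hs.le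
  have hui : u ∈ convexHull ℝ ((t : Set E3) ∩ (t' : Set E3)) := by
    rw [← hT.faceToFace t ht t' ht']
    exact ⟨hut, hu'⟩
  obtain ⟨v, hvt, hvt'⟩ : ∃ v ∈ t, v ∉ t' := by
    by_contra hcon
    push Not at hcon
    exact hne (Finset.eq_of_subset_of_card_le hcon (by rw [h4, h4']))
  have hvm : v ∈ (t : Set E3) := hvt
  rw [hl] at hvm
  have hstep : ∀ p q r : E3, (∀ e ∈ (t : Set E3), e ≠ v → e = p ∨ e = q ∨ e = r) →
      det3 p q r u = 0 := by
    intro p q r hpqr
    apply f0_plane
    refine convexHull_mono ?_ hui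
    rintro e ⟨he, he'⟩
    have hev : e ≠ v := by
      rintro rfl
      exact hvt' he'
    simpa using hpqr e he hev
  have hux : ∀ i : Fin 3, u i = x i + (a * (y i - x i) + b * (z i - x i) + c * (w i - x i)) := by
    intro i
    rw [hu]
    simp only [PiLp.add_apply, PiLp.smul_apply, PiLp.sub_apply, smul_eq_mul]
  rw [hl] at hstep
  simp only [Set.mem_insert_iff, Set.mem_singleton_iff] at hvm hstep
  rcases hvm with rfl | rfl | rfl | rfl
  · have h1 := hstep y z w (by
      rintro e (rfl | rfl | rfl | rfl) hev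
      · exact absurd rfl hev
      · exact Or.inl rfl
      · exact Or.inr (Or.inl rfl)
      · exact Or.inr (Or.inr rfl))
    have h2 : det3 y z w u = -((1 - a - b - c) * det3 v y z w) := by
      unfold det3
      rw [hux 0, hux 1, hux 2]
      ring
    rw [h2, neg_eq_zero] at h1
    rcases mul_eq_zero.1 h1 with h3 | h3
    · linarith
    · exact hdet h3
  · have h1 := hstep x z w (by
      rintro e (rfl | rfl | rfl | rfl) hev
      · exact Or.inl rfl
      · exact absurd rfl hev
      · exact Or.inr (Or.inl rfl)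
      · exact Or.inr (Or.inr rfl))
    have h2 : det3 x z w u = a * det3 x v z w := by
      unfold det3
      rw [hux 0, hux 1, hux 2]
      ring
    rw [h2] at h1
    rcases mul_eq_zero.1 h1 with h3 | h3
    · exact ha.ne' h3
    · exact hdet h3
  · have h1 := hstep x y w (by
      rintro e (rfl | rfl | rfl | rfl) hev
      · exact Or.inl rfl
      · exact Or.inr (Or.inl rfl)
      · exact absurd rfl hev
      · exact Or.inr (Or.inr rfl))
    have h2 : det3 x y w u = -(b * det3 x y v w) := by
      unfold det3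
      rw [hux 0, hux 1, hux 2]
      ring
    rw [h2, neg_eq_zero] at h1
    rcases mul_eq_zero.1 h1 with h3 | h3
    · exact hb.ne' h3
    · exact hdet h3
  · have h1 := hstep x y z (by
      rintro e (rfl | rfl | rfl | rfl) hev
      · exact Or.inl rfl
      · exact Or.inr (Or.inl rfl)
      · exact Or.inr (Or.inr rfl)
      · exact absurd rfl hev)
    have h2 : det3 x y z u = c * det3 x y z v := by
      unfold det3
      rw [hux 0, hux 1, hux 2]
      ring
    rw [h2] at h1
    rcases mul_eq_zero.1 h1 with h3 | h3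
    · exact hc.ne' h3
    · exact hdet h3

theorem opp_side {X : Set E3} {D : Set (Finset E3)} (hT : IsTriangulation X D) {t t' : Finset E3}
    (ht : t ∈ D) (ht' : t' ∈ D) (hne : t ≠ t') {p q s d d' : E3} (hl : (t : Set E3) = {p, q, s, d})
    (hl' : (t' : Set E3) = {p, q, s, d'}) : det3 p q s d * det3 p q s d' < 0 := by
  have hD : det3 p q s d ≠ 0 :=
    BccCov.S.det3_ne_zero p q s d t (hT.card_eq t ht) hl (hT.indep t ht)
  have hD' : det3 p q s d' ≠ 0 :=
    BccCov.S.det3_ne_zero p q s d' t' (hT.card_eq t' ht') hl' (hT.indep t' ht')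
  by_contra hcon
  have hpos : 0 < det3 p q s d * det3 p q s d' :=
    lt_of_le_of_ne (not_lt.1 hcon) (mul_ne_zero hD hD').symm
  set α : ℝ := det3 p d s d' / det3 p q s d' with hα
  set β : ℝ := det3 p q d d' / det3 p q s d' with hβ
  set γ : ℝ := det3 p q s d / det3 p q s d' with hγ
  have hγ0 : 0 < γ := by
    have h1 : γ = det3 p q s d * det3 p q s d' / det3 p q s d' ^ 2 := by
      rw [hγ]
      field_simp
    rw [h1]
    positivity
  have hvec : ∀ i : Fin 3, d i - p i = α * (q i - p i) + β * (s i - p i) + γ * (d' i - p i) := by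
    intro i
    have h1 : det3 p q s d' * (d i - p i) = det3 p d s d' * (q i - p i) +
        det3 p q d d' * (s i - p i) + det3 p q s d * (d' i - p i) := by
      fin_cases i
      · change det3 p q s d' * (d 0 - p 0) = det3 p d s d' * (q 0 - p 0) +
          det3 p q d d' * (s 0 - p 0) + det3 p q s d * (d' 0 - p 0)
        unfold det3
        ring
      · change det3 p q s d' * (d 1 - p 1) = det3 p d s d' * (q 1 - p 1) +
          det3 p q d d' * (s 1 - p 1) + det3 p q s d * (d' 1 - p 1)
        unfold det3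
        ring
      · change det3 p q s d' * (d 2 - p 2) = det3 p d s d' * (q 2 - p 2) +
          det3 p q d d' * (s 2 - p 2) + det3 p q s d * (d' 2 - p 2)
        unfold det3
        ring
    rw [hα, hβ, hγ]
    field_simp
    linarith
  set M : ℝ := 1 + |α| + |β| + γ with hM
  have hM1 : 1 < M := by
    have := abs_nonneg α
    have := abs_nonneg β
    linarith
  set c : ℝ := 1 / (3 * M) with hc
  have hM0 : 0 < M := by linarith
  have hc0 : 0 < c := by positivity
  have hcM : c * M = 1 / 3 := by
    rw [hc]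
    field_simp
  have hc3 : c < 1 / 3 := by nlinarith
  have hcα : |c * α| ≤ c * |α| := by rw [abs_mul, abs_of_pos hc0]
  have hcβ : |c * β| ≤ c * |β| := by rw [abs_mul, abs_of_pos hc0]
  have hsum : c + c * |α| + c * |β| + c * γ = 1 / 3 := by
    rw [← hcM, hM]
    ring
  have hcα' := abs_le.1 hcα
  have hcβ' := abs_le.1 hcβ
  have hcγ : 0 < c * γ := by positivity
  have hα0 : 0 ≤ c * |α| := by positivity
  have hβ0 : 0 ≤ c * |β| := by positivity
  -- the point
  refine int_disj hT ht ht' hne hl (a := 1 / 3) (b := 1 / 3) (c := c) (by norm_num) (by norm_num)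
    hc0 (by linarith) ?_
  have e1 : p + ((1 / 3 : ℝ) • (q - p) + (1 / 3 : ℝ) • (s - p) + c • (d - p)) =
      p + ((1 / 3 + c * α) • (q - p) + (1 / 3 + c * β) • (s - p) + (c * γ) • (d' - p)) := by
    ext i
    simp only [PiLp.add_apply, PiLp.smul_apply, PiLp.sub_apply, smul_eq_mul]
    rw [hvec i]
    ring
  rw [e1, hl']
  apply f0_mem
  · linarith
  · linarith
  · exact hcγ.le
  · linarith [hcα'.2, hcβ'.2]

end LAY
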