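import Pool.Agent.LAY.GC

/-!
# The local inequality for cells with three coplanar vertices: the theorem
-/

namespace LAY

theorem HG1 {u : ℝ} (hu : 11 / 10 ≤ u) (hu2 : u ≤ 11 / 8) : HG (1 / 2) (11 / 50) u := by
  intro g w hg hw hw1 hM
  have hA : Aq (1 / 2) (11 / 50) u g = (3336 + 27 * u + 149 * (u * g ^ 2)) / 3600 := by
    unfold Aq; ring
  have ha : aq (11 / 50) u g = 352 * (u * g) / 3600 := by unfold aq; ring
  have hb : bq (11 / 50) u g = 22 * (g * (12 + 9 * u - u * g ^ 2)) / 3600 := by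
    unfold bq Mq; ring
  unfold Mq at hM
  obtain ⟨h1, h2⟩ := G1 hu hu2 hg hM hw
  rw [hA, ha, hb]
  unfold Mq
  refine ⟨by linarith, ?_, ?_⟩
  · have : 0 ≤ u * g ^ 2 := by positivity
    linarith
  · have e : (2 - u) * (12 + 9 * u - u * g ^ 2) ^ 2 * ((1 + w) *
        ((3336 + 27 * u + 149 * (u * g ^ 2)) / 3600 +
          22 * (g * (12 + 9 * u - u * g ^ 2)) / 3600 * w) *
        ((3336 + 27 * u + 149 * (u * g ^ 2)) / 3600 -
          ((3336 + 27 * u + 149 * (u * g ^ 2)) / 3600 - 352 * (u * g) / 3600) * w)) =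
        (2 - u) * (12 + 9 * u - u * g ^ 2) ^ 2 * ((1 + w) *
        ((3336 + 27 * u + 149 * (u * g ^ 2)) + 22 * (g * (12 + 9 * u - u * g ^ 2)) * w) *
        ((3336 + 27 * u + 149 * (u * g ^ 2)) -
          ((3336 + 27 * u + 149 * (u * g ^ 2)) - 352 * (u * g)) * w)) / 3600 ^ 2 := by ring
    rw [e, div_le_iff₀ (by norm_num)]
    exact h2

theorem HG3 {u : ℝ} (hu : 7 / 20 ≤ u) (hu2 : u < 9 / 10) : HG (13 / 10) (2 / 5) u := by
  intro g w hg hw hw1 hM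
  have hA : Aq (13 / 10) (2 / 5) u g = (624 + 45 * u + 19 * (u * g ^ 2)) / 720 := by
    unfold Aq; ring
  have ha : aq (2 / 5) u g = 128 * (u * g) / 720 := by unfold aq; ring
  have hb : bq (2 / 5) u g = 8 * (g * (12 + 9 * u - u * g ^ 2)) / 720 := by
    unfold bq Mq; ring
  unfold Mq at hM
  obtain ⟨h1, h2⟩ := G3 hu hu2 hg hM hw
  rw [hA, ha, hb]
  unfold Mq
  refine ⟨by linarith, ?_, ?_⟩
  · have : 0 ≤ u * g ^ 2 := by positivity
    linarith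
  · have e : (2 - u) * (12 + 9 * u - u * g ^ 2) ^ 2 * ((1 + w) *
        ((624 + 45 * u + 19 * (u * g ^ 2)) / 720 +
          8 * (g * (12 + 9 * u - u * g ^ 2)) / 720 * w) *
        ((624 + 45 * u + 19 * (u * g ^ 2)) / 720 -
          ((624 + 45 * u + 19 * (u * g ^ 2)) / 720 - 128 * (u * g) / 720) * w)) =
        (2 - u) * (12 + 9 * u - u * g ^ 2) ^ 2 * ((1 + w) *
        ((624 + 45 * u + 19 * (u * g ^ 2)) + 8 * (g * (12 + 9 * u - u * g ^ 2)) * w) *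
        ((624 + 45 * u + 19 * (u * g ^ 2)) -
          ((624 + 45 * u + 19 * (u * g ^ 2)) - 128 * (u * g)) * w)) / 720 ^ 2 := by ring
    rw [e, div_le_iff₀ (by norm_num)]
    exact h2

theorem HG2 {u : ℝ} (hu : 9 / 10 ≤ u) (hu2 : u < 11 / 10) : HG ((3 - 2 * u) / u) ((3 - 2 * u) / 3) u := by
  intro g w hg hw hw1 hM
  have hu0 : 0 < u := by linarith
  have ht : 0 ≤ 3 - 2 * u := by linarith
  have hA : Aq ((3 - 2 * u) / u) ((3 - 2 * u) / 3) u g =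
      (216 + (3 - 2 * u) * (3 - 18 * u - 27 * g ^ 2 + 34 * (u * g ^ 2))) / 216 := by
    unfold Aq; field_simp; ring
  have ha : aq ((3 - 2 * u) / 3) u g = 32 * ((3 - 2 * u) * (u * g)) / 216 := by unfold aq; ring
  have hb : bq ((3 - 2 * u) / 3) u g = 2 * ((3 - 2 * u) * (g * (12 + 9 * u - u * g ^ 2))) / 216 := by
    unfold bq Mq; ring
  unfold Mq at hM
  obtain ⟨h1, h2⟩ := G2 hu hu2 hg hM hw
  rw [hA, ha, hb]
  unfold Mq
  refine ⟨by linarith, ?_, ?_⟩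
  · have k1 : (3 - 2 * u) / u ≤ 4 / 3 := by rw [div_le_iff₀ hu0]; linarith
    have k2 : 3 * ((3 - 2 * u) / u) + 10 * ((3 - 2 * u) / 3) ≤ 8 := by linarith
    have k3 : (3 * ((3 - 2 * u) / u) + 10 * ((3 - 2 * u) / 3)) * (12 + 9 * u - u * g ^ 2) ≤
        8 * (12 + 9 * u - u * g ^ 2) := mul_le_mul_of_nonneg_right k2 hM
    have k4 : 0 ≤ u * g ^ 2 := by positivity
    have k5 : 0 ≤ (3 - 2 * u) * (g ^ 2 * (34 * u - 27)) :=
      mul_nonneg ht (mul_nonneg (sq_nonneg g) (by linarith))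
    have k6 : (3 - 2 * u) * (18 * u - 3) ≤ 20 := by nlinarith
    linarith
  · have e : (2 - u) * (12 + 9 * u - u * g ^ 2) ^ 2 * ((1 + w) *
        ((216 + (3 - 2 * u) * (3 - 18 * u - 27 * g ^ 2 + 34 * (u * g ^ 2))) / 216 +
          2 * ((3 - 2 * u) * (g * (12 + 9 * u - u * g ^ 2))) / 216 * w) *
        ((216 + (3 - 2 * u) * (3 - 18 * u - 27 * g ^ 2 + 34 * (u * g ^ 2))) / 216 -
          ((216 + (3 - 2 * u) * (3 - 18 * u - 27 * g ^ 2 + 34 * (u * g ^ 2))) / 216 -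
            32 * ((3 - 2 * u) * (u * g)) / 216) * w)) =
        (2 - u) * (12 + 9 * u - u * g ^ 2) ^ 2 * ((1 + w) *
        ((216 + (3 - 2 * u) * (3 - 18 * u - 27 * g ^ 2 + 34 * (u * g ^ 2))) +
          2 * ((3 - 2 * u) * (g * (12 + 9 * u - u * g ^ 2))) * w) *
        ((216 + (3 - 2 * u) * (3 - 18 * u - 27 * g ^ 2 + 34 * (u * g ^ 2))) -
          ((216 + (3 - 2 * u) * (3 - 18 * u - 27 * g ^ 2 + 34 * (u * g ^ 2))) -
            32 * ((3 - 2 * u) * (u * g))) * w)) / 216 ^ 2 := by ring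
    rw [e, div_le_iff₀ (by norm_num)]
    exact h2

theorem case4 {h : ℝ} (_h0 : 0 ≤ h) (hu : 66 / 25 ≤ h ^ 2) {p d C : ℝ} (hd : 0 ≤ d) (hdp : d ≤ p)
    (hE : 3 * h ^ 2 + 6 * (p ^ 2 + d ^ 2) + 3 * C ^ 2 ≤ 16) :
    h * (3 * √3 / 4) * (2 * p * d) ≤ 32 / (5 * √5) := by
  have hV : (0 : ℝ) ≤ 32 / (5 * √5) := by positivity
  have hp : 0 ≤ p := hd.trans hdp
  have h3 : (√3 : ℝ) ^ 2 = 3 := Real.sq_sqrt (by norm_num)
  obtain ⟨t, ht⟩ : ∃ t : ℝ, t = h ^ 2 := ⟨_, rfl⟩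
  have h1 : 2 * p * d ≤ (16 - 3 * t) / 6 := by
    rw [ht]
    nlinarith [sq_nonneg (p - d), sq_nonneg C]
  have h2 : 0 ≤ 2 * p * d := by positivity
  have h4 : 0 ≤ 16 - 3 * t := by linarith
  have ht1 : 66 / 25 ≤ t := by rw [ht]; exact hu
  have h5 : (2 * p * d) ^ 2 ≤ ((16 - 3 * t) / 6) ^ 2 := pow_le_pow_left₀ h2 h1 2
  have h7 : t * (16 - 3 * t) ^ 2 ≤ 174 := by
    have e1 : t * (16 - 3 * t) ≤ 64 / 3 := by nlinarith [sq_nonneg (t - 8 / 3)]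
    have e2 : 16 - 3 * t ≤ 202 / 25 := by linarith
    have e3 : 0 ≤ t * (16 - 3 * t) := by positivity
    calc t * (16 - 3 * t) ^ 2 = (t * (16 - 3 * t)) * (16 - 3 * t) := by ring
      _ ≤ (t * (16 - 3 * t)) * (202 / 25) := mul_le_mul_of_nonneg_left e2 e3
      _ ≤ (64 / 3) * (202 / 25) := mul_le_mul_of_nonneg_right e1 (by norm_num)
      _ ≤ 174 := by norm_num
  refine (abs_le_of_sq_le_sq' ?_ hV).2
  rw [sq_V0]
  have e : (h * (3 * √3 / 4) * (2 * p * d)) ^ 2 = (27 / 16) * (t * (2 * p * d) ^ 2) := by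
    rw [ht]
    linear_combination (h ^ 2 * (9 / 16) * (2 * p * d) ^ 2) * h3
  rw [e]
  have ht0 : 0 ≤ t := by linarith
  have h8 : t * (2 * p * d) ^ 2 ≤ t * ((16 - 3 * t) / 6) ^ 2 := mul_le_mul_of_nonneg_left h5 ht0
  linarith

/-- **The local inequality for cells with three coplanar vertices.** -/
theorem G31 (h : ℝ) (h1 : 1 ≤ h) : ∃ K l : ℝ, 0 ≤ K ∧ K ≤ 4 * l ∧ l ≤ 100 ∧
    ∀ p d C : ℝ, 0 ≤ d → d ≤ p → 0 ≤ C → 3 * h ^ 2 + 6 * (p ^ 2 + d ^ 2) + 3 * C ^ 2 ≤ 16 →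
      h * (3 * √3 / 4) * p * (d * (2 + (K / 4) * (4 - h ^ 2) + (5 * l - 3 * K / 2) * C ^ 2 -
        ((3 * K + 10 * l) / 16) * (p ^ 2 + d ^ 2)) + (5 * l / 4) * C * (p ^ 2 - d ^ 2)) ≤
        32 / (5 * √5) := by
  obtain ⟨u, hu⟩ : ∃ u : ℝ, u = 2 - 5 * h ^ 2 / 8 := ⟨_, rfl⟩
  have hh : h ^ 2 = 8 * (2 - u) / 5 := by rw [hu]; ring
  have h0 : 0 ≤ h := by linarith
  have hu2 : u ≤ 11 / 8 := by rw [hu]; nlinarith
  rcases le_or_gt (11 / 10) u with c1 | c1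
  · refine ⟨1 / 2, 11 / 50, by norm_num, by norm_num, by norm_num, ?_⟩
    intro p d C hd hdp hC hE
    exact core h0 hh (by linarith) (by norm_num) (by norm_num) (HG1 c1 hu2) hd hdp hC hE
  rcases le_or_gt (9 / 10) u with c2 | c2
  · have hu0 : 0 < u := by linarith
    have ht : 0 ≤ 3 - 2 * u := by linarith
    refine ⟨(3 - 2 * u) / u, (3 - 2 * u) / 3, by positivity, ?_, by linarith, ?_⟩
    · rw [div_le_iff₀ hu0]
      nlinarith [mul_nonneg ht (by linarith : (0 : ℝ) ≤ u - 3 / 4)]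
    · intro p d C hd hdp hC hE
      exact core h0 hh hu0 (by positivity) (by positivity) (HG2 c2 c1) hd hdp hC hE
  rcases le_or_gt (7 / 20) u with c3 | c3
  · refine ⟨13 / 10, 2 / 5, by norm_num, by norm_num, by norm_num, ?_⟩
    intro p d C hd hdp hC hE
    exact core h0 hh (by linarith) (by norm_num) (by norm_num) (HG3 c3 c2) hd hdp hC hE
  · refine ⟨0, 0, le_rfl, by norm_num, by norm_num, ?_⟩
    intro p d C hd hdp hC hE
    have := case4 (h := h) (p := p) (d := d) (C := C) h0 (by rw [hh]; linarith) hd hdp hE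
    refine le_trans (le_of_eq ?_) this
    ring

end LAY
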