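import Pool.Agent.LAY.A3
import Pool.Agent.LAY.G31

/-!
# [LAY-Fin] layered coverings: final form
-/

set_option autoImplicit false

open MeasureTheory Real
open scoped InnerProductSpace

namespace LAY

open BccCov BccO TPC

theorem exists_KL : ∃ K l : ℝ → ℝ, KL K l := by
  have h : ∀ h : ℝ, ∃ K l : ℝ, 1 ≤ h → (0 ≤ K ∧ K ≤ 4 * l ∧ l ≤ 100 ∧
    ∀ p d C : ℝ, 0 ≤ d → d ≤ p → 0 ≤ C → 3 * h ^ 2 + 6 * (p ^ 2 + d ^ 2) + 3 * C ^ 2 ≤ 16 →
      h * (3 * √3 / 4) * p * (d * (2 + (K / 4) * (4 - h ^ 2) + (5 * l - 3 * K / 2) * C ^ 2 -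
        ((3 * K + 10 * l) / 16) * (p ^ 2 + d ^ 2)) + (5 * l / 4) * C * (p ^ 2 - d ^ 2)) ≤
        32 / (5 * √5)) := by
    intro h
    by_cases h1 : 1 ≤ h
    · obtain ⟨K, l, hh⟩ := G31 h h1
      exact ⟨K, l, fun _ => hh⟩
    · exact ⟨0, 0, fun h2 => absurd h2 h1⟩
  choose K l hKl using h
  exact ⟨K, l, fun h h1 => (hKl h h1).1, fun h h1 => (hKl h h1).2.1, fun h h1 => (hKl h h1).2.2.1,
    fun h h1 => (hKl h h1).2.2.2⟩

/-- **layered coverings** -/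
theorem layered_covering {X : Set E3} {r : ℝ} (hr : 0 < r) {n : E3}
    (hn : ‖n‖ = 1) {t : ℤ → ℝ} (ht : ∀ k : ℤ, t k + r ≤ t (k + 1))
    (hX : ∀ x ∈ X, ∃ k : ℤ, ⟪x, n⟫_ℝ = t k)
    (hC : (⋃ x ∈ X, Metric.closedBall x r) = Set.univ) :
    ENNReal.ofReal (5 * √5 * π / 24) ≤
      Filter.liminf
        (fun R : ℝ =>
          ENat.toENNReal (X ∩ Metric.closedBall (0 : EuclideanSpace ℝ (Fin 3)) R).encard *
            MeasureTheory.volume (Metric.closedBall (0 : EuclideanSpace ℝ (Fin 3)) r) /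
            MeasureTheory.volume (Metric.closedBall (0 : EuclideanSpace ℝ (Fin 3)) R))
        Filter.atTop := by
  obtain ⟨K, l, hKL⟩ := exists_KL
  exact layered hKL hr hn ht hX hC

end LAY
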