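import Pool.Agent.LAY.H0

/-!
# [LAY-G2a] separated subsets; avoiding finitely many spheres inside a horizontal plane

`exists_sep'`: copy of `BccO.exists_sep` (Pool/Agent/MP_bf7174_co/O/R4.lean) with `ε` instead of `0.02` (Zorn).
`avoid`: PROOF. Candidates `z_s = vec (c 0 + s) (c 1 + s^2) (c 2)`, `0 < s ≤ min 1 (δ/2)`: `dist z_s c = √(s²+s⁴) ≤ s√2 ≤ δ`. For a pair `(o, ρ)` the condition
`dist z_s o = ρ` implies `(s + a)² + (s² + b)² + e = ρ²` with `a = c 0 - o 0`, `b = c 1 - o 1`, `e = (c 2 - o 2)²`, i.e. `s` is a root of a polynomial of degree 4 with leading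
coefficient 1 (`Polynomial` `(X + C a)^2 + (X^2 + C b)^2 + C (e - ρ^2)`, nonzero): finitely many `s` (`Polynomial.rootSet_finite` or
`Polynomial.roots ... toFinset`, or `Set.Finite` of the zero set of a nonzero polynomial). The condition `z_s 0 = f` holds for one `s`. The interval `(0, min 1 (δ/2)]` is infinite,
so some `s` avoids the finite set (`Set.Infinite.diff`, `Set.Ioc_infinite`).
-/

set_option autoImplicit false

open MeasureTheory Real
open scoped InnerProductSpace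

namespace LAY

open BccCov BccO TPC

theorem exists_sep' (X : Set E3) {ε : ℝ} (hε : 0 < ε) : ∃ Y ⊆ X,
    (∀ x ∈ Y, ∀ y ∈ Y, x ≠ y → ε ≤ dist x y) ∧ ∀ x ∈ X, ∃ y ∈ Y, dist x y < ε := by
  obtain ⟨Y, hY⟩ := zorn_subset {Y : Set E3 | Y ⊆ X ∧ ∀ x ∈ Y, ∀ y ∈ Y, x ≠ y → ε ≤ dist x y} (by
    intro c hc hchain
    refine ⟨⋃₀ c, ⟨?_, ?_⟩, fun s hs => Set.subset_sUnion_of_mem hs⟩
    · exact Set.sUnion_subset fun s hs => (hc hs).1
    · rintro x ⟨s, hs, hxs⟩ y ⟨s', hs', hys'⟩ hne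
      rcases hchain.total hs hs' with h | h
      · exact (hc hs').2 x (h hxs) y hys' hne
      · exact (hc hs).2 x hxs y (h hys') hne)
  refine ⟨Y, hY.prop.1, hY.prop.2, fun x hx => ?_⟩
  by_contra hcon
  push Not at hcon
  have hxY : x ∉ Y := fun h => by
    have := hcon x h
    rw [dist_self] at this
    linarith
  have h1 : insert x Y ∈ {Y : Set E3 | Y ⊆ X ∧ ∀ x ∈ Y, ∀ y ∈ Y, x ≠ y → ε ≤ dist x y} := by
    refine ⟨Set.insert_subset hx hY.prop.1, ?_⟩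
    rintro a (rfl | ha) b (rfl | hb) hne
    · exact absurd rfl hne
    · exact hcon b hb
    · rw [dist_comm]; exact hcon a ha
    · exact hY.prop.2 a ha b hb hne
  have h2 := hY.le_of_ge h1 (Set.subset_insert _ _)
  exact hxY (h2 (Set.mem_insert _ _))

theorem g2a_dist (x y : E3) : dist x y ^ 2 = (x 0 - y 0) ^ 2 + (x 1 - y 1) ^ 2 + (x 2 - y 2) ^ 2 := by
  rw [EuclideanSpace.dist_eq, Real.sq_sqrt (by positivity), Fin.sum_univ_three]
  simp only [Real.dist_eq, sq_abs]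

theorem g2a_fin (a b e : ℝ) : {s : ℝ | (s + a) ^ 2 + (s ^ 2 + b) ^ 2 + e = 0}.Finite := by
  have hP : ((Polynomial.X + Polynomial.C a) ^ 2 + (Polynomial.X ^ 2 + Polynomial.C b) ^ 2 +
      Polynomial.C e : Polynomial ℝ) ≠ 0 := by
    intro h
    have hv : ∀ t : ℝ, (t + a) ^ 2 + (t ^ 2 + b) ^ 2 + e = 0 := fun t => by
      have := congrArg (Polynomial.eval t) h
      simpa using this
    have h0 := hv 0
    have h1 := hv 1
    have h2 := hv (-1)
    have h3 := hv 2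
    have h4 := hv (-2)
    nlinarith
  refine (Polynomial.finite_setOf_isRoot hP).subset fun s hs => ?_
  simp only [Set.mem_setOf_eq, Polynomial.IsRoot.def] at hs ⊢
  simpa using hs

theorem avoid (c : E3) {δ : ℝ} (hδ : 0 < δ) (S : Finset (E3 × ℝ)) (F : Finset ℝ) :
    ∃ z : E3, dist z c ≤ δ ∧ z 2 = c 2 ∧ z 0 ∉ F ∧ ∀ s ∈ S, dist z s.1 ≠ s.2 := by
  have hB1 : {s : ℝ | c 0 + s ∈ F}.Finite :=
    F.finite_toSet.preimage (fun x _ y _ h => add_left_cancel h)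
  have hB2 : ∀ q ∈ S, {s : ℝ | dist (vec (c 0 + s) (c 1 + s ^ 2) (c 2)) q.1 = q.2}.Finite := by
    intro q _
    refine (g2a_fin (c 0 - q.1 0) (c 1 - q.1 1) ((c 2 - q.1 2) ^ 2 - q.2 ^ 2)).subset fun s hs => ?_
    simp only [Set.mem_setOf_eq] at hs ⊢
    have h := g2a_dist (vec (c 0 + s) (c 1 + s ^ 2) (c 2)) q.1
    rw [hs, vec0, vec1, vec2] at h
    linarith [h]
  have hB : ({s : ℝ | c 0 + s ∈ F} ∪
      ⋃ q ∈ S, {s : ℝ | dist (vec (c 0 + s) (c 1 + s ^ 2) (c 2)) q.1 = q.2}).Finite :=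
    hB1.union (S.finite_toSet.biUnion fun q hq => hB2 q hq)
  have hI : (Set.Ioc (0 : ℝ) (min 1 (δ / 2))).Infinite := Set.Ioc_infinite (lt_min one_pos (half_pos hδ))
  obtain ⟨s, ⟨hs0, hs1⟩, hsB⟩ := (hI.diff hB).nonempty
  simp only [Set.mem_union, Set.mem_setOf_eq, Set.mem_iUnion, not_or, not_exists] at hsB
  have hs2 : s ≤ 1 := hs1.trans (min_le_left _ _)
  have hs3 : s ≤ δ / 2 := hs1.trans (min_le_right _ _)
  refine ⟨vec (c 0 + s) (c 1 + s ^ 2) (c 2), ?_, by simp, by simpa using hsB.1, fun q hq h => hsB.2 q hq h⟩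
  have h := g2a_dist (vec (c 0 + s) (c 1 + s ^ 2) (c 2)) c
  rw [vec0, vec1, vec2] at h
  refine abs_le_of_sq_le_sq' (a := dist (vec (c 0 + s) (c 1 + s ^ 2) (c 2)) c) ?_ hδ.le |>.2
  rw [h]
  have h4 : s ^ 2 ≤ s := by nlinarith
  have h5 : s ^ 2 ≤ (δ / 2) ^ 2 := by nlinarith
  have h6 : (s ^ 2) ^ 2 ≤ s ^ 2 := by nlinarith [sq_nonneg s]
  nlinarith

end LAY
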