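import Pool.Agent.LAY.H0

/-!
# [LAY-G3a] the stretched heights

`exists_stretch`: PROOF. `g k := max (t (k+1) - t k) ρ`; `t' k := t 0 + ∑ i ∈ Finset.Ico 0 k, g i - ∑ i ∈ Finset.Ico k 0, g i` (integer intervals), or two-sided recursion on `ℤ`
(`Int.inductionOn'`). `|t k - t 0| ≤ |t' k - t 0|`: for `k ≥ 0` by induction `0 ≤ t k - t 0 ≤ t' k - t 0`; for `k ≤ 0` symmetric (`t' k - t 0 ≤ t k - t 0 ≤ 0`).
-/

set_option autoImplicit false

open MeasureTheory Real
open scoped InnerProductSpace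

namespace LAY

open BccCov BccO TPC

theorem exists_stretch (t : ℤ → ℝ) (ρ : ℝ) (hρ : 1 ≤ ρ) (ht : ∀ k : ℤ, t k + 1 ≤ t (k + 1)) :
    ∃ t' : ℤ → ℝ, t' 0 = t 0 ∧ (∀ k : ℤ, t' (k + 1) - t' k = max (t (k + 1) - t k) ρ) ∧
      ∀ k : ℤ, |t k - t 0| ≤ |t' k - t 0| := by
  let f : ℕ → ℝ := fun n => ∑ i ∈ Finset.range n, max (t ((i : ℤ) + 1) - t i) ρ
  let h : ℕ → ℝ := fun n => ∑ i ∈ Finset.range n, max (t (-(i : ℤ)) - t (-(i : ℤ) - 1)) ρ
  let t' : ℤ → ℝ := fun k => t 0 + f k.toNat - h (-k).toNat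
  have hpos : ∀ n : ℕ, t' (n : ℤ) = t 0 + f n := by
    intro n
    have e1 : ((n : ℤ)).toNat = n := by simp
    have e2 : (-(n : ℤ)).toNat = 0 := by simp
    simp only [t', e1, e2]
    simp [h]
  have hneg : ∀ n : ℕ, t' (-(n : ℤ)) = t 0 - h n := by
    intro n
    have e1 : (- -(n : ℤ)).toNat = n := by simp
    have e2 : (-(n : ℤ)).toNat = 0 := by simp
    simp only [t', e1, e2]
    simp [f]
  have hstep : ∀ k : ℤ, t' (k + 1) - t' k = max (t (k + 1) - t k) ρ := by
    intro k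
    rcases le_or_gt 0 k with hk | hk
    · obtain ⟨n, rfl⟩ := Int.eq_ofNat_of_zero_le hk
      have e1 : (n : ℤ) + 1 = ((n + 1 : ℕ) : ℤ) := by push_cast; ring
      have e2 : t' ((n : ℤ) + 1) = t 0 + f (n + 1) := by rw [e1]; exact hpos (n + 1)
      rw [e2, hpos n]
      simp only [f, Finset.sum_range_succ]
      ring
    · obtain ⟨n, hn⟩ : ∃ n : ℕ, k = -((n + 1 : ℕ) : ℤ) :=
        ⟨(-k - 1).toNat, by push_cast; omega⟩
      have e1 : k + 1 = -(n : ℤ) := by rw [hn]; push_cast; ring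
      have e2 : k = -(n : ℤ) - 1 := by rw [hn]; push_cast; ring
      rw [e1, hneg n, hn, hneg (n + 1)]
      have e3 : -((n + 1 : ℕ) : ℤ) = -(n : ℤ) - 1 := by push_cast; ring
      rw [e3]
      simp only [h, Finset.sum_range_succ]
      ring
  refine ⟨t', ?_, hstep, ?_⟩
  · have := hpos 0
    simpa [f] using this
  · intro k
    rcases le_or_gt 0 k with hk | hk
    · obtain ⟨n, rfl⟩ := Int.eq_ofNat_of_zero_le hk
      have key : ∀ n : ℕ, 0 ≤ t (n : ℤ) - t 0 ∧ t (n : ℤ) - t 0 ≤ f n := by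
        intro n
        induction n with
        | zero => simp [f]
        | succ n ih =>
          have h1 := ht (n : ℤ)
          have h2 : t ((n : ℤ) + 1) - t n ≤ max (t ((n : ℤ) + 1) - t n) ρ := le_max_left _ _
          have h3 : f (n + 1) = f n + max (t ((n : ℤ) + 1) - t n) ρ := by
            simp only [f, Finset.sum_range_succ]
          have e1 : ((n + 1 : ℕ) : ℤ) = (n : ℤ) + 1 := by push_cast; ring
          rw [e1, h3]
          constructor <;> linarith [ih.1, ih.2]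
      have h1 := key n
      have h2 := hpos n
      have e1 : (Int.ofNat n) = (n : ℤ) := rfl
      rw [h2, abs_of_nonneg h1.1, abs_of_nonneg (by linarith)]
      linarith
    · obtain ⟨n, hn⟩ : ∃ n : ℕ, k = -(n : ℤ) := ⟨(-k).toNat, by omega⟩
      subst hn
      have key : ∀ n : ℕ, t (-(n : ℤ)) - t 0 ≤ 0 ∧ -h n ≤ t (-(n : ℤ)) - t 0 := by
        intro n
        induction n with
        | zero => simp [h]
        | succ n ih =>
          have h1 := ht (-(n : ℤ) - 1)
          rw [sub_add_cancel] at h1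
          have h2 : t (-(n : ℤ)) - t (-(n : ℤ) - 1) ≤
            max (t (-(n : ℤ)) - t (-(n : ℤ) - 1)) ρ := le_max_left _ _
          have h3 : h (n + 1) = h n + max (t (-(n : ℤ)) - t (-(n : ℤ) - 1)) ρ := by
            simp only [h, Finset.sum_range_succ]
          have e1 : -((n + 1 : ℕ) : ℤ) = -(n : ℤ) - 1 := by push_cast; ring
          rw [e1, h3]
          constructor <;> linarith [ih.1, ih.2]
      have h1 := key n
      have h2 := hneg n
      rw [h2, abs_of_nonpos h1.1, abs_of_nonpos (by linarith)]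
      linarith

end LAY
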