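import Pool.Agent.LAY.H0
import Pool.Agent.LAY.G3a

/-!
# [LAY-G3] every plane is covered by its own layer

Let `t k + 1 ≤ t (k+1)` and let the unit balls at `X` (heights in the range of `t`, locally finite) cover space.
`plane_cov`: PROOF. Suppose `dist p x > 1` for all `x ∈ X` with `x 2 = t k`. By local finiteness (finitely many points of `X` in
`closedBall p 3`) there is `ε ∈ (0,1)` with `dist p x > 1 + ε` for all `x ∈ X` with `x 2 = t k`. Choose `p' = vec (p 0 + s) (p 1) (p 2)` with `0 < s < ε` and `p' 0 ≠ x 0` for all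
`x ∈ X ∩ closedBall p 3` (finitely many excluded `s`). `p'` is covered by `x ∈ X`, `dist p' x ≤ 1`, so `x ∈ closedBall p 3`. If `x 2 = t k`: `dist p x ≤ dist p p' + 1 ≤ s + 1 < 1 + ε`, contradiction.
Otherwise `|x 2 - p' 2| ≥ 1` (`gap_ne`), so `dist p' x ^ 2 ≥ 1 + (p' 0 - x 0)^2 > 1`, contradiction.
`slab_cov`: (points strictly between two planes are covered by the two neighbouring layers): `p` is covered by `x ∈ X` with `x 2 = t j`, `|p 2 - t j| ≤ 1`; if `j < k` then `p 2 - t j > t k - t j ≥ 1`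
(`gap_lt`), if `j > k+1` then `t j - p 2 > t j - t (k+1) ≥ 1`; so `j = k` or `j = k+1`.
-/

set_option autoImplicit false

open MeasureTheory Real
open scoped InnerProductSpace

namespace LAY

open BccCov BccO TPC

theorem plane_cov {X : Set E3} {t : ℤ → ℝ} (hfin : LF X) (hX : Hts X t)
    (ht : ∀ k : ℤ, t k + 1 ≤ t (k + 1)) (hcov : ∀ p : E3, ∃ x ∈ X, dist p x ≤ 1) (k : ℤ) (p : E3)
    (hp : p 2 = t k) : ∃ x ∈ X, x 2 = t k ∧ dist p x ≤ 1 := by
  by_contra hcon
  push Not at hcon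
  have hSf : (X ∩ Metric.closedBall p 3).Finite := by
    refine (hfin (3 + dist p 0)).subset ?_
    rintro x ⟨hx, hxp⟩
    refine ⟨hx, ?_⟩
    rw [Metric.mem_closedBall] at hxp ⊢
    linarith [dist_triangle x p 0]
  have ev1 : ∀ᶠ s in nhdsWithin (0 : ℝ) (Set.Ioi 0), ∀ x ∈ X ∩ Metric.closedBall p 3,
      (x 2 = t k → 1 + s < dist p x) ∧ p 0 + s ≠ x 0 := by
    rw [Filter.eventually_all_finite hSf]
    rintro x ⟨hx, -⟩
    refine Filter.Eventually.and ?_ ?_
    · by_cases hxk : x 2 = t k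
      · have h1 := hcon x hx hxk
        have h2 : ∀ᶠ s in nhds (0 : ℝ), s < dist p x - 1 := eventually_lt_nhds (by linarith)
        filter_upwards [nhdsWithin_le_nhds h2] with s hs _
        linarith
      · exact Filter.Eventually.of_forall fun s h => absurd h hxk
    · rcases le_or_gt (x 0 - p 0) 0 with h1 | h1
      · filter_upwards [self_mem_nhdsWithin] with s hs
        have hs' : 0 < s := hs
        intro h
        linarith
      · have h2 : ∀ᶠ s in nhds (0 : ℝ), s < x 0 - p 0 := eventually_lt_nhds h1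
        filter_upwards [nhdsWithin_le_nhds h2] with s hs
        intro h
        linarith
  have ev2 : ∀ᶠ s in nhdsWithin (0 : ℝ) (Set.Ioi 0), s < 1 :=
    nhdsWithin_le_nhds (eventually_lt_nhds (by norm_num))
  have ev3 : ∀ᶠ s in nhdsWithin (0 : ℝ) (Set.Ioi 0), 0 < s := self_mem_nhdsWithin
  obtain ⟨s, ⟨hs1, hs2⟩, hs3⟩ := ((ev1.and ev2).and ev3).exists
  obtain ⟨x, hx, hd⟩ := hcov (vec (p 0 + s) (p 1) (p 2))
  have hpp : dist p (vec (p 0 + s) (p 1) (p 2)) = s := by
    have h1 : dist p (vec (p 0 + s) (p 1) (p 2)) ^ 2 = s ^ 2 := by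
      rw [LP.dist_sq, vec0, vec1, vec2]
      ring
    exact (pow_left_inj₀ dist_nonneg hs3.le two_ne_zero).1 h1
  have htri := dist_triangle p (vec (p 0 + s) (p 1) (p 2)) x
  rw [hpp] at htri
  have hxS : x ∈ X ∩ Metric.closedBall p 3 := by
    refine ⟨hx, ?_⟩
    rw [Metric.mem_closedBall, dist_comm]
    linarith
  obtain ⟨h1, h2⟩ := hs1 x hxS
  by_cases hxk : x 2 = t k
  · have := h1 hxk
    linarith
  · obtain ⟨j, hj⟩ := hX x hx
    have h3 : 1 ≤ |t j - t k| := gap_ne one_pos ht (by rw [← hj]; exact hxk)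
    have h4 : 1 ≤ (t j - t k) ^ 2 := by
      rw [← sq_abs]
      nlinarith
    have h5 : dist (vec (p 0 + s) (p 1) (p 2)) x ^ 2 ≤ 1 := by
      have := dist_nonneg (x := vec (p 0 + s) (p 1) (p 2)) (y := x)
      nlinarith
    rw [LP.dist_sq, vec0, vec1, vec2, hp, hj] at h5
    have h6 : 0 < (p 0 + s - x 0) ^ 2 := by
      have : p 0 + s - x 0 ≠ 0 := sub_ne_zero.2 h2
      positivity
    nlinarith [sq_nonneg (p 1 - x 1)]

theorem slab_cov {X : Set E3} {t : ℤ → ℝ} (hX : Hts X t)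
    (ht : ∀ k : ℤ, t k + 1 ≤ t (k + 1)) (hcov : ∀ p : E3, ∃ x ∈ X, dist p x ≤ 1) (k : ℤ) (p : E3)
    (hp1 : t k < p 2) (hp2 : p 2 < t (k + 1)) :
    ∃ x ∈ X, (x 2 = t k ∨ x 2 = t (k + 1)) ∧ dist p x ≤ 1 := by
  obtain ⟨x, hx, hd⟩ := hcov p
  obtain ⟨j, hj⟩ := hX x hx
  refine ⟨x, hx, ?_, hd⟩
  have h5 : dist p x ^ 2 ≤ 1 := by
    have := dist_nonneg (x := p) (y := x)
    nlinarith
  rw [LP.dist_sq, hj] at h5
  have h6 : (p 2 - t j) ^ 2 ≤ 1 := by nlinarith [sq_nonneg (p 0 - x 0), sq_nonneg (p 1 - x 1)]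
  have h7 := abs_le.1 ((sq_le_one_iff_abs_le_one _).1 h6)
  rcases lt_trichotomy j k with h | h | h
  · have := gap_lt one_pos ht h
    linarith [h7.1, h7.2]
  · left
    rw [hj, h]
  · rcases eq_or_lt_of_le (Int.add_one_le_iff.2 h) with h' | h'
    · right
      rw [hj, ← h']
    · have := gap_lt one_pos ht h'
      linarith [h7.1, h7.2]

end LAY
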