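import Pool.Agent.LAY.H0

/-!
# [LAY-SQa] squared distances

`sq_dist`: `dist x y ^ 2 = sq x y` (`BccCov.LP.dist_sq` or `EuclideanSpace.dist_eq`, `Real.sq_sqrt`, `Fin.sum_univ_three`).
`six_le`: `Σ_{i<j} |p_i - p_j|² = 4 Σ |p_i - o|² - |Σ (p_i - o)|² = 16 ρ² - |...|² ≤ 16 ρ² ≤ 16` (`0 ≤ ρ` since `ρ = dist x o`), coordinatewise
by `nlinarith`/`ring` (the last term is a sum of three squares).
`abs_coord_le`: `(x i - y i)² ≤ dist x y ^ 2` (`sq_dist`, `Fin` cases), or `PiLp`/`EuclideanSpace` norm of a coordinate (`BccCov.W2.coord_le`).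
-/

set_option autoImplicit false

open MeasureTheory Real
open scoped InnerProductSpace

namespace LAY

open BccCov BccO TPC

theorem sq_dist (x y : E3) : dist x y ^ 2 = sq x y := by
  rw [EuclideanSpace.dist_eq, Real.sq_sqrt (by positivity), Fin.sum_univ_three]
  simp only [Real.dist_eq, sq_abs, sq]

theorem six_le {x y z w o : E3} {ρ : ℝ} (hρ : ρ ≤ 1) (hx : dist x o = ρ) (hy : dist y o = ρ)
    (hz : dist z o = ρ) (hw : dist w o = ρ) :
    sq x y + sq x z + sq x w + sq y z + sq y w + sq z w ≤ 16 := by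
  have h0 : 0 ≤ ρ := hx ▸ dist_nonneg
  have ex := sq_dist x o
  have ey := sq_dist y o
  have ez := sq_dist z o
  have ew := sq_dist w o
  rw [hx] at ex
  rw [hy] at ey
  rw [hz] at ez
  rw [hw] at ew
  have key : sq x y + sq x z + sq x w + sq y z + sq y w + sq z w =
      4 * (sq x o + sq y o + sq z o + sq w o)
        - ((x 0 - o 0) + (y 0 - o 0) + (z 0 - o 0) + (w 0 - o 0)) ^ 2
        - ((x 1 - o 1) + (y 1 - o 1) + (z 1 - o 1) + (w 1 - o 1)) ^ 2
        - ((x 2 - o 2) + (y 2 - o 2) + (z 2 - o 2) + (w 2 - o 2)) ^ 2 := by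
    simp only [sq]
    ring
  have h1 : ρ ^ 2 ≤ 1 := pow_le_one₀ h0 hρ
  have s0 := sq_nonneg ((x 0 - o 0) + (y 0 - o 0) + (z 0 - o 0) + (w 0 - o 0))
  have s1 := sq_nonneg ((x 1 - o 1) + (y 1 - o 1) + (z 1 - o 1) + (w 1 - o 1))
  have s2 := sq_nonneg ((x 2 - o 2) + (y 2 - o 2) + (z 2 - o 2) + (w 2 - o 2))
  rw [key]
  linarith

theorem abs_coord_le (x y : E3) (i : Fin 3) : |x i - y i| ≤ dist x y := by
  have h := PiLp.norm_apply_le (x - y) i
  rw [Real.norm_eq_abs] at h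
  rw [dist_eq_norm]
  simpa using h

end LAY
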