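import Pool.Agent.LAY.G3
import Pool.Agent.LAY.SQa

/-!
# [LAY-G3b] the stretched set covers space with radius `√((3+ρ²)/4)`

`str_cov`: PROOF. Let `c` be a point, `R'² = (3+ρ²)/4 ≥ 1`. `exists_level` for `t'` (gaps `≥ ρ > 0`: `max _ ρ ≥ ρ`) gives `k` with `t' k ≤ c 2 < t' (k+1)`. Put `h = t (k+1) - t k ≥ 1`,
`h' = t' (k+1) - t' k = max h ρ`, `σ = c 2 - t' k ∈ [0, h')`. A point `x ∈ X` with `x 2 = t j` gives `y = vec (x 0) (x 1) (t' j) ∈ Str X t t'`.
 Write squared distances as horizontal part + vertical part (`sq_dist`).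
 Case A: `h' = h`. Let `p = vec (c 0) (c 1) (t k + σ)`. If `σ = 0`: `plane_cov` at `k` gives `x`; the vertical parts of `p - x` and `c - y` are both 0: `dist c y ≤ 1 ≤ R'`.
 If `0 < σ`: `slab_cov` gives `x` with `x 2 = t k` or `t (k+1)`; the vertical difference of `c` and `y` equals the one of `p` and `x` (because `h' = h`): `dist c y = dist p x ≤ 1 ≤ R'`.
 Case B: `h < ρ = h'`. By symmetry treat `σ ≥ h'/2` (upper half) and `σ ≤ h'/2` (lower half) in the same way (exchange the two planes). Upper half: `s' := σ - h'/2 ∈ [0, h'/2)`,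
 `s := h' s' / h ≥ s'`. (vertical distance of `c` to the plane `k` is `h'/2 + s'`, to the plane `k+1` it is `h'/2 - s'`.)
  (B1) `s < h/2`: `p := vec (c 0) (c 1) (t k + h/2 + s)` is strictly between the old planes; `slab_cov` gives `x`.
    If `x 2 = t k`: with `a` = squared horizontal distance, `a + (h/2+s)² ≤ 1`, and the new squared distance is
    `a + (h'/2+s')² ≤ 1 - h²/4 - h s - s² + h'²/4 + h' s' + s'² = 1 + (h'²-h²)/4 + (s'²-s²) ≤ 1 + (ρ²-1)/4 = R'²` (`h s = h' s'`, `s' ≤ s`, `h ≥ 1`, `h' = ρ`).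
    If `x 2 = t (k+1)`: `a + (h/2-s)² ≤ 1`, new: `a + (h'/2-s')² ≤ 1 + (h'²-h²)/4 + (s'²-s²) ≤ R'²`.
  (B2) `s ≥ h/2`: `plane_cov` for the plane `k+1` and the point `vec (c 0) (c 1) (t (k+1))`: `x ∈ X`, `x 2 = t (k+1)`, `a ≤ 1`; new squared distance `a + (h'/2-s')² ≤ 1 + h'²/4 - s'(h'-s')`,
    and `s'(h'-s') ≥ 1/4` because `s' ≥ h²/(2h')`, `h' - s' ≥ h'/2`, so `s'(h'-s') ≥ h²/4 ≥ 1/4`. So it is `≤ 3/4 + ρ²/4 = R'²`.
 Lower half: the same with the roles of `k` and `k+1` exchanged (`s' := h'/2 - σ`).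
-/

set_option autoImplicit false

open MeasureTheory Real
open scoped InnerProductSpace

namespace LAY

open BccCov BccO TPC

/-- the stretched set -/
def Str (X : Set E3) (t t' : ℤ → ℝ) : Set E3 :=
  {y | ∃ x ∈ X, ∃ k : ℤ, x 2 = t k ∧ y = vec (x 0) (x 1) (t' k)}

theorem g3b_fin {X : Set E3} {t t' : ℤ → ℝ} {ρ : ℝ} (c x : E3) (hx : x ∈ X) (j : ℤ)
    (hj : x 2 = t j)
    (h : (c 0 - x 0) ^ 2 + (c 1 - x 1) ^ 2 + (c 2 - t' j) ^ 2 ≤ (3 + ρ ^ 2) / 4) :
    ∃ y ∈ Str X t t', dist c y ≤ √((3 + ρ ^ 2) / 4) := by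
  refine ⟨vec (x 0) (x 1) (t' j), ⟨x, hx, j, hj, rfl⟩, ?_⟩
  apply Real.le_sqrt_of_sq_le
  rw [sq_dist, sq, vec0, vec1, vec2]
  exact h

theorem g3b_sq {c x : E3} {z : ℝ} (h : dist (vec (c 0) (c 1) z) x ≤ 1) :
    (c 0 - x 0) ^ 2 + (c 1 - x 1) ^ 2 + (z - x 2) ^ 2 ≤ 1 := by
  have h1 : dist (vec (c 0) (c 1) z) x ^ 2 ≤ 1 := by
    have := dist_nonneg (x := vec (c 0) (c 1) z) (y := x)
    nlinarith
  rw [sq_dist, sq, vec0, vec1, vec2] at h1
  exact h1

/-- the far plane -/
theorem g3b_n1 {a h ρ s s' : ℝ} (hh : 1 ≤ h) (hρ : h < ρ) (hs' : 0 ≤ s') (hs : h * s = ρ * s')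
    (ha : a + (h / 2 + s) ^ 2 ≤ 1) : a + (ρ / 2 + s') ^ 2 ≤ (3 + ρ ^ 2) / 4 := by
  have h1 : s' ≤ s := by
    have h2 : h * s' ≤ h * s := by
      rw [hs]
      exact mul_le_mul_of_nonneg_right hρ.le hs'
    exact le_of_mul_le_mul_left h2 (by linarith)
  have h3 : s' ^ 2 ≤ s ^ 2 := pow_le_pow_left₀ hs' h1 2
  nlinarith

/-- the near plane -/
theorem g3b_n2 {a h ρ s s' : ℝ} (hh : 1 ≤ h) (hρ : h < ρ) (hs' : 0 ≤ s') (hs : h * s = ρ * s')
    (ha : a + (h / 2 - s) ^ 2 ≤ 1) : a + (ρ / 2 - s') ^ 2 ≤ (3 + ρ ^ 2) / 4 := by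
  have h1 : s' ≤ s := by
    have h2 : h * s' ≤ h * s := by
      rw [hs]
      exact mul_le_mul_of_nonneg_right hρ.le hs'
    exact le_of_mul_le_mul_left h2 (by linarith)
  have h3 : s' ^ 2 ≤ s ^ 2 := pow_le_pow_left₀ hs' h1 2
  nlinarith

/-- close to a plane -/
theorem g3b_n3 {a h ρ s s' : ℝ} (hh : 1 ≤ h) (hs' : 0 ≤ s') (hs2 : s' ≤ ρ / 2)
    (hs : h * s = ρ * s') (hs3 : h / 2 ≤ s) (ha : a ≤ 1) :
    a + (ρ / 2 - s') ^ 2 ≤ (3 + ρ ^ 2) / 4 := by
  have h1 : 1 / 2 ≤ h * s := by nlinarith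
  have h2 : ρ * s' / 2 ≤ s' * (ρ - s') := by nlinarith
  nlinarith

theorem str_cov {X : Set E3} {t t' : ℤ → ℝ} {ρ : ℝ} (hρ : 1 ≤ ρ) (hfin : LF X) (hX : Hts X t)
    (ht : ∀ k : ℤ, t k + 1 ≤ t (k + 1)) (hcov : ∀ p : E3, ∃ x ∈ X, dist p x ≤ 1)
    (ht' : ∀ k : ℤ, t' (k + 1) - t' k = max (t (k + 1) - t k) ρ) :
    ∀ p : E3, ∃ y ∈ Str X t t', dist p y ≤ √((3 + ρ ^ 2) / 4) := by
  intro c
  obtain ⟨k, hk1, hk2⟩ := exists_level (t := t') (H := ρ) (by linarith) (fun k => by
    have := ht' k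
    have h2 := le_max_right (t (k + 1) - t k) ρ
    linarith) (c 2)
  have hh : 1 ≤ t (k + 1) - t k := by linarith [ht k]
  have hgap := ht' k
  have hR1 : (1 : ℝ) ≤ (3 + ρ ^ 2) / 4 := by nlinarith
  rcases le_or_gt ρ (t (k + 1) - t k) with hA | hB
  · -- case A
    rw [max_eq_left hA] at hgap
    rcases eq_or_lt_of_le hk1 with h0 | h0
    · obtain ⟨x, hx, hx2, hd⟩ := plane_cov hfin hX ht hcov k (vec (c 0) (c 1) (t k)) (by simp)
      have h1 := g3b_sq hd
      refine g3b_fin c x hx k hx2 ?_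
      rw [hx2] at h1
      rw [← h0]
      nlinarith
    · obtain ⟨x, hx, hx2, hd⟩ := slab_cov hX ht hcov k (vec (c 0) (c 1) (t k + (c 2 - t' k)))
        (by simp only [vec2]; linarith) (by simp only [vec2]; linarith)
      have h1 := g3b_sq hd
      rcases hx2 with hx2 | hx2
      · refine g3b_fin c x hx k hx2 ?_
        rw [hx2] at h1
        have e : t k + (c 2 - t' k) - t k = c 2 - t' k := by ring
        rw [e] at h1
        linarith
      · refine g3b_fin c x hx (k + 1) hx2 ?_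
        rw [hx2] at h1
        have e : t k + (c 2 - t' k) - t (k + 1) = c 2 - t' (k + 1) := by linarith
        rw [e] at h1
        linarith
  · -- case B
    rw [max_eq_right hB.le] at hgap
    set h : ℝ := t (k + 1) - t k with hhdef
    have hhpos : 0 < h := by linarith
    rcases le_total (ρ / 2) (c 2 - t' k) with hup | hlo
    · -- upper half
      obtain ⟨s', hs'⟩ : ∃ s' : ℝ, s' = (c 2 - t' k) - ρ / 2 := ⟨_, rfl⟩
      obtain ⟨s, hs⟩ : ∃ s : ℝ, s = ρ * s' / h := ⟨_, rfl⟩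
      have hs0 : 0 ≤ s' := by linarith
      have hs1 : s' ≤ ρ / 2 := by linarith
      have hss : h * s = ρ * s' := by rw [hs]; field_simp
      have hsn : 0 ≤ s := by rw [hs]; positivity
      rcases lt_or_ge s (h / 2) with hb1 | hb2
      · obtain ⟨x, hx, hx2, hd⟩ := slab_cov hX ht hcov k (vec (c 0) (c 1) (t k + h / 2 + s))
          (by simp only [vec2]; linarith) (by simp only [vec2]; linarith)
        have h1 := g3b_sq hd
        rcases hx2 with hx2 | hx2
        · refine g3b_fin c x hx k hx2 ?_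
          rw [hx2] at h1
          have e : t k + h / 2 + s - t k = h / 2 + s := by ring
          rw [e] at h1
          have := g3b_n1 hh hB hs0 hss h1
          have e2 : c 2 - t' k = ρ / 2 + s' := by linarith
          rw [e2]
          exact this
        · refine g3b_fin c x hx (k + 1) hx2 ?_
          rw [hx2] at h1
          have e : (t k + h / 2 + s - t (k + 1)) ^ 2 = (h / 2 - s) ^ 2 := by
            have : t k + h / 2 + s - t (k + 1) = -(h / 2 - s) := by linarith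
            rw [this]; ring
          rw [e] at h1
          have := g3b_n2 hh hB hs0 hss h1
          have e2 : (c 2 - t' (k + 1)) ^ 2 = (ρ / 2 - s') ^ 2 := by
            have : c 2 - t' (k + 1) = -(ρ / 2 - s') := by linarith
            rw [this]; ring
          rw [e2]
          exact this
      · obtain ⟨x, hx, hx2, hd⟩ := plane_cov hfin hX ht hcov (k + 1)
          (vec (c 0) (c 1) (t (k + 1))) (by simp)
        have h1 := g3b_sq hd
        refine g3b_fin c x hx (k + 1) hx2 ?_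
        rw [hx2, sub_self] at h1
        have e2 : (c 2 - t' (k + 1)) ^ 2 = (ρ / 2 - s') ^ 2 := by
          have : c 2 - t' (k + 1) = -(ρ / 2 - s') := by linarith
          rw [this]; ring
        rw [e2]
        exact g3b_n3 hh hs0 hs1 hss hb2 (by nlinarith)
    · -- lower half
      obtain ⟨s', hs'⟩ : ∃ s' : ℝ, s' = ρ / 2 - (c 2 - t' k) := ⟨_, rfl⟩
      obtain ⟨s, hs⟩ : ∃ s : ℝ, s = ρ * s' / h := ⟨_, rfl⟩
      have hs0 : 0 ≤ s' := by linarith
      have hs1 : s' ≤ ρ / 2 := by linarith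
      have hss : h * s = ρ * s' := by rw [hs]; field_simp
      have hsn : 0 ≤ s := by rw [hs]; positivity
      rcases lt_or_ge s (h / 2) with hb1 | hb2
      · obtain ⟨x, hx, hx2, hd⟩ := slab_cov hX ht hcov k (vec (c 0) (c 1) (t k + h / 2 - s))
          (by simp only [vec2]; linarith) (by simp only [vec2]; linarith)
        have h1 := g3b_sq hd
        rcases hx2 with hx2 | hx2
        · refine g3b_fin c x hx k hx2 ?_
          rw [hx2] at h1
          have e : t k + h / 2 - s - t k = h / 2 - s := by ring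
          rw [e] at h1
          have := g3b_n2 hh hB hs0 hss h1
          have e2 : c 2 - t' k = ρ / 2 - s' := by linarith
          rw [e2]
          exact this
        · refine g3b_fin c x hx (k + 1) hx2 ?_
          rw [hx2] at h1
          have e : (t k + h / 2 - s - t (k + 1)) ^ 2 = (h / 2 + s) ^ 2 := by
            have : t k + h / 2 - s - t (k + 1) = -(h / 2 + s) := by linarith
            rw [this]; ring
          rw [e] at h1
          have := g3b_n1 hh hB hs0 hss h1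
          have e2 : (c 2 - t' (k + 1)) ^ 2 = (ρ / 2 + s') ^ 2 := by
            have : c 2 - t' (k + 1) = -(ρ / 2 + s') := by linarith
            rw [this]; ring
          rw [e2]
          exact this
      · obtain ⟨x, hx, hx2, hd⟩ := plane_cov hfin hX ht hcov k
          (vec (c 0) (c 1) (t k)) (by simp)
        have h1 := g3b_sq hd
        refine g3b_fin c x hx k hx2 ?_
        rw [hx2, sub_self] at h1
        have e2 : c 2 - t' k = ρ / 2 - s' := by linarith
        rw [e2]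
        exact g3b_n3 hh hs0 hs1 hss hb2 (by nlinarith)

end LAY
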