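import Pool.Agent.LAY.GQ

/-!
# The local inequality for cells with three coplanar vertices: geometric form
-/

namespace LAY

/-- `M` -/
def Mq (u g : ℝ) : ℝ := 12 + 9 * u - u * g ^ 2

/-- `A` -/
noncomputable def Aq (K l u g : ℝ) : ℝ :=
  1 + K * u / 8 * (1 - g ^ 2) + l / 9 * (17 / 4 * (u * g ^ 2) - 3 - 9 / 4 * u)

/-- `α` -/
noncomputable def aq (l u g : ℝ) : ℝ := 4 / 9 * l * (u * g)

/-- `β` -/
noncomputable def bq (l u g : ℝ) : ℝ := l * (g * Mq u g) / 36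

/-- what is needed from the polynomial inequality -/
def HG (K l u : ℝ) : Prop := ∀ g w : ℝ, 0 ≤ g → 0 ≤ w → w ≤ 1 → 0 ≤ Mq u g →
  0 ≤ Aq K l u g - aq l u g ∧ (3 * K + 10 * l) * Mq u g ≤ 360 * Aq K l u g ∧
  (2 - u) * Mq u g ^ 2 * ((1 + w) * (Aq K l u g + bq l u g * w) *
    (Aq K l u g - (Aq K l u g - aq l u g) * w)) ≤ 384

theorem sq_V0 : ((32 : ℝ) / (5 * √5)) ^ 2 = 1024 / 125 := by
  have : (√5 : ℝ) ^ 2 = 5 := Real.sq_sqrt (by norm_num)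
  rw [div_pow, mul_pow, this]
  norm_num

theorem core {h K l u : ℝ} (h0 : 0 ≤ h) (hu : h ^ 2 = 8 * (2 - u) / 5) (hu0 : 0 < u)
    (hK : 0 ≤ K) (hl : 0 ≤ l) (H : HG K l u) {p d C : ℝ} (hd : 0 ≤ d) (hdp : d ≤ p) (hC : 0 ≤ C)
    (hE : 3 * h ^ 2 + 6 * (p ^ 2 + d ^ 2) + 3 * C ^ 2 ≤ 16) :
    h * (3 * √3 / 4) * p * (d * (2 + (K / 4) * (4 - h ^ 2) + (5 * l - 3 * K / 2) * C ^ 2 -
      ((3 * K + 10 * l) / 16) * (p ^ 2 + d ^ 2)) + (5 * l / 4) * C * (p ^ 2 - d ^ 2)) ≤ 32 / (5 * √5) := by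
  have hV : (0 : ℝ) ≤ 32 / (5 * √5) := by positivity
  have hp0 : 0 ≤ p := hd.trans hdp
  rcases hp0.eq_or_lt with hp | hp
  · rw [← hp]; simpa using hV
  -- the variables
  obtain ⟨κ, hκ, hκ2⟩ : ∃ κ : ℝ, 0 < κ ∧ κ ^ 2 = 8 * u / 45 :=
    ⟨√(8 * u / 45), Real.sqrt_pos.2 (by positivity), Real.sq_sqrt (by positivity)⟩
  obtain ⟨g, hg, hCg⟩ : ∃ g : ℝ, 0 ≤ g ∧ C = κ * g := ⟨C / κ, by positivity, by field_simp⟩
  obtain ⟨n, hn⟩ : ∃ n : ℝ, n = p ^ 2 + d ^ 2 := ⟨_, rfl⟩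
  have hn0 : 0 < n := by rw [hn]; positivity
  obtain ⟨m, hm⟩ : ∃ m : ℝ, m = (16 - 3 * h ^ 2 - 3 * C ^ 2) / 6 := ⟨_, rfl⟩
  have hnm : n ≤ m := by rw [hn, hm]; linarith
  have hm0 : 0 < m := hn0.trans_le hnm
  have hmM : m = 4 / 45 * Mq u g := by
    rw [hm, hu, hCg]
    unfold Mq
    linear_combination (-(g ^ 2) / 2) * hκ2
  have hM : 0 ≤ Mq u g := by
    have : Mq u g = 45 / 4 * m := by rw [hmM]; ring
    rw [this]; positivity
  obtain ⟨w, hw⟩ : ∃ w : ℝ, w = (p ^ 2 - d ^ 2) / n := ⟨_, rfl⟩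
  have hwn : w * n = p ^ 2 - d ^ 2 := by rw [hw]; field_simp
  have hw0 : 0 ≤ w := by
    rw [hw]
    refine div_nonneg ?_ hn0.le
    nlinarith
  have hw1 : w ≤ 1 := by
    rw [hw, div_le_one hn0, hn]
    nlinarith [sq_nonneg d]
  have hp2 : 2 * p ^ 2 = n * (1 + w) := by linear_combination -hwn + -hn
  have hd2 : 2 * d ^ 2 = n * (1 - w) := by linear_combination hwn + -hn
  obtain ⟨s, hs1, hs2⟩ : ∃ s : ℝ, 1 ≤ s ∧ s ^ 2 * n = m := by
    refine ⟨√(m / n), ?_, ?_⟩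
    · rw [Real.one_le_sqrt, le_div_iff₀ hn0]; linarith
    · rw [Real.sq_sqrt (by positivity)]; field_simp
  obtain ⟨hD, hS, hG⟩ := H g w hg hw0 hw1 hM
  set A := Aq K l u g with hA
  set α := aq l u g with hα
  set β := bq l u g with hβ
  set M := Mq u g with hMd
  have hα0 : 0 ≤ α := by rw [hα, aq]; positivity
  have hβ0 : 0 ≤ β := by rw [hβ, bq]; positivity
  have hA0 : 0 ≤ A := by linarith
  -- the coefficient
  obtain ⟨b, hb⟩ : ∃ b : ℝ, b = (3 * K + 10 * l) / 16 := ⟨_, rfl⟩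
  have hb0 : 0 ≤ b := by rw [hb]; positivity
  have hbm : b * m ≤ 2 * A := by rw [hb, hmM]; linarith
  have ha : 2 + (K / 4) * (4 - h ^ 2) + (5 * l - 3 * K / 2) * C ^ 2 = 2 * A + b * m := by
    rw [hb, hmM, hA, hMd, hu, hCg]
    unfold Aq Mq
    linear_combination ((5 * l - 3 * K / 2) * g ^ 2) * hκ2
  -- scaling
  have hs0 : 0 ≤ s := by linarith
  have hq : 0 ≤ (5 * l / 4) * C * (p ^ 2 - d ^ 2) := by
    have : 0 ≤ p ^ 2 - d ^ 2 := by nlinarith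
    positivity
  have hstep : p * (d * (2 * A + b * m - b * n) + (5 * l / 4) * C * (p ^ 2 - d ^ 2)) ≤
      (s * p) * ((s * d) * (2 * A) + (5 * l / 4) * C * ((s * p) ^ 2 - (s * d) ^ 2)) := by
    have e1 : 2 * A + b * m - b * n ≤ s ^ 2 * (2 * A) := by
      have e : s ^ 2 * (2 * A) - (2 * A + b * m - b * n) = (s ^ 2 - 1) * (2 * A - b * n) := by
        linear_combination b * hs2
      have h3 : 0 ≤ s ^ 2 - 1 := by nlinarith
      have h4 : 0 ≤ 2 * A - b * n := by nlinarith [mul_le_mul_of_nonneg_left hnm hb0]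
      have := mul_nonneg h3 h4
      linarith
    have e2 : 1 ≤ s ^ 3 := one_le_pow₀ hs1
    have e3 : (s * p) * ((s * d) * (2 * A) + (5 * l / 4) * C * ((s * p) ^ 2 - (s * d) ^ 2)) =
        p * (d * (s ^ 2 * (2 * A)) + s ^ 3 * ((5 * l / 4) * C * (p ^ 2 - d ^ 2))) := by ring
    rw [e3]
    refine mul_le_mul_of_nonneg_left (add_le_add (mul_le_mul_of_nonneg_left e1 hd) ?_) hp.le
    nlinarith [mul_le_mul_of_nonneg_right e2 hq]
  -- the square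
  obtain ⟨X, hX⟩ : ∃ X : ℝ, X = 2 * κ * (β * w) := ⟨_, rfl⟩
  have hX0 : 0 ≤ X := by rw [hX]; positivity
  have hXC : (5 * l / 8) * C * ((s * p) ^ 2 - (s * d) ^ 2) = X := by
    have e : (s * p) ^ 2 - (s * d) ^ 2 = m * w := by
      linear_combination (-(s ^ 2)) * hwn + w * hs2
    rw [e, hmM, hX, hβ, bq, hCg]
    ring
  have hP : 2 * (s * p) ^ 2 = m * (1 + w) := by linear_combination s ^ 2 * hp2 + (1 + w) * hs2
  have hDd : 2 * (s * d) ^ 2 = m * (1 - w) := by linear_combination s ^ 2 * hd2 + (1 - w) * hs2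
  have hsq : ((s * d) * A + X) ^ 2 ≤ (m / 2) * ((A - (A - α) * w) * (A + β * w)) := by
    have e1 : (2 * κ) * ((s * d) * A + X) ^ 2 ≤ ((s * d) ^ 2 * A + 2 * κ * X) * (2 * κ * A + X) := by
      have e : ((s * d) ^ 2 * A + 2 * κ * X) * (2 * κ * A + X) - (2 * κ) * ((s * d) * A + X) ^ 2 =
          A * X * (s * d - 2 * κ) ^ 2 := by ring
      have : 0 ≤ A * X * (s * d - 2 * κ) ^ 2 := by positivity
      linarith
    have e2 : (s * d) ^ 2 * A + 2 * κ * X = (m / 2) * (A - (A - α) * w) := by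
      rw [hX, hβ, bq, hα, aq, ← hMd]
      have h5 : (s * d) ^ 2 = m * (1 - w) / 2 := by linarith
      rw [h5, hmM]
      linear_combination (l * g * M * w / 9) * hκ2
    have e3 : 2 * κ * A + X = 2 * κ * (A + β * w) := by rw [hX]; ring
    rw [e2, e3] at e1
    have e4 : (2 * κ) * ((s * d) * A + X) ^ 2 ≤ (2 * κ) * ((m / 2) * ((A - (A - α) * w) * (A + β * w))) := by
      refine e1.trans (le_of_eq ?_)
      ring
    exact le_of_mul_le_mul_left e4 (by positivity)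
  obtain ⟨Y, hY⟩ : ∃ Y : ℝ, Y = (s * p) * ((s * d) * (2 * A) + (5 * l / 4) * C * ((s * p) ^ 2 - (s * d) ^ 2)) :=
    ⟨_, rfl⟩
  have hY2 : Y ^ 2 ≤ m ^ 2 * ((1 + w) * (A + β * w) * (A - (A - α) * w)) := by
    have e : Y = 2 * (s * p) * ((s * d) * A + X) := by rw [hY, ← hXC]; ring
    have e1 : Y ^ 2 = 2 * (m * (1 + w)) * ((s * d) * A + X) ^ 2 := by
      rw [e, ← hP]; ring
    rw [e1]
    have e2 : 0 ≤ 2 * (m * (1 + w)) := by positivity
    refine (mul_le_mul_of_nonneg_left hsq e2).trans (le_of_eq ?_)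
    ring
  have h3 : (√3 : ℝ) ^ 2 = 3 := Real.sq_sqrt (by norm_num)
  have hfin : (h * (3 * √3 / 4) * Y) ^ 2 ≤ (32 / (5 * √5)) ^ 2 := by
    rw [sq_V0]
    have e : (h * (3 * √3 / 4) * Y) ^ 2 = (27 / 16) * (8 * (2 - u) / 5) * Y ^ 2 := by
      rw [← hu]
      linear_combination (h ^ 2 * (9 / 16) * Y ^ 2) * h3
    have h2u : 0 ≤ 8 * (2 - u) / 5 := by rw [← hu]; positivity
    rw [e]
    calc (27 / 16) * (8 * (2 - u) / 5) * Y ^ 2 ≤ (27 / 16) * (8 * (2 - u) / 5) *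
          (m ^ 2 * ((1 + w) * (A + β * w) * (A - (A - α) * w))) :=
          mul_le_mul_of_nonneg_left hY2 (by positivity)
      _ = (8 / 375) * ((2 - u) * M ^ 2 * ((1 + w) * (A + β * w) * (A - (A - α) * w))) := by
          rw [hmM]; ring
      _ ≤ (8 / 375) * 384 := mul_le_mul_of_nonneg_left hG (by norm_num)
      _ = 1024 / 125 := by norm_num
  have hle := (abs_le_of_sq_le_sq' hfin hV).2
  refine le_trans ?_ hle
  rw [ha, ← hb, ← hn, mul_assoc (h * (3 * √3 / 4)) p]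
  refine mul_le_mul_of_nonneg_left ?_ (by positivity)
  rw [hY]
  exact hstep

end LAY
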