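import Pool.Agent.LAY.Bern

/-!
# The polynomial inequality for cells with three coplanar vertices
-/

namespace LAY

/-! ## Elimination of `w` -/

/-- `(1 + w) (A + β w) (A - D w)` is at most `384 / T`, from a polynomial inequality without `w`.
`α + D = A`. -/
theorem elim_w {A α β T w k : ℝ} (hw : 0 ≤ w) (_hk : 0 < k) (hβ : 0 ≤ β) (hD : 0 ≤ A - α)
    (hc : 0 < A * (A - α) - α * β) (hT : 0 ≤ T)
    (hR : 0 ≤ 192000 * k ^ 2 * (125 * (A * (A - α) - α * β)) -
      T * (4 * (125 * A ^ 2 + 2 * β * (A - α)) * (125 * (A * (A - α) - α * β)) +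
        (125 * A * (α + β) - 15 * β * (A - α)) ^ 2)) :
    T * ((1 + w) * (A + β * w) * (A - (A - α) * w)) ≤ 384 * k ^ 2 := by
  set D := A - α with hDe
  set c0 := 125 * A ^ 2 + 2 * β * D with hc0
  set c1 := 125 * A * (α + β) - 15 * β * D with hc1
  set c2 := 125 * (A * D - α * β) with hc2
  have hc2p : 0 < c2 := by rw [hc2]; positivity
  have h3 : (3 * w - 2 / 5) / 25 ≤ w ^ 3 := by
    nlinarith [mul_nonneg (by linarith : (0 : ℝ) ≤ w + 2 / 5) (sq_nonneg (w - 1 / 5))]
  have h1 : 125 * ((1 + w) * (A + β * w) * (A - D * w)) ≤ c0 + c1 * w - c2 * w ^ 2 := by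
    have e : 125 * ((1 + w) * (A + β * w) * (A - D * w)) =
        125 * A ^ 2 + 125 * A * (α + β) * w - c2 * w ^ 2 - 125 * (β * D) * w ^ 3 := by
      rw [hc2, hDe]; ring
    have h4 := mul_le_mul_of_nonneg_left h3 (mul_nonneg hβ hD)
    rw [e, hc0, hc1]
    nlinarith [h4]
  have h2 : 4 * c2 * (c0 + c1 * w - c2 * w ^ 2) ≤ 4 * c0 * c2 + c1 ^ 2 := by
    nlinarith [sq_nonneg (c1 - 2 * c2 * w)]
  have h5 : T * (4 * c2 * (125 * ((1 + w) * (A + β * w) * (A - D * w)))) ≤
      T * (4 * c0 * c2 + c1 ^ 2) :=
    mul_le_mul_of_nonneg_left ((mul_le_mul_of_nonneg_left h1 (by positivity)).trans h2) hT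
  have h6 : T * (4 * c0 * c2 + c1 ^ 2) ≤ 192000 * k ^ 2 * c2 := by linarith
  have h7 : (500 * c2) * (T * ((1 + w) * (A + β * w) * (A - D * w))) ≤ (500 * c2) * (384 * k ^ 2) := by
    nlinarith [h5, h6]
  exact le_of_mul_le_mul_left h7 (by positivity)

/-! ## The polynomials -/

namespace PE

/-- `12 + 9 u - u g²` -/
def M (u : PE) : PE := .sub (.add (.c 12) (.mul (.c 9) u)) (.mul u (.mul .X .X))

/-- `A (A - α) - α β` -/
def C2 (A al be : PE) : PE := .sub (.mul A (.sub A al)) (.mul al be)

/-- the polynomial without `w` -/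
def RR (k : ℤ) (u A al be : PE) : PE :=
  .sub (.mul (.c (192000 * k ^ 2)) (.mul (.c 125) (C2 A al be)))
    (.mul (.mul (.sub (.c 2) u) (.mul (M u) (M u)))
      (.add (.mul (.c 4) (.mul (.add (.mul (.c 125) (.mul A A)) (.mul (.c 2) (.mul be (.sub A al))))
          (.mul (.c 125) (C2 A al be))))
        (.mul (.sub (.mul (.c 125) (.mul A (.add al be))) (.mul (.c 15) (.mul be (.sub A al))))
          (.sub (.mul (.c 125) (.mul A (.add al be))) (.mul (.c 15) (.mul be (.sub A al)))))))

end PE

open PE

/-! ## First branch: `11/10 ≤ u` -/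

/-- `3336 + 27 u + 149 u g²` -/
def A1 : PE := .add (.add (.c 3336) (.mul (.c 27) .Y)) (.mul (.c 149) (.mul .Y (.mul .X .X)))
/-- `352 u g` -/
def al1 : PE := .mul (.c 352) (.mul .Y .X)
/-- `22 g M` -/
def be1 : PE := .mul (.c 22) (.mul .X (PE.M .Y))

/-! ## Second branch: `9/10 ≤ u ≤ 11/10`, `u = 1 + v` -/

def U2 : PE := .add (.c 1) .Y
def t2 : PE := .sub (.c 3) (.mul (.c 2) U2)
/-- `216 + (3 - 2u)(3 - 18 u - 27 g² + 34 u g²)` -/
def A2 : PE := .add (.c 216) (.mul t2 (.add (.sub (.sub (.c 3) (.mul (.c 18) U2)) (.mul (.c 27) (.mul .X .X)))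
  (.mul (.c 34) (.mul U2 (.mul .X .X)))))
/-- `32 (3 - 2u) u g` -/
def al2 : PE := .mul (.c 32) (.mul t2 (.mul U2 .X))
/-- `2 (3 - 2u) g M` -/
def be2 : PE := .mul (.c 2) (.mul t2 (.mul .X (PE.M U2)))

def R0L : List (List ℤ) := [[2501402664375, 3100474351530, 2541731969511, -101907918612, 68476414554, -6576446052, -148184730, 132662880, -63130797, 4541034, -2179597, -61180, -23716]]
def Q1L : List (List ℤ) := [[-10850380869375, -11854028022975, 15456410543655, 2974071539223, 78605834238, 682463349774, -41515327458, 6975991422, 71918109, -799976067, 42582699, -18398373, -70668, -111804]]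
def Q2L : List (List ℤ) := [[150066669785625, -19615966778160, 322886714518314, -53009674192368, -21047837305761, 4263040072512, -1114554146364, 137473567776, 29645070471, -2940316848, -556133222, -112314160, -28932447, 402848, 544984],
  [153970089350625, 4502298138840, 12160357533666, 18192893603616, 119148833246031, -10938369377736, -7437282260940, 999888314112, -415726601553, 430823880, 11212590066, -1165851168, 337385025, -1425624, 1815000],
  [176047551360000, 47333044845540, -117501769675476, 120628860122376, -244732502064456, 26910545692284, 16065117642708, -2562112193040, -267827232240, 21114456732, -6205440492, 595732104, 1027173816, -2123388, -5736852],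
  [102556747890000, 56173803072840, -144404838300204, 12998541766032, -60225891338376, 1174647484152, -40115634267060, -78408723744, 4117746384288, -206548681032, -6993914964, 9133693584, -3479762664, 10668552, -6959436],
  [62152746660000, 49862279849040, -170878988464416, -38185652849760, 61843275400608, -61533656691408, 63393218030304, 687223247040, -3886311559968, 291022313904, 132811318176, -5615728224, -6292063008, 648912, 19317408],
  [24451403580000, 25080576769440, -85335789810384, -45159039767232, 60907694750208, -3970673366688, 21562163787024, 503484810624, 440303389920, 528438646368, -515561414832, -24664635072, 17799742656, -26409312, 14618736],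
  [8707759200000, 11591016719040, -42672337517376, -36609758822016, 64895216985216, 22917327900480, -27287538307776, 6126311275776, -3540741023232, -773623933632, 175513094976, 12527585664, 7937405568, 5320896, -26740032],
  [2437542720000, 3492051834240, -13760374872384, -13573213721856, 25455343678848, 12945980442240, -14429565040320, -38287701504, -1921568479488, -568218940800, 785689107776, 28964952832, -28109432448, 28100992, -18314560],
  [425152800000, 772178261760, -2985028111872, -4154459632128, 7736791106304, 7229015195904, -8683632331776, -4327648680960, 3791506496256, 464164014336, -301488446976, -7404114432, -2641502976, -4235520, 12638208],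
  [85030560000, 149804951040, -667192184064, -908020564992, 1999026895104, 1851437357568, -2757752904960, -1393285183488, 1646546123520, 245026257408, -273503809280, -12329141248, 13470395136, -10975744, 8952064]]

/-- the decomposition near `g = 1`, `v = 0` -/
def dec2 : PE := .sub (PE.RR 216 U2 A2 al2 be2) (.mul (.c 100)
  (.add (.mul (.mul (.sub .X (.c 1)) (.sub .X (.c 1))) (.lit R0L))
    (.add (.mul .Y (.mul (.sub .X (.c 1)) (.lit Q1L))) (.mul (.mul .Y .Y) (.lit Q2L)))))

/-- `4 R0 Q2 - Q1²` -/
def W2 : PE := .sub (.mul (.c 4) (.mul (.lit R0L) (.lit Q2L))) (.mul (.lit Q1L) (.lit Q1L))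

/-! ## Third branch: `7/20 ≤ u ≤ 9/10` -/

/-- `624 + 45 u + 19 u g²` -/
def A3 : PE := .add (.add (.c 624) (.mul (.c 45) .Y)) (.mul (.c 19) (.mul .Y (.mul .X .X)))
/-- `128 u g` -/
def al3 : PE := .mul (.c 128) (.mul .Y .X)
/-- `8 g M` -/
def be3 : PE := .mul (.c 8) (.mul .X (PE.M .Y))

/-! ## The checks -/

theorem r1a : chk 0 9 4 1100 1376 1000 (PE.RR 3600 .Y A1 al1 be1).toL = true := by decide +kernel
theorem r1b : chk 9 18 4 1100 1376 1000 (PE.RR 3600 .Y A1 al1 be1).toL = true := by decide +kernel
theorem r1c : chk 0 18 4 1100 1376 1000 (PE.sub (PE.C2 A1 al1 be1) (.c 1)).toL = true := by decide +kernel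
theorem r1d : chk 0 18 4 1100 1376 1000 (PE.sub A1 al1).toL = true := by decide +kernel

theorem r2z : zR dec2.toL = true := by decide +kernel
theorem r2a : chk 5 10 2 (-1) 1 10 (PE.RR 216 U2 A2 al2 be2).toL = true := by decide +kernel
theorem r2w : chk 0 5 2 (-1) 1 10 W2.toL = true := by decide +kernel
theorem r20 : chk 0 5 2 (-1) 1 1 (PE.sub (.lit R0L) (.c 1)).toL = true := by decide +kernel
theorem r2c : chk 0 10 2 (-1) 1 10 (PE.sub (PE.C2 A2 al2 be2) (.c 1)).toL = true := by decide +kernel
theorem r2d : chk 0 10 2 (-1) 1 10 (PE.sub A2 al2).toL = true := by decide +kernel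

theorem r3a : chk 0 66 10 35 45 100 (PE.RR 720 .Y A3 al3 be3).toL = true := by decide +kernel
theorem r3b : chk 0 60 10 45 60 100 (PE.RR 720 .Y A3 al3 be3).toL = true := by decide +kernel
theorem r3c : chk 0 54 10 60 75 100 (PE.RR 720 .Y A3 al3 be3).toL = true := by decide +kernel
theorem r3d : chk 0 51 10 75 90 100 (PE.RR 720 .Y A3 al3 be3).toL = true := by decide +kernel
theorem r3e : chk 0 66 10 35 90 100 (PE.sub (PE.C2 A3 al3 be3) (.c 1)).toL = true := by decide +kernel
theorem r3f : chk 0 66 10 35 90 100 (PE.sub A3 al3).toL = true := by decide +kernel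

end LAY
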