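import Pool.Agent.LAY.GP

/-!
# The local inequality for cells with three coplanar vertices
-/

namespace LAY

/-! ## The inequality in the variables `u`, `g`, `w` -/

theorem G1 {u g w : ℝ} (hu : 11 / 10 ≤ u) (hu2 : u ≤ 11 / 8) (hg : 0 ≤ g)
    (hM : 0 ≤ 12 + 9 * u - u * g ^ 2) (hw : 0 ≤ w) :
    0 ≤ (3336 + 27 * u + 149 * (u * g ^ 2)) - 352 * (u * g) ∧
    (2 - u) * (12 + 9 * u - u * g ^ 2) ^ 2 * ((1 + w) *
      ((3336 + 27 * u + 149 * (u * g ^ 2)) + 22 * (g * (12 + 9 * u - u * g ^ 2)) * w) *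
      ((3336 + 27 * u + 149 * (u * g ^ 2)) - ((3336 + 27 * u + 149 * (u * g ^ 2)) - 352 * (u * g)) * w)) ≤
      384 * 3600 ^ 2 := by
  have hg2 : g ^ 2 ≤ 20 := by nlinarith [sq_nonneg g]
  have hg3 : g < 9 / 2 := by nlinarith
  have c1 : (0 : ℤ) < 4 := by norm_num
  have c2 : (0 : ℤ) < 1000 := by norm_num
  have y1 : ((1100 : ℤ) : ℝ) ≤ ((1000 : ℤ) : ℝ) * u := by push_cast; linarith
  have y2 : ((1000 : ℤ) : ℝ) * u < ((1376 : ℤ) : ℝ) := by push_cast; linarith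
  have x1 : ((0 : ℤ) : ℝ) ≤ ((4 : ℤ) : ℝ) * g := by push_cast; linarith
  have x2 : ((4 : ℤ) : ℝ) * g < ((18 : ℤ) : ℝ) := by push_cast; linarith
  have hC := PE.nonneg _ r1c c1 c2 x1 x2 y1 y2
  have hD := PE.nonneg _ r1d c1 c2 x1 x2 y1 y2
  have hR : 0 ≤ (PE.RR 3600 .Y A1 al1 be1).val g u := by
    rcases lt_or_ge g (9 / 4) with h | h
    · exact PE.nonneg _ r1a c1 c2 x1 (by push_cast; linarith) y1 y2
    · exact PE.nonneg _ r1b c1 c2 (by push_cast; linarith) x2 y1 y2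
  simp only [PE.RR, PE.C2, PE.M, A1, al1, be1, PE.val] at hC hD hR
  push_cast at hC hD hR
  refine ⟨by nlinarith [hD], ?_⟩
  refine elim_w (k := 3600) hw (by norm_num) (by positivity) (by nlinarith [hD]) ?_ ?_ ?_
  · have : 0 ≤ (3336 + 27 * u + 149 * (u * g ^ 2)) * ((3336 + 27 * u + 149 * (u * g ^ 2)) - 352 * (u * g)) -
        352 * (u * g) * (22 * (g * (12 + 9 * u - u * g ^ 2))) - 1 := by
      refine hC.trans (le_of_eq ?_)
      ring
    linarith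
  · have : 0 ≤ 2 - u := by linarith
    positivity
  · refine hR.trans (le_of_eq ?_)
    ring

theorem G3 {u g w : ℝ} (hu : 7 / 20 ≤ u) (hu2 : u < 9 / 10) (hg : 0 ≤ g)
    (hM : 0 ≤ 12 + 9 * u - u * g ^ 2) (hw : 0 ≤ w) :
    0 ≤ (624 + 45 * u + 19 * (u * g ^ 2)) - 128 * (u * g) ∧
    (2 - u) * (12 + 9 * u - u * g ^ 2) ^ 2 * ((1 + w) *
      ((624 + 45 * u + 19 * (u * g ^ 2)) + 8 * (g * (12 + 9 * u - u * g ^ 2)) * w) *
      ((624 + 45 * u + 19 * (u * g ^ 2)) - ((624 + 45 * u + 19 * (u * g ^ 2)) - 128 * (u * g)) * w)) ≤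
      384 * 720 ^ 2 := by
  have hu0 : 0 < u := by linarith
  have c1 : (0 : ℤ) < 10 := by norm_num
  have c2 : (0 : ℤ) < 100 := by norm_num
  have y1 : ((35 : ℤ) : ℝ) ≤ ((100 : ℤ) : ℝ) * u := by push_cast; linarith
  have y2 : ((100 : ℤ) : ℝ) * u < ((90 : ℤ) : ℝ) := by push_cast; linarith
  have x1 : ((0 : ℤ) : ℝ) ≤ ((10 : ℤ) : ℝ) * g := by push_cast; linarith
  have bd : ∀ G u0 : ℝ, 0 < u0 → u0 ≤ u → 0 ≤ G → 12 + 9 * u0 < u0 * G ^ 2 → g < G := by
    intro G u0 h0 h1 hG h2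
    by_contra hc
    push Not at hc
    have h3 : G ^ 2 ≤ g ^ 2 := by nlinarith
    have h4 : 9 < G ^ 2 := by nlinarith
    nlinarith [mul_le_mul_of_nonneg_left h3 hu0.le, mul_nonneg (sub_nonneg.2 h1) (sub_nonneg.2 h4.le)]
  have x2 : ((10 : ℤ) : ℝ) * g < ((66 : ℤ) : ℝ) := by
    have := bd (66 / 10) (7 / 20) (by norm_num) hu (by norm_num) (by norm_num)
    push_cast; linarith
  have hC := PE.nonneg _ r3e c1 c2 x1 x2 y1 y2
  have hD := PE.nonneg _ r3f c1 c2 x1 x2 y1 y2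
  have hR : 0 ≤ (PE.RR 720 .Y A3 al3 be3).val g u := by
    rcases lt_or_ge u (45 / 100) with h | h
    · exact PE.nonneg _ r3a c1 c2 x1 x2 y1 (by push_cast; linarith)
    rcases lt_or_ge u (60 / 100) with h' | h'
    · have := bd 6 (45 / 100) (by norm_num) h (by norm_num) (by norm_num)
      exact PE.nonneg _ r3b c1 c2 x1 (by push_cast; linarith) (by push_cast; linarith) (by push_cast; linarith)
    rcases lt_or_ge u (75 / 100) with h'' | h''
    · have := bd (54 / 10) (60 / 100) (by norm_num) h' (by norm_num) (by norm_num)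
      exact PE.nonneg _ r3c c1 c2 x1 (by push_cast; linarith) (by push_cast; linarith) (by push_cast; linarith)
    · have := bd (51 / 10) (75 / 100) (by norm_num) h'' (by norm_num) (by norm_num)
      exact PE.nonneg _ r3d c1 c2 x1 (by push_cast; linarith) (by push_cast; linarith) (by push_cast; linarith)
  simp only [PE.RR, PE.C2, PE.M, A3, al3, be3, PE.val] at hC hD hR
  push_cast at hC hD hR
  refine ⟨by nlinarith [hD], ?_⟩
  refine elim_w (k := 720) hw (by norm_num) (by positivity) (by nlinarith [hD]) ?_ ?_ ?_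
  · have : 0 ≤ (624 + 45 * u + 19 * (u * g ^ 2)) * ((624 + 45 * u + 19 * (u * g ^ 2)) - 128 * (u * g)) -
        128 * (u * g) * (8 * (g * (12 + 9 * u - u * g ^ 2))) - 1 := by
      refine hC.trans (le_of_eq ?_)
      ring
    linarith
  · have : 0 ≤ 2 - u := by linarith
    positivity
  · refine hR.trans (le_of_eq ?_)
    ring

theorem G2 {u g w : ℝ} (hu : 9 / 10 ≤ u) (hu2 : u < 11 / 10) (hg : 0 ≤ g)
    (hM : 0 ≤ 12 + 9 * u - u * g ^ 2) (hw : 0 ≤ w) :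
    0 ≤ (216 + (3 - 2 * u) * (3 - 18 * u - 27 * g ^ 2 + 34 * (u * g ^ 2))) - 32 * ((3 - 2 * u) * (u * g)) ∧
    (2 - u) * (12 + 9 * u - u * g ^ 2) ^ 2 * ((1 + w) *
      ((216 + (3 - 2 * u) * (3 - 18 * u - 27 * g ^ 2 + 34 * (u * g ^ 2))) +
        2 * ((3 - 2 * u) * (g * (12 + 9 * u - u * g ^ 2))) * w) *
      ((216 + (3 - 2 * u) * (3 - 18 * u - 27 * g ^ 2 + 34 * (u * g ^ 2))) -
        ((216 + (3 - 2 * u) * (3 - 18 * u - 27 * g ^ 2 + 34 * (u * g ^ 2))) -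
          32 * ((3 - 2 * u) * (u * g))) * w)) ≤
      384 * 216 ^ 2 := by
  have hu0 : 0 < u := by linarith
  have hg2 : g ^ 2 ≤ 23 := by nlinarith [sq_nonneg g]
  have hg3 : g < 5 := by nlinarith
  have c1 : (0 : ℤ) < 2 := by norm_num
  have c2 : (0 : ℤ) < 10 := by norm_num
  have y1 : ((-1 : ℤ) : ℝ) ≤ ((10 : ℤ) : ℝ) * (u - 1) := by push_cast; linarith
  have y2 : ((10 : ℤ) : ℝ) * (u - 1) < ((1 : ℤ) : ℝ) := by push_cast; linarith
  have x1 : ((0 : ℤ) : ℝ) ≤ ((2 : ℤ) : ℝ) * g := by push_cast; linarith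
  have x2 : ((2 : ℤ) : ℝ) * g < ((10 : ℤ) : ℝ) := by push_cast; linarith
  have hC := PE.nonneg _ r2c c1 c2 x1 x2 y1 y2
  have hD := PE.nonneg _ r2d c1 c2 x1 x2 y1 y2
  have hR : 0 ≤ (PE.RR 216 U2 A2 al2 be2).val g (u - 1) := by
    rcases lt_or_ge g (5 / 2) with h | h
    · have hz := PE.zero _ r2z g (u - 1)
      have x3 : ((2 : ℤ) : ℝ) * g < ((5 : ℤ) : ℝ) := by push_cast; linarith
      have h0 := PE.nonneg _ r20 c1 (by norm_num) x1 x3 (y := u - 1) (by push_cast; linarith)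
        (by push_cast; linarith)
      have hW := PE.nonneg _ r2w c1 c2 x1 x3 y1 y2
      unfold dec2 at hz
      unfold W2 at hW
      simp only [PE.val] at hz h0 hW ⊢
      push_cast at hz h0 hW
      set R0 := ev2 g (u - 1) R0L
      set Q1 := ev2 g (u - 1) Q1L
      set Q2 := ev2 g (u - 1) Q2L
      have h1 : 0 < R0 := by linarith
      have e : 4 * R0 * ((g - 1) * (g - 1) * R0 + ((u - 1) * ((g - 1) * Q1) + (u - 1) * (u - 1) * Q2)) =
          (2 * (g - 1) * R0 + (u - 1) * Q1) ^ 2 + (u - 1) ^ 2 * (4 * (R0 * Q2) - Q1 * Q1) := by ring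
      have h2 : 0 ≤ 4 * R0 * ((g - 1) * (g - 1) * R0 + ((u - 1) * ((g - 1) * Q1) + (u - 1) * (u - 1) * Q2)) := by
        rw [e]; positivity
      have h3 := nonneg_of_mul_nonneg_right h2 (by positivity)
      linarith
    · exact PE.nonneg _ r2a c1 c2 (by push_cast; linarith) x2 y1 y2
  simp only [PE.RR, PE.C2, PE.M, A2, al2, be2, U2, t2, PE.val] at hC hD hR
  push_cast at hC hD hR
  have hD' : 0 ≤ (216 + (3 - 2 * u) * (3 - 18 * u - 27 * g ^ 2 + 34 * (u * g ^ 2))) -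
      32 * ((3 - 2 * u) * (u * g)) := by
    refine hD.trans (le_of_eq ?_)
    ring
  have ht : 0 ≤ 3 - 2 * u := by linarith
  refine ⟨hD', ?_⟩
  refine elim_w (k := 216) hw (by norm_num) (by positivity) hD' ?_ ?_ ?_
  · have : 0 ≤ (216 + (3 - 2 * u) * (3 - 18 * u - 27 * g ^ 2 + 34 * (u * g ^ 2))) *
        ((216 + (3 - 2 * u) * (3 - 18 * u - 27 * g ^ 2 + 34 * (u * g ^ 2))) - 32 * ((3 - 2 * u) * (u * g))) -
        32 * ((3 - 2 * u) * (u * g)) * (2 * ((3 - 2 * u) * (g * (12 + 9 * u - u * g ^ 2)))) - 1 := by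
      refine hC.trans (le_of_eq ?_)
      ring
    linarith
  · have : 0 ≤ 2 - u := by linarith
    positivity
  · refine hR.trans (le_of_eq ?_)
    ring

end LAY
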