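import Pool.Agent.LAY.Defs

/-!
# [LAY-L22] the local inequality for cells of type (2,2)

`p, q` in one plane, `s, d` in another one, `h = |s 2 - p 2| ≥ 1`. PROOF. Horizontal parts: `a = q - p`, `b = d - s`, `B = a × b = a0 b1 - a1 b0`,
`m = (p+q)/2 - (s+d)/2`. With `v = s 2 - p 2` (`= d 2 - p 2 = d 2 - q 2 = ...`, `h = |v|`), by ring:
 `det3 p q s d = -v B`, `det3 p q d s = v B`, `det3 s d p q = -v B`, `det3 s d q p = v B` (*check each with ring after rewriting the heights*), and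
the first factors in `wo` are `v, v, -v, -v`, so with `σ = Real.sign B` (`B ≠ 0` since `det3 ≠ 0`):
 `wo p q s d = -(σ/2) cr p q s Φ(p,q,s)`, `wo p q d s = (σ/2) cr p q d Φ(p,q,d)`, `wo s d p q = (σ/2) cr s d p Φ(s,d,p)`,
 `wo s d q p = -(σ/2) cr s d q Φ(s,d,q)`   (the sign of `(s 2-p 2)*det3 p q s d = -v²B` is `-σ`, etc.).
`Φ = (h/V0)(2/3 + T)`, `T(p,q,s) = (K/4)(4-h²-|P|²-|Q|²-P·Q) + (5l/2)P·Q`, `P = p-s`, `Q = q-s` (horizontal). Identities (ring):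
 (i) `cr p q s - cr p q d - cr s d p + cr s d q = -2B`;
 (ii) `cr p q s T(p,q,s) - cr p q d T(p,q,d) - cr s d p T(s,d,p) + cr s d q T(s,d,q) = -2B [ (K/4)(4-h²-(|a|²+|b|²)/2) + ((10l-3K)/2)|m|² ]`.
So `Σ wo = (h |B|/V0) [2/3 + bracket]` and `(4/V0)|det3|/6 = (2/3) h|B|/V0`: the claim is `bracket ≥ 0`. Finally
`Σ_{six edges} = 2(|a|²+|b|²) + 4|m|² + 4h² ≤ 16` (ring identity: the four mixed edges give `4|m|²+|a|²+|b|²+4h²`), i.e.
`4-h²-(|a|²+|b|²)/2 ≥ |m|²`, so `bracket ≥ (K/4)|m|² + ((10l-3K)/2)|m|² = (5/4)(4l-K)|m|² ≥ 0` (`K ≥ 0`, `K ≤ 4l`, at `h ≥ 1`).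
-/

set_option autoImplicit false

open MeasureTheory Real
open scoped InnerProductSpace

namespace LAY

open BccCov BccO TPC

theorem l22_sign_neg (x v B : ℝ) (hv : v ≠ 0) (hx : x = -(v ^ 2 * B)) :
    Real.sign x = -Real.sign B := by
  have hv2 : 0 < v ^ 2 := by positivity
  subst hx
  rcases lt_trichotomy B 0 with h | h | h
  · rw [Real.sign_of_neg h, Real.sign_of_pos]
    · ring
    · nlinarith
  · subst h; simp
  · rw [Real.sign_of_pos h, Real.sign_of_neg]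
    nlinarith

theorem l22_sign_pos (x v B : ℝ) (hv : v ≠ 0) (hx : x = v ^ 2 * B) :
    Real.sign x = Real.sign B := by
  have hv2 : 0 < v ^ 2 := by positivity
  subst hx
  rcases lt_trichotomy B 0 with h | h | h
  · rw [Real.sign_of_neg h, Real.sign_of_neg]
    nlinarith
  · subst h; simp
  · rw [Real.sign_of_pos h, Real.sign_of_pos]
    nlinarith

theorem l22_sign_mul (B : ℝ) : Real.sign B * B = |B| := by
  rcases lt_trichotomy B 0 with h | h | h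
  · rw [Real.sign_of_neg h, abs_of_neg h]; ring
  · subst h; simp
  · rw [Real.sign_of_pos h, abs_of_pos h]; ring

/-- the algebraic core: all heights replaced -/
theorem l22_core (p0 p1 q0 q1 s0 s1 d0 d1 v h k l V σ B : ℝ) (hv2 : h ^ 2 = v ^ 2)
    (hB : B = (q0 - p0) * (d1 - s1) - (q1 - p1) * (d0 - s0)) :
    (1 / 2) * (-σ) * ((q0 - p0) * (s1 - p1) - (q1 - p1) * (s0 - p0)) *
        ((h / V) * (2 / 3 + (k / 4) * (4 - v ^ 2 - ((p0 - s0) ^ 2 + (p1 - s1) ^ 2)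
          - ((q0 - s0) ^ 2 + (q1 - s1) ^ 2) - ((p0 - s0) * (q0 - s0) + (p1 - s1) * (q1 - s1)))
          + (5 * l / 2) * ((p0 - s0) * (q0 - s0) + (p1 - s1) * (q1 - s1)))) +
      (1 / 2) * σ * ((q0 - p0) * (d1 - p1) - (q1 - p1) * (d0 - p0)) *
        ((h / V) * (2 / 3 + (k / 4) * (4 - v ^ 2 - ((p0 - d0) ^ 2 + (p1 - d1) ^ 2)
          - ((q0 - d0) ^ 2 + (q1 - d1) ^ 2) - ((p0 - d0) * (q0 - d0) + (p1 - d1) * (q1 - d1)))
          + (5 * l / 2) * ((p0 - d0) * (q0 - d0) + (p1 - d1) * (q1 - d1)))) +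
      (1 / 2) * σ * ((d0 - s0) * (p1 - s1) - (d1 - s1) * (p0 - s0)) *
        ((h / V) * (2 / 3 + (k / 4) * (4 - v ^ 2 - ((s0 - p0) ^ 2 + (s1 - p1) ^ 2)
          - ((d0 - p0) ^ 2 + (d1 - p1) ^ 2) - ((s0 - p0) * (d0 - p0) + (s1 - p1) * (d1 - p1)))
          + (5 * l / 2) * ((s0 - p0) * (d0 - p0) + (s1 - p1) * (d1 - p1)))) +
      (1 / 2) * (-σ) * ((d0 - s0) * (q1 - s1) - (d1 - s1) * (q0 - s0)) *
        ((h / V) * (2 / 3 + (k / 4) * (4 - v ^ 2 - ((s0 - q0) ^ 2 + (s1 - q1) ^ 2)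
          - ((d0 - q0) ^ 2 + (d1 - q1) ^ 2) - ((s0 - q0) * (d0 - q0) + (s1 - q1) * (d1 - q1)))
          + (5 * l / 2) * ((s0 - q0) * (d0 - q0) + (s1 - q1) * (d1 - q1)))) =
    (σ * B) * (h / V) * (2 / 3 + (k / 4) * (4 - v ^ 2 - ((q0 - p0) ^ 2 + (q1 - p1) ^ 2 +
      ((d0 - s0) ^ 2 + (d1 - s1) ^ 2)) / 2) + ((10 * l - 3 * k) / 2) *
      (((p0 + q0) / 2 - (s0 + d0) / 2) ^ 2 + ((p1 + q1) / 2 - (s1 + d1) / 2) ^ 2)) := by
  subst hB
  ring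

theorem L22 {K l : ℝ → ℝ} (hKL : KL K l) {p q s d : E3} (hq : p 2 = q 2) (hd : s 2 = d 2)
    (hs : 1 ≤ |s 2 - p 2|) (hdet : det3 p q s d ≠ 0)
    (hE : sq p q + sq p s + sq p d + sq q s + sq q d + sq s d ≤ 16) :
    4 / V0 * (|det3 p q s d| / 6) ≤
      wo K l p q s d + wo K l p q d s + wo K l s d p q + wo K l s d q p := by
  have hV : 0 < V0 := by unfold V0; positivity
  have hne : s 2 - p 2 ≠ 0 := by
    intro h
    rw [h, abs_zero] at hs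
    linarith
  have hsp : s 2 ≠ p 2 := fun h => hne (by rw [h]; ring)
  obtain ⟨B, hB⟩ : ∃ B : ℝ, B = (q 0 - p 0) * (d 1 - s 1) - (q 1 - p 1) * (d 0 - s 0) := ⟨_, rfl⟩
  have e1 : det3 p q s d = -((s 2 - p 2) * B) := by
    rw [hB]; unfold det3; rw [← hq, ← hd]; ring
  have e2 : det3 p q d s = (s 2 - p 2) * B := by
    rw [hB]; unfold det3; rw [← hq, ← hd]; ring
  have e3 : det3 s d p q = -((s 2 - p 2) * B) := by
    rw [hB]; unfold det3; rw [← hq, ← hd]; ring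
  have e4 : det3 s d q p = (s 2 - p 2) * B := by
    rw [hB]; unfold det3; rw [← hq, ← hd]; ring
  have g1 : Real.sign ((s 2 - p 2) * det3 p q s d) = -Real.sign B :=
    l22_sign_neg _ (s 2 - p 2) B hne (by rw [e1]; ring)
  have g2 : Real.sign ((d 2 - p 2) * det3 p q d s) = Real.sign B :=
    l22_sign_pos _ (s 2 - p 2) B hne (by rw [e2, ← hd]; ring)
  have g3 : Real.sign ((p 2 - s 2) * det3 s d p q) = Real.sign B :=
    l22_sign_pos _ (s 2 - p 2) B hne (by rw [e3]; ring)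
  have g4 : Real.sign ((q 2 - s 2) * det3 s d q p) = -Real.sign B :=
    l22_sign_neg _ (s 2 - p 2) B hne (by rw [e4, ← hq]; ring)
  have w1 : wo K l p q s d = (1 / 2) * (-Real.sign B) * cr p q s * Phi K l p q s := by
    unfold wo
    rw [if_pos ⟨hq, hsp⟩, g1]
  have w2 : wo K l p q d s = (1 / 2) * (Real.sign B) * cr p q d * Phi K l p q d := by
    unfold wo
    rw [if_pos ⟨hq, by rw [← hd]; exact hsp⟩, g2]
  have w3 : wo K l s d p q = (1 / 2) * (Real.sign B) * cr s d p * Phi K l s d p := by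
    unfold wo
    rw [if_pos ⟨hd, hsp.symm⟩, g3]
  have w4 : wo K l s d q p = (1 / 2) * (-Real.sign B) * cr s d q * Phi K l s d q := by
    unfold wo
    rw [if_pos ⟨hd, by rw [← hq]; exact hsp.symm⟩, g4]
  rw [w1, w2, w3, w4]
  obtain ⟨h, hh⟩ : ∃ h : ℝ, h = |s 2 - p 2| := ⟨_, rfl⟩
  have a2 : |d 2 - p 2| = h := by rw [hh, hd]
  have a3 : |p 2 - s 2| = h := by rw [hh, abs_sub_comm]
  have a4 : |q 2 - s 2| = h := by rw [hh, ← hq, abs_sub_comm]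
  have b2 : (d 2 - p 2) ^ 2 = (s 2 - p 2) ^ 2 := by rw [hd]
  have b3 : (p 2 - s 2) ^ 2 = (s 2 - p 2) ^ 2 := by ring
  have b4 : (q 2 - s 2) ^ 2 = (s 2 - p 2) ^ 2 := by rw [← hq]; ring
  have hv2 : h ^ 2 = (s 2 - p 2) ^ 2 := by rw [hh, sq_abs]
  have key := l22_core (p 0) (p 1) (q 0) (q 1) (s 0) (s 1) (d 0) (d 1) (s 2 - p 2) h (K h) (l h)
    V0 (Real.sign B) B hv2 hB
  have p1 : Phi K l p q s = (h / V0) * (2 / 3 + (K h / 4) * (4 - (s 2 - p 2) ^ 2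
      - ((p 0 - s 0) ^ 2 + (p 1 - s 1) ^ 2)
          - ((q 0 - s 0) ^ 2 + (q 1 - s 1) ^ 2) - ((p 0 - s 0) * (q 0 - s 0) + (p 1 - s 1) * (q 1 - s 1)))
          + (5 * l h / 2) * ((p 0 - s 0) * (q 0 - s 0) + (p 1 - s 1) * (q 1 - s 1))) := by
    unfold Phi hi LAY.hd
    rw [← hh]
  have p2 : Phi K l p q d = (h / V0) * (2 / 3 + (K h / 4) * (4 - (s 2 - p 2) ^ 2
      - ((p 0 - d 0) ^ 2 + (p 1 - d 1) ^ 2)
          - ((q 0 - d 0) ^ 2 + (q 1 - d 1) ^ 2) - ((p 0 - d 0) * (q 0 - d 0) + (p 1 - d 1) * (q 1 - d 1)))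
          + (5 * l h / 2) * ((p 0 - d 0) * (q 0 - d 0) + (p 1 - d 1) * (q 1 - d 1))) := by
    unfold Phi hi LAY.hd
    rw [a2, b2]
  have p3 : Phi K l s d p = (h / V0) * (2 / 3 + (K h / 4) * (4 - (s 2 - p 2) ^ 2
      - ((s 0 - p 0) ^ 2 + (s 1 - p 1) ^ 2)
          - ((d 0 - p 0) ^ 2 + (d 1 - p 1) ^ 2) - ((s 0 - p 0) * (d 0 - p 0) + (s 1 - p 1) * (d 1 - p 1)))
          + (5 * l h / 2) * ((s 0 - p 0) * (d 0 - p 0) + (s 1 - p 1) * (d 1 - p 1))) := by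
    unfold Phi hi LAY.hd
    rw [a3, b3]
  have p4 : Phi K l s d q = (h / V0) * (2 / 3 + (K h / 4) * (4 - (s 2 - p 2) ^ 2
      - ((s 0 - q 0) ^ 2 + (s 1 - q 1) ^ 2)
          - ((d 0 - q 0) ^ 2 + (d 1 - q 1) ^ 2) - ((s 0 - q 0) * (d 0 - q 0) + (s 1 - q 1) * (d 1 - q 1)))
          + (5 * l h / 2) * ((s 0 - q 0) * (d 0 - q 0) + (s 1 - q 1) * (d 1 - q 1))) := by
    unfold Phi hi LAY.hd
    rw [a4, b4]
  rw [p1, p2, p3, p4]
  have c1 : cr p q s = (q 0 - p 0) * (s 1 - p 1) - (q 1 - p 1) * (s 0 - p 0) := rfl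
  have c2 : cr p q d = (q 0 - p 0) * (d 1 - p 1) - (q 1 - p 1) * (d 0 - p 0) := rfl
  have c3 : cr s d p = (d 0 - s 0) * (p 1 - s 1) - (d 1 - s 1) * (p 0 - s 0) := rfl
  have c4 : cr s d q = (d 0 - s 0) * (q 1 - s 1) - (d 1 - s 1) * (q 0 - s 0) := rfl
  rw [c1, c2, c3, c4, key, l22_sign_mul]
  have hdet' : |det3 p q s d| = h * |B| := by
    rw [e1, abs_neg, abs_mul, ← hh]
  rw [hdet']
  have h1 : 1 ≤ h := by rw [hh]; exact hs
  have hK0 := hKL.nonneg h h1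
  have hK4 := hKL.le h h1
  -- the bracket is nonnegative
  have hsum : sq p q + sq p s + sq p d + sq q s + sq q d + sq s d =
      2 * (((q 0 - p 0) ^ 2 + (q 1 - p 1) ^ 2) + ((d 0 - s 0) ^ 2 + (d 1 - s 1) ^ 2)) +
      4 * (((p 0 + q 0) / 2 - (s 0 + d 0) / 2) ^ 2 + ((p 1 + q 1) / 2 - (s 1 + d 1) / 2) ^ 2) +
      4 * (s 2 - p 2) ^ 2 := by
    unfold sq
    rw [← hq, ← hd]
    ring
  obtain ⟨M, hM⟩ : ∃ M : ℝ, M = ((p 0 + q 0) / 2 - (s 0 + d 0) / 2) ^ 2 +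
    ((p 1 + q 1) / 2 - (s 1 + d 1) / 2) ^ 2 := ⟨_, rfl⟩
  obtain ⟨A, hA⟩ : ∃ A : ℝ, A = ((q 0 - p 0) ^ 2 + (q 1 - p 1) ^ 2) +
    ((d 0 - s 0) ^ 2 + (d 1 - s 1) ^ 2) := ⟨_, rfl⟩
  rw [hsum, ← hM, ← hA] at hE
  rw [← hM, ← hA]
  have hM0 : 0 ≤ M := by rw [hM]; positivity
  have hge : M ≤ 4 - (s 2 - p 2) ^ 2 - A / 2 := by linarith
  have hbr : 0 ≤ K h / 4 * (4 - (s 2 - p 2) ^ 2 - A / 2) + (10 * l h - 3 * K h) / 2 * M := by
    have t1 : K h / 4 * M ≤ K h / 4 * (4 - (s 2 - p 2) ^ 2 - A / 2) :=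
      mul_le_mul_of_nonneg_left hge (by linarith)
    have t2 : 0 ≤ (4 * l h - K h) * M := mul_nonneg (by linarith) hM0
    linarith
  have hpos : 0 ≤ |B| * (h / V0) := mul_nonneg (abs_nonneg _) (div_nonneg (by linarith) hV.le)
  have hfin := mul_nonneg hpos hbr
  have e5 : 4 / V0 * (h * |B| / 6) = |B| * (h / V0) * (2 / 3) := by ring
  rw [e5]
  have e6 : |B| * (h / V0) * (2 / 3 + K h / 4 * (4 - (s 2 - p 2) ^ 2 - A / 2) +
      (10 * l h - 3 * K h) / 2 * M) = |B| * (h / V0) * (2 / 3) + |B| * (h / V0) *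
      (K h / 4 * (4 - (s 2 - p 2) ^ 2 - A / 2) + (10 * l h - 3 * K h) / 2 * M) := by ring
  rw [e6]
  linarith

end LAY
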