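import Pool.Agent.LAY.R31b

/-!
# [LAY-L31] the local inequality for cells of type (3,1)

`p, q, s` in one plane `{x 2 = z}`, `d` in another plane at distance `h = |d 2 - p 2| ≥ 1`, sum of the six squared edges `≤ 16`.
The three terms on the right are the weights of the three mixed faces `pqd`, `qsd`, `spd` (each seen with the fourth vertex last).
PROOF. `det3 p q s d = (d 2 - p 2) * cr p q s` when `q 2 = p 2`, `s 2 = p 2` (ring), so `cr p q s ≠ 0`. Both sides do not change if `p`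
and `q` are swapped: `det3 q p s d = - det3 p q s d`; `wo q p d s = wo p q d s` (`cr q p d = - cr p q d`, `det3 q p d s = - det3 p q d s`,
`Real.sign (-x) = - Real.sign x`, `Phi` symmetric: `hd`, `hi` symmetric, `p 2 = q 2`), and `wo p s d q = wo s p d q`, ... : so the three terms
are permuted. Hence we may assume `cr p q s > 0` (prove the case `cr p q s > 0` as a lemma first, then apply it to `q p s d` otherwise).
Then `det3 p q d s = -(d 2 - p 2) * cr p q s` (ring with the heights), so `Real.sign ((d 2 - p 2) * det3 p q d s) = -1`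
(the product is `-(d 2-p 2)² cr p q s < 0`), the same for `det3 q s d p`, `det3 s p d q` (cyclic: `cr q s p = cr p q s`), so
 `wo p q d s = -(1/2) cr p q d * Phi p q d`, etc. With `x1 = p 0 - d 0`, `y1 = p 1 - d 1`, `(x2,y2) = q - d`, `(x3,y3) = s - d`:
`cr p q d = x1 y2 - y1 x2` (ring), `cr q s d = x2 y3 - y2 x3`, `cr s p d = x3 y1 - y3 x1`, their sum is `cr p q s`, `|det3 p q s d| = h cr p q s`,
`hd p d = x1²+y1²`, `hi p q d = x1 x2+y1 y2`, `(d 2 - p 2)² = h²`. The claim, multiplied by `V0 > 0`, is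
 `4·h·cr/6 ≤ V0 - ½ Σ X_ij h [2/3 + (K/4)(..) + (5l/2)(..)]`; since `(2/3)·½·Σ X_ij = cr/3`, this is
 `h Σ_cyc ½ X_ij [2 + (K/4)(4-h²-|p_i|²-|p_j|²-p_i·p_j) + (5l/2) p_i·p_j] ≤ V0` (`h·cr·(4/6 + 1/3) = h·cr = h·½ΣX_ij·2`), i.e. `R31`.
Its hypothesis is `hE` with `sq p d = x1²+y1²+h²` etc.
-/

set_option autoImplicit false

open MeasureTheory Real
open scoped InnerProductSpace

namespace LAY

open BccCov BccO TPC

theorem V0_pos : 0 < V0 := by unfold V0; positivity

theorem wo_swap (K l : ℝ → ℝ) (p q s d : E3) : wo K l q p s d = wo K l p q s d := by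
  have hcr : cr q p s = -cr p q s := by
    unfold cr
    ring
  have hdet : det3 q p s d = -det3 p q s d := by
    unfold det3
    ring
  have hPhi : p 2 = q 2 → Phi K l q p s = Phi K l p q s := by
    intro h
    have h1 : hi q p s = hi p q s := by
      unfold hi
      ring
    unfold Phi
    rw [h1, h]
    ring
  unfold wo
  by_cases h : p 2 = q 2 ∧ s 2 ≠ p 2
  · have h' : q 2 = p 2 ∧ s 2 ≠ q 2 := ⟨h.1.symm, h.1 ▸ h.2⟩
    rw [if_pos h, if_pos h', hcr, hdet, hPhi h.1, ← h.1]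
    have h3 : (s 2 - p 2) * -det3 p q s d = -((s 2 - p 2) * det3 p q s d) := by ring
    rw [h3, Real.sign_neg]
    ring
  · have h' : ¬ (q 2 = p 2 ∧ s 2 ≠ q 2) := fun h2 => h ⟨h2.1.symm, h2.1 ▸ h2.2⟩
    rw [if_neg h, if_neg h']

theorem l31_cr_swap (p q s : E3) : cr q p s = -cr p q s := by
  unfold cr
  ring

theorem l31_cr_cyc (p q s : E3) : cr q s p = cr p q s := by
  unfold cr
  ring

theorem l31_det_swap (p q s d : E3) : det3 q p s d = -det3 p q s d := by
  unfold det3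
  ring

theorem l31_Phi_swap (K l : ℝ → ℝ) (p q s : E3) (h : p 2 = q 2) :
    Phi K l q p s = Phi K l p q s := by
  have h1 : hi q p s = hi p q s := by
    unfold hi
    ring
  unfold Phi
  rw [h1, h]
  ring

theorem l31_det {p q s d : E3} (hq : q 2 = p 2) (hs : s 2 = p 2) :
    det3 p q s d = (d 2 - p 2) * cr p q s := by
  unfold det3 cr
  rw [hq, hs]
  ring

theorem l31_det2 {p q s d : E3} (hq : q 2 = p 2) (hs : s 2 = p 2) :
    det3 p q d s = -((d 2 - p 2) * cr p q s) := by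
  unfold det3 cr
  rw [hq, hs]
  ring

theorem l31_wo {K l : ℝ → ℝ} {p q s d : E3} (hq : q 2 = p 2) (hs : s 2 = p 2)
    (hd : d 2 - p 2 ≠ 0) (hc : 0 < cr p q s) :
    wo K l p q d s = -(1 / 2) * cr p q d * Phi K l p q d := by
  have h1 : p 2 = q 2 ∧ d 2 ≠ p 2 := ⟨hq.symm, fun h => hd (sub_eq_zero.2 h)⟩
  have h2 : (d 2 - p 2) * det3 p q d s < 0 := by
    rw [l31_det2 hq hs]
    have h3 : 0 < (d 2 - p 2) ^ 2 := by positivity
    have h4 : (d 2 - p 2) * -((d 2 - p 2) * cr p q s) = -((d 2 - p 2) ^ 2 * cr p q s) := by ring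
    rw [h4]
    have h5 : 0 < (d 2 - p 2) ^ 2 * cr p q s := mul_pos h3 hc
    linarith
  unfold wo
  rw [if_pos h1, Real.sign_of_neg h2]
  ring

theorem l31_pos {K l : ℝ → ℝ} (hKL : KL K l) {p q s d : E3} (hq : q 2 = p 2) (hs : s 2 = p 2)
    (hd : 1 ≤ |d 2 - p 2|) (hc : 0 < cr p q s)
    (hE : sq p q + sq p s + sq p d + sq q s + sq q d + sq s d ≤ 16) :
    4 / V0 * (|det3 p q s d| / 6) ≤ 1 + (wo K l p q d s + wo K l q s d p + wo K l s p d q) := by
  have hV := V0_pos
  have hne : d 2 - p 2 ≠ 0 := by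
    intro h
    rw [h, abs_zero] at hd
    linarith
  have hsq : |d 2 - p 2| ^ 2 = (d 2 - p 2) ^ 2 := sq_abs _
  have w1 := l31_wo (K := K) (l := l) hq hs hne hc
  have w2 : wo K l q s d p = -(1 / 2) * cr q s d * Phi K l q s d :=
    l31_wo (hs.trans hq.symm) hq.symm (by rw [hq]; exact hne) (by rw [l31_cr_cyc]; exact hc)
  have w3 : wo K l s p d q = -(1 / 2) * cr s p d * Phi K l s p d :=
    l31_wo hs.symm (hq.trans hs.symm) (by rw [hs]; exact hne)
      (by rw [l31_cr_cyc q s p, l31_cr_cyc p q s]; exact hc)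
  have hcr : cr p q s = ((p 0 - d 0) * (q 1 - d 1) - (p 1 - d 1) * (q 0 - d 0)) +
      ((q 0 - d 0) * (s 1 - d 1) - (q 1 - d 1) * (s 0 - d 0)) +
      ((s 0 - d 0) * (p 1 - d 1) - (s 1 - d 1) * (p 0 - d 0)) := by
    unfold cr
    ring
  have key := R31 hKL hd (p 0 - d 0) (p 1 - d 1) (q 0 - d 0) (q 1 - d 1) (s 0 - d 0) (s 1 - d 1)
    (by rw [← hcr]; exact hc) (by
      rw [hsq]
      unfold sq at hE
      rw [hq, hs] at hE
      refine le_trans (le_of_eq ?_) hE
      ring)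
  rw [w1, w2, w3, l31_det hq hs, abs_mul, abs_of_pos hc, ← sub_nonneg]
  unfold Phi
  rw [hq, hs, ← hsq]
  obtain ⟨h, hh⟩ : ∃ h, h = |d 2 - p 2| := ⟨_, rfl⟩
  rw [← hh] at key ⊢
  rw [hcr]
  simp only [cr, LAY.hd, hi]
  have e1 : ∀ A B : ℝ, V0 * A = V0 - B → 0 ≤ V0 - B → 0 ≤ A := by
    intro A B h1 h2
    rw [← h1] at h2
    exact nonneg_of_mul_nonneg_right h2 hV
  refine e1 _ _ ?_ (sub_nonneg.2 key)
  field_simp
  ring

theorem L31 {K l : ℝ → ℝ} (hKL : KL K l) {p q s d : E3} (hq : q 2 = p 2) (hs : s 2 = p 2)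
    (hd : 1 ≤ |d 2 - p 2|) (hdet : det3 p q s d ≠ 0)
    (hE : sq p q + sq p s + sq p d + sq q s + sq q d + sq s d ≤ 16) :
    4 / V0 * (|det3 p q s d| / 6) ≤ 1 + (wo K l p q d s + wo K l q s d p + wo K l s p d q) := by
  rcases lt_trichotomy (cr p q s) 0 with hc | hc | hc
  · have hc' : 0 < cr q p s := by
      rw [l31_cr_swap]
      linarith
    have hE' : sq q p + sq q s + sq q d + sq p s + sq p d + sq s d ≤ 16 := by
      have h1 : sq q p = sq p q := by
        unfold sq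
        ring
      rw [h1]
      linarith
    have h1 := l31_pos hKL hq.symm (hs.trans hq.symm) (by rw [hq]; exact hd) hc' hE'
    rw [l31_det_swap, abs_neg, wo_swap K l p q d s, wo_swap K l s p d q, wo_swap K l q s d p] at h1
    linarith
  · exfalso
    apply hdet
    rw [l31_det hq hs, hc, mul_zero]
  · exact l31_pos hKL hq hs hd hc hE

end LAY
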