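import Pool.Agent.LAY.Defs

/-!
# [LAY-R31a] the sum `Σ ½ (p_i × p_j)(p_i · p_j)` for a triangle (pure real algebra)

Notation: `p_i = (x_i, y_i)`, `c = (p_1+p_2+p_3)/3`, `u_i = p_i - c` (so `u_1+u_2+u_3 = 0`), `X_ij = p_i × p_j = x_i y_j - y_i x_j`,
`S = (X_12+X_23+X_31)/2 > 0`, `m = 3√3/4` (`m² = 27/16`), `C = |c|`, `E = (|u_1|²+|u_2|²+|u_3|²)/3 = (Σ |p_i-p_j|²)/9`.
PROOF.
(1) `C := √(((x1+x2+x3)²+(y1+y2+y3)²)/9)`. `Δ := S/m`. `E ≥ Δ` (Weitzenböck): with `u_1=(a,b)`, `u_2=(e,f)`, `w = a f - b e = 2S/3`,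
 `3E/2 = a²+b²+e²+f²+ae+bf`; `(a²+b²+e²+f²+ae+bf)² ≥ 3 w²` because
 `(A+B+G)² - 3(AB - G²)`, `A=a²+b²`, `B=e²+f²`, `G=ae+bf`, `w² = AB - G²`, equals `((A-B)² + (A+B)²... )`: precisely
 `(A+B+G)² - 3(AB-G²) = (A-B)²/4·... ` -- simply: `= A²+B²+4G²-AB+2AG+2BG = (1/4)(A-B)²·3·... `; use `nlinarith [sq_nonneg (A+B+4*G), sq_nonneg (A-B)]`
 (indeed `4·[A²+B²+4G²-AB+2AG+2BG] = (A+B+4G)² + 3(A-B)²`, check: `(A+B)²+8G(A+B)+16G²+3(A-B)² = 4A²+4B²-4AB+8AG+8BG+16G²`).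
 So `E² ≥ Δ²` (`E² = (4/9)(3E/2)² ≥ (4/9)·3·w² = (4/3)(4S²/9) = 16 S²/27 = Δ²`), `E ≥ 0`, hence `E ≥ Δ`.
 `P := √((E+Δ)/2)`, `Q := √((E-Δ)/2)`; then `0 ≤ Q ≤ P`, `P²+Q² = E`, `P²-Q² = Δ`, `m (P²-Q²) = S`.
(2) Let `W = (W_0, W_1) = ½ Σ_{cyc (i,j)} (u_i·u_j) (J (u_j - u_i))`, `J v = (v_1, -v_0)`. By `ring`:
 `Σ_cyc ½ X_ij (p_i·p_j) = ½ S (4C² - E) + (c_0 W_0 + c_1 W_1)`  (checked with exact rationals), and with `Π = (E² - 16 S²/27)/4 = P²Q²`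
 `64 m⁴ Π³ - (|W|² - 4 m² Π E)² = (1/432) ((ℓ1-ℓ2)(ℓ2-ℓ3)(ℓ3-ℓ1))²`, `64 m⁴ = 729/4`, `4m² = 27/4`, `ℓ` = the three squared sides
 (again by `ring` after substituting the coordinates; checked with exact rationals).
(3) Hence `|W|² - 4m²ΠE ≤ 8 m² Π^{3/2} = 8 m² (PQ)³` (`abs_le_of_sq_le`), so `|W|² ≤ 4m² (PQ)² (E + 2PQ) = (2m PQ (P+Q))²` and
 by Cauchy–Schwarz `c·W ≤ C |W| ≤ 2 m C P Q (P+Q)` (`abs_le_of_sq_le`/`Real.sqrt` free: `(c·W)² ≤ C²|W|² ≤ (2mCPQ(P+Q))²`, right side ≥ 0).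
-/

set_option autoImplicit false

open MeasureTheory Real
open scoped InnerProductSpace

namespace LAY

open BccCov BccO TPC

theorem r31a_id (A B G : ℝ) :
    729 / 4 * (((2 / 3 * (A + B + G)) ^ 2 - 4 / 3 * (A * B - G ^ 2)) / 4) ^ 3 -
      (1 / 4 * ((B - 2 * A - 2 * G) ^ 2 * A + 2 * (B - 2 * A - 2 * G) * (2 * B - A + 2 * G) * G +
        (2 * B - A + 2 * G) ^ 2 * B) - 27 / 4 *
          (((2 / 3 * (A + B + G)) ^ 2 - 4 / 3 * (A * B - G ^ 2)) / 4) * (2 / 3 * (A + B + G))) ^ 2 =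
      1 / 432 * (((A + B - 2 * G) - (4 * B + A + 4 * G)) * ((4 * B + A + 4 * G) - (4 * A + B + 4 * G))
        * ((4 * A + B + 4 * G) - (A + B - 2 * G))) ^ 2 := by
  ring

theorem r31a_key (A B G E T pp : ℝ) (hE : E = 2 / 3 * (A + B + G))
    (hPp : pp = (E ^ 2 - 4 / 3 * (A * B - G ^ 2)) / 4)
    (hT : T = 1 / 4 * ((B - 2 * A - 2 * G) ^ 2 * A +
      2 * (B - 2 * A - 2 * G) * (2 * B - A + 2 * G) * G + (2 * B - A + 2 * G) ^ 2 * B)) :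
    (T - 27 / 4 * pp * E) ^ 2 ≤ 729 / 4 * pp ^ 3 := by
  have h := r31a_id A B G
  have h2 := sq_nonneg (((A + B - 2 * G) - (4 * B + A + 4 * G)) *
    ((4 * B + A + 4 * G) - (4 * A + B + 4 * G)) * ((4 * A + B + 4 * G) - (A + B - 2 * G)))
  rw [← hE, ← hPp, ← hT] at h
  have h3 : 0 ≤ 729 / 4 * pp ^ 3 - (T - 27 / 4 * pp * E) ^ 2 := by
    rw [h]
    exact mul_nonneg (by norm_num) h2
  exact sub_nonneg.1 h3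

theorem r31a_PQ (A B G w r E Δ : ℝ) (hr0 : 0 < r) (hr2 : r ^ 2 = 3) (hw : 0 < w)
    (hwAB : w ^ 2 = A * B - G ^ 2) (hE : E = 2 / 3 * (A + B + G)) (hE0 : 0 ≤ E)
    (hΔ : Δ = 2 / 3 * r * w) :
    0 < Δ ∧ Δ ≤ E ∧ Δ ^ 2 = 4 / 3 * w ^ 2 := by
  have hΔ0 : 0 < Δ := by rw [hΔ]; positivity
  have hΔ2 : Δ ^ 2 = 4 / 3 * w ^ 2 := by
    rw [hΔ]
    calc (2 / 3 * r * w) ^ 2 = 4 / 9 * r ^ 2 * w ^ 2 := by ring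
      _ = 4 / 3 * w ^ 2 := by rw [hr2]; ring
  have hED : Δ ^ 2 ≤ E ^ 2 := by
    rw [hΔ2, hwAB, hE]
    nlinarith [sq_nonneg (A + B + 4 * G), sq_nonneg (A - B)]
  exact ⟨hΔ0, (abs_le_of_sq_le_sq' hED hE0).2, hΔ2⟩

theorem r31a_fin (cx cy W0 W1 P Q C E pp r : ℝ) (hr0 : 0 < r) (hr2 : r ^ 2 = 3) (hP0 : 0 ≤ P)
    (hQ0 : 0 ≤ Q) (hC0 : 0 ≤ C) (hC2 : C ^ 2 = cx ^ 2 + cy ^ 2) (hPQE : P ^ 2 + Q ^ 2 = E)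
    (hPi : P ^ 2 * Q ^ 2 = pp) (hkey : (W0 ^ 2 + W1 ^ 2 - 27 / 4 * pp * E) ^ 2 ≤ 729 / 4 * pp ^ 3) :
    cx * W0 + cy * W1 ≤ 2 * (3 * r / 4) * C * (P * Q) * (P + Q) := by
  have hPQ0 : 0 ≤ P * Q := mul_nonneg hP0 hQ0
  have hW : W0 ^ 2 + W1 ^ 2 - 27 / 4 * pp * E ≤ 27 / 2 * (P * Q) ^ 3 := by
    refine (abs_le_of_sq_le_sq' ?_ (by positivity)).2
    refine hkey.trans (le_of_eq ?_)
    rw [← hPi]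
    ring
  have hW' : W0 ^ 2 + W1 ^ 2 ≤ 27 / 4 * (P * Q * (P + Q)) ^ 2 := by
    have e1 : 27 / 4 * (P * Q * (P + Q)) ^ 2 = 27 / 4 * (P ^ 2 * Q ^ 2) * (P ^ 2 + Q ^ 2) +
        27 / 2 * (P * Q) ^ 3 := by ring
    rw [e1, hPQE, hPi]
    linarith
  refine (abs_le_of_sq_le_sq' ?_ (by positivity)).2
  have hcs : (cx * W0 + cy * W1) ^ 2 ≤ (cx ^ 2 + cy ^ 2) * (W0 ^ 2 + W1 ^ 2) := by
    have e : (cx ^ 2 + cy ^ 2) * (W0 ^ 2 + W1 ^ 2) = (cx * W0 + cy * W1) ^ 2 +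
      (cx * W1 - cy * W0) ^ 2 := by ring
    rw [e]
    exact le_add_of_nonneg_right (sq_nonneg _)
  refine hcs.trans ?_
  rw [← hC2]
  calc C ^ 2 * (W0 ^ 2 + W1 ^ 2) ≤ C ^ 2 * (27 / 4 * (P * Q * (P + Q)) ^ 2) :=
        mul_le_mul_of_nonneg_left hW' (sq_nonneg _)
    _ = (9 / 4 * 3) * (C * (P * Q) * (P + Q)) ^ 2 := by ring
    _ = (9 / 4 * r ^ 2) * (C * (P * Q) * (P + Q)) ^ 2 := by rw [hr2]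
    _ = (2 * (3 * r / 4) * C * (P * Q) * (P + Q)) ^ 2 := by ring

theorem r31a_core (a b e f cx cy : ℝ) (hw : 0 < a * f - b * e) :
    ∃ P Q C : ℝ, 0 ≤ Q ∧ Q ≤ P ∧ 0 ≤ C ∧ C ^ 2 = cx ^ 2 + cy ^ 2 ∧
      P ^ 2 + Q ^ 2 = 2 / 3 * ((a ^ 2 + b ^ 2) + (e ^ 2 + f ^ 2) + (a * e + b * f)) ∧
      (3 * √3 / 4) * (P ^ 2 - Q ^ 2) = 3 / 2 * (a * f - b * e) ∧
      cx * (1 / 2 * (((e ^ 2 + f ^ 2) - 2 * (a ^ 2 + b ^ 2) - 2 * (a * e + b * f)) * b +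
          (2 * (e ^ 2 + f ^ 2) - (a ^ 2 + b ^ 2) + 2 * (a * e + b * f)) * f))
        + cy * (-(1 / 2 * (((e ^ 2 + f ^ 2) - 2 * (a ^ 2 + b ^ 2) - 2 * (a * e + b * f)) * a +
          (2 * (e ^ 2 + f ^ 2) - (a ^ 2 + b ^ 2) + 2 * (a * e + b * f)) * e)))
        ≤ 2 * (3 * √3 / 4) * C * (P * Q) * (P + Q) := by
  have hr0 : 0 < √3 := Real.sqrt_pos.2 (by norm_num)
  have hr2 : √3 ^ 2 = 3 := Real.sq_sqrt (by norm_num)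
  obtain ⟨r, hr⟩ : ∃ r, r = √3 := ⟨_, rfl⟩
  rw [← hr] at hr0 hr2 ⊢
  obtain ⟨w, hwd⟩ : ∃ w, w = a * f - b * e := ⟨_, rfl⟩
  obtain ⟨A, hA⟩ : ∃ A, A = a ^ 2 + b ^ 2 := ⟨_, rfl⟩
  obtain ⟨B, hB⟩ : ∃ B, B = e ^ 2 + f ^ 2 := ⟨_, rfl⟩
  obtain ⟨G, hG⟩ : ∃ G, G = a * e + b * f := ⟨_, rfl⟩
  obtain ⟨E, hE⟩ : ∃ E, E = 2 / 3 * (A + B + G) := ⟨_, rfl⟩
  obtain ⟨Δ, hΔ⟩ : ∃ Δ, Δ = 2 / 3 * r * w := ⟨_, rfl⟩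
  have hwAB : w ^ 2 = A * B - G ^ 2 := by rw [hwd, hA, hB, hG]; ring
  have hE0 : 0 ≤ E := by
    have e1 : E = 1 / 3 * ((a + e) ^ 2 + (b + f) ^ 2 + a ^ 2 + b ^ 2 + e ^ 2 + f ^ 2) := by
      rw [hE, hA, hB, hG]; ring
    rw [e1]; positivity
  rw [← hwd] at hw ⊢
  obtain ⟨hΔ0, hle, hΔ2⟩ := r31a_PQ A B G w r E Δ hr0 hr2 hw hwAB hE hE0 hΔ
  rw [← hA, ← hB, ← hG, ← hE]
  obtain ⟨W0, hW0⟩ : ∃ W0, W0 = 1 / 2 * ((B - 2 * A - 2 * G) * b + (2 * B - A + 2 * G) * f) :=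
    ⟨_, rfl⟩
  obtain ⟨W1, hW1⟩ : ∃ W1, W1 = -(1 / 2 * ((B - 2 * A - 2 * G) * a + (2 * B - A + 2 * G) * e)) :=
    ⟨_, rfl⟩
  rw [← hW0, ← hW1]
  have hT : W0 ^ 2 + W1 ^ 2 = 1 / 4 * ((B - 2 * A - 2 * G) ^ 2 * A +
      2 * (B - 2 * A - 2 * G) * (2 * B - A + 2 * G) * G + (2 * B - A + 2 * G) ^ 2 * B) := by
    obtain ⟨α, hα⟩ : ∃ α, α = B - 2 * A - 2 * G := ⟨_, rfl⟩
    obtain ⟨β, hβ⟩ : ∃ β, β = 2 * B - A + 2 * G := ⟨_, rfl⟩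
    rw [hW0, hW1, ← hα, ← hβ]
    have : 1 / 4 * (α ^ 2 * A + 2 * α * β * G + β ^ 2 * B) = 1 / 4 * (α ^ 2 * (a ^ 2 + b ^ 2) +
      2 * α * β * (a * e + b * f) + β ^ 2 * (e ^ 2 + f ^ 2)) := by rw [hA, hB, hG]
    rw [this]
    ring
  have hP2 : √((E + Δ) / 2) ^ 2 = (E + Δ) / 2 := Real.sq_sqrt (by linarith)
  have hQ2 : √((E - Δ) / 2) ^ 2 = (E - Δ) / 2 := Real.sq_sqrt (by linarith)
  have hC2 : √(cx ^ 2 + cy ^ 2) ^ 2 = cx ^ 2 + cy ^ 2 := Real.sq_sqrt (by positivity)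
  have hPQE : √((E + Δ) / 2) ^ 2 + √((E - Δ) / 2) ^ 2 = E := by rw [hP2, hQ2]; ring
  have hPi : √((E + Δ) / 2) ^ 2 * √((E - Δ) / 2) ^ 2 = (E ^ 2 - 4 / 3 * (A * B - G ^ 2)) / 4 := by
    rw [hP2, hQ2, ← hwAB, ← hΔ2]; ring
  refine ⟨√((E + Δ) / 2), √((E - Δ) / 2), √(cx ^ 2 + cy ^ 2), Real.sqrt_nonneg _,
    Real.sqrt_le_sqrt (by linarith), Real.sqrt_nonneg _, hC2, hPQE, ?_, ?_⟩
  · rw [hP2, hQ2]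
    calc 3 * r / 4 * ((E + Δ) / 2 - (E - Δ) / 2) = 3 * r / 4 * Δ := by ring
      _ = 1 / 2 * r ^ 2 * w := by rw [hΔ]; ring
      _ = 3 / 2 * w := by rw [hr2]; ring
  · exact r31a_fin cx cy W0 W1 _ _ _ E _ r hr0 hr2 (Real.sqrt_nonneg _) (Real.sqrt_nonneg _)
      (Real.sqrt_nonneg _) hC2 hPQE hPi (r31a_key A B G E _ _ hE rfl hT)

theorem sigma_bound (x1 y1 x2 y2 x3 y3 : ℝ)
    (hS : 0 < (x1 * y2 - y1 * x2) + (x2 * y3 - y2 * x3) + (x3 * y1 - y3 * x1)) :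
    ∃ P Q C : ℝ, 0 ≤ Q ∧ Q ≤ P ∧ 0 ≤ C ∧
      9 * C ^ 2 = (x1 + x2 + x3) ^ 2 + (y1 + y2 + y3) ^ 2 ∧
      9 * (P ^ 2 + Q ^ 2) = ((x1 - x2) ^ 2 + (y1 - y2) ^ 2) + ((x2 - x3) ^ 2 + (y2 - y3) ^ 2)
        + ((x3 - x1) ^ 2 + (y3 - y1) ^ 2) ∧
      (3 * √3 / 4) * (P ^ 2 - Q ^ 2)
        = ((x1 * y2 - y1 * x2) + (x2 * y3 - y2 * x3) + (x3 * y1 - y3 * x1)) / 2 ∧
      ((x1 * y2 - y1 * x2) * (x1 * x2 + y1 * y2) + (x2 * y3 - y2 * x3) * (x2 * x3 + y2 * y3)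
        + (x3 * y1 - y3 * x1) * (x3 * x1 + y3 * y1)) / 2
        ≤ (3 * √3 / 4) * (P ^ 2 - Q ^ 2) / 2 * (4 * C ^ 2 - (P ^ 2 + Q ^ 2))
          + 2 * (3 * √3 / 4) * C * (P * Q) * (P + Q) := by
  obtain ⟨cx, hcx⟩ : ∃ cx, cx = (x1 + x2 + x3) / 3 := ⟨_, rfl⟩
  obtain ⟨cy, hcy⟩ : ∃ cy, cy = (y1 + y2 + y3) / 3 := ⟨_, rfl⟩
  obtain ⟨P, Q, C, h1, h2, h3, h4, h5, h6, h7⟩ := r31a_core (x1 - cx) (y1 - cy) (x2 - cx) (y2 - cy)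
    cx cy (by
      have e : (x1 - cx) * (y2 - cy) - (y1 - cy) * (x2 - cx) =
        ((x1 * y2 - y1 * x2) + (x2 * y3 - y2 * x3) + (x3 * y1 - y3 * x1)) / 3 := by
        rw [hcx, hcy]; ring
      rw [e]; linarith)
  refine ⟨P, Q, C, h1, h2, h3, ?_, ?_, ?_, ?_⟩
  · rw [h4, hcx, hcy]; ring
  · rw [h5, hcx, hcy]; ring
  · rw [h6, hcx, hcy]; ring
  · have e2 : (3 * √3 / 4) * (P ^ 2 - Q ^ 2) / 2 * (4 * C ^ 2 - (P ^ 2 + Q ^ 2)) =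
        (3 / 2 * ((x1 - cx) * (y2 - cy) - (y1 - cy) * (x2 - cx))) / 2 *
          (4 * (cx ^ 2 + cy ^ 2) - 2 / 3 * (((x1 - cx) ^ 2 + (y1 - cy) ^ 2) + ((x2 - cx) ^ 2 +
            (y2 - cy) ^ 2) + ((x1 - cx) * (x2 - cx) + (y1 - cy) * (y2 - cy)))) := by
      rw [h6, h4, h5]
    rw [e2]
    refine le_trans (le_of_eq ?_) (add_le_add_right h7 _)
    rw [hcx, hcy]
    ring

end LAY
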