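import Pool.Agent.LAY.R31a

/-!
# [LAY-R31b] the inequality for cells of type (3,1), in coordinates

`p_i = (x_i, y_i)` is the position of the i-th coplanar vertex relative to the projection of the fourth vertex; `h` = distance of the
two planes. PROOF. Take `P, Q, C` from `sigma_bound` (R31a); `p := P+Q`, `d := P-Q` (`0 ≤ d ≤ p`, `p²+d² = 2(P²+Q²)`,
`p d = P²-Q²`, `p²-d² = 4PQ`). With `m = 3√3/4`, `S = m(P²-Q²)`, `E = P²+Q²`, `K = K h`, `l = l h`: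
 `Σ_cyc ½ X_ij (|p_i|²+|p_j|²) + Σ_cyc ½ X_ij p_i·p_j = S (6C² + 3E/2)` (by `ring` from the definitions: checked with exact rationals),
so the left side of the claim is `h·{ S[2+(K/4)(4-h²)] - (K/4) S (6C²+3E/2) + (5l/2) Σ1 }`, `Σ1 = Σ_cyc ½ X_ij p_i·p_j`,
`Σ1 ≤ ½ S (4C²-E) + 2 m C PQ(P+Q)` (R31a) and `l ≥ 0` (from `0 ≤ K ≤ 4l`), `h > 0`:
 `≤ h·{ S[2+(K/4)(4-h²) + (5l - 3K/2) C² - (3K/8 + 5l/4) E] + 5 l m C PQ(P+Q) }`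
 `= h m p { d[2+(K/4)(4-h²)+(5l-3K/2)C² - ((3K+10l)/16)(p²+d²)] + (5l/4) C (p²-d²) } ≤ V0`
by `hKL.main h h1 p d C`; its hypothesis: `3h² + 6(p²+d²) + 3C² = 3h² + 12E + 3C²` and
`Σ|p_i-p_j|² + Σ|p_i|² = 9E + (3E + 3C²)`, i.e. exactly `hE`.
-/

set_option autoImplicit false

open MeasureTheory Real
open scoped InnerProductSpace

namespace LAY

open BccCov BccO TPC

theorem R31 {K l : ℝ → ℝ} (hKL : KL K l) {h : ℝ} (h1 : 1 ≤ h) (x1 y1 x2 y2 x3 y3 : ℝ)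
    (hS : 0 < (x1 * y2 - y1 * x2) + (x2 * y3 - y2 * x3) + (x3 * y1 - y3 * x1))
    (hE : ((x1 - x2) ^ 2 + (y1 - y2) ^ 2) + ((x2 - x3) ^ 2 + (y2 - y3) ^ 2)
        + ((x3 - x1) ^ 2 + (y3 - y1) ^ 2) + (x1 ^ 2 + y1 ^ 2) + (x2 ^ 2 + y2 ^ 2) + (x3 ^ 2 + y3 ^ 2)
        + 3 * h ^ 2 ≤ 16) :
    h * ((x1 * y2 - y1 * x2) / 2 * (2 + (K h / 4) * (4 - h ^ 2 - (x1 ^ 2 + y1 ^ 2) - (x2 ^ 2 + y2 ^ 2)
          - (x1 * x2 + y1 * y2)) + (5 * l h / 2) * (x1 * x2 + y1 * y2))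
      + (x2 * y3 - y2 * x3) / 2 * (2 + (K h / 4) * (4 - h ^ 2 - (x2 ^ 2 + y2 ^ 2) - (x3 ^ 2 + y3 ^ 2)
          - (x2 * x3 + y2 * y3)) + (5 * l h / 2) * (x2 * x3 + y2 * y3))
      + (x3 * y1 - y3 * x1) / 2 * (2 + (K h / 4) * (4 - h ^ 2 - (x3 ^ 2 + y3 ^ 2) - (x1 ^ 2 + y1 ^ 2)
          - (x3 * x1 + y3 * y1)) + (5 * l h / 2) * (x3 * x1 + y3 * y1))) ≤ V0 := by
  obtain ⟨P, Q, C, hQ, hQP, hC, hCC, hPQ, hm, hσ⟩ := sigma_bound x1 y1 x2 y2 x3 y3 hS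
  have hK0 := hKL.nonneg h h1
  have hK1 := hKL.le h h1
  have hl0 : 0 ≤ l h := by linarith
  have hh : 0 ≤ h := by linarith
  have hsum : 3 * ((x1 ^ 2 + y1 ^ 2) + (x2 ^ 2 + y2 ^ 2) + (x3 ^ 2 + y3 ^ 2)) =
      9 * (P ^ 2 + Q ^ 2) + 9 * C ^ 2 := by
    rw [hPQ, hCC]
    ring
  have hE' : 3 * h ^ 2 + 6 * ((P + Q) ^ 2 + (P - Q) ^ 2) + 3 * C ^ 2 ≤ 16 := by
    have e : (P + Q) ^ 2 + (P - Q) ^ 2 = 2 * (P ^ 2 + Q ^ 2) := by ring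
    rw [e]
    linarith
  have hmain := hKL.main h h1 (P + Q) (P - Q) C (by linarith) (by linarith) hC hE'
  refine le_trans ?_ hmain
  generalize K h = k at *
  generalize l h = t at *
  set m : ℝ := 3 * √3 / 4 with hmdef
  set S : ℝ := ((x1 * y2 - y1 * x2) + (x2 * y3 - y2 * x3) + (x3 * y1 - y3 * x1)) / 2 with hSdef
  set σ : ℝ := ((x1 * y2 - y1 * x2) * (x1 * x2 + y1 * y2) + (x2 * y3 - y2 * x3) * (x2 * x3 + y2 * y3)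
        + (x3 * y1 - y3 * x1) * (x3 * x1 + y3 * y1)) / 2 with hσdef
  have hid : ((x1 * y2 - y1 * x2) * ((x1 ^ 2 + y1 ^ 2) + (x2 ^ 2 + y2 ^ 2))
      + (x2 * y3 - y2 * x3) * ((x2 ^ 2 + y2 ^ 2) + (x3 ^ 2 + y3 ^ 2))
      + (x3 * y1 - y3 * x1) * ((x3 ^ 2 + y3 ^ 2) + (x1 ^ 2 + y1 ^ 2))) / 2 + σ =
      S * (6 * C ^ 2 + 3 / 2 * (P ^ 2 + Q ^ 2)) := by
    have e : 6 * C ^ 2 + 3 / 2 * (P ^ 2 + Q ^ 2) = 2 / 3 * (9 * C ^ 2) + 1 / 6 * (9 * (P ^ 2 + Q ^ 2)) := by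
      ring
    rw [e, hCC, hPQ, hSdef, hσdef]
    ring
  have hL : h * ((x1 * y2 - y1 * x2) / 2 * (2 + (k / 4) * (4 - h ^ 2 - (x1 ^ 2 + y1 ^ 2) - (x2 ^ 2 + y2 ^ 2)
          - (x1 * x2 + y1 * y2)) + (5 * t / 2) * (x1 * x2 + y1 * y2))
      + (x2 * y3 - y2 * x3) / 2 * (2 + (k / 4) * (4 - h ^ 2 - (x2 ^ 2 + y2 ^ 2) - (x3 ^ 2 + y3 ^ 2)
          - (x2 * x3 + y2 * y3)) + (5 * t / 2) * (x2 * x3 + y2 * y3))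
      + (x3 * y1 - y3 * x1) / 2 * (2 + (k / 4) * (4 - h ^ 2 - (x3 ^ 2 + y3 ^ 2) - (x1 ^ 2 + y1 ^ 2)
          - (x3 * x1 + y3 * y1)) + (5 * t / 2) * (x3 * x1 + y3 * y1))) =
      h * (S * (2 + (k / 4) * (4 - h ^ 2)) - (k / 4) * (((x1 * y2 - y1 * x2) * ((x1 ^ 2 + y1 ^ 2) + (x2 ^ 2 + y2 ^ 2))
      + (x2 * y3 - y2 * x3) * ((x2 ^ 2 + y2 ^ 2) + (x3 ^ 2 + y3 ^ 2))
      + (x3 * y1 - y3 * x1) * ((x3 ^ 2 + y3 ^ 2) + (x1 ^ 2 + y1 ^ 2))) / 2 + σ) + (5 * t / 2) * σ) := by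
    rw [hSdef, hσdef]
    ring
  rw [hL, hid]
  have h2 : (5 * t / 2) * σ ≤ (5 * t / 2) * (m * (P ^ 2 - Q ^ 2) / 2 * (4 * C ^ 2 - (P ^ 2 + Q ^ 2))
          + 2 * m * C * (P * Q) * (P + Q)) := mul_le_mul_of_nonneg_left hσ (by linarith)
  calc h * (S * (2 + (k / 4) * (4 - h ^ 2)) - (k / 4) * (S * (6 * C ^ 2 + 3 / 2 * (P ^ 2 + Q ^ 2)))
        + (5 * t / 2) * σ)
      ≤ h * (S * (2 + (k / 4) * (4 - h ^ 2)) - (k / 4) * (S * (6 * C ^ 2 + 3 / 2 * (P ^ 2 + Q ^ 2)))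
        + (5 * t / 2) * (m * (P ^ 2 - Q ^ 2) / 2 * (4 * C ^ 2 - (P ^ 2 + Q ^ 2))
          + 2 * m * C * (P * Q) * (P + Q))) :=
        mul_le_mul_of_nonneg_left (by linarith) hh
    _ = h * m * (P + Q) * ((P - Q) * (2 + (k / 4) * (4 - h ^ 2) + (5 * t - 3 * k / 2) * C ^ 2
      - ((3 * k + 10 * t) / 16) * ((P + Q) ^ 2 + (P - Q) ^ 2)) + (5 * t / 4) * C * ((P + Q) ^ 2 - (P - Q) ^ 2)) := by
        rw [← hm]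
        ring

end LAY
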