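import Pool.Agent.LAY.H0
import Pool.Agent.LAY.SQa

/-!
# [LAY-SQ] squared distances

`sq_dist`: `dist x y ^ 2 = sq x y` (`BccCov.LP.dist_sq` or `EuclideanSpace.dist_eq`, `Real.sq_sqrt`, `Fin.sum_univ_three`).
`six_le`: with `a = x - o`, ... : `Σ_{i<j} |p_i - p_j|² = 4 Σ |p_i - o|² - |Σ (p_i - o)|² ≤ 16 ρ² ≤ 16` (`0 ≤ ρ` since `ρ = dist x o`), coordinatewise
by `nlinarith`/`ring` (the last term is a sum of three squares).
`cell_types`: the heights. Let `t` have four points in `Z`, heights in the range of `tt` with gaps `≥ H > 1`, inscribed in a sphere of radius `≤ 1`.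
 (a) `|x 2 - y 2| ≤ dist x y ≤ 2` for `x, y ∈ t`. (b) `tt` is strictly monotone and `tt j - tt i ≥ (j - i) H` for `i ≤ j` (induction), so if
 `x 2 = tt i`, `y 2 = tt j`, `i < j`, then `(j-i) H ≤ 2 < 2H`, so `j = i+1`. Let `i` be the smallest index of a vertex (`t` nonempty finite): all
 vertices have height `tt i` or `tt (i+1)`, the difference is `≥ H ≥ 1`. (c) not all four at the same height: `det3 = 0` then (third coordinates
 equal; `det3 ≠ 0` by `BccCov.S.det3_ne_zero` for any labelling `t = {x,y,z,w}` from `Finset.card_eq_...`/`BccO.exists_label`).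
 (d) So (3,1), (2,2) or (1,3); in the cases (3,1) and (1,3) the first alternative holds, in the case (2,2) the second. Label `t = {x,y,z,w}` and split
 into the 16 cases of heights (low/high each); in each case reorder (`Set` equality of `{x,y,z,w}` with a permutation: `by ext; simp; tauto`).
-/

set_option autoImplicit false

open MeasureTheory Real
open scoped InnerProductSpace

namespace LAY

open BccCov BccO TPC

private theorem sq_three {tt : ℤ → ℝ} {H : ℝ} (hH : 1 < H) (hgap : ∀ k : ℤ, tt k + H ≤ tt (k + 1))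
    {a b c : ℝ} (ha : ∃ k, a = tt k) (hb : ∃ k, b = tt k) (hc : ∃ k, c = tt k) (hab : |a - b| ≤ 2)
    (hac : |a - c| ≤ 2) (hbc : |b - c| ≤ 2) : a = b ∨ a = c ∨ b = c := by
  obtain ⟨i, hi⟩ := ha
  obtain ⟨j, hj⟩ := hb
  obtain ⟨k, hk⟩ := hc
  by_contra hcon
  push Not at hcon
  obtain ⟨h1, h2, h3⟩ := hcon
  have hH0 : 0 < H := by linarith
  have g1 : H ≤ |a - b| := by
    rw [hi, hj]
    exact gap_ne hH0 hgap (by rw [← hi, ← hj]; exact h1)
  have g2 : H ≤ |a - c| := by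
    rw [hi, hk]
    exact gap_ne hH0 hgap (by rw [← hi, ← hk]; exact h2)
  have g3 : H ≤ |b - c| := by
    rw [hj, hk]
    exact gap_ne hH0 hgap (by rw [← hj, ← hk]; exact h3)
  rcases abs_cases (a - b) with ⟨e1, _⟩ | ⟨e1, _⟩ <;> rcases abs_cases (a - c) with ⟨e2, _⟩ | ⟨e2, _⟩ <;>
    rcases abs_cases (b - c) with ⟨e3, _⟩ | ⟨e3, _⟩ <;> linarith

theorem cell_types {Z : Set E3} {tt : ℤ → ℝ} {H : ℝ} (hH : 1 < H) (hgap : ∀ k : ℤ, tt k + H ≤ tt (k + 1))
    (hZ : Hts Z tt) {t : Finset E3} (hc : t.card = 4)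
    (hind : AffineIndependent ℝ (Subtype.val : {x // x ∈ t} → E3)) (hv : ∀ x ∈ t, x ∈ Z)
    (hI : Inscribed t 1) :
    (∃ p q s d : E3, (t : Set E3) = {p, q, s, d} ∧ p 2 = q 2 ∧ p 2 = s 2 ∧ 1 ≤ |d 2 - p 2|) ∨
    (∃ p q s d : E3, (t : Set E3) = {p, q, s, d} ∧ p 2 = q 2 ∧ s 2 = d 2 ∧ 1 ≤ |s 2 - p 2|) := by
  obtain ⟨x, hx⟩ : t.Nonempty := by
    rw [← Finset.card_pos, hc]
    norm_num
  obtain ⟨y, z, w, ht⟩ := exists_label hc hx
  have hm : ∀ v, v ∈ t ↔ v = x ∨ v = y ∨ v = z ∨ v = w := by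
    intro v
    rw [← Finset.mem_coe, ht]
    simp
  have hy : y ∈ t := (hm y).2 (Or.inr (Or.inl rfl))
  have hz : z ∈ t := (hm z).2 (Or.inr (Or.inr (Or.inl rfl)))
  have hw : w ∈ t := (hm w).2 (Or.inr (Or.inr (Or.inr rfl)))
  have hdist : ∀ u ∈ t, ∀ v ∈ t, |u 2 - v 2| ≤ 2 := by
    intro u hu v hv'
    obtain ⟨o, ρ, hρ, ho⟩ := hI
    refine (abs_coord_le u v 2).trans ((dist_triangle_right u v o).trans ?_)
    rw [ho u hu, ho v hv']
    linarith
  have hht : ∀ u ∈ t, ∃ k : ℤ, u 2 = tt k := fun u hu => hZ u (hv u hu)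
  have h3 : ∀ u ∈ t, ∀ v ∈ t, ∀ r ∈ t, u 2 = v 2 ∨ u 2 = r 2 ∨ v 2 = r 2 := by
    intro u hu v hv' r hr
    exact sq_three hH hgap (hht u hu) (hht v hv') (hht r hr) (hdist u hu v hv') (hdist u hu r hr)
      (hdist v hv' r hr)
  have h1 : ∀ u ∈ t, ∀ v ∈ t, u 2 ≠ v 2 → 1 ≤ |u 2 - v 2| := by
    intro u hu v hv' hne
    obtain ⟨i, hi⟩ := hht u hu
    obtain ⟨j, hj⟩ := hht v hv'
    rw [hi, hj] at hne ⊢
    exact hH.le.trans (gap_ne (by linarith) hgap hne)
  have hdet := BccCov.S.det3_ne_zero x y z w t hc ht hind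
  have hall : ¬ (x 2 = y 2 ∧ x 2 = z 2 ∧ x 2 = w 2) := by
    rintro ⟨e1, e2, e3⟩
    apply hdet
    unfold det3
    rw [← e1, ← e2, ← e3]
    ring
  by_cases hxy : x 2 = y 2
  · by_cases hxz : x 2 = z 2
    · have hxw : w 2 ≠ x 2 := fun h => hall ⟨hxy, hxz, h.symm⟩
      exact Or.inl ⟨x, y, z, w, ht, hxy, hxz, h1 w hw x hx hxw⟩
    · rcases h3 x hx z hz w hw with h | h | h
      · exact absurd h hxz
      · refine Or.inl ⟨x, y, w, z, ?_, hxy, h, h1 z hz x hx (Ne.symm hxz)⟩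
        rw [ht]
        ext v
        simp only [Set.mem_insert_iff, Set.mem_singleton_iff]
        tauto
      · exact Or.inr ⟨x, y, z, w, ht, hxy, h, h1 z hz x hx (Ne.symm hxz)⟩
  · rcases h3 x hx y hy z hz with h | h | h
    · exact absurd h hxy
    · rcases h3 x hx y hy w hw with h' | h' | h'
      · exact absurd h' hxy
      · refine Or.inl ⟨x, z, w, y, ?_, h, h', h1 y hy x hx (Ne.symm hxy)⟩
        rw [ht]
        ext v
        simp only [Set.mem_insert_iff, Set.mem_singleton_iff]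
        tauto
      · refine Or.inr ⟨x, z, y, w, ?_, h, h', h1 y hy x hx (Ne.symm hxy)⟩
        rw [ht]
        ext v
        simp only [Set.mem_insert_iff, Set.mem_singleton_iff]
        tauto
    · rcases h3 x hx y hy w hw with h' | h' | h'
      · exact absurd h' hxy
      · refine Or.inr ⟨x, w, y, z, ?_, h', h, h1 y hy x hx (Ne.symm hxy)⟩
        rw [ht]
        ext v
        simp only [Set.mem_insert_iff, Set.mem_singleton_iff]
        tauto
      · refine Or.inl ⟨y, z, w, x, ?_, h, h', h1 x hx y hy hxy⟩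
        rw [ht]
        ext v
        simp only [Set.mem_insert_iff, Set.mem_singleton_iff]
        tauto

end LAY
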