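import Pool.Agent.LAY.L31

/-!
# [LAY-T2] the sum of the weights over the four faces of a cell

`face_sum`: for a 4-set `t = {x,y,z,w}` (distinct: `BccCov.S.distinct hc ht`) the 3-subsets are `{x,y,z}`, `{x,y,w}`, `{x,z,w}`, `{y,z,w}`
(`Finset.powersetCard 3`; cf. `BccO.six_sum` in `Pool.Agent.MP_bf7174_co.O.R1` for the 2-subsets: write `t = {x,y,z,w}` as a Finset, then
`Finset.powersetCard` of `insert`s by `Finset.powersetCard_succ_insert`/`decide`-free: or show that both sides are sums over the same finset: the map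
`v ↦ t.erase v` is a bijection from `t` to `t.powersetCard 3` (`Finset.sum_bij'` / `Finset.sum_nbij`), so `∑ f ∈ t.powersetCard 3, g f = ∑ v ∈ t, g (t.erase v)`).
`sum31`, `sum22`: in `wf K l t (t.erase v)` one has `t \ (t.erase v) = {v}`, and the triple sum over the face runs over 27 ordered triples;
`wo K l a b c v = 0` unless `a 2 = b 2` and `c 2 ≠ a 2` (`if_neg`), and `wo K l a a c v = 0` (`cr a a c = 0`). What remains:
 case (3,1) (`p,q,s` of one height, `d` of another): the face `{p,q,s}` (v = d) contributes `0`; the face `{p,q,d}` (v = s) contributes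
 `(wo p q d s + wo q p d s)/2 = wo p q d s` (`wo_swap`), etc.;
 case (2,2) (`p 2 = q 2`, `s 2 = d 2`, `s 2 ≠ p 2`): the face `{p,q,s}` (v = d) contributes `(wo p q s d + wo q p s d)/2 = wo p q s d`, the face
 `{p,q,d}` contributes `wo p q d s`, the face `{p,s,d}` (v = q) contributes `wo s d p q`, the face `{q,s,d}` (v = p) contributes `wo s d q p`.
-/

set_option autoImplicit false

open MeasureTheory Real
open scoped InnerProductSpace

namespace LAY

open BccCov BccO TPC

private theorem t2_mem {x y z w : E3} {t : Finset E3} (ht : (t : Set E3) = {x, y, z, w}) (v : E3) :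
    v ∈ t ↔ v = x ∨ v = y ∨ v = z ∨ v = w := by
  rw [← Finset.mem_coe, ht]
  simp

theorem face_sum {x y z w : E3} {t : Finset E3} (hc : t.card = 4) (ht : (t : Set E3) = {x, y, z, w})
    (g : Finset E3 → ℝ) : ∑ f ∈ t.powersetCard 3, g f =
      g (t.erase w) + g (t.erase z) + g (t.erase y) + g (t.erase x) := by
  classical
  obtain ⟨hxy, hxz, hxw, hyz, hyw, hzw⟩ := BccCov.S.distinct hc ht
  have h1 : ∑ v ∈ t, g (t.erase v) = ∑ f ∈ t.powersetCard 3, g f := by
    refine Finset.sum_nbij (fun v => t.erase v) ?_ ?_ ?_ fun _ _ => rfl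
    · intro v hv
      rw [Finset.mem_powersetCard]
      refine ⟨Finset.erase_subset _ _, ?_⟩
      rw [Finset.card_erase_of_mem hv, hc]
    · intro v hv u hu huv
      have huv' : t.erase v = t.erase u := huv
      by_contra hne
      have h2 : v ∈ t.erase u := Finset.mem_erase.2 ⟨hne, Finset.mem_coe.1 hv⟩
      rw [← huv'] at h2
      exact (Finset.mem_erase.1 h2).1 rfl
    · intro f hf
      obtain ⟨hft, hf3⟩ := Finset.mem_powersetCard.1 (Finset.mem_coe.1 hf)
      obtain ⟨v, hv⟩ : ∃ v, t \ f = {v} := by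
        rw [← Finset.card_eq_one, Finset.card_sdiff_of_subset hft, hc, hf3]
      have hv1 : v ∈ t \ f := by
        rw [hv]
        exact Finset.mem_singleton_self v
      rw [Finset.mem_sdiff] at hv1
      refine ⟨v, Finset.mem_coe.2 hv1.1, ?_⟩
      show t.erase v = f
      refine (Finset.eq_of_subset_of_card_le (fun u hu => ?_) ?_).symm
      · exact Finset.mem_erase.2 ⟨fun h => hv1.2 (h ▸ hu), hft hu⟩
      · rw [Finset.card_erase_of_mem hv1.1, hc, hf3]
  have h2 : t = {x, y, z, w} := by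
    ext v
    rw [t2_mem ht]
    simp only [Finset.mem_insert, Finset.mem_singleton]
  have h3 : ∀ G : E3 → ℝ, ∑ v ∈ t, G v = G w + G z + G y + G x := by
    intro G
    rw [h2, Finset.sum_insert (by simp [hxy, hxz, hxw]), Finset.sum_insert (by simp [hyz, hyw]),
      Finset.sum_insert (by simp [hzw]), Finset.sum_singleton]
    ring
  rw [← h1, h3]

private theorem t2_zero (K l : ℝ → ℝ) {p q s d : E3} (h : p 2 ≠ q 2) : wo K l p q s d = 0 := by
  unfold wo
  exact if_neg fun h1 => h h1.1

private theorem t2_zero' (K l : ℝ → ℝ) {p q s d : E3} (h : s 2 = p 2) : wo K l p q s d = 0 := by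
  unfold wo
  exact if_neg fun h1 => h1.2 h

private theorem t2_same (K l : ℝ → ℝ) (p s d : E3) : wo K l p p s d = 0 := by
  unfold wo
  have h1 : cr p p s = 0 := by
    unfold cr
    ring
  rw [h1]
  simp

private theorem t2_last (K l : ℝ → ℝ) (p q d : E3) : wo K l p q q d = 0 := by
  by_cases h : p 2 = q 2
  · exact t2_zero' K l h.symm
  · exact t2_zero K l h

private theorem t2_wf (K l : ℝ → ℝ) {a b c d : E3} {t f : Finset E3} (hab : a ≠ b) (hac : a ≠ c)
    (hbc : b ≠ c) (hf : ∀ v, v ∈ f ↔ v = a ∨ v = b ∨ v = c) (hd : ∀ v, v ∈ t \ f ↔ v = d) :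
    wf K l t f = wo K l a b c d + wo K l a c b d + wo K l b c a d := by
  classical
  have h1 : t \ f = {d} := by
    ext v
    rw [hd, Finset.mem_singleton]
  have h2 : f = {a, b, c} := by
    ext v
    rw [hf]
    simp only [Finset.mem_insert, Finset.mem_singleton]
  have h3 : ∀ G : E3 → ℝ, ∑ v ∈ f, G v = G a + (G b + G c) := by
    intro G
    rw [h2, Finset.sum_insert (by simp [hab, hac]), Finset.sum_insert (by simp [hbc]),
      Finset.sum_singleton]
  unfold wf
  rw [h1, Finset.sum_singleton]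
  simp only [h3]
  rw [t2_same K l a, t2_same K l a, t2_same K l a, t2_same K l b, t2_same K l b, t2_same K l b,
    t2_same K l c, t2_same K l c, t2_same K l c, t2_last K l a b, t2_last K l a c,
    t2_last K l b a, t2_last K l b c, t2_last K l c a, t2_last K l c b,
    t2_zero' K l (p := a) (q := b) (s := a) rfl, t2_zero' K l (p := a) (q := c) (s := a) rfl,
    t2_zero' K l (p := b) (q := a) (s := b) rfl, t2_zero' K l (p := b) (q := c) (s := b) rfl,
    t2_zero' K l (p := c) (q := a) (s := c) rfl, t2_zero' K l (p := c) (q := b) (s := c) rfl,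
    wo_swap K l a b c, wo_swap K l a c b, wo_swap K l b c a]
  ring

private theorem t2_face (K l : ℝ → ℝ) {a b c d : E3} {t : Finset E3} (hab : a ≠ b) (hac : a ≠ c)
    (hbc : b ≠ c) (had : a ≠ d) (hbd : b ≠ d) (hcd : c ≠ d)
    (ht : ∀ v, v ∈ t ↔ v = a ∨ v = b ∨ v = c ∨ v = d) :
    wf K l t (t.erase d) = wo K l a b c d + wo K l a c b d + wo K l b c a d := by
  refine t2_wf K l hab hac hbc ?_ ?_
  · intro v
    rw [Finset.mem_erase, ht]
    constructor
    · rintro ⟨h1, h2 | h2 | h2 | h2⟩
      · exact Or.inl h2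
      · exact Or.inr (Or.inl h2)
      · exact Or.inr (Or.inr h2)
      · exact absurd h2 h1
    · rintro (h | h | h)
      · exact ⟨h ▸ had, Or.inl h⟩
      · exact ⟨h ▸ hbd, Or.inr (Or.inl h)⟩
      · exact ⟨h ▸ hcd, Or.inr (Or.inr (Or.inl h))⟩
  · intro v
    rw [Finset.mem_sdiff, Finset.mem_erase]
    constructor
    · rintro ⟨h1, h2⟩
      by_contra h3
      exact h2 ⟨h3, h1⟩
    · intro h
      exact ⟨(ht v).2 (Or.inr (Or.inr (Or.inr h))), fun h1 => h1.1 h⟩

theorem sum31 (K l : ℝ → ℝ) {p q s d : E3} {t : Finset E3} (hc : t.card = 4)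
    (ht : (t : Set E3) = {p, q, s, d}) (hq : p 2 = q 2) (hs : p 2 = s 2) (hd : d 2 ≠ p 2) :
    ∑ f ∈ t.powersetCard 3, wf K l t f = wo K l p q d s + wo K l q s d p + wo K l s p d q := by
  obtain ⟨hpq, hps, hpd, hqs, hqd, hsd⟩ := BccCov.S.distinct hc ht
  have hm := t2_mem ht
  rw [face_sum hc ht,
    t2_face K l hpq hps hqs hpd hqd hsd hm,
    t2_face K l hpq hpd hqd hps hqs hsd.symm (fun v => by rw [hm]; tauto),
    t2_face K l hps hpd hsd hpq hqs.symm hqd.symm (fun v => by rw [hm]; tauto),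
    t2_face K l hqs hqd hsd hpq.symm hps.symm hpd.symm (fun v => by rw [hm]; tauto),
    t2_zero' K l (p := p) (q := q) (s := s) hs.symm,
    t2_zero' K l (p := p) (q := s) (s := q) hq.symm,
    t2_zero' K l (p := q) (q := s) (s := p) hq,
    t2_zero K l (p := p) (q := d) hd.symm,
    t2_zero K l (p := q) (q := d) (fun h => hd (hq.trans h).symm),
    t2_zero K l (p := p) (q := d) hd.symm,
    t2_zero K l (p := s) (q := d) (fun h => hd (hs.trans h).symm),
    t2_zero K l (p := q) (q := d) (fun h => hd (hq.trans h).symm),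
    t2_zero K l (p := s) (q := d) (fun h => hd (hs.trans h).symm),
    wo_swap K l p s d]
  ring

theorem sum22 (K l : ℝ → ℝ) {p q s d : E3} {t : Finset E3} (hc : t.card = 4)
    (ht : (t : Set E3) = {p, q, s, d}) (hq : p 2 = q 2) (hs : s 2 = d 2) (hd : s 2 ≠ p 2) :
    ∑ f ∈ t.powersetCard 3, wf K l t f =
      wo K l p q s d + wo K l p q d s + wo K l s d p q + wo K l s d q p := by
  obtain ⟨hpq, hps, hpd, hqs, hqd, hsd⟩ := BccCov.S.distinct hc ht
  have hm := t2_mem ht
  have e1 : p 2 ≠ s 2 := hd.symm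
  have e2 : p 2 ≠ d 2 := fun h => hd (hs.trans h.symm)
  have e3 : q 2 ≠ s 2 := fun h => hd (hq.trans h).symm
  have e4 : q 2 ≠ d 2 := fun h => e2 (hq.trans h)
  rw [face_sum hc ht,
    t2_face K l hpq hps hqs hpd hqd hsd hm,
    t2_face K l hpq hpd hqd hps hqs hsd.symm (fun v => by rw [hm]; tauto),
    t2_face K l hps hpd hsd hpq hqs.symm hqd.symm (fun v => by rw [hm]; tauto),
    t2_face K l hqs hqd hsd hpq.symm hps.symm hpd.symm (fun v => by rw [hm]; tauto),
    t2_zero K l (p := p) (q := s) (s := q) e1,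
    t2_zero K l (p := q) (q := s) (s := p) e3,
    t2_zero K l (p := p) (q := d) (s := q) e2,
    t2_zero K l (p := q) (q := d) (s := p) e4,
    t2_zero K l (p := p) (q := s) (s := d) e1,
    t2_zero K l (p := p) (q := d) (s := s) e2,
    t2_zero K l (p := q) (q := s) (s := d) e3,
    t2_zero K l (p := q) (q := d) (s := s) e4]
  ring

end LAY
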