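import Pool.Agent.LAY.SQ
import Pool.Agent.LAY.T2
import Pool.Agent.LAY.L22

/-!
# [LAY-T3] the local inequality (L) for a cell

PROOF. `cell_types`. First case: `vol t = |det3 p q s d|/6` (`BccO.vol_eq`), `det3 ≠ 0` (`BccCov.S.det3_ne_zero`), the sum of the six squared edges is
`≤ 16` (`six_le` with the centre and radius of `hI`; `ρ ≤ 1`), `chi t = 1` (`Is31 t` with the same labels, `d 2 ≠ p 2` from `1 ≤ |d 2 - p 2|`), then
`L31` and `sum31`. Second case: `0 ≤ chi t` and `L22`, `sum22`.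
-/

set_option autoImplicit false

open MeasureTheory Real
open scoped InnerProductSpace

namespace LAY

open BccCov BccO TPC

theorem L_ineq {K l : ℝ → ℝ} (hKL : KL K l) {Z : Set E3} {tt : ℤ → ℝ} {H : ℝ} (hH : 1 < H)
    (hgap : ∀ k : ℤ, tt k + H ≤ tt (k + 1)) (hZ : Hts Z tt) {t : Finset E3} (hc : t.card = 4)
    (hind : AffineIndependent ℝ (Subtype.val : {x // x ∈ t} → E3)) (hv : ∀ x ∈ t, x ∈ Z)
    (hI : Inscribed t 1) :
    4 / V0 * vol t ≤ chi t + ∑ f ∈ t.powersetCard 3, wf K l t f := by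
  have hIt : ∀ p q s d : E3, (t : Set E3) = {p, q, s, d} →
      sq p q + sq p s + sq p d + sq q s + sq q d + sq s d ≤ 16 := by
    intro p q s d ht
    obtain ⟨o, ρ, hρ, ho⟩ := hI
    have hm : ∀ v, v = p ∨ v = q ∨ v = s ∨ v = d → v ∈ t := by
      intro v hv
      rw [← Finset.mem_coe, ht]
      simpa using hv
    exact six_le hρ (ho p (hm p (Or.inl rfl))) (ho q (hm q (Or.inr (Or.inl rfl))))
      (ho s (hm s (Or.inr (Or.inr (Or.inl rfl))))) (ho d (hm d (Or.inr (Or.inr (Or.inr rfl)))))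
  rcases cell_types hH hgap hZ hc hind hv hI with ⟨p, q, s, d, ht, hq, hs, hd⟩ |
    ⟨p, q, s, d, ht, hq, hd, hs⟩
  · have hdet := BccCov.S.det3_ne_zero p q s d t hc ht hind
    have hd' : d 2 ≠ p 2 := by
      intro h
      rw [h, sub_self, abs_zero] at hd
      norm_num at hd
    have hchi : chi t = 1 := by
      unfold chi
      exact if_pos ⟨p, q, s, d, ht, hq, hs, hd'⟩
    rw [vol_eq ht, hchi, sum31 K l hc ht hq hs hd']
    exact L31 hKL hq.symm hs.symm hd hdet (hIt p q s d ht)
  · have hdet := BccCov.S.det3_ne_zero p q s d t hc ht hind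
    have hs' : s 2 ≠ p 2 := by
      intro h
      rw [h, sub_self, abs_zero] at hs
      norm_num at hs
    have hchi : 0 ≤ chi t := by
      unfold chi
      split_ifs
      · exact zero_le_one
      · exact le_rfl
    rw [vol_eq ht, sum22 K l hc ht hq hd hs']
    have h1 := L22 hKL hq hd hs hdet (hIt p q s d ht)
    linarith

end LAY
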